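import Pool.Agent.H8.JD.Crit

set_option autoImplicit false

/-!
# JD: S-systems (interface)

An S-system for letters `x : ι → J` is a map `S` from words to `J` behaving like
`w ↦ (w + w*)/2` in the symmetric elements of the free associative algebra, i.e. a Jordan
homomorphism from the reversal-symmetric elements of the free algebra to `J`.

`word X w` is the product of the letters of `w` in an associative algebra.
`det3 w` is the sign of the permutation `w` of `0,1,2` (and `0` for all other words).
-/

namespace JD

universe u v w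

/-- S-systems. -/
structure SSys (F : Type u) [Field F] {J : Type v} [NonUnitalNonAssocCommRing J] [Module F J]
    {ι : Type w} (x : ι → J) (S : List ι → J) : Prop where
  nil : S [] = 0
  single : ∀ i, S [i] = x i
  rev : ∀ w, S w.reverse = S w
  mul : ∀ v w : List ι, v ≠ [] → w ≠ [] →
    (4 : F) • (S v * S w) =
      S (v ++ w) + S (v ++ w.reverse) + S (v.reverse ++ w) + S (w ++ v)
  bdd : ∃ N : ℕ, ∀ w : List ι, N ≤ w.length → S w = 0

/-- The product of the letters. -/
def word {E : Type*} [Monoid E] {ι : Type*} (X : ι → E) (w : List ι) : E := (w.map X).prod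

/-- The determinant functional on words in three letters. -/
def det3 (F : Type u) [Field F] (w : List (Fin 3)) : F :=
  if w = [0, 1, 2] ∨ w = [1, 2, 0] ∨ w = [2, 0, 1] then 1
  else if w = [0, 2, 1] ∨ w = [2, 1, 0] ∨ w = [1, 0, 2] then -1 else 0

/-- The associative picture of a cocyclic exceptional Jordan algebra with three generators. -/
structure EPic (F : Type u) [Field F] (J : Type v) [NonUnitalNonAssocCommRing J] [Module F J]
    (x : Fin 3 → J) (S : List (Fin 3) → J) (u : J)
    (E : Type w) [Ring E] [Algebra F E] where
  /-- the generators -/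
  X : Fin 3 → E
  /-- the involution -/
  star : E →ₗ[F] E
  /-- the projection to `J` -/
  ρ : E →ₗ[F] J
  /-- the extra relation -/
  r : E
  star_mul : ∀ a b, star (a * b) = star b * star a
  star_star : ∀ a, star (star a) = a
  star_X : ∀ i, star (X i) = X i
  span : Submodule.span F (Set.range (word X)) = ⊤
  ρ_word : ∀ w, ρ (word X w) = S w
  nondeg : ∀ a : E, (∀ p q, ρ (word X p * a * word X q) = 0) → a = 0
  star_r : star r = r
  ρ_r : ∀ p q, ρ (word X p * r * word X q) = ((-1) ^ p.length * det3 F (p ++ q)) • u
  ker : ∀ a : E, star a = a → a ∈ Submodule.span F (word X '' {w | w ≠ []}) → ρ a = 0 →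
    ∃ c : F, a = c • r

/-- Filtrations of `J` compatible with weights of the letters. -/
structure Filt (F : Type u) [Field F] {J : Type v} [NonUnitalNonAssocCommRing J] [Module F J]
    {ι : Type w} (x : ι → J) (a : ι → ℕ) (Φ : ℕ → Submodule F J) : Prop where
  anti : ∀ m n, m ≤ n → Φ n ≤ Φ m
  mul_mem : ∀ m n, ∀ p ∈ Φ m, ∀ q ∈ Φ n, p * q ∈ Φ (m + n)
  mem : ∀ i, x i ∈ Φ (a i)

/-- The weight of a word. -/
def wt {ι : Type w} (a : ι → ℕ) (v : List ι) : ℕ := (v.map a).sum

end JD
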