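import Pool.Agent.H8.JD.SSysDef

set_option autoImplicit false

/-!
# JD Pow: basic facts on the powers `J^n`

All proofs are short (strong induction on `n` with `jpow.eq_def`/`jpow` unfolding lemmas; the
defining equation is `jpow (n+2) = ⨆ i : Fin (n+1), map₂ (mul) (jpow (i+1)) (jpow (n+1-i))`).

* `jpow_succ_le`: strong induction: `a * b` with `a ∈ J^(i+1)`, `b ∈ J^(n+1-i)`, `(i+1) + (n+1-i) = n+2`;
  in `J^(n+3) ≤ J^(n+2)`: one of the two factors has exponent `≥ 2`, replace it by its predecessor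
  (`J^1 * J^1 = J^2 ≤ ⊤`).
* `mul_mem_jpow`: for `i, j ≥ 1` from the definition, for `i = 0` use `J^(1+j) ≤ J^j`.
* `jpow_le_of_filt`: `J^n ≤ Φ n`-type statement: any `Φ` with `Φ 1 = ⊤`.. see below.
* `exists_gens`: choose `x i ∈ J` lifting a basis of `J ⧸ J^2`; if `T` is a subspace closed under
  multiplication containing the `x i` then `T ⊔ J^2 = ⊤`, and by induction `T ⊔ J^n = ⊤` for all `n ≥ 1`
  (`J^n ≤ T ⊔ J^(n+1)`: a product `a * b`, `a ∈ J^i`, `b ∈ J^j`, `i + j = n`; write `a = t + a'`,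
  `t ∈ T ⊓ J^i`?  Easier: show by strong induction that `J^n ≤ (T ⊓ J^n) ⊔ J^(n+1)`:
  for `n = 1` clear (`T ⊔ J^2 = ⊤`); for `n ≥ 2`: `a = t + a'`, `b = s + b'` with `t ∈ T ⊓ J^i`,
  `a' ∈ J^(i+1)`, `s ∈ T ⊓ J^j`, `b' ∈ J^(j+1)`, and `a b = t s + t b' + a' b`.)
  Hence `T = ⊤` as `J` is nilpotent.
-/

namespace JD

universe u v w

variable {F : Type u} [Field F] {J : Type v} [NonUnitalNonAssocCommRing J] [Module F J]
  [IsScalarTower F J J] [SMulCommClass F J J]

theorem jpow_zero : jpow F J 0 = ⊤ := by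
  rw [jpow]

theorem jpow_one : jpow F J 1 = ⊤ := by
  rw [jpow]

private theorem Pow_mul_mem_pos {i j : ℕ} (hi : 1 ≤ i) (hj : 1 ≤ j) {a b : J}
    (ha : a ∈ jpow F J i) (hb : b ∈ jpow F J j) : a * b ∈ jpow F J (i + j) := by
  obtain ⟨n, hn⟩ : ∃ n, i + j = n + 2 := ⟨i + j - 2, by omega⟩
  rw [hn, jpow]
  have hlt : i - 1 < n + 1 := by omega
  refine Submodule.mem_iSup_of_mem (⟨i - 1, hlt⟩ : Fin (n + 1)) ?_
  have e1 : ((⟨i - 1, hlt⟩ : Fin (n + 1)) : ℕ) + 1 = i := by
    show i - 1 + 1 = i
    omega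
  have e2 : n + 1 - ((⟨i - 1, hlt⟩ : Fin (n + 1)) : ℕ) = j := by
    show n + 1 - (i - 1) = j
    omega
  rw [e1, e2]
  exact Submodule.apply_mem_map₂ (LinearMap.mul F J) ha hb

/-- elimination principle -/
theorem jpow_le_of {n : ℕ} (hn : 2 ≤ n) (T : Submodule F J)
    (h : ∀ i j, 1 ≤ i → 1 ≤ j → i + j = n → ∀ a ∈ jpow F J i, ∀ b ∈ jpow F J j, a * b ∈ T) :
    jpow F J n ≤ T := by
  obtain ⟨m, rfl⟩ : ∃ m, n = m + 2 := ⟨n - 2, by omega⟩
  rw [jpow]
  refine iSup_le fun i => ?_
  refine Submodule.map₂_le.mpr fun a ha b hb => ?_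
  have hi := i.2
  exact h (i + 1) (m + 1 - i) (by omega) (by omega) (by omega) a ha b hb

theorem jpow_succ_le (n : ℕ) : jpow F J (n + 1) ≤ jpow F J n := by
  induction n using Nat.strong_induction_on with
  | _ n ih =>
    rcases Nat.lt_or_ge n 2 with hn | hn
    · have : n = 0 ∨ n = 1 := by omega
      rcases this with rfl | rfl
      · rw [jpow_zero]; exact le_top
      · rw [jpow_one]; exact le_top
    · refine jpow_le_of (by omega) _ fun i j hi hj hij a ha b hb => ?_
      rcases Nat.lt_or_ge i 2 with h2 | h2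
      · -- j ≥ 2
        obtain ⟨k, rfl⟩ : ∃ k, j = k + 1 := ⟨j - 1, by omega⟩
        have hb' := ih k (by omega) hb
        have := Pow_mul_mem_pos hi (by omega : 1 ≤ k) ha hb'
        rwa [show i + k = n by omega] at this
      · obtain ⟨k, rfl⟩ : ∃ k, i = k + 1 := ⟨i - 1, by omega⟩
        have ha' := ih k (by omega) ha
        have := Pow_mul_mem_pos (by omega : 1 ≤ k) hj ha' hb
        rwa [show k + j = n by omega] at this

theorem jpow_anti {m n : ℕ} (h : m ≤ n) : jpow F J n ≤ jpow F J m := by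
  induction h with
  | refl => exact le_rfl
  | step _ ih => exact (jpow_succ_le _).trans ih

theorem mul_mem_jpow {i j : ℕ} {a b : J} (ha : a ∈ jpow F J i) (hb : b ∈ jpow F J j) :
    a * b ∈ jpow F J (i + j) := by
  rcases Nat.eq_zero_or_pos i with rfl | hi
  · rcases Nat.eq_zero_or_pos j with rfl | hj
    · rw [show 0 + 0 = 0 from rfl, jpow_zero]; exact Submodule.mem_top
    · have ha' : a ∈ jpow F J 1 := by rw [jpow_one]; exact Submodule.mem_top
      exact jpow_anti (by omega) (Pow_mul_mem_pos le_rfl hj ha' hb)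
  · rcases Nat.eq_zero_or_pos j with rfl | hj
    · have hb' : b ∈ jpow F J 1 := by rw [jpow_one]; exact Submodule.mem_top
      exact jpow_anti (by omega) (Pow_mul_mem_pos hi le_rfl ha hb')
    · exact Pow_mul_mem_pos hi hj ha hb

theorem jpow_isIdeal (n : ℕ) : IsIdeal F J (jpow F J n) := by
  intro a b hb
  have ha : a ∈ jpow F J 0 := by rw [jpow_zero]; exact Submodule.mem_top
  have := mul_mem_jpow ha hb
  rwa [Nat.zero_add] at this

theorem filt_jpow {ι : Type w} (x : ι → J) : Filt F x (fun _ => 1) (jpow F J) where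
  anti := fun _ _ h => jpow_anti h
  mul_mem := fun _ _ _ hp _ hq => mul_mem_jpow hp hq
  mem := fun _ => by rw [jpow_one]; exact Submodule.mem_top

theorem jpow_map {J' : Type v} [NonUnitalNonAssocCommRing J'] [Module F J']
    [IsScalarTower F J' J'] [SMulCommClass F J' J'] (f : J →ₗ[F] J')
    (hf : ∀ a b, f (a * b) = f a * f b) (hs : Function.Surjective f) (n : ℕ) :
    (jpow F J n).map f = jpow F J' n := by
  induction n using Nat.strong_induction_on with
  | _ n ih =>
    rcases Nat.lt_or_ge n 2 with hn | hn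
    · have : n = 0 ∨ n = 1 := by omega
      rcases this with rfl | rfl
      · rw [jpow_zero, jpow_zero, Submodule.map_top]; exact LinearMap.range_eq_top.mpr hs
      · rw [jpow_one, jpow_one, Submodule.map_top]; exact LinearMap.range_eq_top.mpr hs
    · apply le_antisymm
      · rw [Submodule.map_le_iff_le_comap]
        refine jpow_le_of hn _ fun i j hi hj hij a ha b hb => ?_
        rw [Submodule.mem_comap, hf]
        have h1 : f a ∈ jpow F J' i := by
          rw [← ih i (by omega)]; exact Submodule.mem_map_of_mem ha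
        have h2 : f b ∈ jpow F J' j := by
          rw [← ih j (by omega)]; exact Submodule.mem_map_of_mem hb
        have := mul_mem_jpow h1 h2
        rwa [hij] at this
      · refine jpow_le_of hn _ fun i j hi hj hij a ha b hb => ?_
        rw [← ih i (by omega)] at ha
        rw [← ih j (by omega)] at hb
        obtain ⟨a', ha', rfl⟩ := Submodule.mem_map.mp ha
        obtain ⟨b', hb', rfl⟩ := Submodule.mem_map.mp hb
        rw [← hf]
        apply Submodule.mem_map_of_mem
        have := mul_mem_jpow ha' hb'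
        rwa [hij] at this

/-- the powers are not constant from `J^n` on unless they are zero (the one-step version
`J^n = J^(n+1) → J^n = 0` is FALSE even for nilpotent Jordan algebras: `J = <x,y,xx,xy,yy,z>`,
`x(xx) = z`, `(xx)(yy) = z`, `(xy)(xy) = -z/2`, has `J^3 = J^4 = F z`, `J^5 = 0`) -/
theorem jpow_eq_bot_of_stable (hn : IsNilpotentAlg F J) {n : ℕ}
    (h : ∀ m, n ≤ m → jpow F J m = jpow F J (m + 1)) : jpow F J n = ⊥ := by
  obtain ⟨N, _, hN⟩ := hn
  have key : ∀ m, n ≤ m → jpow F J n = jpow F J m := by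
    intro m hm
    induction m, hm using Nat.le_induction with
    | base => rfl
    | succ m hm ih => rw [ih, h m hm]
  rcases le_total n N with hc | hc
  · rw [key N hc, hN]
  · exact le_bot_iff.mp (hN ▸ jpow_anti hc)

private theorem Pow_layer {T : Submodule F J} (hT2 : T ⊔ jpow F J 2 = ⊤)
    (hmul : ∀ a ∈ T, ∀ b ∈ T, a * b ∈ T) (n : ℕ) (hn : 1 ≤ n) :
    jpow F J n ≤ (T ⊓ jpow F J n) ⊔ jpow F J (n + 1) := by
  induction n using Nat.strong_induction_on with
  | _ n ih =>
    rcases Nat.lt_or_ge n 2 with h2 | h2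
    · obtain rfl : n = 1 := by omega
      rw [jpow_one, inf_top_eq, show 1 + 1 = 2 from rfl, hT2]
    · refine jpow_le_of h2 _ fun i j hi hj hij a ha b hb => ?_
      obtain ⟨t, ht, a', ha', rfl⟩ := Submodule.mem_sup.mp (ih i (by omega) hi ha)
      obtain ⟨r, hr, b', hb', rfl⟩ := Submodule.mem_sup.mp (ih j (by omega) hj hb)
      have e : (t + a') * (r + b') = t * r + (t * b' + a' * (r + b')) := by
        rw [add_mul, mul_add]; abel
      rw [e]
      refine Submodule.add_mem_sup ⟨hmul t ht.1 r hr.1, ?_⟩ (Submodule.add_mem _ ?_ ?_)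
      · have := mul_mem_jpow ht.2 hr.2
        rwa [hij] at this
      · have := mul_mem_jpow ht.2 hb'
        rwa [show i + (j + 1) = n + 1 by omega] at this
      · have := mul_mem_jpow ha' hb
        rwa [show i + 1 + j = n + 1 by omega] at this

theorem gen_of_span (hn : IsNilpotentAlg F J) {ι : Type w} (x : ι → J)
    (hx : Submodule.span F (Set.range x) ⊔ jpow F J 2 = ⊤) (T : Submodule F J)
    (hT : ∀ i, x i ∈ T) (hmul : ∀ a ∈ T, ∀ b ∈ T, a * b ∈ T) : T = ⊤ := by
  have hT2 : T ⊔ jpow F J 2 = ⊤ := by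
    rw [eq_top_iff, ← hx]
    refine sup_le_sup_right ?_ _
    rw [Submodule.span_le]
    rintro _ ⟨i, rfl⟩
    exact hT i
  obtain ⟨N, hN1, hN⟩ := hn
  have key : ∀ n, 1 ≤ n → T ⊔ jpow F J n = ⊤ := by
    intro n hn1
    induction n, hn1 using Nat.le_induction with
    | base => rw [jpow_one, sup_top_eq]
    | succ n hn1 ih =>
      rw [eq_top_iff, ← ih]
      refine sup_le le_sup_left ?_
      refine (Pow_layer hT2 hmul n hn1).trans ?_
      exact sup_le_sup_right inf_le_left _
  have := key N hN1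
  rwa [hN, sup_bot_eq] at this

end JD

namespace JD

universe u

variable {F : Type u} [Field F] {J : Type u} [NonUnitalNonAssocCommRing J] [Module F J]
  [IsScalarTower F J J] [SMulCommClass F J J]

private theorem Pow_ext {V : Type u} [AddCommGroup V] [Module F V] [Module.Finite F V] {k : ℕ}
    (v : Fin k → V) (hv : LinearIndependent F v) (m : ℕ) (hkm : k ≤ m)
    (hm : m ≤ Module.finrank F V) :
    ∃ w : Fin m → V, LinearIndependent F w ∧ ∀ i : Fin k, w (Fin.castLE hkm i) = v i := by
  induction m, hkm using Nat.le_induction with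
  | base => exact ⟨v, hv, fun i => rfl⟩
  | succ m hkm ih =>
    obtain ⟨w, hw, hwv⟩ := ih (by omega)
    obtain ⟨z, hz⟩ := exists_linearIndependent_snoc_of_lt_finrank (v := w) hw (by omega)
    refine ⟨_, hz, fun i => ?_⟩
    rw [← hwv i]
    have : Fin.castLE (hkm.trans (Nat.le_succ m)) i = Fin.castSucc (Fin.castLE hkm i) := rfl
    rw [this, Fin.snoc_castSucc]

private theorem Pow_gens (hn : IsNilpotentAlg F J) [Module.Finite F J]
    (w : Fin (ngen F J) → J ⧸ jpow F J 2) (hw : LinearIndependent F w)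
    (x : Fin (ngen F J) → J) (hx : ∀ i, (jpow F J 2).mkQ (x i) = w i) : Gens F J x := by
  have hfun : (fun i => (jpow F J 2).mkQ (x i)) = w := funext hx
  refine ⟨fun T hT hmul => gen_of_span hn x ?_ T hT hmul, by rw [hfun]; exact hw⟩
  have hspan : Submodule.span F (Set.range w) = ⊤ := by
    apply hw.span_eq_top_of_card_eq_finrank'
    exact Fintype.card_fin _
  have hmap : (Submodule.span F (Set.range x)).map (jpow F J 2).mkQ = ⊤ := by
    rw [Submodule.map_span, ← Set.range_comp, ← hspan]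
    congr 1
    congr 1
  rw [eq_top_iff]
  intro a _
  have ha : (jpow F J 2).mkQ a ∈ (Submodule.span F (Set.range x)).map (jpow F J 2).mkQ := by
    rw [hmap]; exact Submodule.mem_top
  obtain ⟨b, hb, hab⟩ := Submodule.mem_map.mp ha
  have hd : a - b ∈ jpow F J 2 := by
    rw [← Submodule.Quotient.mk_eq_zero, Submodule.Quotient.mk_sub]
    have : Submodule.Quotient.mk b = (Submodule.Quotient.mk a : J ⧸ jpow F J 2) := hab
    rw [this, sub_self]
  have : a = b + (a - b) := by abel
  rw [this]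
  exact Submodule.add_mem_sup hb hd

theorem exists_gens_ext (hn : IsNilpotentAlg F J) [Module.Finite F J] {k : ℕ} (y : Fin k → J)
    (hy : LinearIndependent F (fun i => (jpow F J 2).mkQ (y i))) (hk : k ≤ ngen F J) :
    ∃ x : Fin (ngen F J) → J, Gens F J x ∧ ∀ i : Fin k, x (Fin.castLE hk i) = y i := by
  classical
  obtain ⟨w, hw, hwy⟩ := Pow_ext _ hy (ngen F J) hk le_rfl
  have hsurj := (jpow F J 2).mkQ_surjective
  let x : Fin (ngen F J) → J := fun i =>
    if h : (i : ℕ) < k then y ⟨i, h⟩ else (hsurj (w i)).choose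
  have hx : ∀ i, (jpow F J 2).mkQ (x i) = w i := by
    intro i
    by_cases h : (i : ℕ) < k
    · have e : x i = y ⟨i, h⟩ := by simp only [x, dif_pos h]
      rw [e]
      exact (hwy ⟨i, h⟩).symm
    · have e : x i = (hsurj (w i)).choose := by simp only [x, dif_neg h]
      rw [e]
      exact (hsurj (w i)).choose_spec
  refine ⟨x, Pow_gens hn w hw x hx, fun i => ?_⟩
  have h : ((Fin.castLE hk i : Fin (ngen F J)) : ℕ) < k := i.2
  simp only [x, dif_pos h]
  rfl

theorem exists_gens (hn : IsNilpotentAlg F J) [Module.Finite F J] :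
    ∃ x : Fin (ngen F J) → J, Gens F J x := by
  obtain ⟨x, hx, _⟩ := exists_gens_ext hn (k := 0) Fin.elim0 (linearIndependent_empty_type) (Nat.zero_le _)
  exact ⟨x, hx⟩

end JD
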