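import Pool.Agent.H8.JD.SExist
import Pool.Agent.H8.JD.Pow

set_option autoImplicit false

/-!
# JD: existence of S-systems for algebras of class at most 7 (three letters)

`exists_SSys7`: if `J^8 = 0` then every `x : Fin 3 → J` has an S-system `S`; `S w` lies in
`Φ (wt a w)` for every compatible filtration, and the values `S w` span `J` if `x` generates.
-/

namespace JD

universe u v w

variable {F : Type u} [Field F] {J : Type v} [NonUnitalNonAssocCommRing J] [Module F J]
  [IsScalarTower F J J] [SMulCommClass F J J]

theorem wt_append {ι : Type w} (a : ι → ℕ) (v w : List ι) : wt a (v ++ w) = wt a v + wt a w := by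
  simp [wt]

theorem wt_perm {ι : Type w} (a : ι → ℕ) {v w : List ι} (h : v.Perm w) : wt a v = wt a w := by
  unfold wt
  exact (h.map a).sum_eq

theorem wt_one {ι : Type w} (w : List ι) : wt (fun _ => 1) w = w.length := by
  simp [wt]

theorem S7_mem_filt (x : Fin 3 → J) (a : Fin 3 → ℕ) (Φ : ℕ → Submodule F J)
    (h : Filt F x a Φ) (w : List (Fin 3)) (hw : w ≠ []) (h7 : w.length ≤ 7) :
    S7 x w ∈ Φ (wt a w) := by
  refine S7_induction (F := F) x (fun w => Φ (wt a w)) ?_ ?_ ?_ w hw h7
  · intro v w hvw
    simp only [wt_perm a hvw]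
  · intro i
    have := h.mem i
    simpa [wt] using this
  · intro v w _ _ p hp q hq
    have := h.mul_mem _ _ p hp q hq
    rwa [← wt_append] at this

theorem exists_SSys7 (h2 : (2 : F) ≠ 0) (hJ : IsJordan J) (h8 : jpow F J 8 = ⊥)
    (x : Fin 3 → J) :
    ∃ S : List (Fin 3) → J, SSys F x S ∧
      (∀ (a : Fin 3 → ℕ) (Φ : ℕ → Submodule F J), Filt F x a Φ →
        ∀ w : List (Fin 3), w ≠ [] → S w ∈ Φ (wt a w)) ∧
      (∀ w : List (Fin 3), 8 ≤ w.length → S w = 0) ∧
      ((∀ T : Submodule F J, (∀ i, x i ∈ T) → (∀ a ∈ T, ∀ b ∈ T, a * b ∈ T) → T = ⊤) →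
        Submodule.span F (Set.range S) = ⊤) := by
  let S : List (Fin 3) → J := fun w => if w.length ≤ 7 then S7 x w else 0
  have hSle : ∀ w : List (Fin 3), w.length ≤ 7 → S w = S7 x w := fun w h => if_pos h
  have hSgt : ∀ w : List (Fin 3), 8 ≤ w.length → S w = 0 := fun w h => if_neg (by omega)
  have hpow : ∀ w : List (Fin 3), w ≠ [] → S w ∈ jpow F J w.length := by
    intro w hw
    by_cases h : w.length ≤ 7
    · rw [hSle w h]
      have := S7_mem_filt x (fun _ => 1) (jpow F J) (filt_jpow x) w hw h
      rwa [wt_one] at this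
    · rw [hSgt w (by omega)]; exact zero_mem _
  have hfilt : ∀ (a : Fin 3 → ℕ) (Φ : ℕ → Submodule F J), Filt F x a Φ →
        ∀ w : List (Fin 3), w ≠ [] → S w ∈ Φ (wt a w) := by
    intro a Φ h w hw
    by_cases h7 : w.length ≤ 7
    · rw [hSle w h7]; exact S7_mem_filt x a Φ h w hw h7
    · rw [hSgt w (by omega)]; exact zero_mem _
  have hS : SSys F x S := by
    refine ⟨?_, ?_, ?_, ?_, 8, hSgt⟩
    · rw [hSle [] (by simp)]; exact S7_nil x
    · intro i
      rw [hSle [i] (by simp)]; exact S7_single x i
    · intro w
      by_cases h : w.length ≤ 7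
      · rw [hSle w h, hSle _ (by simpa using h)]
        exact S7_rev h2 hJ x w h
      · rw [hSgt w (by omega), hSgt _ (by simp; omega)]
    · intro v w hv hw
      by_cases h : v.length + w.length ≤ 7
      · rw [hSle v (by omega), hSle w (by omega), hSle (v ++ w) (by simpa using h),
          hSle (v ++ w.reverse) (by simpa using h), hSle (v.reverse ++ w) (by simpa using h),
          hSle (w ++ v) (by simp; omega)]
        exact S7_mul h2 hJ x v w hv hw h
      · have h1 := mul_mem_jpow (hpow v hv) (hpow w hw)
        have h3 : jpow F J (v.length + w.length) ≤ jpow F J 8 := jpow_anti (by omega)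
        have h4 : S v * S w = 0 := by
          have := h3 h1
          rwa [h8, Submodule.mem_bot] at this
        rw [h4, hSgt (v ++ w) (by simp; omega), hSgt (v ++ w.reverse) (by simp; omega),
          hSgt (v.reverse ++ w) (by simp; omega), hSgt (w ++ v) (by simp; omega)]
        simp
  refine ⟨S, hS, hfilt, hSgt, ?_⟩
  intro hgen
  have h4 : (4 : F) ≠ 0 := by
    have : (4 : F) = 2 * 2 := by norm_num
    rw [this]; exact mul_ne_zero h2 h2
  apply hgen
  · intro i
    rw [← hS.single i]
    exact Submodule.subset_span ⟨[i], rfl⟩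
  · intro a ha b hb
    induction ha using Submodule.span_induction with
    | mem a ha =>
      obtain ⟨v, rfl⟩ := ha
      induction hb using Submodule.span_induction with
      | mem b hb =>
        obtain ⟨w, rfl⟩ := hb
        by_cases hv : v = []
        · subst hv; rw [hS.nil, zero_mul]; exact zero_mem _
        · by_cases hw : w = []
          · subst hw; rw [hS.nil, mul_zero]; exact zero_mem _
          · have := hS.mul v w hv hw
            have e : S v * S w = (4 : F)⁻¹ • (S (v ++ w) + S (v ++ w.reverse) +
                S (v.reverse ++ w) + S (w ++ v)) := by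
              rw [← this, smul_smul, inv_mul_cancel₀ h4, one_smul]
            rw [e]
            have hm : ∀ w, S w ∈ Submodule.span F (Set.range S) := fun w =>
              Submodule.subset_span ⟨w, rfl⟩
            exact Submodule.smul_mem _ _ (add_mem (add_mem (add_mem (hm _) (hm _)) (hm _)) (hm _))
      | zero => rw [mul_zero]; exact zero_mem _
      | add b c _ _ hb hc => rw [mul_add]; exact add_mem hb hc
      | smul r b _ hb => rw [mul_smul_comm]; exact Submodule.smul_mem _ _ hb
    | zero => rw [zero_mul]; exact zero_mem _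
    | add a c _ _ ha hc => rw [add_mul]; exact add_mem ha hc
    | smul r a _ ha => rw [smul_mul_assoc]; exact Submodule.smul_mem _ _ ha

end JD
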