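import Pool.Agent.H8.JD.Basic

set_option autoImplicit false

/-!
# JD: minimal exceptional algebras (interface)

`Crit F J c u` collects what is known about a nilpotent exceptional Jordan algebra of least
dimension `≤ 11` over an algebraically closed field: `c` is the nilpotency class,
`J^c = F u` and `u` lies in every nonzero ideal.
-/

namespace JD

universe u

variable (F : Type u) [Field F] (J : Type u) [NonUnitalNonAssocCommRing J] [Module F J]
  [IsScalarTower F J J] [SMulCommClass F J J]

/-- A minimal exceptional nilpotent Jordan algebra of dimension at most 11. -/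
structure Crit (c : ℕ) (e : J) : Prop where
  /-- characteristic not 2 -/
  two : (2 : F) ≠ 0
  jordan : IsJordan J
  fin : Module.Finite F J
  dim : Module.finrank F J ≤ 11
  /-- `J` is exceptional -/
  exc : ¬ IsSpecial.{u, u, u} F J
  ne : e ≠ 0
  /-- `J^c = F e` -/
  top : jpow F J c = Submodule.span F {e}
  bot : jpow F J (c + 1) = ⊥
  ann : ∀ a : J, a * e = 0
  /-- the annihilator is `F e` -/
  ann_le : ∀ z : J, (∀ a : J, a * z = 0) → ∃ r : F, z = r • e
  /-- every nonzero ideal contains `e` -/
  mem : ∀ I : Submodule F J, IsIdeal F J I → I ≠ ⊥ → e ∈ I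
  /-- `J / F e` is special -/
  quo : ∃ (A : Type u) (_ : NonUnitalRing A) (_ : Module F A) (_ : IsScalarTower F A A)
    (_ : SMulCommClass F A A) (f : J →ₗ[F] A),
    LinearMap.ker f = Submodule.span F {e} ∧
      ∀ a b : J, f (a * b) = (2 : F)⁻¹ • (f a * f b + f b * f a)
  /-- the dimension is least possible, and then the class is least possible -/
  min : ∀ (J' : Type u) (_ : NonUnitalNonAssocCommRing J') (_ : Module F J')
    (_ : IsScalarTower F J' J') (_ : SMulCommClass F J' J'),
    Module.Finite F J' → IsJordan J' → IsNilpotentAlg F J' →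
    Module.finrank F J' ≤ Module.finrank F J → jpow F J' c = ⊥ → IsSpecial.{u, u, u} F J'
  /-- algebras of smaller dimension are special -/
  minDim : ∀ (J' : Type u) (_ : NonUnitalNonAssocCommRing J') (_ : Module F J')
    (_ : IsScalarTower F J' J') (_ : SMulCommClass F J' J'),
    Module.Finite F J' → IsJordan J' → IsNilpotentAlg F J' →
    Module.finrank F J' < Module.finrank F J → IsSpecial.{u, u, u} F J'

/-- The number of generators. -/
noncomputable def ngen : ℕ := Module.finrank F (J ⧸ jpow F J 2)

/-- `d_i = dim J^i / J^(i+1)`. -/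
noncomputable def dlay (i : ℕ) : ℕ :=
  Module.finrank F (jpow F J i) - Module.finrank F (jpow F J (i + 1))

/-- `x` is a system of generators that is a basis of `J` modulo `J^2`. -/
structure Gens {ι : Type} (x : ι → J) : Prop where
  gen : ∀ T : Submodule F J, (∀ i, x i ∈ T) → (∀ a ∈ T, ∀ b ∈ T, a * b ∈ T) → T = ⊤
  indep : LinearIndependent F (fun i => (jpow F J 2).mkQ (x i))

end JD
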