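import Pool.Agent.H8.JD.SCert

set_option autoImplicit false
set_option maxRecDepth 100000

namespace JD

def d002 : Data where
  tab := []
  mulC := [65536]
  revC := [65536]

theorem d002_tab : chkTab 2 d002 = true := by decide +kernel

theorem d002_mul : chkMulC 0 0 2 d002 = true := by decide +kernel

theorem d002_rev : chkRevC 0 0 2 d002 = true := by decide +kernel

def d011 : Data where
  tab := []
  mulC := [65536,
    65536]
  revC := [65536,
    65536]

theorem d011_tab : chkTab 2 d011 = true := by decide +kernel

theorem d011_mul : chkMulC 0 1 1 d011 = true := by decide +kernel

theorem d011_rev : chkRevC 0 1 1 d011 = true := by decide +kernel

def d003 : Data where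
  tab := []
  mulC := [65536]
  revC := [65536]

theorem d003_tab : chkTab 3 d003 = true := by decide +kernel

theorem d003_mul : chkMulC 0 0 3 d003 = true := by decide +kernel

theorem d003_rev : chkRevC 0 0 3 d003 = true := by decide +kernel

def d012 : Data where
  tab := []
  mulC := [65536,
    65536]
  revC := [65536,
    65536,
    65536]

theorem d012_tab : chkTab 3 d012 = true := by decide +kernel

theorem d012_mul : chkMulC 0 1 2 d012 = true := by decide +kernel

theorem d012_rev : chkRevC 0 1 2 d012 = true := by decide +kernel

def d111 : Data where
  tab := []
  mulC := [65536,
    65536,
    65536]
  revC := [65536,
    65536,
    65536,
    65536,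
    65536,
    65536]

theorem d111_tab : chkTab 3 d111 = true := by decide +kernel

theorem d111_mul : chkMulC 1 1 1 d111 = true := by decide +kernel

theorem d111_rev : chkRevC 1 1 1 d111 = true := by decide +kernel

def d004 : Data where
  tab := [334516452271574863311132148510321886277861379]
  mulC := [281477124259842,
    65536]
  revC := [65536]

theorem d004_tab : chkTab 4 d004 = true := by decide +kernel

theorem d004_mul : chkMulC 0 0 4 d004 = true := by decide +kernel

theorem d004_rev : chkRevC 0 0 4 d004 = true := by decide +kernel

def d013 : Data where
  tab := [334515091142105911906678066782209187525099523,
    26503015991316752837590273274761461281667653396017935965253945933269499906]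
  mulC := [1208953489449266909937667,
    1208953490012216862965763,
    1208953490012216863162371,
    1208953490012216863162371,
    1208953490012216863031299]
  revC := [1208953490012216863096835,
    1208953489449266910003203,
    1208953490012216863031299,
    1208953489449266909937667]

theorem d013_tab : chkTab 4 d013 = true := by decide +kernel

theorem d013_mul : chkMulC 0 1 3 d013 = true := by decide +kernel

theorem d013_rev : chkRevC 0 1 3 d013 = true := by decide +kernel

def d022 : Data where
  tab := [5470642865131475663777238720304146506157306981330784867033000785570623327774870230728706,
    5470642865131475663777238720285315200951147295850860392886427112430345249489305431310338]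
  mulC := [65536,
    1208953490012216863162372,
    65536,
    1208953489449266909872132,
    281477124128771,
    65536,
    65536]
  revC := [65536,
    1208953490012216863162372,
    65536,
    65536,
    1208953489449266909872132,
    65536]

theorem d022_tab : chkTab 4 d022 = true := by decide +kernel

theorem d022_mul : chkMulC 0 2 2 d022 = true := by decide +kernel

theorem d022_rev : chkRevC 0 2 2 d022 = true := by decide +kernel

def d112 : Data where
  tab := [5470612510930034636652665816942816201729535384342550347395872070482200588302819130540034,
    5470612510930034636652665816999310117348015578119308047797878142225579015316422464307201,
    121998735686144526033979910907169496965009954168847681110423000384001343506818560429539532606933249969980925774466937989246876778497]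
  mulC := [65536,
    1208953489449266909872131,
    1208953490012216863162371,
    65536,
    1208953490012216863162371,
    5192494926523289320542809528139780,
    5192494926523289320542809528270851,
    5192494926523289319979859574849540,
    65536,
    65536,
    1208953490012216863162371]
  revC := [1208953490012216863162371,
    65536,
    1208953490012216863162371,
    1208953489449266909872131,
    65536,
    1208953489449266909872131,
    1208953489449266909872130,
    65536,
    1208953490012216863162370,
    65536,
    1208953490012216863162371,
    1208953489449266909872131]

theorem d112_tab : chkTab 4 d112 = true := by decide +kernel

theorem d112_mul : chkMulC 1 1 2 d112 = true := by decide +kernel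

theorem d112_rev : chkRevC 1 1 2 d112 = true := by decide +kernel

end JD
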