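import Pool.Agent.H8.JD.SChk
import Pool.Agent.H8.JD.SData4
import Pool.Agent.H8.JD.SData5
import Pool.Agent.H8.JD.SData6
import Pool.Agent.H8.JD.SData7a
import Pool.Agent.H8.JD.SData7b
import Pool.Agent.H8.JD.SData7c

set_option autoImplicit false

/-!
# JD: S-systems in three letters up to length 7

In degrees up to `7` the free Jordan algebra on three generators is special (all fields of
characteristic not `2`).
-/

namespace JD

theorem hasData2 : HasData 2 := by
  intro a b c h1 h2 h3
  have ha : a ≤ 0 := by omega
  interval_cases a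
  have hb : b ≤ 1 := by omega
  interval_cases b
  · obtain rfl : c = 2 := by omega
    exact ⟨d002, d002_tab, d002_mul, d002_rev⟩
  · obtain rfl : c = 1 := by omega
    exact ⟨d011, d011_tab, d011_mul, d011_rev⟩

theorem hasData3 : HasData 3 := by
  intro a b c h1 h2 h3
  have ha : a ≤ 1 := by omega
  have hb : b ≤ 1 := by omega
  interval_cases a <;> interval_cases b
  · obtain rfl : c = 3 := by omega
    exact ⟨d003, d003_tab, d003_mul, d003_rev⟩
  · obtain rfl : c = 2 := by omega
    exact ⟨d012, d012_tab, d012_mul, d012_rev⟩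
  · obtain rfl : c = 1 := by omega
    exact ⟨d111, d111_tab, d111_mul, d111_rev⟩

theorem hasData4 : HasData 4 := by
  intro a b c h1 h2 h3
  have ha : a ≤ 1 := by omega
  have hb : b ≤ 2 := by omega
  interval_cases a
  · interval_cases b
    · obtain rfl : c = 4 := by omega
      exact ⟨d004, d004_tab, d004_mul, d004_rev⟩
    · obtain rfl : c = 3 := by omega
      exact ⟨d013, d013_tab, d013_mul, d013_rev⟩
    · obtain rfl : c = 2 := by omega
      exact ⟨d022, d022_tab, d022_mul, d022_rev⟩
  · obtain rfl : b = 1 := by omega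
    obtain rfl : c = 2 := by omega
    exact ⟨d112, d112_tab, d112_mul, d112_rev⟩

theorem hasData5 : HasData 5 := by
  intro a b c h1 h2 h3
  have ha : a ≤ 1 := by omega
  have hb : b ≤ 2 := by omega
  interval_cases a
  · interval_cases b
    · obtain rfl : c = 5 := by omega
      exact ⟨d005, d005_tab, d005_mul, d005_rev⟩
    · obtain rfl : c = 4 := by omega
      exact ⟨d014, d014_tab, d014_mul, d014_rev⟩
    · obtain rfl : c = 3 := by omega
      exact ⟨d023, d023_tab, d023_mul, d023_rev⟩
  · interval_cases b
    · obtain rfl : c = 3 := by omega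
      exact ⟨d113, d113_tab, d113_mul, d113_rev⟩
    · obtain rfl : c = 2 := by omega
      exact ⟨d122, d122_tab, d122_mul, d122_rev⟩

theorem hasData6 : HasData 6 := by
  intro a b c h1 h2 h3
  have ha : a ≤ 2 := by omega
  have hb : b ≤ 3 := by omega
  interval_cases a
  · interval_cases b
    · obtain rfl : c = 6 := by omega
      exact ⟨d006, d006_tab, d006_mul, d006_rev⟩
    · obtain rfl : c = 5 := by omega
      exact ⟨d015, d015_tab, d015_mul, d015_rev⟩
    · obtain rfl : c = 4 := by omega
      exact ⟨d024, d024_tab, d024_mul, d024_rev⟩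
    · obtain rfl : c = 3 := by omega
      exact ⟨d033, d033_tab, d033_mul, d033_rev⟩
  · interval_cases b
    · obtain rfl : c = 4 := by omega
      exact ⟨d114, d114_tab, d114_mul, d114_rev⟩
    · obtain rfl : c = 3 := by omega
      exact ⟨d123, d123_tab, d123_mul, d123_rev⟩
    · omega
  · obtain rfl : b = 2 := by omega
    obtain rfl : c = 2 := by omega
    exact ⟨d222, d222_tab, d222_mul, d222_rev⟩

theorem hasData7 : HasData 7 := by
  intro a b c h1 h2 h3
  have ha : a ≤ 2 := by omega
  have hb : b ≤ 3 := by omega
  interval_cases a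
  · interval_cases b
    · obtain rfl : c = 7 := by omega
      exact ⟨d007, d007_tab, d007_mul, d007_rev⟩
    · obtain rfl : c = 6 := by omega
      exact ⟨d016, d016_tab, d016_mul, d016_rev⟩
    · obtain rfl : c = 5 := by omega
      exact ⟨d025, d025_tab, d025_mul, d025_rev⟩
    · obtain rfl : c = 4 := by omega
      exact ⟨d034, d034_tab, d034_mul, d034_rev⟩
  · interval_cases b
    · obtain rfl : c = 5 := by omega
      exact ⟨d115, d115_tab, d115_mul, d115_rev⟩
    · obtain rfl : c = 4 := by omega
      exact ⟨d124, d124_tab, d124_mul, d124_rev⟩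
    · obtain rfl : c = 3 := by omega
      exact ⟨d133, d133_tab, d133_mul, d133_rev⟩
  · interval_cases b
    · obtain rfl : c = 3 := by omega
      exact ⟨d223, d223_tab, d223_mul, d223_rev⟩
    · omega

section

variable {F : Type*} [Field F] {J : Type*} [NonUnitalNonAssocCommRing J] [Module F J]

theorem good_all (h2 : (2 : F) ≠ 0) (hJ : IsJordan J) (n : ℕ) (hn : n + 1 ≤ 7)
    (x : Fin 3 → J) : Good (Sx (n + 1) x) (n + 1) := by
  induction n generalizing x with
  | zero => exact good_one x
  | succ n ih =>
    have hD : HasData (n + 2) := by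
      have : n ≤ 5 := by omega
      interval_cases n
      · exact hasData2
      · exact hasData3
      · exact hasData4
      · exact hasData5
      · exact hasData6
      · exact hasData7
    exact step h2 hJ (by omega) (fun m hm => secEqv_all m (by omega))
      (secOK_all (n + 2) (by omega) (by omega)) hD (fun x => ih (by omega) x) x

/-- the system in degrees at most `7` -/
def S7 (x : Fin 3 → J) : Wd → J := Sx 7 x

theorem S7_nil (x : Fin 3 → J) : S7 x [] = 0 := rfl

theorem S7_single (x : Fin 3 → J) (i : Fin 3) : S7 x [i] = x i := rfl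

theorem good7 (h2 : (2 : F) ≠ 0) (hJ : IsJordan J) (x : Fin 3 → J) : Good (S7 x) 7 :=
  good_all h2 hJ 6 le_rfl x

theorem S7_rev (h2 : (2 : F) ≠ 0) (hJ : IsJordan J) (x : Fin 3 → J) (w : Wd)
    (h : w.length ≤ 7) : S7 x w.reverse = S7 x w := (good7 h2 hJ x).rev w h

theorem S7_mul (h2 : (2 : F) ≠ 0) (hJ : IsJordan J) (x : Fin 3 → J) (v w : Wd) (hv : v ≠ [])
    (hw : w ≠ []) (h : v.length + w.length ≤ 7) :
    (4 : F) • (S7 x v * S7 x w) =
      S7 x (v ++ w) + S7 x (v ++ w.reverse) + S7 x (v.reverse ++ w) + S7 x (w ++ v) := by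
  rw [← (good7 h2 hJ x).mul v w hv hw h]
  rw [show (4 : F) = ((4 : ℤ) : F) by norm_num, Int.cast_smul_eq_zsmul]

/-- induction principle: a family of subspaces closed under the products -/
theorem S7_induction (x : Fin 3 → J) (P : Wd → Submodule F J)
    (hperm : ∀ v w : Wd, v.Perm w → P v = P w)
    (h1 : ∀ i, x i ∈ P [i])
    (hmul : ∀ v w : Wd, v ≠ [] → w ≠ [] → ∀ a ∈ P v, ∀ b ∈ P w, a * b ∈ P (v ++ w))
    (w : Wd) (hw : w ≠ []) (h7 : w.length ≤ 7) : S7 x w ∈ P w := by
  have key : ∀ n : ℕ, n ≤ 6 → ∀ w : Wd, w ≠ [] → Sx (n + 1) x w ∈ P w ∨ n + 1 < w.length := by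
    intro n
    induction n with
    | zero =>
      intro _ w hw
      match w, hw with
      | [i], _ => left; exact h1 i
      | i :: j :: w, _ => right; simp
    | succ n ih =>
      intro hn w hw
      have ih' := ih (by omega)
      by_cases h : w.length = n + 2
      · left
        rw [Sx_of_eq n x w h]
        unfold evT
        refine list_sum_mem ?_
        intro a ha
        rw [List.mem_map] at ha
        obtain ⟨t, ht, rfl⟩ := ha
        obtain ⟨a1, a2, a3⟩ := secOK_all (n + 2) (by omega) (by omega) w h t ht
        have l3 := a3.length_eq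
        rw [List.length_append, h] at l3
        have l1 := List.length_pos_of_ne_nil a1
        have l2 := List.length_pos_of_ne_nil a2
        rw [← hperm _ _ a3, ← Int.cast_smul_eq_zsmul F]
        apply Submodule.smul_mem
        refine hmul _ _ a1 a2 _ ?_ _ ?_
        · exact (ih' _ a1).resolve_right (by omega)
        · exact (ih' _ a2).resolve_right (by omega)
      · rw [Sx_of_lt n x w h]
        rcases ih' w hw with h3 | h3
        · exact Or.inl h3
        · right; omega
  exact (key 6 le_rfl w hw).resolve_right (by omega)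

end

end JD
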