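import Pool.Agent.H8.JD.Target2
import Pool.Agent.H8.JD.Pow

set_option autoImplicit false

/-!
# JD CritPic: the associative picture of a critical algebra with three generators

`exists_EPic` needs the hypothesis `hFu`: for a symmetric relation `k` and every word `w`,
`∑ c_v S (v ++ w) ∈ F e`.
PROOF. Let `f : J → A`, `ker f = F e`, be the homomorphism of `Crit.quo`, `X i = f (x i)`,
`X_w` = product of the letters in `A` (for `w ≠ []`; `A` is not unital, use `Unitization` or a
recursive definition for nonempty words). CLAIM: `f (S w) = (1/2) (X_w + X_(w.reverse))` for `w ≠ []`.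
`S w` is not given by a formula here, but it is determined by `SSys`: let `A' = {w | claim holds}`.
Length 1: `f (x i) = X i`. Induction on the length `n`: the product rule gives, for `0 < |v|, |w|`, `|v| + |w| = n`,
that `D w := f (S w) - (1/2)(X_w + X_w*)` satisfies `D (v ++ w) + D (v ++ w*) + D (v* ++ w) + D (w ++ v) = 0`,
`D (w*) = D w`. With `v = [a]`: `D (a w) + D (a w*) = 0`... (`2 D (a w) + D (a w*) + D (w a) = 2 (D(a w) + D(w a))`
as `D (a w*) = D (w a)`): so `D (a w) = - D (w a)`; with `v = [a,b]`: `D (abw) + D (baw) + D (wab) + D (wba) = 0`,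
i.e. `D (abw) + D (wab) = 2 D(abw)`.. (two rotations give `D (w ab) = D (ab w)`): so `D (abw) + D(baw) = 0`.
Hence `D` is alternating under exchanging the first two letters, and anti-invariant under rotation, so alternating in all
letters up to sign conventions: adjacent transpositions at every place change the sign. With three letters and
length `≥ 4` two letters are equal: `D = 0` (char not 2). Length 3: rotation `D (abc) = - D (bca) = D (cab) = - D (abc)`,
so `0`. Length 2: `D (ab) = - D (ba)` and `D (ba) = D (ab)` by reversal, so `0`.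
Now for symmetric `k = ∑ c_v v` with `∑ c_v S v = 0`: `∑ c_v X_v = ∑ c_v (1/2)(X_v + X_v*) = f (∑ c_v S v) = 0`, so
`f (∑ c_v S (v ++ w)) = (1/2) ∑ c_v (X_v X_w + X_w* X_v*) = 0`, and `ker f = F e`. (For `w = []` trivial.)
-/

namespace JD

universe u

variable {F : Type u} [Field F] {J : Type u} [NonUnitalNonAssocCommRing J] [Module F J]
  [IsScalarTower F J J] [SMulCommClass F J J]

/-- The defect of the claim `2 g (S w) = X_w + X_(w.reverse)`. -/
noncomputable def CritPic_D {U : Type u} [Ring U] [Algebra F U] (g : J →ₗ[F] U)
    (x : Fin 3 → J) (S : List (Fin 3) → J) (w : List (Fin 3)) : U :=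
  (2 : F) • g (S w) - word (fun i => g (x i)) w - word (fun i => g (x i)) w.reverse

theorem CritPic_word_append {E : Type*} [Monoid E] {ι : Type*} (X : ι → E) (v w : List ι) :
    word X (v ++ w) = word X v * word X w := by
  simp [word, List.map_append, List.prod_append]

section D

set_option linter.unusedSectionVars false

variable {U : Type u} [Ring U] [Algebra F U] (g : J →ₗ[F] U)

theorem CritPic_half {V : Type*} [AddCommGroup V] [Module F V] (h2 : (2 : F) ≠ 0) {a : V}
    (h : (2 : F) • a = 0) : a = 0 := by
  have := congrArg (fun t => (2 : F)⁻¹ • t) h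
  simpa [smul_smul, inv_mul_cancel₀ h2] using this

theorem CritPic_rev {x : Fin 3 → J} {S : List (Fin 3) → J} (hS : SSys F x S)
    (w : List (Fin 3)) : CritPic_D (F := F) g x S w.reverse = CritPic_D g x S w := by
  unfold CritPic_D
  rw [hS.rev, List.reverse_reverse]
  abel

theorem CritPic_rel (h2 : (2 : F) ≠ 0)
    (hg : ∀ a b : J, (2 : F) • g (a * b) = g a * g b + g b * g a)
    {x : Fin 3 → J} {S : List (Fin 3) → J} (hS : SSys F x S)
    (v w : List (Fin 3)) (hv : v ≠ []) (hw : w ≠ [])
    (hDv : CritPic_D (F := F) g x S v = 0) (hDw : CritPic_D (F := F) g x S w = 0) :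
    CritPic_D (F := F) g x S (v ++ w) + CritPic_D (F := F) g x S (v ++ w.reverse) +
      CritPic_D (F := F) g x S (v.reverse ++ w) + CritPic_D (F := F) g x S (w ++ v) = 0 := by
  have h := hS.mul v w hv hw
  have h' := congrArg (fun t => (2 : F) • (2 : F) • g t) h
  have hg' := hg (S v) (S w)
  unfold CritPic_D at hDv hDw ⊢
  simp only [CritPic_word_append, List.reverse_append, List.reverse_reverse]
  set X := word (fun i => g (x i)) with hX
  have e1 : (2 : F) • g (S v) = X v + X v.reverse := by
    rw [sub_sub, sub_eq_zero] at hDv; exact hDv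
  have e2 : (2 : F) • g (S w) = X w + X w.reverse := by
    rw [sub_sub, sub_eq_zero] at hDw; exact hDw
  have e3 : (2 : F) • (2 : F) • ((2 : F) • g (S v * S w)) =
      (X v + X v.reverse) * (X w + X w.reverse) + (X w + X w.reverse) * (X v + X v.reverse) := by
    rw [← e1, ← e2, hg']
    simp only [smul_add, smul_mul_smul_comm, smul_smul]
  apply sub_eq_zero.mp
  simp only [map_smul, map_add] at h'
  have h4 : (2 : F) • (2 : F) • (4 : F) • g (S v * S w) =
      (2 : F) • ((X v + X v.reverse) * (X w + X w.reverse) +
        (X w + X w.reverse) * (X v + X v.reverse)) := by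
    rw [← e3]
    simp only [smul_smul]
    congr 1
    norm_num
  rw [h4] at h'
  apply CritPic_half (F := F) h2
  have h5 : (2 : F) • (((2 : F) • g (S (v ++ w)) - X v * X w - X w.reverse * X v.reverse +
      ((2 : F) • g (S (v ++ w.reverse)) - X v * X w.reverse - X w * X v.reverse) +
      ((2 : F) • g (S (v.reverse ++ w)) - X v.reverse * X w - X w.reverse * X v) +
      ((2 : F) • g (S (w ++ v)) - X w * X v - X v.reverse * X w.reverse)) - 0) =
      (2 : F) • (2 : F) • (g (S (v ++ w)) + g (S (v ++ w.reverse)) + g (S (v.reverse ++ w)) +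
        g (S (w ++ v))) - (2 : F) • ((X v + X v.reverse) * (X w + X w.reverse) +
        (X w + X w.reverse) * (X v + X v.reverse)) := by
    simp only [mul_add, add_mul]
    module
  rw [h5, ← h']
  exact sub_self _

theorem CritPic_zero (h2 : (2 : F) ≠ 0)
    (hg : ∀ a b : J, (2 : F) • g (a * b) = g a * g b + g b * g a)
    {x : Fin 3 → J} {S : List (Fin 3) → J} (hS : SSys F x S) (n : ℕ) :
    ∀ w : List (Fin 3), w.length = n → w ≠ [] → CritPic_D (F := F) g x S w = 0 := by
  induction n using Nat.strong_induction_on with
  | _ n ih =>
  intro w hwn hw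
  set D := CritPic_D (F := F) g x S with hD
  have hrel : ∀ v w : List (Fin 3), v ≠ [] → w ≠ [] → v.length + w.length = n →
      D (v ++ w) + D (v ++ w.reverse) + D (v.reverse ++ w) + D (w ++ v) = 0 := by
    intro v w hv hw hn
    have h1 := List.length_pos_iff.mpr hv
    have h3 := List.length_pos_iff.mpr hw
    exact CritPic_rel g h2 hg hS v w hv hw (ih v.length (by omega) v rfl hv)
      (ih w.length (by omega) w rfl hw)
  have hrev : ∀ w, D w.reverse = D w := CritPic_rev g hS
  have hrot : ∀ (a : Fin 3) (w : List (Fin 3)), w ≠ [] → w.length + 1 = n →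
      D (a :: w) = - D (w ++ [a]) := by
    intro a w hw hn
    have h := hrel [a] w (by simp) hw (by simpa [add_comm] using hn)
    have h3 : D ([a] ++ w.reverse) = D (w ++ [a]) := by
      rw [← hrev]; simp
    rw [h3] at h
    simp only [List.reverse_singleton, List.singleton_append] at h
    have h4 : (2 : F) • (D (a :: w) + D (w ++ [a])) = 0 := by
      rw [two_smul]
      rw [← h]; abel
    exact eq_neg_of_add_eq_zero_left (CritPic_half h2 h4)
  have hswap : ∀ (a b : Fin 3) (w : List (Fin 3)), w ≠ [] → w.length + 2 = n →
      D (a :: b :: w) = - D (b :: a :: w) := by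
    intro a b w hw hn
    have h := hrel [a, b] w (by simp) hw (by simpa [add_comm] using hn)
    have h3 : D ([a, b] ++ w.reverse) = D (b :: a :: w) := by
      rw [← hrev]
      have e1 : ([a, b] ++ w.reverse).reverse = (w ++ [b]) ++ [a] := by simp
      have e2 := hrot a (w ++ [b]) (by simp) (by simp; omega)
      have e3 := hrot b (a :: w) (by simp) (by simp; omega)
      rw [e1, e3]
      rw [← neg_eq_iff_eq_neg] at e2
      rw [← e2]
      simp
    have h4 : D (w ++ [a, b]) = D (a :: b :: w) := by
      have e2 := hrot b (w ++ [a]) (by simp) (by simp; omega)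
      have e3 := hrot a (b :: w) (by simp) (by simp; omega)
      rw [e3]
      have e4 : w ++ [a, b] = (w ++ [a]) ++ [b] := by simp
      rw [e4]
      rw [← neg_eq_iff_eq_neg] at e2
      rw [← e2]
      simp
    rw [h3, h4] at h
    simp only [List.reverse_cons, List.reverse_nil, List.nil_append, List.cons_append] at h
    have h5 : (2 : F) • (D (a :: b :: w) + D (b :: a :: w)) = 0 := by
      rw [two_smul]
      rw [← h]; abel
    exact eq_neg_of_add_eq_zero_left (CritPic_half h2 h5)
  -- rotations by a prefix
  have hrotp : ∀ (p q : List (Fin 3)), q ≠ [] → p.length + q.length = n →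
      (D (p ++ q) = D (q ++ p) ∨ D (p ++ q) = - D (q ++ p)) := by
    intro p
    induction p with
    | nil => intro q _ _; left; simp
    | cons a p ihp =>
      intro q hq hn
      have e1 := hrot a (p ++ q) (by simp [hq]) (by simp at hn ⊢; omega)
      have e2 := ihp (q ++ [a]) (by simp) (by simp at hn ⊢; omega)
      have e3 : (a :: p) ++ q = a :: (p ++ q) := rfl
      have e4 : (p ++ q) ++ [a] = p ++ (q ++ [a]) := by simp
      have e5 : (q ++ [a]) ++ p = q ++ a :: p := by simp
      rw [e3, e1, e4]
      rw [e5] at e2
      rcases e2 with e2 | e2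
      · right; rw [e2]
      · left; rw [e2, neg_neg]
  have hrotz : ∀ (p q : List (Fin 3)), q ≠ [] → p.length + q.length = n →
      (D (p ++ q) = 0 ↔ D (q ++ p) = 0) := by
    intro p q hq hn
    rcases hrotp p q hq hn with h | h
    · rw [h]
    · rw [h, neg_eq_zero]
  by_cases hn3 : n ≤ 3
  · -- short words
    match w, hw, hwn with
    | [], hw, _ => exact absurd rfl hw
    | [i], _, _ =>
      rw [hD]
      simp only [CritPic_D, hS.single, List.reverse_singleton, word, List.map_cons,
        List.map_nil, List.prod_cons, List.prod_nil, mul_one, two_smul]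
      abel
    | [a, b], _, hwn =>
      have h1 := hrot a [b] (by simp) (by simpa using hwn)
      have h3 := hrev [a, b]
      simp only [List.reverse_cons, List.reverse_nil, List.nil_append, List.cons_append] at h3
      simp only [List.cons_append, List.nil_append] at h1
      rw [h3] at h1
      apply CritPic_half h2
      rw [two_smul]
      nth_rewrite 2 [h1]
      exact add_neg_cancel _
    | [a, b, c], _, hwn =>
      have h1 := hrot a [b, c] (by simp) (by simpa using hwn)
      have h3 := hrot b [c, a] (by simp) (by simpa using hwn)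
      have h4 := hrot c [a, b] (by simp) (by simpa using hwn)
      simp only [List.cons_append, List.nil_append] at h1 h3 h4
      apply CritPic_half h2
      rw [two_smul]
      nth_rewrite 2 [h1]
      rw [h3, h4, neg_neg]
      exact add_neg_cancel _
    | a :: b :: c :: d :: w, _, hwn =>
      exfalso
      simp at hwn
      omega
  · -- long words: two equal letters
    have hperm : ∀ u u' : List (Fin 3), u.Perm u' → ∀ p : List (Fin 3),
        p.length + u.length = n → (D (p ++ u) = 0 ↔ D (p ++ u') = 0) := by
      intro u u' h
      induction h with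
      | nil => intro p _; rfl
      | cons a h ih2 =>
        intro p hp
        have := ih2 (p ++ [a]) (by simp at hp ⊢; omega)
        simpa using this
      | swap a b l =>
        intro p hp
        rw [hrotz p (b :: a :: l) (by simp) (by simpa using hp),
          hrotz p (a :: b :: l) (by simp) (by simpa using hp)]
        have h6 := hswap a b (l ++ p) (by
          intro h7
          rw [List.append_eq_nil_iff] at h7
          rw [h7.1, h7.2] at hp
          simp at hp
          omega) (by simp at hp ⊢; omega)
        simp only [List.cons_append]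
        rw [h6, neg_eq_zero]
      | trans h1 h3 ih1 ih3 =>
        intro p hp
        rw [ih1 p hp, ih3 p (by rw [← h1.length_eq]; exact hp)]
    have hnd : ¬ w.Nodup := by
      intro h
      have := h.length_le_card
      simp at this
      omega
    obtain ⟨a, ha⟩ := List.exists_duplicate_iff_not_nodup.mpr hnd
    obtain ⟨l, hl⟩ := (List.duplicate_iff_sublist.mp ha).exists_perm_append
    have h7 := hperm _ _ hl [] (by simpa using hwn)
    simp only [List.nil_append] at h7
    rw [h7]
    have hlen : l.length + 2 = n := by
      have := hl.length_eq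
      simp at this
      omega
    have h8 := hswap a a l (by
      intro h9
      rw [h9] at hlen
      simp at hlen
      omega) hlen
    simp only [List.cons_append, List.nil_append]
    apply CritPic_half h2
    rw [two_smul]
    nth_rewrite 2 [h8]
    exact add_neg_cancel _

end D

theorem crit_hFu {c : ℕ} {e : J} (hcr : Crit F J c e) (x : Fin 3 → J) (S : List (Fin 3) → J)
    (hS : SSys F x S) (k : List (Fin 3) →₀ F) (hk : k.mapDomain List.reverse = k)
    (hk0 : k [] = 0) (hk1 : k.sum (fun v c => c • S v) = 0) (w : List (Fin 3)) :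
    ∃ r : F, k.sum (fun v c => c • S (v ++ w)) = r • e := by
  obtain ⟨A, i1, i2, i3, i4, f, hker, hf⟩ := hcr.quo
  have h2 := hcr.two
  set g : J →ₗ[F] Unitization F A := (Unitization.inrHom F F A) ∘ₗ f with hg
  have hgm : ∀ a b : J, (2 : F) • g (a * b) = g a * g b + g b * g a := by
    intro a b
    simp only [hg, LinearMap.comp_apply, hf]
    rw [map_smul, smul_smul, mul_inv_cancel₀ h2, one_smul, map_add]
    simp [Unitization.inr_mul]
  have hz : ∀ v : List (Fin 3), v ≠ [] → (2 : F) • g (S v) =
      word (fun i => g (x i)) v + word (fun i => g (x i)) v.reverse := by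
    intro v hv
    have := CritPic_zero g h2 hgm hS v.length v rfl hv
    unfold CritPic_D at this
    rw [sub_sub, sub_eq_zero] at this
    exact this
  set X := word (fun i => g (x i)) with hX
  set Z := k.sum (fun v c => c • X v) with hZ
  have hZr : k.sum (fun v c => c • X v.reverse) = Z := by
    conv_rhs => rw [hZ, ← hk]
    rw [Finsupp.sum_mapDomain_index (by simp) (by intros; rw [add_smul])]
  have hne : ∀ v ∈ k.support, v ≠ [] := by
    intro v hv h
    rw [h] at hv
    exact (Finsupp.mem_support_iff.mp hv) hk0
  have hZ0 : Z = 0 := by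
    apply CritPic_half h2
    have h3 : (2 : F) • g (k.sum (fun v c => c • S v)) = Z + k.sum (fun v c => c • X v.reverse) := by
      rw [hZ]
      simp only [Finsupp.sum, map_sum, map_smul, Finset.smul_sum]
      rw [← Finset.sum_add_distrib]
      refine Finset.sum_congr rfl fun v hv => ?_
      rw [smul_comm, hz v (hne v hv), smul_add]
    rw [hk1, map_zero, smul_zero, hZr] at h3
    rw [two_smul]
    exact h3.symm
  have hfin : (2 : F) • g (k.sum (fun v c => c • S (v ++ w))) = 0 := by
    have h3 : (2 : F) • g (k.sum (fun v c => c • S (v ++ w))) =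
        Z * X w + X w.reverse * k.sum (fun v c => c • X v.reverse) := by
      rw [hZ]
      simp only [Finsupp.sum, map_sum, map_smul, Finset.smul_sum, Finset.sum_mul, Finset.mul_sum]
      rw [← Finset.sum_add_distrib]
      refine Finset.sum_congr rfl fun v hv => ?_
      rw [smul_comm, hz (v ++ w) (by simp [hne v hv]), List.reverse_append, hX,
        CritPic_word_append, CritPic_word_append, smul_add, smul_mul_assoc, mul_smul_comm]
    rw [h3, hZr, hZ0, zero_mul, mul_zero, add_zero]
  have h4 := CritPic_half h2 hfin
  have h5 : f (k.sum (fun v c => c • S (v ++ w))) = 0 := by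
    have h6 : (Unitization.inr (f (k.sum (fun v c => c • S (v ++ w)))) : Unitization F A) = 0 := h4
    exact Unitization.inr_injective (by rw [h6, Unitization.inr_zero])
  have h7 : k.sum (fun v c => c • S (v ++ w)) ∈ LinearMap.ker f := h5
  rw [hker] at h7
  obtain ⟨r, hr⟩ := Submodule.mem_span_singleton.mp h7
  exact ⟨r, hr.symm⟩

theorem crit_EPic {c : ℕ} {e : J} (hcr : Crit F J c e) (x : Fin 3 → J)
    (S : List (Fin 3) → J) (hS : SSys F x S) (hspan : Submodule.span F (Set.range S) = ⊤) :
    ∃ (E : Type u) (_ : Ring E) (_ : Algebra F E), Nonempty (EPic F J x S e E) :=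
  exists_EPic F J x S e hcr.two hS hspan hcr.ne hcr.ann hcr.mem
    (fun k h1 h2 h3 w => crit_hFu hcr x S hS k h1 h2 h3 w) hcr.exc

end JD
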