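import Pool.Agent.H8.JD.Pow

set_option autoImplicit false

/-!
# JD MinCrit: existence of a critical algebra

PROOF. Among all nilpotent exceptional Jordan algebras `J' : Type u` over `K` with
`finrank ≤ 11` take one of least dimension (strong induction on `finrank`). Then every nilpotent
Jordan algebra of smaller dimension is special.
(1) QUOTIENTS (`MinCrit_quo`): for an ideal `I` the quotient `J ⧸ I` carries the structure of a
nilpotent Jordan algebra, of smaller dimension if `I ≠ ⊥`, so it is special.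
(2) If `I₁ ⊓ I₂ = ⊥` for nonzero ideals then `J` embeds into `A₁ × A₂` (`MinCrit_prod`), so `J` is
special: contradiction. Let `0 ≠ e ∈ J^c`, `c` the class. Every subspace of the annihilator is an
ideal, so every nonzero ideal contains `e` and the annihilator is `K e = J^c`.
(3) `quo`: the homomorphism `J → J ⧸ K e → A`.
-/

namespace JD

universe u

section quo

variable {K : Type u} [Field K] {J : Type u} [NonUnitalNonAssocCommRing J]
    [Module K J] [IsScalarTower K J J] [SMulCommClass K J J]

/-- multiplication on the quotient by an ideal -/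
noncomputable def MinCrit_mul (I : Submodule K J) (hI : IsIdeal K J I) :
    (J ⧸ I) →ₗ[K] (J ⧸ I) →ₗ[K] (J ⧸ I) :=
  I.liftQ
    { toFun := fun a => I.liftQ (I.mkQ ∘ₗ LinearMap.mul K J a) (by
        intro b hb
        simp only [LinearMap.mem_ker, LinearMap.comp_apply, LinearMap.mul_apply',
          Submodule.mkQ_apply]
        exact (Submodule.Quotient.mk_eq_zero I).mpr (hI a b hb))
      map_add' := by
        intro a b
        ext x
        simp
      map_smul' := by
        intro c a
        ext x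
        simp }
    (by
      intro b hb
      rw [LinearMap.mem_ker]
      ext x
      simp only [LinearMap.coe_mk, AddHom.coe_mk, LinearMap.comp_apply, Submodule.mkQ_apply,
        Submodule.liftQ_apply, LinearMap.mul_apply', LinearMap.zero_apply]
      rw [mul_comm]
      exact (Submodule.Quotient.mk_eq_zero I).mpr (hI x b hb))

theorem MinCrit_mul_mk (I : Submodule K J) (hI : IsIdeal K J I) (a b : J) :
    MinCrit_mul I hI (Submodule.Quotient.mk a) (Submodule.Quotient.mk b) =
      Submodule.Quotient.mk (a * b) := rfl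

/-- the quotient algebra -/
noncomputable abbrev MinCrit_ring (I : Submodule K J) (hI : IsIdeal K J I) :
    NonUnitalNonAssocCommRing (J ⧸ I) :=
  { (inferInstance : AddCommGroup (J ⧸ I)) with
    mul := fun a b => MinCrit_mul I hI a b
    left_distrib := fun a b c => (MinCrit_mul I hI a).map_add b c
    right_distrib := fun a b c => by
      change MinCrit_mul I hI (a + b) c = MinCrit_mul I hI a c + MinCrit_mul I hI b c
      rw [map_add]; rfl
    zero_mul := fun a => by
      change MinCrit_mul I hI 0 a = 0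
      rw [map_zero]; rfl
    mul_zero := fun a => (MinCrit_mul I hI a).map_zero
    mul_comm := fun a b => by
      induction a using Submodule.Quotient.induction_on with
      | _ a =>
      induction b using Submodule.Quotient.induction_on with
      | _ b =>
      change MinCrit_mul I hI _ _ = MinCrit_mul I hI _ _
      rw [MinCrit_mul_mk, MinCrit_mul_mk, mul_comm] }

/-- quotients of nilpotent Jordan algebras -/
theorem MinCrit_quo [Module.Finite K J] (hJ : IsJordan J) (hn : IsNilpotentAlg K J)
    (I : Submodule K J) (hI : IsIdeal K J I) (hI0 : I ≠ ⊥) :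
    ∃ (J' : Type u) (_ : NonUnitalNonAssocCommRing J') (_ : Module K J')
      (_ : IsScalarTower K J' J') (_ : SMulCommClass K J' J') (g : J →ₗ[K] J'),
      Module.Finite K J' ∧ IsJordan J' ∧ IsNilpotentAlg K J' ∧
      Module.finrank K J' < Module.finrank K J ∧
      LinearMap.ker g = I ∧ ∀ a b, g (a * b) = g a * g b := by
  let _ : NonUnitalNonAssocCommRing (J ⧸ I) := MinCrit_ring I hI
  have t1 : IsScalarTower K (J ⧸ I) (J ⧸ I) := ⟨fun r a b => by
    change MinCrit_mul I hI (r • a) b = r • MinCrit_mul I hI a b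
    rw [map_smul]; rfl⟩
  have t2 : SMulCommClass K (J ⧸ I) (J ⧸ I) := ⟨fun r a b => by
    change r • MinCrit_mul I hI a b = MinCrit_mul I hI a (r • b)
    rw [map_smul]⟩
  have hmul : ∀ a b : J, I.mkQ (a * b) = I.mkQ a * I.mkQ b := fun a b => rfl
  refine ⟨J ⧸ I, MinCrit_ring I hI, inferInstance, t1, t2, I.mkQ, inferInstance, ?_, ?_, ?_,
    Submodule.ker_mkQ I, hmul⟩
  · intro x y
    induction x using Submodule.Quotient.induction_on with
    | _ x =>
    induction y using Submodule.Quotient.induction_on with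
    | _ y =>
    exact congrArg I.mkQ (hJ x y)
  · obtain ⟨n, h1, h2⟩ := hn
    refine ⟨n, h1, ?_⟩
    rw [← jpow_map I.mkQ hmul (Submodule.mkQ_surjective I) n, h2, Submodule.map_bot]
  · have h := Submodule.finrank_quotient_add_finrank I
    have h0 : 0 < Module.finrank K I := by
      rw [Module.finrank_pos_iff]
      exact (Submodule.nontrivial_iff_ne_bot).mpr hI0
    omega

end quo

theorem MinCrit_prod {K : Type u} [Field K] {J : Type u} [NonUnitalNonAssocCommRing J]
    [Module K J] (P Q : Submodule K J) (hPQ : P ⊓ Q = ⊥)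
    (hP : ∃ (A : Type u) (_ : NonUnitalRing A) (_ : Module K A) (_ : IsScalarTower K A A)
      (_ : SMulCommClass K A A) (f : J →ₗ[K] A), LinearMap.ker f = P ∧
        ∀ a b : J, f (a * b) = (2 : K)⁻¹ • (f a * f b + f b * f a))
    (hQ : ∃ (A : Type u) (_ : NonUnitalRing A) (_ : Module K A) (_ : IsScalarTower K A A)
      (_ : SMulCommClass K A A) (f : J →ₗ[K] A), LinearMap.ker f = Q ∧
        ∀ a b : J, f (a * b) = (2 : K)⁻¹ • (f a * f b + f b * f a)) :
    IsSpecial.{u, u, u} K J := by
  obtain ⟨A, iA, mA, sA, cA, f, hf, hfm⟩ := hP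
  obtain ⟨B, iB, mB, sB, cB, g, hg, hgm⟩ := hQ
  refine ⟨A × B, inferInstance, inferInstance, inferInstance, inferInstance, f.prod g, ?_, ?_⟩
  · rw [← LinearMap.ker_eq_bot, LinearMap.ker_prod, hf, hg, hPQ]
  · intro a b
    refine Prod.ext ?_ ?_
    · simpa using hfm a b
    · simpa using hgm a b

theorem exists_crit (K : Type u) [Field K] (J : Type u) [NonUnitalNonAssocCommRing J]
    [Module K J] [IsScalarTower K J J] [SMulCommClass K J J] [Module.Finite K J]
    (h2 : (2 : K) ≠ 0) (hJ : IsJordan J) (hn : IsNilpotentAlg K J)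
    (hd : Module.finrank K J ≤ 11) (hs : ¬ IsSpecial.{u, u, u} K J) :
    ∃ (J' : Type u) (_ : NonUnitalNonAssocCommRing J') (_ : Module K J')
      (_ : IsScalarTower K J' J') (_ : SMulCommClass K J' J') (c : ℕ) (e : J'),
      1 ≤ c ∧ Crit K J' c e := by
  classical
  let P : ℕ → ℕ → Prop := fun D n => ∃ (J' : Type u) (_ : NonUnitalNonAssocCommRing J')
      (_ : Module K J') (_ : IsScalarTower K J' J') (_ : SMulCommClass K J' J'),
      Module.Finite K J' ∧ IsJordan J' ∧ Module.finrank K J' = D ∧ 1 ≤ n ∧ jpow K J' n = ⊥ ∧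
      ¬ IsSpecial.{u, u, u} K J'
  have hP : ∃ D, ∃ n, P D n := by
    obtain ⟨n, h1, h2⟩ := hn
    exact ⟨Module.finrank K J, n, J, _, _, inferInstance, inferInstance, inferInstance, hJ, rfl,
      h1, h2, hs⟩
  obtain ⟨D, hD1, hD2⟩ : ∃ D, (∃ n, P D n) ∧ ∀ m < D, ¬ ∃ n, P m n :=
    ⟨Nat.find hP, Nat.find_spec hP, fun m hm => Nat.find_min hP hm⟩
  obtain ⟨N, hN1, hN2⟩ : ∃ N, P D N ∧ ∀ m < N, ¬ P D m :=
    ⟨Nat.find hD1, Nat.find_spec hD1, fun m hm => Nat.find_min hD1 hm⟩
  have hDle : D ≤ 11 := by
    by_contra hlt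
    apply hD2 (Module.finrank K J) (by omega)
    obtain ⟨n, h1, h2⟩ := hn
    exact ⟨n, J, _, _, inferInstance, inferInstance, inferInstance, hJ, rfl, h1, h2, hs⟩
  clear hP hD1
  obtain ⟨J₁, i1, i2, i3, i4, hfin₁, hJ₁, hdim₁, hN, hbot₁, hs₁⟩ := hN1
  clear hs hn hd hJ
  clear! J
  rename' J₁ => J, hJ₁ => hJ, hs₁ => hs
  have hq : ∀ (J' : Type u) (_ : NonUnitalNonAssocCommRing J') (_ : Module K J')
      (_ : IsScalarTower K J' J') (_ : SMulCommClass K J' J'),
      Module.Finite K J' → IsJordan J' → IsNilpotentAlg K J' →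
      Module.finrank K J' < Module.finrank K J → IsSpecial.{u, u, u} K J' := by
    intro J' j1 j2 j3 j4 k1 k2 k3 k4
    by_contra hs'
    obtain ⟨n, h1, h2⟩ := k3
    exact hD2 _ (hdim₁ ▸ k4) ⟨n, J', j1, j2, j3, j4, k1, k2, rfl, h1, h2, hs'⟩
  have hd : Module.finrank K J ≤ 11 := hdim₁ ▸ hDle
  have hn : IsNilpotentAlg K J := ⟨N, hN, hbot₁⟩
  have hmin : ∀ n, 1 ≤ n → n < N → ∀ (J' : Type u) (_ : NonUnitalNonAssocCommRing J')
      (_ : Module K J') (_ : IsScalarTower K J' J') (_ : SMulCommClass K J' J'),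
      Module.Finite K J' → IsJordan J' → IsNilpotentAlg K J' →
      Module.finrank K J' ≤ Module.finrank K J → jpow K J' n = ⊥ → IsSpecial.{u, u, u} K J' := by
    intro n hn1 hn2 J' j1 j2 j3 j4 k1 k2 k3 k4 k5
    by_contra hs'
    rcases lt_or_eq_of_le k4 with h | h
    · exact hs' (hq J' j1 j2 j3 j4 k1 k2 k3 h)
    · exact hN2 n hn2 ⟨J', j1, j2, j3, j4, k1, k2, h.trans hdim₁, hn1, k5, hs'⟩
  have hjN : ∀ m, 1 ≤ m → jpow K J m = ⊥ → N ≤ m := by
    intro m hm hb
    by_contra hlt
    exact hN2 m (by omega) ⟨J, i1, i2, i3, i4, hfin₁, hJ, hdim₁, hm, hb, hs⟩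
  · skip
    -- quotients are special
    have hquo : ∀ I : Submodule K J, IsIdeal K J I → I ≠ ⊥ →
        ∃ (A : Type u) (_ : NonUnitalRing A) (_ : Module K A) (_ : IsScalarTower K A A)
        (_ : SMulCommClass K A A) (f : J →ₗ[K] A), LinearMap.ker f = I ∧
        ∀ a b : J, f (a * b) = (2 : K)⁻¹ • (f a * f b + f b * f a) := by
      intro I hI hI0
      obtain ⟨J', i1, i2, i3, i4, g, i5, j1, j2, j3, hk, hg⟩ := MinCrit_quo hJ hn I hI hI0
      obtain ⟨A, a1, a2, a3, a4, f, hf, hfm⟩ := hq J' i1 i2 i3 i4 i5 j1 j2 j3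
      refine ⟨A, a1, a2, a3, a4, f ∘ₗ g, ?_, ?_⟩
      · rw [LinearMap.ker_comp, LinearMap.ker_eq_bot.mpr hf, Submodule.comap_bot, hk]
      · intro a b
        rw [LinearMap.comp_apply, hg, hfm]
        rfl
    have htwo : ∀ P Q : Submodule K J, IsIdeal K J P → IsIdeal K J Q → P ≠ ⊥ → Q ≠ ⊥ →
        P ⊓ Q ≠ ⊥ := by
      intro P Q hP hQ hP0 hQ0 hPQ
      exact hs (MinCrit_prod P Q hPQ (hquo P hP hP0) (hquo Q hQ hQ0))
    -- the class
    obtain ⟨n, rfl⟩ : ∃ n, n = N := ⟨N, rfl⟩
    have hn1 := hN
    have hn2 := hbot₁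
    have hn3 : ∀ m < n, ¬ (1 ≤ m ∧ jpow K J m = ⊥) := by
      rintro m hm ⟨h1, h2⟩
      exact absurd (hjN m h1 h2) (by omega)
    have hn4 : 2 ≤ n := by
      by_contra hlt
      have : n = 1 := by omega
      rw [this, jpow_one] at hn2
      apply hs
      refine ⟨PUnit.{u + 1}, inferInstance, inferInstance, inferInstance, inferInstance, 0, ?_, ?_⟩
      · rw [← LinearMap.ker_eq_bot, LinearMap.ker_zero, hn2]
      · intro a b; simp
    obtain ⟨c, rfl⟩ : ∃ c, n = c + 1 := ⟨n - 1, by omega⟩
    have hc : jpow K J c ≠ ⊥ := fun h => hn3 c (by omega) ⟨by omega, h⟩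
    obtain ⟨e, hec, he0⟩ := Submodule.exists_mem_ne_zero_of_ne_bot hc
    have hannc : ∀ z ∈ jpow K J c, ∀ a : J, a * z = 0 := by
      intro z hz a
      have : a * z ∈ jpow K J (1 + c) :=
        mul_mem_jpow (by rw [jpow_one]; exact Submodule.mem_top) hz
      rw [add_comm 1 c, hn2] at this
      simpa using this
    have hideal : ∀ z : J, (∀ a : J, a * z = 0) → IsIdeal K J (Submodule.span K {z}) := by
      intro z hz a b hb
      obtain ⟨r, rfl⟩ := Submodule.mem_span_singleton.mp hb
      rw [mul_smul_comm, hz a, smul_zero]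
      exact Submodule.zero_mem _
    have hspan0 : ∀ z : J, z ≠ 0 → Submodule.span K {z} ≠ ⊥ := by
      intro z hz h
      exact hz (Submodule.span_singleton_eq_bot.mp h)
    have hmem : ∀ I : Submodule K J, IsIdeal K J I → I ≠ ⊥ → e ∈ I := by
      intro I hI hI0
      by_contra hne
      apply htwo (Submodule.span K {e}) I (hideal e (hannc e hec)) hI (hspan0 e he0) hI0
      rw [eq_bot_iff]
      rintro x ⟨hx1, hx2⟩
      obtain ⟨r, rfl⟩ := Submodule.mem_span_singleton.mp hx1
      by_cases hr : r = 0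
      · simp [hr]
      · exact absurd (by simpa [smul_smul, inv_mul_cancel₀ hr] using I.smul_mem r⁻¹ hx2) hne
    have hannle : ∀ z : J, (∀ a : J, a * z = 0) → ∃ r : K, z = r • e := by
      intro z hz
      by_cases hz0 : z = 0
      · exact ⟨0, by simp [hz0]⟩
      · have h := hmem _ (hideal z hz) (hspan0 z hz0)
        obtain ⟨r, hr⟩ := Submodule.mem_span_singleton.mp h
        have hr0 : r ≠ 0 := by
          rintro rfl
          rw [zero_smul] at hr
          exact he0 hr.symm
        refine ⟨r⁻¹, ?_⟩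
        rw [← hr, smul_smul, inv_mul_cancel₀ hr0, one_smul]
    refine ⟨J, inferInstance, inferInstance, inferInstance, inferInstance, c, e, by omega, ?_⟩
    refine
      { two := h2
        jordan := hJ
        fin := inferInstance
        dim := hd
        exc := hs
        ne := he0
        top := ?_
        bot := hn2
        ann := hannc e hec
        ann_le := hannle
        mem := hmem
        quo := hquo _ (hideal e (hannc e hec)) (hspan0 e he0)
        min := hmin c (by omega) (by omega)
        minDim := hq }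
    apply le_antisymm
    · intro z hz
      obtain ⟨r, hr⟩ := hannle z (hannc z hz)
      rw [hr]
      exact Submodule.smul_mem _ _ (Submodule.mem_span_singleton_self e)
    · rw [Submodule.span_singleton_le_iff_mem]
      exact hec

end JD
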