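import Mathlib

set_option autoImplicit false

/-!
# JD: basic definitions and the functional criterion for speciality

`IsJordan`, `IsSpecial` are those of `UpperBoundTwelve`.

* `lin2`, `lin3`: partial linearisations of the Jordan identity (characteristic not 2).
* `IsSpecFun Λ`: `Λ : List J → F` is additive and homogeneous in every letter and
  `Λ (p ++ a :: b :: q) + Λ (p ++ b :: a :: q) = 2 * Λ (p ++ (a * b) :: q)`.
* `special_of_specFun`: if every nonzero ideal contains `u` and some special functional has
  `Λ [u] ≠ 0`, then `J` is special.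
-/

namespace JD

universe u v w

/-- The Jordan identity. -/
def IsJordan (J : Type v) [NonUnitalNonAssocCommRing J] : Prop :=
  ∀ x y : J, ((x * x) * y) * x = (x * x) * (y * x)

/-- The powers `J^1 = J` and `J^n = ∑_{i+j=n, i,j ≥ 1} J^i J^j` for `n ≥ 2`
(the value at `0` is irrelevant). -/
noncomputable def jpow (F : Type u) (J : Type v) [Field F] [NonUnitalNonAssocCommRing J]
    [Module F J] [IsScalarTower F J J] [SMulCommClass F J J] : ℕ → Submodule F J
  | 0 => ⊤
  | 1 => ⊤
  | (n + 2) => ⨆ i : Fin (n + 1),
      Submodule.map₂ (LinearMap.mul F J) (jpow F J (i + 1)) (jpow F J (n + 1 - i))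
  termination_by n => n
  decreasing_by all_goals omega

/-- `J` is nilpotent: `J^n = 0` for some `n ≥ 1`. -/
def IsNilpotentAlg (F : Type u) (J : Type v) [Field F] [NonUnitalNonAssocCommRing J]
    [Module F J] [IsScalarTower F J J] [SMulCommClass F J J] : Prop :=
  ∃ n : ℕ, 1 ≤ n ∧ jpow F J n = ⊥

/-- `J` is special: there are an associative algebra `A` (not assumed unital) and an injective
linear map `f : J → A` with `f (a b) = (f a f b + f b f a) / 2`. -/
def IsSpecial (F : Type u) (J : Type v) [Field F] [NonUnitalNonAssocCommRing J]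
    [Module F J] : Prop :=
  ∃ (A : Type w) (_ : NonUnitalRing A) (_ : Module F A) (_ : IsScalarTower F A A)
    (_ : SMulCommClass F A A) (f : J →ₗ[F] A),
    Function.Injective f ∧ ∀ a b : J, f (a * b) = (2 : F)⁻¹ • (f a * f b + f b * f a)

section lin

variable {F : Type u} [Field F] {J : Type v} [NonUnitalNonAssocCommRing J] [Module F J]

theorem eq_of_two_smul (h2 : (2 : F) ≠ 0) {a b : J} (h : (2 : ℤ) • a = (2 : ℤ) • b) : a = b := by
  have h3 : (2 : F) • a = (2 : F) • b := by
    rw [two_smul, two_smul]
    simpa [two_zsmul] using h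
  have := congrArg (fun t => (2 : F)⁻¹ • t) h3
  simpa [smul_smul, inv_mul_cancel₀ h2] using this

/-- First partial linearisation. -/
theorem lin2 (F : Type u) [Field F] [Module F J] (h2 : (2 : F) ≠ 0) (hJ : IsJordan J)
    (a c d : J) :
    ((a * a) * d) * c + (2 : ℤ) • (((a * c) * d) * a) =
      (a * a) * (d * c) + (2 : ℤ) • ((a * c) * (d * a)) := by
  have h1 := hJ (a + c) d
  have h2' := hJ (a - c) d
  have h3 := hJ c d
  have hca : c * a = a * c := mul_comm c a
  simp only [add_mul, mul_add, sub_mul, mul_sub, hca] at h1 h2'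
  refine eq_of_two_smul h2 ?_
  linear_combination (norm := module) h1 - h2' - (2:ℤ) • h3

/-- Full linearisation. -/
theorem lin3 (F : Type u) [Field F] [Module F J] (h2 : (2 : F) ≠ 0) (hJ : IsJordan J)
    (a b c d : J) :
    ((a * b) * d) * c + ((b * c) * d) * a + ((c * a) * d) * b =
      (a * b) * (c * d) + (b * c) * (a * d) + (c * a) * (b * d) := by
  have h1 := lin2 F h2 hJ (a + b) c d
  have h2' := lin2 F h2 hJ a c d
  have h3 := lin2 F h2 hJ b c d
  have hba : b * a = a * b := mul_comm b a
  have hca : c * a = a * c := mul_comm c a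
  have hcd : c * d = d * c := mul_comm c d
  have had : a * d = d * a := mul_comm a d
  have hbd : b * d = d * b := mul_comm b d
  simp only [add_mul, mul_add, hba] at h1
  rw [hca, hcd, had, hbd]
  refine eq_of_two_smul h2 ?_
  linear_combination (norm := module) h1 - h2' - h3

end lin

section spec

variable (F : Type u) [Field F] (J : Type v) [NonUnitalNonAssocCommRing J] [Module F J]

/-- Special functionals on words in the elements of `J`. -/
structure IsSpecFun (Λ : List J → F) : Prop where
  add : ∀ (p q : List J) (a b : J), Λ (p ++ (a + b) :: q) = Λ (p ++ a :: q) + Λ (p ++ b :: q)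
  smul : ∀ (p q : List J) (c : F) (a : J), Λ (p ++ (c • a) :: q) = c * Λ (p ++ a :: q)
  swap : ∀ (p q : List J) (a b : J),
    Λ (p ++ a :: b :: q) + Λ (p ++ b :: a :: q) = 2 * Λ (p ++ (a * b) :: q)

/-- The space of special functionals. -/
def specSub : Submodule F (List J → F) where
  carrier := {Λ | IsSpecFun F J Λ}
  zero_mem' := ⟨fun _ _ _ _ => by simp, fun _ _ _ _ => by simp, fun _ _ _ _ => by simp⟩
  add_mem' := by
    intro a b ha hb
    refine ⟨fun p q x y => ?_, fun p q c x => ?_, fun p q x y => ?_⟩
    · simp only [Pi.add_apply, ha.add, hb.add]; ring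
    · simp only [Pi.add_apply, ha.smul, hb.smul]; ring
    · simp only [Pi.add_apply]
      linear_combination ha.swap p q x y + hb.swap p q x y
  smul_mem' := by
    intro c a ha
    refine ⟨fun p q x y => ?_, fun p q d x => ?_, fun p q x y => ?_⟩
    · simp only [Pi.smul_apply, smul_eq_mul, ha.add]; ring
    · simp only [Pi.smul_apply, smul_eq_mul, ha.smul]; ring
    · simp only [Pi.smul_apply, smul_eq_mul]
      linear_combination c * ha.swap p q x y

variable {F J}

theorem IsSpecFun.cons {Λ : List J → F} (h : IsSpecFun F J Λ) (a : J) :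
    IsSpecFun F J (fun w => Λ (a :: w)) :=
  ⟨fun p q x y => h.add (a :: p) q x y, fun p q c x => h.smul (a :: p) q c x,
    fun p q x y => h.swap (a :: p) q x y⟩

/-- The action of `a` on special functionals. -/
def actSpec (a : J) : specSub F J →ₗ[F] specSub F J where
  toFun Λ := ⟨fun w => Λ.1 (a :: w), Λ.2.cons a⟩
  map_add' _ _ := rfl
  map_smul' _ _ := rfl

variable (F J)

/-- The representation of `J` on the space of special functionals. -/
def repSpec : J →ₗ[F] Module.End F (specSub F J) where
  toFun := actSpec
  map_add' a b := by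
    ext Λ w
    exact Λ.2.add [] w a b
  map_smul' c a := by
    ext Λ w
    exact Λ.2.smul [] w c a

theorem repSpec_mul (h2 : (2 : F) ≠ 0) (a b : J) :
    repSpec F J (a * b) =
      (2 : F)⁻¹ • (repSpec F J a * repSpec F J b + repSpec F J b * repSpec F J a) := by
  ext Λ w
  have h := Λ.2.swap [] w b a
  change Λ.1 ((a * b) :: w) = (2 : F)⁻¹ * (Λ.1 (b :: a :: w) + Λ.1 (a :: b :: w))
  simp only [List.nil_append] at h
  rw [h, mul_comm b a, ← mul_assoc, inv_mul_cancel₀ h2, one_mul]

/-- `I` is an ideal of the commutative algebra `J`. -/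
def IsIdeal (I : Submodule F J) : Prop := ∀ a b : J, b ∈ I → a * b ∈ I

/-- If every nonzero ideal contains `u` and some special functional does not vanish at `u`, then
`J` is special. -/
theorem special_of_specFun (h2 : (2 : F) ≠ 0) {u : J}
    (hu : ∀ I : Submodule F J, IsIdeal F J I → I ≠ ⊥ → u ∈ I)
    (Λ : List J → F) (hΛ : IsSpecFun F J Λ) (hne : Λ [u] ≠ 0) :
    IsSpecial.{u, v, max u v} F J := by
  have hinj : Function.Injective (repSpec F J) := by
    intro a b hab
    by_contra hk
    have hk' : LinearMap.ker (repSpec F J) ≠ ⊥ := by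
      intro hb
      have hm : a - b ∈ LinearMap.ker (repSpec F J) := by
        rw [LinearMap.mem_ker, map_sub, hab, sub_self]
      rw [hb, Submodule.mem_bot] at hm
      exact hk (sub_eq_zero.mp hm)
    have hmem := hu (LinearMap.ker (repSpec F J)) (fun a b hb => by
      rw [LinearMap.mem_ker] at hb ⊢
      rw [repSpec_mul F J h2, hb]
      simp) hk'
    rw [LinearMap.mem_ker] at hmem
    apply hne
    have := congrArg (fun T => ((T (⟨Λ, hΛ⟩ : specSub F J)) : specSub F J).1 []) hmem
    exact this
  exact ⟨Module.End F (specSub F J), inferInstance, inferInstance, inferInstance, inferInstance,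
    repSpec F J, hinj, repSpec_mul F J h2⟩

end spec

end JD
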