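import Pool.Agent.H8.JD.Pow

set_option autoImplicit false

/-!
# JD BaseChange: reduction to algebraically closed fields

PROOF. `K` = algebraic closure of `F` (`AlgebraicClosure F : Type u`), `J' = K ⊗[F] J` with its
product (`(a ⊗ x)(b ⊗ y) = ab ⊗ xy`; Mathlib has the `NonUnitalNonAssocRing` structure on tensor
products of algebras only for (non-unital) algebras: if the commutative non-associative instance is missing, build
`J'` by hand: choose a basis `b : Basis (Fin d) F J`, `J' := Fin d → K` with structure constants
`b.repr (b i * b j) k` mapped to `K`; this may be easier. The embedding `J → J'` is `a ↦ algebraMap (b.repr a i)`.)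
(1) `J'` is commutative, and Jordan: the Jordan identity `((x x) y) x = (x x)(y x)` for `x = ∑ c_i b_i`,
`y = ∑ d_j b_j` expands as `∑_i c_i^3 d_j (identity for b_i, b_j) + ∑_{i ≠ k} c_i^2 c_k d_j (lin2) +
∑_{i<k<l} c_i c_k c_l d_j (lin3)`; use `lin2`, `lin3` of `Basic` (they hold in `J`, hence for basis vectors of `J'`).
A slick way: let `P` be the set of `x ∈ J'` such that for all basis vectors the identities
`hJ x y`, `lin2 x b_k y`, `lin2 b_k x y`, `lin3 x b_k b_l y` (all `k l`, all `y` basis) hold; `P`
contains the basis and is closed under addition and scalars.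
(2) `J'` is nilpotent: products of basis vectors: `jpow K J' n` is spanned by the image of `jpow F J n`.
(3) `finrank K J' = finrank F J`.
(4) If `f : J' → A` is an injective homomorphism into `A⁺` over `K`, restrict scalars: `A` is an
`F`-algebra (`Module.compHom`, `IsScalarTower`, `SMulCommClass` by restriction), `J → J' → A` is
`F`-linear, injective.
-/

namespace JD

universe u

open TensorProduct

section BaseChangeAux

variable (F : Type u) [Field F] (K : Type u) [Field K] [Algebra F K] (J : Type u)
  [NonUnitalNonAssocCommRing J] [Module F J] [IsScalarTower F J J] [SMulCommClass F J J]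

theorem BaseChange_comm (x y : K ⊗[F] J) : x * y = y * x := by
  induction x with
  | zero => simp
  | tmul a b =>
    induction y with
    | zero => simp
    | tmul c d =>
      rw [Algebra.TensorProduct.tmul_mul_tmul, Algebra.TensorProduct.tmul_mul_tmul,
        mul_comm a c, mul_comm b d]
    | add c d hc hd => rw [mul_add, add_mul, hc, hd]
  | add a b ha hb => rw [mul_add, add_mul, ha, hb]

/-- The commutative algebra `K ⊗ J`. -/
@[reducible] noncomputable def BaseChange_inst : NonUnitalNonAssocCommRing (K ⊗[F] J) :=
  { (inferInstance : NonUnitalNonAssocRing (K ⊗[F] J)) with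
    mul_comm := BaseChange_comm F K J }

theorem BaseChange_lin3 (h2 : (2 : F) ≠ 0) (hJ : IsJordan J) (a b c d : K ⊗[F] J) :
    ((a * b) * d) * c + ((b * c) * d) * a + ((c * a) * d) * b =
      (a * b) * (c * d) + (b * c) * (a * d) + (c * a) * (b * d) := by
  induction a with
  | zero => simp
  | add a a' ha ha' =>
    simp only [add_mul, mul_add]
    linear_combination (norm := module) ha + ha'
  | tmul ka a =>
    induction b with
    | zero => simp
    | add b b' hb hb' =>
      simp only [add_mul, mul_add]
      linear_combination (norm := module) hb + hb'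
    | tmul kb b =>
      induction c with
      | zero => simp
      | add c c' hc hc' =>
        simp only [add_mul, mul_add]
        linear_combination (norm := module) hc + hc'
      | tmul kc c =>
        induction d with
        | zero => simp
        | add d d' hd hd' =>
          simp only [add_mul, mul_add]
          linear_combination (norm := module) hd + hd'
        | tmul kd d =>
          simp only [Algebra.TensorProduct.tmul_mul_tmul]
          have e1 : kb * kc * kd * ka = ka * kb * kd * kc := by ring
          have e2 : kc * ka * kd * kb = ka * kb * kd * kc := by ring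
          have e3 : ka * kb * (kc * kd) = ka * kb * kd * kc := by ring
          have e4 : kb * kc * (ka * kd) = ka * kb * kd * kc := by ring
          have e5 : kc * ka * (kb * kd) = ka * kb * kd * kc := by ring
          rw [e1, e2, e3, e4, e5, ← TensorProduct.tmul_add, ← TensorProduct.tmul_add,
            ← TensorProduct.tmul_add, ← TensorProduct.tmul_add, lin3 F h2 hJ a b c d]

theorem BaseChange_lin2 (h2 : (2 : F) ≠ 0) (hJ : IsJordan J) (a c d : K ⊗[F] J) :
    ((a * a) * d) * c + (2 : ℤ) • (((a * c) * d) * a) =
      (a * a) * (d * c) + (2 : ℤ) • ((a * c) * (d * a)) := by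
  induction a with
  | zero => simp
  | add a a' ha ha' =>
    have h3 := BaseChange_lin3 F K J h2 hJ a a' c d
    have e1 : a' * a = a * a' := BaseChange_comm F K J _ _
    have e2 : c * a = a * c := BaseChange_comm F K J _ _
    have e3 : c * d = d * c := BaseChange_comm F K J _ _
    have e4 : a * d = d * a := BaseChange_comm F K J _ _
    have e5 : a' * d = d * a' := BaseChange_comm F K J _ _
    rw [e2, e3, e4, e5] at h3
    simp only [add_mul, mul_add, e1]
    linear_combination (norm := module) ha + ha' + (2 : ℤ) • h3
  | tmul ka a =>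
    induction c with
    | zero => simp
    | add c c' hc hc' =>
      simp only [add_mul, mul_add]
      linear_combination (norm := module) hc + hc'
    | tmul kc c =>
      induction d with
      | zero => simp
      | add d d' hd hd' =>
        simp only [add_mul, mul_add]
        linear_combination (norm := module) hd + hd'
      | tmul kd d =>
        have h := lin2 F h2 hJ a c d
        simp only [Algebra.TensorProduct.tmul_mul_tmul]
        have e1 : ka * kc * kd * ka = ka * ka * kd * kc := by ring
        have e2 : ka * ka * (kd * kc) = ka * ka * kd * kc := by ring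
        have e3 : ka * kc * (kd * ka) = ka * ka * kd * kc := by ring
        rw [e1, e2, e3, ← TensorProduct.tmul_smul, ← TensorProduct.tmul_smul,
          ← TensorProduct.tmul_add, ← TensorProduct.tmul_add, h]

theorem BaseChange_jordan (h2 : (2 : F) ≠ 0) (hJ : IsJordan J) (x y : K ⊗[F] J) :
    ((x * x) * y) * x = (x * x) * (y * x) := by
  induction x with
  | zero => simp
  | add a a' ha ha' =>
    have h1 := BaseChange_lin2 F K J h2 hJ a a' y
    have h3 := BaseChange_lin2 F K J h2 hJ a' a y
    have e1 : a' * a = a * a' := BaseChange_comm F K J _ _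
    rw [e1] at h3
    simp only [add_mul, mul_add, e1]
    linear_combination (norm := module) ha + ha' + h1 + h3
  | tmul ka a =>
    induction y with
    | zero => simp
    | add y y' hy hy' =>
      simp only [add_mul, mul_add]
      linear_combination (norm := module) hy + hy'
    | tmul ky y =>
      simp only [Algebra.TensorProduct.tmul_mul_tmul]
      have e1 : ka * ka * (ky * ka) = ka * ka * ky * ka := by ring
      rw [e1, hJ a y]

theorem BaseChange_mul_mem {P Q R : Submodule F J} (h : ∀ p ∈ P, ∀ q ∈ Q, p * q ∈ R)
    {a b : K ⊗[F] J} (ha : a ∈ P.baseChange K) (hb : b ∈ Q.baseChange K) :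
    a * b ∈ R.baseChange K := by
  rw [Submodule.baseChange_eq_span] at ha hb
  induction ha using Submodule.span_induction with
  | zero => simp
  | add x y _ _ hx hy => rw [add_mul]; exact Submodule.add_mem _ hx hy
  | smul c x _ hx => rw [smul_mul_assoc]; exact Submodule.smul_mem _ _ hx
  | mem x hx =>
    obtain ⟨p, hp, rfl⟩ := hx
    induction hb using Submodule.span_induction with
    | zero => simp
    | add x y _ _ hx hy => rw [mul_add]; exact Submodule.add_mem _ hx hy
    | smul c x _ hx => rw [mul_smul_comm]; exact Submodule.smul_mem _ _ hx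
    | mem y hy =>
      obtain ⟨q, hq, rfl⟩ := hy
      simp only [TensorProduct.mk_apply, Algebra.TensorProduct.tmul_mul_tmul]
      exact Submodule.tmul_mem_baseChange_of_mem _ (h p hp q hq)

attribute [local instance] BaseChange_inst in
theorem BaseChange_jpow (n : ℕ) :
    jpow K (K ⊗[F] J) n ≤ (jpow F J n).baseChange K := by
  induction n using Nat.strong_induction_on with
  | _ n ih =>
    rcases Nat.lt_or_ge n 2 with hn | hn
    · have h : jpow F J n = ⊤ := by
        interval_cases n
        · exact jpow_zero
        · exact jpow_one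
      rw [h, Submodule.baseChange_top]
      exact le_top
    · refine jpow_le_of hn _ ?_
      intro i j hi hj hij a ha b hb
      refine BaseChange_mul_mem F K J (P := jpow F J i) (Q := jpow F J j) ?_
        (ih i (by omega) ha) (ih j (by omega) hb)
      intro p hp q hq
      rw [← hij]
      exact mul_mem_jpow hp hq

end BaseChangeAux

theorem special_of_algClosed
    (H : ∀ (K : Type u) [Field K] [IsAlgClosed K] (J' : Type u) [NonUnitalNonAssocCommRing J']
      [Module K J'] [IsScalarTower K J' J'] [SMulCommClass K J' J'] [Module.Finite K J'],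
      (2 : K) ≠ 0 → IsJordan J' → IsNilpotentAlg K J' → Module.finrank K J' ≤ 11 →
      IsSpecial.{u, u, u} K J')
    (F : Type u) [Field F] (J : Type u) [NonUnitalNonAssocCommRing J] [Module F J]
    [IsScalarTower F J J] [SMulCommClass F J J] [Module.Finite F J] (h2 : (2 : F) ≠ 0)
    (hJ : IsJordan J) (hn : IsNilpotentAlg F J) (hd : Module.finrank F J ≤ 11) :
    IsSpecial.{u, u, u} F J := by
  let K := AlgebraicClosure F
  let : NonUnitalNonAssocCommRing (K ⊗[F] J) := BaseChange_inst F K J
  have h2K : (2 : K) ≠ 0 := by
    have : (algebraMap F K) 2 ≠ 0 := (map_ne_zero (algebraMap F K)).mpr h2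
    rwa [map_ofNat] at this
  obtain ⟨A, iA, iM, iT, iC, f, hf, hmul⟩ := H K (K ⊗[F] J) h2K
    (BaseChange_jordan F K J h2 hJ)
    (by
      obtain ⟨n, h1, hb⟩ := hn
      refine ⟨n, h1, ?_⟩
      have h := BaseChange_jpow F K J n
      rw [hb, Submodule.baseChange_bot] at h
      exact le_bot_iff.mp h)
    (by rw [Module.finrank_baseChange]; exact hd)
  let iF : Module F A := Module.compHom A (algebraMap F K)
  have hsm : ∀ (c : F) (a : A), c • a = (algebraMap F K c) • a := fun _ _ => rfl
  refine ⟨A, iA, iF, ⟨fun c a b => ?_⟩, ⟨fun c a b => ?_⟩,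
    { toFun := fun x => f (1 ⊗ₜ[F] x), map_add' := fun x y => ?_, map_smul' := fun c x => ?_ },
    fun x y hxy => ?_, fun a b => ?_⟩
  · simp only [hsm, smul_eq_mul]
    exact smul_mul_assoc _ _ _
  · simp only [hsm, smul_eq_mul]
    exact (mul_smul_comm _ _ _).symm
  · rw [TensorProduct.tmul_add, map_add]
  · rw [hsm, RingHom.id_apply, ← map_smul, TensorProduct.smul_tmul', smul_eq_mul, mul_one,
      TensorProduct.tmul_smul, TensorProduct.smul_tmul', Algebra.smul_def, mul_one]
  · have h := hf hxy
    exact Module.Flat.tensorProduct_mk_injective F J K h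
  · change f (1 ⊗ₜ[F] (a * b)) = (2 : F)⁻¹ • (f (1 ⊗ₜ[F] a) * f (1 ⊗ₜ[F] b) +
      f (1 ⊗ₜ[F] b) * f (1 ⊗ₜ[F] a))
    have h := hmul (1 ⊗ₜ[F] a) (1 ⊗ₜ[F] b)
    have e : (1 ⊗ₜ[F] a : K ⊗[F] J) * (1 ⊗ₜ[F] b) = 1 ⊗ₜ[F] (a * b) := by
      rw [Algebra.TensorProduct.tmul_mul_tmul, mul_one]
    rw [e] at h
    rw [h, hsm]
    congr 1
    rw [map_inv₀, map_ofNat]

end JD
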