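import Pool.Agent.H8.JD.C5Tab

set_option autoImplicit false
set_option linter.unusedVariables false

/-! # JD class 5: rows in the normal form (generated) -/

namespace JD

universe u v

section

variable {F : Type u} [Field F] (val : JM → F)

theorem funext3 {α : Type*} (f g : Fin 3 → α) (h0 : f 0 = g 0) (h1 : f 1 = g 1)
    (h2 : f 2 = g 2) : f = g := by
  funext w
  match w with
  | 0 => exact h0
  | 1 => exact h1
  | 2 => exact h2

theorem row_sx (h2 : (2 : F) ≠ 0) (μ c : ℤ) (τ : F) (h : AllId val τ (id_sx μ c))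
    (hu : val (.m js (.m jq (.v 2))) - val (.m jq (.m js (.v 2))) = 4) :
    rowT val (.m js (.v 0)) = (vV val jA, (μ : F) • vV val jA, vV val jB - (2 : F) • va val, vV val jA 0, vV val jB 0 - 2 * va val 0, vV val jD 0) := by
  simp only [AllId, id_sx, List.map_cons, List.map_nil, List.sum_cons, List.sum_nil] at h
  obtain ⟨e1, e2, e3, e4, e5, e6, e7, e8, e9, e10, e11, e12, -⟩ := h
  push_cast at e1 e2 e3 e4 e5 e6 e7 e8 e9 e10 e11 e12
  refine Prod.ext (funext3 _ _ ?_ ?_ ?_) (Prod.ext (funext3 _ _ ?_ ?_ ?_)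
    (Prod.ext (funext3 _ _ ?_ ?_ ?_) (Prod.ext ?_ (Prod.ext ?_ ?_))))
  · simp only [rowT, vV, va, vb, vg, Pi.sub_apply, Pi.smul_apply, Pi.add_apply, Pi.zero_apply, smul_eq_mul]
    linear_combination e1
  · simp only [rowT, vV, va, vb, vg, Pi.sub_apply, Pi.smul_apply, Pi.add_apply, Pi.zero_apply, smul_eq_mul]
    linear_combination e2
  · simp only [rowT, vV, va, vb, vg, Pi.sub_apply, Pi.smul_apply, Pi.add_apply, Pi.zero_apply, smul_eq_mul]
    linear_combination e3
  · simp only [rowT, vV, va, vb, vg, Pi.sub_apply, Pi.smul_apply, Pi.add_apply, Pi.zero_apply, smul_eq_mul]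
    linear_combination e4
  · simp only [rowT, vV, va, vb, vg, Pi.sub_apply, Pi.smul_apply, Pi.add_apply, Pi.zero_apply, smul_eq_mul]
    linear_combination e5
  · simp only [rowT, vV, va, vb, vg, Pi.sub_apply, Pi.smul_apply, Pi.add_apply, Pi.zero_apply, smul_eq_mul]
    linear_combination e6
  · simp only [rowT, vV, va, vb, vg, Pi.sub_apply, Pi.smul_apply, Pi.add_apply, Pi.zero_apply, smul_eq_mul]
    linear_combination e7
  · simp only [rowT, vV, va, vb, vg, Pi.sub_apply, Pi.smul_apply, Pi.add_apply, Pi.zero_apply, smul_eq_mul]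
    linear_combination e8
  · simp only [rowT, vV, va, vb, vg, Pi.sub_apply, Pi.smul_apply, Pi.add_apply, Pi.zero_apply, smul_eq_mul]
    linear_combination e9
  · simp only [rowT, vV, va, vb, vg, Pi.sub_apply, Pi.smul_apply, Pi.add_apply, Pi.zero_apply, smul_eq_mul]
    linear_combination e10
  · simp only [rowT, vV, va, vb, vg, Pi.sub_apply, Pi.smul_apply, Pi.add_apply, Pi.zero_apply, smul_eq_mul]
    linear_combination e11
  · simp only [rowT, vV, va, vb, vg, Pi.sub_apply, Pi.smul_apply, Pi.add_apply, Pi.zero_apply, smul_eq_mul]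
    linear_combination e12

theorem row_sl (h2 : (2 : F) ≠ 0) (μ c : ℤ) (τ : F) (h : AllId val τ (id_sl μ c))
    (hu : val (.m js (.m jq (.v 2))) - val (.m jq (.m js (.v 2))) = 4) :
    rowT val (.m js (.v 1)) = ((μ : F) • vV val jA, vV val jD, - (2 : F) • vb val (μ : F), vV val jA 1, vV val jB 1 - 4 * (μ : F) * va val 0, vV val jD 1) := by
  simp only [AllId, id_sl, List.map_cons, List.map_nil, List.sum_cons, List.sum_nil] at h
  obtain ⟨e1, e2, e3, e4, e5, e6, e7, e8, e9, e10, e11, e12, -⟩ := h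
  push_cast at e1 e2 e3 e4 e5 e6 e7 e8 e9 e10 e11 e12
  refine Prod.ext (funext3 _ _ ?_ ?_ ?_) (Prod.ext (funext3 _ _ ?_ ?_ ?_)
    (Prod.ext (funext3 _ _ ?_ ?_ ?_) (Prod.ext ?_ (Prod.ext ?_ ?_))))
  · simp only [rowT, vV, va, vb, vg, Pi.sub_apply, Pi.smul_apply, Pi.add_apply, Pi.zero_apply, smul_eq_mul]
    linear_combination e1
  · simp only [rowT, vV, va, vb, vg, Pi.sub_apply, Pi.smul_apply, Pi.add_apply, Pi.zero_apply, smul_eq_mul]
    linear_combination e2
  · simp only [rowT, vV, va, vb, vg, Pi.sub_apply, Pi.smul_apply, Pi.add_apply, Pi.zero_apply, smul_eq_mul]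
    linear_combination e3
  · simp only [rowT, vV, va, vb, vg, Pi.sub_apply, Pi.smul_apply, Pi.add_apply, Pi.zero_apply, smul_eq_mul]
    linear_combination e4
  · simp only [rowT, vV, va, vb, vg, Pi.sub_apply, Pi.smul_apply, Pi.add_apply, Pi.zero_apply, smul_eq_mul]
    linear_combination e5
  · simp only [rowT, vV, va, vb, vg, Pi.sub_apply, Pi.smul_apply, Pi.add_apply, Pi.zero_apply, smul_eq_mul]
    linear_combination e6
  · simp only [rowT, vV, va, vb, vg, Pi.sub_apply, Pi.smul_apply, Pi.add_apply, Pi.zero_apply, smul_eq_mul]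
    linear_combination e7
  · simp only [rowT, vV, va, vb, vg, Pi.sub_apply, Pi.smul_apply, Pi.add_apply, Pi.zero_apply, smul_eq_mul]
    linear_combination e8
  · simp only [rowT, vV, va, vb, vg, Pi.sub_apply, Pi.smul_apply, Pi.add_apply, Pi.zero_apply, smul_eq_mul]
    linear_combination e9
  · simp only [rowT, vV, va, vb, vg, Pi.sub_apply, Pi.smul_apply, Pi.add_apply, Pi.zero_apply, smul_eq_mul]
    linear_combination e10
  · simp only [rowT, vV, va, vb, vg, Pi.sub_apply, Pi.smul_apply, Pi.add_apply, Pi.zero_apply, smul_eq_mul]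
    linear_combination e11
  · simp only [rowT, vV, va, vb, vg, Pi.sub_apply, Pi.smul_apply, Pi.add_apply, Pi.zero_apply, smul_eq_mul]
    linear_combination e12

theorem row_sz (h2 : (2 : F) ≠ 0) (μ c : ℤ) (τ : F) (h : AllId val τ (id_sz μ c))
    (hu : val (.m js (.m jq (.v 2))) - val (.m jq (.m js (.v 2))) = 4) :
    rowT val (.m js (.v 2)) = (vV val jB, 0, (c : F) • vV val jD - (2 : F) • vg val, vV val jA 2 + 4 * va val 0, vV val jB 2, vV val jD 2) := by
  simp only [AllId, id_sz, List.map_cons, List.map_nil, List.sum_cons, List.sum_nil] at h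
  obtain ⟨e1, e2, e3, e4, e5, e6, e7, e8, e9, e10, e11, e12, -⟩ := h
  push_cast at e1 e2 e3 e4 e5 e6 e7 e8 e9 e10 e11 e12
  refine Prod.ext (funext3 _ _ ?_ ?_ ?_) (Prod.ext (funext3 _ _ ?_ ?_ ?_)
    (Prod.ext (funext3 _ _ ?_ ?_ ?_) (Prod.ext ?_ (Prod.ext ?_ ?_))))
  · simp only [rowT, vV, va, vb, vg, Pi.sub_apply, Pi.smul_apply, Pi.add_apply, Pi.zero_apply, smul_eq_mul]
    linear_combination e1
  · simp only [rowT, vV, va, vb, vg, Pi.sub_apply, Pi.smul_apply, Pi.add_apply, Pi.zero_apply, smul_eq_mul]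
    linear_combination e2
  · simp only [rowT, vV, va, vb, vg, Pi.sub_apply, Pi.smul_apply, Pi.add_apply, Pi.zero_apply, smul_eq_mul]
    linear_combination e3
  · simp only [rowT, vV, va, vb, vg, Pi.sub_apply, Pi.smul_apply, Pi.add_apply, Pi.zero_apply, smul_eq_mul]
    linear_combination e4
  · simp only [rowT, vV, va, vb, vg, Pi.sub_apply, Pi.smul_apply, Pi.add_apply, Pi.zero_apply, smul_eq_mul]
    linear_combination e5
  · simp only [rowT, vV, va, vb, vg, Pi.sub_apply, Pi.smul_apply, Pi.add_apply, Pi.zero_apply, smul_eq_mul]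
    linear_combination e6
  · simp only [rowT, vV, va, vb, vg, Pi.sub_apply, Pi.smul_apply, Pi.add_apply, Pi.zero_apply, smul_eq_mul]
    linear_combination e7
  · simp only [rowT, vV, va, vb, vg, Pi.sub_apply, Pi.smul_apply, Pi.add_apply, Pi.zero_apply, smul_eq_mul]
    linear_combination e8
  · simp only [rowT, vV, va, vb, vg, Pi.sub_apply, Pi.smul_apply, Pi.add_apply, Pi.zero_apply, smul_eq_mul]
    linear_combination e9
  · simp only [rowT, vV, va, vb, vg, Pi.sub_apply, Pi.smul_apply, Pi.add_apply, Pi.zero_apply, smul_eq_mul]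
    linear_combination e10
  · simp only [rowT, vV, va, vb, vg, Pi.sub_apply, Pi.smul_apply, Pi.add_apply, Pi.zero_apply, smul_eq_mul]
    linear_combination e11
  · simp only [rowT, vV, va, vb, vg, Pi.sub_apply, Pi.smul_apply, Pi.add_apply, Pi.zero_apply, smul_eq_mul]
    linear_combination e12

theorem row_mx (h2 : (2 : F) ≠ 0) (μ c : ℤ) (τ : F) (h : AllId val τ (id_mx μ c))
    (hu : val (.m js (.m jq (.v 2))) - val (.m jq (.m js (.v 2))) = 4) :
    rowT val (.m jm (.v 0)) = (vV val jB + va val, (μ : F) • vV val jB + (2 * (μ : F)) • va val, vV val jC, vV val jB 0, vV val jC 0 - (vg val 0 + va val 2), vV val jE 0) := by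
  simp only [AllId, id_mx, List.map_cons, List.map_nil, List.sum_cons, List.sum_nil] at h
  obtain ⟨e1, e2, e3, e4, e5, e6, e7, e8, e9, e10, e11, e12, -⟩ := h
  push_cast at e1 e2 e3 e4 e5 e6 e7 e8 e9 e10 e11 e12
  refine Prod.ext (funext3 _ _ ?_ ?_ ?_) (Prod.ext (funext3 _ _ ?_ ?_ ?_)
    (Prod.ext (funext3 _ _ ?_ ?_ ?_) (Prod.ext ?_ (Prod.ext ?_ ?_))))
  · simp only [rowT, vV, va, vb, vg, Pi.sub_apply, Pi.smul_apply, Pi.add_apply, Pi.zero_apply, smul_eq_mul]
    linear_combination e1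
  · simp only [rowT, vV, va, vb, vg, Pi.sub_apply, Pi.smul_apply, Pi.add_apply, Pi.zero_apply, smul_eq_mul]
    linear_combination e2
  · simp only [rowT, vV, va, vb, vg, Pi.sub_apply, Pi.smul_apply, Pi.add_apply, Pi.zero_apply, smul_eq_mul]
    linear_combination e3
  · simp only [rowT, vV, va, vb, vg, Pi.sub_apply, Pi.smul_apply, Pi.add_apply, Pi.zero_apply, smul_eq_mul]
    linear_combination e4
  · simp only [rowT, vV, va, vb, vg, Pi.sub_apply, Pi.smul_apply, Pi.add_apply, Pi.zero_apply, smul_eq_mul]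
    linear_combination e5
  · simp only [rowT, vV, va, vb, vg, Pi.sub_apply, Pi.smul_apply, Pi.add_apply, Pi.zero_apply, smul_eq_mul]
    linear_combination e6
  · simp only [rowT, vV, va, vb, vg, Pi.sub_apply, Pi.smul_apply, Pi.add_apply, Pi.zero_apply, smul_eq_mul]
    linear_combination e7
  · simp only [rowT, vV, va, vb, vg, Pi.sub_apply, Pi.smul_apply, Pi.add_apply, Pi.zero_apply, smul_eq_mul]
    linear_combination e8
  · simp only [rowT, vV, va, vb, vg, Pi.sub_apply, Pi.smul_apply, Pi.add_apply, Pi.zero_apply, smul_eq_mul]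
    linear_combination e9
  · simp only [rowT, vV, va, vb, vg, Pi.sub_apply, Pi.smul_apply, Pi.add_apply, Pi.zero_apply, smul_eq_mul]
    linear_combination e10
  · simp only [rowT, vV, va, vb, vg, Pi.sub_apply, Pi.smul_apply, Pi.add_apply, Pi.zero_apply, smul_eq_mul]
    linear_combination e11
  · simp only [rowT, vV, va, vb, vg, Pi.sub_apply, Pi.smul_apply, Pi.add_apply, Pi.zero_apply, smul_eq_mul]
    linear_combination e12

theorem row_ml (h2 : (2 : F) ≠ 0) (μ c : ℤ) (τ : F) (h : AllId val τ (id_ml μ c))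
    (hu : val (.m js (.m jq (.v 2))) - val (.m jq (.m js (.v 2))) = 4) :
    rowT val (.m jm (.v 1)) = ((μ : F) • vV val jB + vb val (μ : F), vV val jE + (2 * (μ : F)) • vb val (μ : F), 0, vV val jB 1, vV val jC 1 - 2 * (μ : F) * (vg val 0 + va val 2), vV val jE 1) := by
  simp only [AllId, id_ml, List.map_cons, List.map_nil, List.sum_cons, List.sum_nil] at h
  obtain ⟨e1, e2, e3, e4, e5, e6, e7, e8, e9, e10, e11, e12, -⟩ := h
  push_cast at e1 e2 e3 e4 e5 e6 e7 e8 e9 e10 e11 e12
  refine Prod.ext (funext3 _ _ ?_ ?_ ?_) (Prod.ext (funext3 _ _ ?_ ?_ ?_)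
    (Prod.ext (funext3 _ _ ?_ ?_ ?_) (Prod.ext ?_ (Prod.ext ?_ ?_))))
  · simp only [rowT, vV, va, vb, vg, Pi.sub_apply, Pi.smul_apply, Pi.add_apply, Pi.zero_apply, smul_eq_mul]
    linear_combination e1
  · simp only [rowT, vV, va, vb, vg, Pi.sub_apply, Pi.smul_apply, Pi.add_apply, Pi.zero_apply, smul_eq_mul]
    linear_combination e2
  · simp only [rowT, vV, va, vb, vg, Pi.sub_apply, Pi.smul_apply, Pi.add_apply, Pi.zero_apply, smul_eq_mul]
    linear_combination e3
  · simp only [rowT, vV, va, vb, vg, Pi.sub_apply, Pi.smul_apply, Pi.add_apply, Pi.zero_apply, smul_eq_mul]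
    linear_combination e4
  · simp only [rowT, vV, va, vb, vg, Pi.sub_apply, Pi.smul_apply, Pi.add_apply, Pi.zero_apply, smul_eq_mul]
    linear_combination e5
  · simp only [rowT, vV, va, vb, vg, Pi.sub_apply, Pi.smul_apply, Pi.add_apply, Pi.zero_apply, smul_eq_mul]
    linear_combination e6
  · simp only [rowT, vV, va, vb, vg, Pi.sub_apply, Pi.smul_apply, Pi.add_apply, Pi.zero_apply, smul_eq_mul]
    linear_combination e7
  · simp only [rowT, vV, va, vb, vg, Pi.sub_apply, Pi.smul_apply, Pi.add_apply, Pi.zero_apply, smul_eq_mul]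
    linear_combination e8
  · simp only [rowT, vV, va, vb, vg, Pi.sub_apply, Pi.smul_apply, Pi.add_apply, Pi.zero_apply, smul_eq_mul]
    linear_combination e9
  · simp only [rowT, vV, va, vb, vg, Pi.sub_apply, Pi.smul_apply, Pi.add_apply, Pi.zero_apply, smul_eq_mul]
    linear_combination e10
  · simp only [rowT, vV, va, vb, vg, Pi.sub_apply, Pi.smul_apply, Pi.add_apply, Pi.zero_apply, smul_eq_mul]
    linear_combination e11
  · simp only [rowT, vV, va, vb, vg, Pi.sub_apply, Pi.smul_apply, Pi.add_apply, Pi.zero_apply, smul_eq_mul]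
    linear_combination e12

theorem row_mz (h2 : (2 : F) ≠ 0) (μ c : ℤ) (τ : F) (h : AllId val τ (id_mz μ c))
    (hu : val (.m js (.m jq (.v 2))) - val (.m jq (.m js (.v 2))) = 4) :
    rowT val (.m jm (.v 2)) = (vV val jC + vg val, (2 * (μ : F)) • vg val, (c : F) • vV val jE, vV val jB 2 + 2 * (vg val 0 + va val 2), vV val jC 2, vV val jE 2) := by
  simp only [AllId, id_mz, List.map_cons, List.map_nil, List.sum_cons, List.sum_nil] at h
  obtain ⟨e1, e2, e3, e4, e5, e6, e7, e8, e9, e10, e11, e12, -⟩ := h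
  push_cast at e1 e2 e3 e4 e5 e6 e7 e8 e9 e10 e11 e12
  refine Prod.ext (funext3 _ _ ?_ ?_ ?_) (Prod.ext (funext3 _ _ ?_ ?_ ?_)
    (Prod.ext (funext3 _ _ ?_ ?_ ?_) (Prod.ext ?_ (Prod.ext ?_ ?_))))
  · simp only [rowT, vV, va, vb, vg, Pi.sub_apply, Pi.smul_apply, Pi.add_apply, Pi.zero_apply, smul_eq_mul]
    linear_combination e1
  · simp only [rowT, vV, va, vb, vg, Pi.sub_apply, Pi.smul_apply, Pi.add_apply, Pi.zero_apply, smul_eq_mul]
    linear_combination e2
  · simp only [rowT, vV, va, vb, vg, Pi.sub_apply, Pi.smul_apply, Pi.add_apply, Pi.zero_apply, smul_eq_mul]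
    linear_combination e3
  · simp only [rowT, vV, va, vb, vg, Pi.sub_apply, Pi.smul_apply, Pi.add_apply, Pi.zero_apply, smul_eq_mul]
    linear_combination e4
  · simp only [rowT, vV, va, vb, vg, Pi.sub_apply, Pi.smul_apply, Pi.add_apply, Pi.zero_apply, smul_eq_mul]
    linear_combination e5
  · simp only [rowT, vV, va, vb, vg, Pi.sub_apply, Pi.smul_apply, Pi.add_apply, Pi.zero_apply, smul_eq_mul]
    linear_combination e6
  · simp only [rowT, vV, va, vb, vg, Pi.sub_apply, Pi.smul_apply, Pi.add_apply, Pi.zero_apply, smul_eq_mul]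
    linear_combination e7
  · simp only [rowT, vV, va, vb, vg, Pi.sub_apply, Pi.smul_apply, Pi.add_apply, Pi.zero_apply, smul_eq_mul]
    linear_combination e8
  · simp only [rowT, vV, va, vb, vg, Pi.sub_apply, Pi.smul_apply, Pi.add_apply, Pi.zero_apply, smul_eq_mul]
    linear_combination e9
  · simp only [rowT, vV, va, vb, vg, Pi.sub_apply, Pi.smul_apply, Pi.add_apply, Pi.zero_apply, smul_eq_mul]
    linear_combination e10
  · simp only [rowT, vV, va, vb, vg, Pi.sub_apply, Pi.smul_apply, Pi.add_apply, Pi.zero_apply, smul_eq_mul]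
    linear_combination e11
  · simp only [rowT, vV, va, vb, vg, Pi.sub_apply, Pi.smul_apply, Pi.add_apply, Pi.zero_apply, smul_eq_mul]
    linear_combination e12

theorem row_qx (h2 : (2 : F) ≠ 0) (μ c : ℤ) (τ : F) (h : AllId val τ (id_qx μ c))
    (hu : val (.m js (.m jq (.v 2))) - val (.m jq (.m js (.v 2))) = 4) :
    rowT val (.m jq (.v 0)) = (vV val jD, (μ : F) • vV val jD, vV val jE, vV val jD 0, vV val jE 0 - 2, vV val jG 0) := by
  simp only [AllId, id_qx, List.map_cons, List.map_nil, List.sum_cons, List.sum_nil] at h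
  obtain ⟨e1, e2, e3, e4, e5, e6, e7, e8, e9, e10, e11, e12, -⟩ := h
  push_cast at e1 e2 e3 e4 e5 e6 e7 e8 e9 e10 e11 e12
  refine Prod.ext (funext3 _ _ ?_ ?_ ?_) (Prod.ext (funext3 _ _ ?_ ?_ ?_)
    (Prod.ext (funext3 _ _ ?_ ?_ ?_) (Prod.ext ?_ (Prod.ext ?_ ?_))))
  · simp only [rowT, vV, va, vb, vg, Pi.sub_apply, Pi.smul_apply, Pi.add_apply, Pi.zero_apply, smul_eq_mul]
    linear_combination e1
  · simp only [rowT, vV, va, vb, vg, Pi.sub_apply, Pi.smul_apply, Pi.add_apply, Pi.zero_apply, smul_eq_mul]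
    linear_combination e2
  · simp only [rowT, vV, va, vb, vg, Pi.sub_apply, Pi.smul_apply, Pi.add_apply, Pi.zero_apply, smul_eq_mul]
    linear_combination e3
  · simp only [rowT, vV, va, vb, vg, Pi.sub_apply, Pi.smul_apply, Pi.add_apply, Pi.zero_apply, smul_eq_mul]
    linear_combination e4
  · simp only [rowT, vV, va, vb, vg, Pi.sub_apply, Pi.smul_apply, Pi.add_apply, Pi.zero_apply, smul_eq_mul]
    linear_combination e5
  · simp only [rowT, vV, va, vb, vg, Pi.sub_apply, Pi.smul_apply, Pi.add_apply, Pi.zero_apply, smul_eq_mul]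
    linear_combination e6
  · simp only [rowT, vV, va, vb, vg, Pi.sub_apply, Pi.smul_apply, Pi.add_apply, Pi.zero_apply, smul_eq_mul]
    linear_combination e7
  · simp only [rowT, vV, va, vb, vg, Pi.sub_apply, Pi.smul_apply, Pi.add_apply, Pi.zero_apply, smul_eq_mul]
    linear_combination e8
  · simp only [rowT, vV, va, vb, vg, Pi.sub_apply, Pi.smul_apply, Pi.add_apply, Pi.zero_apply, smul_eq_mul]
    linear_combination e9
  · simp only [rowT, vV, va, vb, vg, Pi.sub_apply, Pi.smul_apply, Pi.add_apply, Pi.zero_apply, smul_eq_mul]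
    linear_combination e10
  · simp only [rowT, vV, va, vb, vg, Pi.sub_apply, Pi.smul_apply, Pi.add_apply, Pi.zero_apply, smul_eq_mul]
    refine mul_left_cancel₀ h2 ?_
    linear_combination e11 - hu
  · simp only [rowT, vV, va, vb, vg, Pi.sub_apply, Pi.smul_apply, Pi.add_apply, Pi.zero_apply, smul_eq_mul]
    linear_combination e12

theorem row_ql (h2 : (2 : F) ≠ 0) (μ c : ℤ) (τ : F) (h : AllId val τ (id_ql μ c))
    (hu : val (.m js (.m jq (.v 2))) - val (.m jq (.m js (.v 2))) = 4) :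
    rowT val (.m jq (.v 1)) = ((μ : F) • vV val jD, vV val jG, 0, vV val jD 1, vV val jE 1 - 4 * (μ : F), vV val jG 1) := by
  simp only [AllId, id_ql, List.map_cons, List.map_nil, List.sum_cons, List.sum_nil] at h
  obtain ⟨e1, e2, e3, e4, e5, e6, e7, e8, e9, e10, e11, e12, -⟩ := h
  push_cast at e1 e2 e3 e4 e5 e6 e7 e8 e9 e10 e11 e12
  refine Prod.ext (funext3 _ _ ?_ ?_ ?_) (Prod.ext (funext3 _ _ ?_ ?_ ?_)
    (Prod.ext (funext3 _ _ ?_ ?_ ?_) (Prod.ext ?_ (Prod.ext ?_ ?_))))
  · simp only [rowT, vV, va, vb, vg, Pi.sub_apply, Pi.smul_apply, Pi.add_apply, Pi.zero_apply, smul_eq_mul]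
    linear_combination e1
  · simp only [rowT, vV, va, vb, vg, Pi.sub_apply, Pi.smul_apply, Pi.add_apply, Pi.zero_apply, smul_eq_mul]
    linear_combination e2
  · simp only [rowT, vV, va, vb, vg, Pi.sub_apply, Pi.smul_apply, Pi.add_apply, Pi.zero_apply, smul_eq_mul]
    linear_combination e3
  · simp only [rowT, vV, va, vb, vg, Pi.sub_apply, Pi.smul_apply, Pi.add_apply, Pi.zero_apply, smul_eq_mul]
    linear_combination e4
  · simp only [rowT, vV, va, vb, vg, Pi.sub_apply, Pi.smul_apply, Pi.add_apply, Pi.zero_apply, smul_eq_mul]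
    linear_combination e5
  · simp only [rowT, vV, va, vb, vg, Pi.sub_apply, Pi.smul_apply, Pi.add_apply, Pi.zero_apply, smul_eq_mul]
    linear_combination e6
  · simp only [rowT, vV, va, vb, vg, Pi.sub_apply, Pi.smul_apply, Pi.add_apply, Pi.zero_apply, smul_eq_mul]
    linear_combination e7
  · simp only [rowT, vV, va, vb, vg, Pi.sub_apply, Pi.smul_apply, Pi.add_apply, Pi.zero_apply, smul_eq_mul]
    linear_combination e8
  · simp only [rowT, vV, va, vb, vg, Pi.sub_apply, Pi.smul_apply, Pi.add_apply, Pi.zero_apply, smul_eq_mul]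
    linear_combination e9
  · simp only [rowT, vV, va, vb, vg, Pi.sub_apply, Pi.smul_apply, Pi.add_apply, Pi.zero_apply, smul_eq_mul]
    linear_combination e10
  · simp only [rowT, vV, va, vb, vg, Pi.sub_apply, Pi.smul_apply, Pi.add_apply, Pi.zero_apply, smul_eq_mul]
    linear_combination e11 - (μ : F) * hu
  · simp only [rowT, vV, va, vb, vg, Pi.sub_apply, Pi.smul_apply, Pi.add_apply, Pi.zero_apply, smul_eq_mul]
    linear_combination e12

theorem row_qz (h2 : (2 : F) ≠ 0) (μ c : ℤ) (τ : F) (h : AllId val τ (id_qz μ c))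
    (hu : val (.m js (.m jq (.v 2))) - val (.m jq (.m js (.v 2))) = 4) :
    rowT val (.m jq (.v 2)) = (vV val jE, 0, (c : F) • vV val jG, vV val jD 2 + 4, vV val jE 2, vV val jG 2) := by
  simp only [AllId, id_qz, List.map_cons, List.map_nil, List.sum_cons, List.sum_nil] at h
  obtain ⟨e1, e2, e3, e4, e5, e6, e7, e8, e9, e10, e11, e12, -⟩ := h
  push_cast at e1 e2 e3 e4 e5 e6 e7 e8 e9 e10 e11 e12
  refine Prod.ext (funext3 _ _ ?_ ?_ ?_) (Prod.ext (funext3 _ _ ?_ ?_ ?_)
    (Prod.ext (funext3 _ _ ?_ ?_ ?_) (Prod.ext ?_ (Prod.ext ?_ ?_))))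
  · simp only [rowT, vV, va, vb, vg, Pi.sub_apply, Pi.smul_apply, Pi.add_apply, Pi.zero_apply, smul_eq_mul]
    linear_combination e1
  · simp only [rowT, vV, va, vb, vg, Pi.sub_apply, Pi.smul_apply, Pi.add_apply, Pi.zero_apply, smul_eq_mul]
    linear_combination e2
  · simp only [rowT, vV, va, vb, vg, Pi.sub_apply, Pi.smul_apply, Pi.add_apply, Pi.zero_apply, smul_eq_mul]
    linear_combination e3
  · simp only [rowT, vV, va, vb, vg, Pi.sub_apply, Pi.smul_apply, Pi.add_apply, Pi.zero_apply, smul_eq_mul]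
    linear_combination e4
  · simp only [rowT, vV, va, vb, vg, Pi.sub_apply, Pi.smul_apply, Pi.add_apply, Pi.zero_apply, smul_eq_mul]
    linear_combination e5
  · simp only [rowT, vV, va, vb, vg, Pi.sub_apply, Pi.smul_apply, Pi.add_apply, Pi.zero_apply, smul_eq_mul]
    linear_combination e6
  · simp only [rowT, vV, va, vb, vg, Pi.sub_apply, Pi.smul_apply, Pi.add_apply, Pi.zero_apply, smul_eq_mul]
    linear_combination e7
  · simp only [rowT, vV, va, vb, vg, Pi.sub_apply, Pi.smul_apply, Pi.add_apply, Pi.zero_apply, smul_eq_mul]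
    linear_combination e8
  · simp only [rowT, vV, va, vb, vg, Pi.sub_apply, Pi.smul_apply, Pi.add_apply, Pi.zero_apply, smul_eq_mul]
    linear_combination e9
  · simp only [rowT, vV, va, vb, vg, Pi.sub_apply, Pi.smul_apply, Pi.add_apply, Pi.zero_apply, smul_eq_mul]
    linear_combination e10 + hu
  · simp only [rowT, vV, va, vb, vg, Pi.sub_apply, Pi.smul_apply, Pi.add_apply, Pi.zero_apply, smul_eq_mul]
    linear_combination e11
  · simp only [rowT, vV, va, vb, vg, Pi.sub_apply, Pi.smul_apply, Pi.add_apply, Pi.zero_apply, smul_eq_mul]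
    linear_combination e12

theorem rel_R (h2 : (2 : F) ≠ 0) (μ c : ℤ) (h : AllId val (-2) (id_R μ c)) :
    (val (.m js (.m jq (.v 2))) - val (.m jq (.m js (.v 2))) = 4) ∧
    vb val (μ : F) 1 = 1 ∧ vb val (μ : F) 2 + vg val 1 = 0 ∧ vg val 2 = (c : F) ∧
    va val 1 + vb val (μ : F) 0 - 2 * (μ : F) * va val 0 = 0 := by
  simp only [AllId, id_R, List.map_cons, List.map_nil, List.sum_cons, List.sum_nil] at h
  obtain ⟨e1, e2, e3, e4, e5, -⟩ := h
  push_cast at e1 e2 e3 e4 e5
  have h4 : (4 : F) ≠ 0 := by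
    have : (4 : F) = 2 * 2 := by norm_num
    rw [this]; exact mul_ne_zero h2 h2
  have hu : val (.m js (.m jq (.v 2))) - val (.m jq (.m js (.v 2))) = 4 := by
    linear_combination e5
  refine ⟨hu, ?_, ?_, ?_, ?_⟩
  · simp only [vV, va, vb, vg, Pi.sub_apply, Pi.smul_apply, smul_eq_mul]
    refine mul_left_cancel₀ h4 ?_
    linear_combination e1 + hu
  · simp only [vV, va, vb, vg, Pi.sub_apply, Pi.smul_apply, smul_eq_mul]
    linear_combination e2
  · simp only [vV, va, vb, vg, Pi.sub_apply, Pi.smul_apply, smul_eq_mul]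
    refine mul_left_cancel₀ h4 ?_
    linear_combination e3 + (c : F) * hu
  · simp only [vV, va, vb, vg, Pi.sub_apply, Pi.smul_apply, smul_eq_mul]
    linear_combination e4

end

end JD
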