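import Pool.Agent.H8.JD.C5Layer
import Pool.Agent.H8.JD.C5Rows

set_option autoImplicit false

/-!
# JD class 5: lower bounds for the layers in the normal form
-/

namespace JD

universe u v w

/-- `x l + l x - 2 μ x x` -/
def RM0 {F : Type u} [Field F] (μ : F) : Matrix (Fin 3) (Fin 3) F :=
  !![- (2 * μ), 1, 0; 1, 0, 0; 0, 0, 0]

/-- `l z + z l` -/
def RM1 (F : Type u) [Field F] : Matrix (Fin 3) (Fin 3) F := !![0, 0, 0; 0, 0, 1; 0, 1, 0]

/-- `z z - c l l` -/
def RM2 {F : Type u} [Field F] (c : F) : Matrix (Fin 3) (Fin 3) F :=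
  !![0, 0, 0; 0, - c, 0; 0, 0, 1]

section

variable {F : Type u} [Field F]

theorem C5Bound_rel (lam : List (Fin 3) → F) (hrev : ∀ w, lam w.reverse = lam w) (μ c : ℤ)
    (τ : F) (hR0 : InU lam (RM0 (μ : F)) τ) (hR1 : InU lam (RM1 F) 0)
    (hR2 : InU lam (RM2 (c : F)) 0) : RelHyp (relsOf μ c) lam τ := by
  refine ⟨hrev, ?_, ?_⟩
  · intro p q hpq
    rw [← hR0.rel p q hpq]
    simp only [relsOf, kval, RM0, List.getD_cons_zero, List.map_cons, List.map_nil, List.sum_cons,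
      List.sum_nil, Fin.sum_univ_three]
    simp
    ring
  · intro r hr1 hr3 p q hpq
    have hr : r = 1 ∨ r = 2 ∨ r = 3 := by omega
    rcases hr with rfl | rfl | rfl
    · have h := hR1.rel p q hpq
      rw [mul_zero, zero_mul] at h
      rw [← h]
      simp only [relsOf, kval, RM1, List.getD_cons_succ, List.getD_cons_zero, List.map_cons,
        List.map_nil, List.sum_cons, List.sum_nil, Fin.sum_univ_three]
      simp
    · have h := hR2.rel p q hpq
      rw [mul_zero, zero_mul] at h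
      rw [← h]
      simp only [relsOf, kval, RM2, List.getD_cons_succ, List.getD_cons_zero, List.map_cons,
        List.map_nil, List.sum_cons, List.sum_nil, Fin.sum_univ_three]
      simp
      ring
    · simp [relsOf]

variable {J : Type u} [NonUnitalNonAssocCommRing J] [Module F J]

theorem C5Bound_tab (h2 : (2 : F) ≠ 0) {x : Fin 3 → J} {S : Wd → J}
    (hS : SSys F x S) (φ : J →ₗ[F] F) {τ : F} (μ c : ℤ) (hμ : μ = 0 ∨ μ = -1)
    (hc : c = 0 ∨ c = 1) (h : RelHyp (relsOf μ c) (fun w => φ (S w)) τ) :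
    AllId (fun t => φ (t.ev x)) τ (id_sx μ c) ∧ AllId (fun t => φ (t.ev x)) τ (id_sl μ c) ∧
    AllId (fun t => φ (t.ev x)) τ (id_sz μ c) ∧ AllId (fun t => φ (t.ev x)) τ (id_mx μ c) ∧
    AllId (fun t => φ (t.ev x)) τ (id_ml μ c) ∧ AllId (fun t => φ (t.ev x)) τ (id_mz μ c) ∧
    AllId (fun t => φ (t.ev x)) τ (id_qx μ c) ∧ AllId (fun t => φ (t.ev x)) τ (id_ql μ c) ∧
    AllId (fun t => φ (t.ev x)) τ (id_qz μ c) ∧ AllId (fun t => φ (t.ev x)) τ (id_R μ c) := by
  have hh := chkAll_sound h2 hS φ h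
  rcases hμ with rfl | rfl <;> rcases hc with rfl | rfl
  · exact ⟨hh _ _ chk0_sx (by decide +kernel), hh _ _ chk0_sl (by decide +kernel),
      hh _ _ chk0_sz (by decide +kernel), hh _ _ chk0_mx (by decide +kernel),
      hh _ _ chk0_ml (by decide +kernel), hh _ _ chk0_mz (by decide +kernel),
      hh _ _ chk0_qx (by decide +kernel), hh _ _ chk0_ql (by decide +kernel),
      hh _ _ chk0_qz (by decide +kernel), hh _ _ chk0_R (by decide +kernel)⟩
  · exact ⟨hh _ _ chk1_sx (by decide +kernel), hh _ _ chk1_sl (by decide +kernel),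
      hh _ _ chk1_sz (by decide +kernel), hh _ _ chk1_mx (by decide +kernel),
      hh _ _ chk1_ml (by decide +kernel), hh _ _ chk1_mz (by decide +kernel),
      hh _ _ chk1_qx (by decide +kernel), hh _ _ chk1_ql (by decide +kernel),
      hh _ _ chk1_qz (by decide +kernel), hh _ _ chk1_R (by decide +kernel)⟩
  · exact ⟨hh _ _ chk2_sx (by decide +kernel), hh _ _ chk2_sl (by decide +kernel),
      hh _ _ chk2_sz (by decide +kernel), hh _ _ chk2_mx (by decide +kernel),
      hh _ _ chk2_ml (by decide +kernel), hh _ _ chk2_mz (by decide +kernel),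
      hh _ _ chk2_qx (by decide +kernel), hh _ _ chk2_ql (by decide +kernel),
      hh _ _ chk2_qz (by decide +kernel), hh _ _ chk2_R (by decide +kernel)⟩
  · exact ⟨hh _ _ chk3_sx (by decide +kernel), hh _ _ chk3_sl (by decide +kernel),
      hh _ _ chk3_sz (by decide +kernel), hh _ _ chk3_mx (by decide +kernel),
      hh _ _ chk3_ml (by decide +kernel), hh _ _ chk3_mz (by decide +kernel),
      hh _ _ chk3_qx (by decide +kernel), hh _ _ chk3_ql (by decide +kernel),
      hh _ _ chk3_qz (by decide +kernel), hh _ _ chk3_R (by decide +kernel)⟩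

variable [IsScalarTower F J J] [SMulCommClass F J J]

/-- the map `a ↦ (φ (x w * a))_w` -/
def T4 (φ : J →ₗ[F] F) (x : Fin 3 → J) : J →ₗ[F] (Fin 3 → F) where
  toFun a := fun w => φ (x w * a)
  map_add' a b := by funext w; simp [mul_add]
  map_smul' c a := by funext w; simp [mul_smul_comm]

/-- the row map -/
def T3 (φ : J →ₗ[F] F) (x : Fin 3 → J) : J →ₗ[F] RowSp F where
  toFun a := (T4 φ x (x 0 * a), T4 φ x (x 1 * a), T4 φ x (x 2 * a), φ (x 0 * x 0 * a),
    φ (x 0 * x 2 * a), φ (x 1 * x 1 * a))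
  map_add' a b := by simp [mul_add]
  map_smul' c a := by simp [mul_smul_comm]

theorem T4_zero (φ : J →ₗ[F] F) (x : Fin 3 → J) (h6 : jpow F J 6 = ⊥) (a : J)
    (ha : a ∈ jpow F J 5) : T4 φ x a = 0 := by
  funext w
  have : x w * a ∈ jpow F J (1 + 5) :=
    mul_mem_jpow (by rw [jpow_one]; exact Submodule.mem_top) ha
  rw [h6, Submodule.mem_bot] at this
  change φ (x w * a) = 0
  rw [this, map_zero]

theorem C5Bound_mem1 (a : J) : a ∈ jpow F J 1 := by
  rw [jpow_one]; exact Submodule.mem_top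

theorem T3_zero (φ : J →ₗ[F] F) (x : Fin 3 → J) (h6 : jpow F J 6 = ⊥) (a : J)
    (ha : a ∈ jpow F J 4) : T3 φ x a = 0 := by
  have h1 : ∀ i, x i * a ∈ jpow F J 5 := fun i => by
    have := mul_mem_jpow (C5Bound_mem1 (x i)) ha
    exact this
  have h2 : ∀ i j, x i * x j * a = 0 := fun i j => by
    have := mul_mem_jpow (mul_mem_jpow (C5Bound_mem1 (x i)) (C5Bound_mem1 (x j))) ha
    rwa [show 1 + 1 + 4 = 6 from rfl, h6, Submodule.mem_bot] at this
  change (T4 φ x (x 0 * a), T4 φ x (x 1 * a), T4 φ x (x 2 * a), φ (x 0 * x 0 * a),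
    φ (x 0 * x 2 * a), φ (x 1 * x 1 * a)) = 0
  rw [T4_zero φ x h6 _ (h1 0), T4_zero φ x h6 _ (h1 1), T4_zero φ x h6 _ (h1 2), h2, h2, h2,
    map_zero]
  rfl

/-- the vectors in the tables -/
theorem C5Bound_core (h2 : (2 : F) ≠ 0) [Module.Finite F J] {x : Fin 3 → J}
    {S : List (Fin 3) → J} (hS : SSys F x S) (h6 : jpow F J 6 = ⊥) (φ : J →ₗ[F] F)
    (μ c : ℤ) (hμ : μ = 0 ∨ μ = -1) (hc : c = 0 ∨ c = 1)
    (hR0 : InU (fun w => φ (S w)) (RM0 (μ : F)) (-2)) (hR1 : InU (fun w => φ (S w)) (RM1 F) 0)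
    (hR2 : InU (fun w => φ (S w)) (RM2 (c : F)) 0) :
    3 ≤ dlay F J 2 ∧ 5 ≤ dlay F J 3 + dlay F J 4 := by
  have hrel := C5Bound_rel _ (fun w => by simp only [hS.rev]) μ c (-2) hR0 hR1 hR2
  obtain ⟨tsx, tsl, tsz, tmx, tml, tmz, tqx, tql, tqz, tR⟩ := C5Bound_tab h2 hS φ μ c hμ hc hrel
  set val : JM → F := fun t => φ (t.ev x) with hval
  obtain ⟨hu, r1, r2, r3, r4⟩ := rel_R val h2 μ c tR
  have hmem1 : ∀ a : J, a ∈ jpow F J 1 := C5Bound_mem1
  have hmem2 : ∀ a b : J, a * b ∈ jpow F J 2 := fun a b => mul_mem_jpow (hmem1 a) (hmem1 b)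
  set s := x 0 * x 0 with hs
  set m := x 0 * x 2 with hm
  set q := x 1 * x 1 with hq
  set A := vV val jA
  set B := vV val jB
  set C := vV val jC
  set D := vV val jD
  set E := vV val jE
  set G := vV val jG
  set a := va val
  set b := vb val (μ : F)
  set g := vg val
  -- the rows
  have e0 : T3 φ x (s * x 0) = rows9 (μ : F) (c : F) A B C D E G a b g 0 :=
    row_sx val h2 μ c (-2) tsx hu
  have e1 : T3 φ x (s * x 1) = rows9 (μ : F) (c : F) A B C D E G a b g 1 :=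
    row_sl val h2 μ c (-2) tsl hu
  have e2 : T3 φ x (s * x 2) = rows9 (μ : F) (c : F) A B C D E G a b g 2 :=
    row_sz val h2 μ c (-2) tsz hu
  have e3 : T3 φ x (m * x 0) = rows9 (μ : F) (c : F) A B C D E G a b g 3 :=
    row_mx val h2 μ c (-2) tmx hu
  have e4 : T3 φ x (m * x 1) = rows9 (μ : F) (c : F) A B C D E G a b g 4 :=
    row_ml val h2 μ c (-2) tml hu
  have e5 : T3 φ x (m * x 2) = rows9 (μ : F) (c : F) A B C D E G a b g 5 :=
    row_mz val h2 μ c (-2) tmz hu
  have e6 : T3 φ x (q * x 0) = rows9 (μ : F) (c : F) A B C D E G a b g 6 :=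
    row_qx val h2 μ c (-2) tqx hu
  have e7 : T3 φ x (q * x 1) = rows9 (μ : F) (c : F) A B C D E G a b g 7 :=
    row_ql val h2 μ c (-2) tql hu
  have e8 : T3 φ x (q * x 2) = rows9 (μ : F) (c : F) A B C D E G a b g 8 :=
    row_qz val h2 μ c (-2) tqz hu
  refine ⟨?_, ?_⟩
  · -- `d_2 ≥ 3`
    have hind : LinearIndependent F ![(jpow F J 3).mkQ s, (jpow F J 3).mkQ m,
        (jpow F J 3).mkQ q] := by
      rw [Fintype.linearIndependent_iff]
      intro σ hσ
      simp only [Fin.sum_univ_three, Matrix.cons_val_zero, Matrix.cons_val_one,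
        Matrix.cons_val] at hσ
      rw [← map_smul, ← map_smul, ← map_smul, ← map_add, ← map_add, Submodule.mkQ_apply,
        Submodule.Quotient.mk_eq_zero] at hσ
      set d := σ 0 • s + σ 1 • m + σ 2 • q with hd
      have k1 : ∀ i, T3 φ x (d * x i) = 0 := fun i =>
        T3_zero φ x h6 _ (mul_mem_jpow hσ (hmem1 _))
      have k2 : T4 φ x (d * s) = 0 := T4_zero φ x h6 _ (mul_mem_jpow hσ (hmem2 _ _))
      have k3 : σ 0 • A + σ 1 • B + σ 2 • D = 0 := by
        rw [← k2, hd, add_mul, add_mul, smul_mul_assoc, smul_mul_assoc, smul_mul_assoc,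
          map_add, map_add, map_smul, map_smul, map_smul, mul_comm m s]
        rfl
      have k4 : σ 0 • rows9 (μ : F) (c : F) A B C D E G a b g 1 +
          σ 1 • rows9 (μ : F) (c : F) A B C D E G a b g 4 +
          σ 2 • rows9 (μ : F) (c : F) A B C D E G a b g 7 = 0 := by
        rw [← e1, ← e4, ← e7, ← k1 1, hd, add_mul, add_mul, smul_mul_assoc, smul_mul_assoc,
          smul_mul_assoc, map_add, map_add, map_smul, map_smul, map_smul]
      have k5 : σ 0 • rows9 (μ : F) (c : F) A B C D E G a b g 2 +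
          σ 1 • rows9 (μ : F) (c : F) A B C D E G a b g 5 +
          σ 2 • rows9 (μ : F) (c : F) A B C D E G a b g 8 = 0 := by
        rw [← e2, ← e5, ← e8, ← k1 2, hd, add_mul, add_mul, smul_mul_assoc, smul_mul_assoc,
          smul_mul_assoc, map_add, map_add, map_smul, map_smul, map_smul]
      have s0 : σ 0 = 0 := by
        have h : σ 0 * (-2 * b 1) + σ 1 * 0 + σ 2 * 0 = 0 :=
          congrFun (congrArg (fun r : RowSp F => r.2.2.1) k4) 1
        rw [r1] at h
        have h' : σ 0 * 2 = 0 := by linear_combination -h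
        exact (mul_eq_zero.1 h').resolve_right h2
      have s1 : σ 1 = 0 := by
        have h : σ 0 * ((μ : F) * A 1) + σ 1 * ((μ : F) * B 1 + b 1) + σ 2 * ((μ : F) * D 1) = 0 :=
          congrFun (congrArg (fun r : RowSp F => r.1) k4) 1
        have h' : σ 0 * A 1 + σ 1 * B 1 + σ 2 * D 1 = 0 := congrFun k3 1
        rw [r1] at h
        rw [s0] at h h'
        linear_combination h - (μ : F) * h'
      have s2 : σ 2 = 0 := by
        have h : σ 0 * (A 2 + 4 * a 0) + σ 1 * (B 2 + 2 * (g 0 + a 2)) + σ 2 * (D 2 + 4) = 0 :=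
          congrArg (fun r : RowSp F => r.2.2.2.1) k5
        have h' : σ 0 * A 2 + σ 1 * B 2 + σ 2 * D 2 = 0 := congrFun k3 2
        rw [s0, s1] at h h'
        have h'' : σ 2 * 4 = 0 := by linear_combination h - h'
        refine (mul_eq_zero.1 h'').resolve_right ?_
        have : (4 : F) = 2 * 2 := by norm_num
        rw [this]; exact mul_ne_zero h2 h2
      intro i
      match i with
      | 0 => exact s0
      | 1 => exact s1
      | 2 => exact s2
    have h := finrank_span_le_dlay (F := F) (J := J) 2 (jpow F J 3).mkQ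
      (fun a ha => by
        rw [Submodule.mkQ_apply]
        exact (Submodule.Quotient.mk_eq_zero _).2 ha)
      (Set.range ![(jpow F J 3).mkQ s, (jpow F J 3).mkQ m, (jpow F J 3).mkQ q]) (by
        rintro _ ⟨i, rfl⟩
        match i with
        | 0 => exact ⟨s, hmem2 _ _, rfl⟩
        | 1 => exact ⟨m, hmem2 _ _, rfl⟩
        | 2 => exact ⟨q, hmem2 _ _, rfl⟩)
    rw [finrank_span_eq_card hind] at h
    simpa using h
  · have h3 := finrank_span_le_dlay (F := F) (J := J) 3 (T3 φ x) (T3_zero φ x h6)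
      (Set.range (rows9 (μ : F) (c : F) A B C D E G a b g)) (by
        have hm3 : ∀ i j k : Fin 3, x i * x j * x k ∈ jpow F J 3 := fun i j k =>
          mul_mem_jpow (hmem2 _ _) (hmem1 _)
        rintro _ ⟨i, rfl⟩
        match i with
        | 0 => exact ⟨_, hm3 _ _ _, e0⟩
        | 1 => exact ⟨_, hm3 _ _ _, e1⟩
        | 2 => exact ⟨_, hm3 _ _ _, e2⟩
        | 3 => exact ⟨_, hm3 _ _ _, e3⟩
        | 4 => exact ⟨_, hm3 _ _ _, e4⟩
        | 5 => exact ⟨_, hm3 _ _ _, e5⟩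
        | 6 => exact ⟨_, hm3 _ _ _, e6⟩
        | 7 => exact ⟨_, hm3 _ _ _, e7⟩
        | 8 => exact ⟨_, hm3 _ _ _, e8⟩)
    have h4 := finrank_span_le_dlay (F := F) (J := J) 4 (T4 φ x) (T4_zero φ x h6)
      (Set.range ![A, B, C, D, E, G, a, b, g]) (by
        have hm4 : ∀ i j k l : Fin 3, x i * x j * (x k * x l) ∈ jpow F J 4 := fun i j k l =>
          mul_mem_jpow (hmem2 _ _) (hmem2 _ _)
        have hm4' : ∀ i j k l : Fin 3, x i * (x j * x k * x l) ∈ jpow F J 4 := fun i j k l =>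
          mul_mem_jpow (hmem1 _) (mul_mem_jpow (hmem2 _ _) (hmem1 _))
        rintro _ ⟨i, rfl⟩
        match i with
        | 0 => exact ⟨s * s, hm4 _ _ _ _, rfl⟩
        | 1 => exact ⟨s * m, hm4 _ _ _ _, rfl⟩
        | 2 => exact ⟨m * m, hm4 _ _ _ _, rfl⟩
        | 3 => exact ⟨q * s, hm4 _ _ _ _, rfl⟩
        | 4 => exact ⟨q * m, hm4 _ _ _ _, rfl⟩
        | 5 => exact ⟨q * q, hm4 _ _ _ _, rfl⟩
        | 6 => exact ⟨x 0 * (m * x 0) - s * m, sub_mem (hm4' _ _ _ _) (hm4 _ _ _ _), by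
            rw [map_sub]; rfl⟩
        | 7 => exact ⟨x 0 * (m * x 1) - (μ : F) • (s * m),
            sub_mem (hm4' _ _ _ _) (Submodule.smul_mem _ _ (hm4 _ _ _ _)), by
            rw [map_sub, map_smul]; rfl⟩
        | 8 => exact ⟨x 0 * (m * x 2) - m * m, sub_mem (hm4' _ _ _ _) (hm4 _ _ _ _), by
            rw [map_sub]; rfl⟩)
    have hμ' : (μ : F) = 0 ∨ (μ : F) = -1 := by
      rcases hμ with rfl | rfl
      · left; simp
      · right; simp
    have hc' : (c : F) = 0 ∨ (c : F) = 1 := by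
      rcases hc with rfl | rfl
      · left; simp
      · right; simp
    have := rows_bound h2 (μ : F) (c : F) hμ' hc' A B C D E G a b g r1 r2 r3 r4
    omega

theorem nf_bound {J : Type u}
    [NonUnitalNonAssocCommRing J] [Module F J] [Module.Finite F J]
    [IsScalarTower F J J] [SMulCommClass F J J] (h2 : (2 : F) ≠ 0) {x : Fin 3 → J}
    {S : List (Fin 3) → J} (hS : SSys F x S) (h6 : jpow F J 6 = ⊥) (φ : J →ₗ[F] F)
    (μ c τ : F) (hμ : μ = 0 ∨ μ = -1) (hc : c = 0 ∨ c = 1) (hτ : τ ≠ 0)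
    (hR0 : InU (fun w => φ (S w)) (RM0 μ) τ) (hR1 : InU (fun w => φ (S w)) (RM1 F) 0)
    (hR2 : InU (fun w => φ (S w)) (RM2 c) 0) :
    3 ≤ dlay F J 2 ∧ 5 ≤ dlay F J 3 + dlay F J 4 := by
  set ψ : J →ₗ[F] F := (-2 / τ) • φ with hψ
  have hk : ∀ (k : Matrix (Fin 3) (Fin 3) F) (p q : List (Fin 3)),
      kval (fun w => ψ (S w)) k p q = (-2 / τ) * kval (fun w => φ (S w)) k p q := by
    intro k p q
    simp only [kval, hψ, LinearMap.smul_apply, smul_eq_mul, Finset.mul_sum]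
    refine Finset.sum_congr rfl fun a _ => Finset.sum_congr rfl fun b _ => ?_
    ring
  have hU : ∀ (k : Matrix (Fin 3) (Fin 3) F) (t : F), InU (fun w => φ (S w)) k t →
      InU (fun w => ψ (S w)) k ((-2 / τ) * t) := by
    intro k t h
    refine ⟨h.symm, fun p q hpq => ?_⟩
    rw [hk, h.rel p q hpq]
    ring
  have hR0' := hU _ _ hR0
  rw [div_mul_cancel₀ _ hτ] at hR0'
  have hR1' := hU _ _ hR1
  have hR2' := hU _ _ hR2
  rw [mul_zero] at hR1' hR2'
  obtain ⟨μ', hμ', rfl⟩ : ∃ μ' : ℤ, (μ' = 0 ∨ μ' = -1) ∧ (μ' : F) = μ := by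
    rcases hμ with rfl | rfl
    · exact ⟨0, Or.inl rfl, by simp⟩
    · exact ⟨-1, Or.inr rfl, by simp⟩
  obtain ⟨c', hc', rfl⟩ : ∃ c' : ℤ, (c' = 0 ∨ c' = 1) ∧ (c' : F) = c := by
    rcases hc with rfl | rfl
    · exact ⟨0, Or.inl rfl, by simp⟩
    · exact ⟨1, Or.inr rfl, by simp⟩
  exact C5Bound_core h2 hS h6 ψ μ' c' hμ' hc' hR0' hR1' hR2'

end

end JD
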