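import Pool.Agent.H8.JD.C5TabDef

set_option autoImplicit false

/-! JD class 5: certificates, type (0, 0), generated -/

namespace JD

def cert0_sx : List (ℤ × List (ℤ × ℕ × ℕ × ℕ)) := [
  (1, []),
  (1, []),
  (1, []),
  (1, [(128, 0, 0, 21)]),
  (1, [(128, 0, 0, 37), (-128, 0, 1, 9), (128, 0, 5, 2)]),
  (1, [(128, 0, 0, 53), (-128, 0, 1, 13), (128, 0, 5, 3)]),
  (1, []),
  (1, []),
  (1, []),
  (1, []),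
  (1, []),
  (1, [(-128, 0, 0, 22), (128, 0, 5, 2)])]

theorem chk0_sx : chkAll (relsOf (0) (0)) (id_sx (0) (0)) cert0_sx = true := by decide +kernel

def cert0_sl : List (ℤ × List (ℤ × ℕ × ℕ × ℕ)) := [
  (1, [(64, 0, 0, 21), (64, 0, 1, 5)]),
  (1, [(64, 0, 0, 37), (64, 0, 5, 2)]),
  (1, [(64, 0, 0, 53), (64, 0, 5, 3)]),
  (1, [(-64, 0, 0, 22), (128, 0, 1, 9), (-64, 0, 5, 2)]),
  (1, [(64, 0, 0, 41), (-64, 0, 1, 10)]),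
  (1, [(128, 0, 0, 57), (64, 0, 0, 54), (-64, 0, 1, 14), (-64, 0, 9, 3), (-64, 0, 2, 13)]),
  (1, [(64, 0, 0, 29), (64, 0, 0, 23), (64, 0, 1, 13), (64, 0, 1, 7), (64, 1, 0, 21), (64, 1, 1, 5)]),
  (1, [(-64, 0, 0, 57), (64, 0, 0, 39), (64, 0, 13, 2), (64, 0, 2, 13), (128, 1, 0, 37), (64, 1, 0, 25), (64, 1, 5, 2)]),
  (1, [(64, 0, 0, 55), (64, 0, 13, 3), (64, 0, 3, 13), (64, 1, 0, 53), (64, 1, 0, 23), (64, 2, 0, 37), (64, 2, 0, 25), (64, 2, 0, 22), (-64, 2, 5, 2)]),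
  (1, [(-128, 0, 0, 21), (128, 0, 1, 5)]),
  (1, [(-64, 0, 0, 23), (64, 0, 5, 3), (-64, 1, 0, 21), (64, 1, 1, 5)]),
  (1, [])]

theorem chk0_sl : chkAll (relsOf (0) (0)) (id_sl (0) (0)) cert0_sl = true := by decide +kernel

def cert0_sz : List (ℤ × List (ℤ × ℕ × ℕ × ℕ)) := [
  (1, []),
  (1, []),
  (1, []),
  (1, [(64, 0, 0, 29), (64, 0, 1, 13), (-64, 0, 1, 7), (-64, 0, 5, 3), (64, 1, 0, 21), (64, 1, 1, 5)]),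
  (1, [(-128, 0, 0, 57), (-64, 0, 0, 54), (64, 0, 1, 14), (64, 0, 9, 3), (64, 0, 2, 13), (128, 1, 0, 37), (-64, 1, 0, 22), (64, 1, 5, 2)]),
  (1, [(64, 1, 0, 53), (64, 1, 0, 23), (64, 2, 0, 37), (-64, 2, 5, 2)]),
  (1, [(128, 2, 0, 21), (128, 2, 1, 5)]),
  (1, [(128, 2, 0, 37), (128, 2, 5, 2)]),
  (1, [(128, 2, 0, 53), (128, 2, 0, 23)]),
  (1, []),
  (1, [(-64, 2, 0, 21), (64, 2, 1, 5)]),
  (1, [(-128, 1, 0, 22), (128, 1, 5, 2)])]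

theorem chk0_sz : chkAll (relsOf (0) (0)) (id_sz (0) (0)) cert0_sz = true := by decide +kernel

def cert0_mx : List (ℤ × List (ℤ × ℕ × ℕ × ℕ)) := [
  (1, []),
  (1, []),
  (1, []),
  (1, [(32, 0, 0, 29), (64, 0, 0, 23), (32, 0, 1, 13), (32, 0, 1, 7), (-32, 0, 5, 3), (32, 1, 0, 21), (-32, 1, 1, 5)]),
  (1, [(-64, 0, 0, 57), (-32, 0, 0, 54), (64, 0, 0, 39), (32, 0, 1, 14), (32, 0, 9, 3), (64, 0, 13, 2), (32, 0, 2, 13), (64, 1, 0, 37), (-32, 1, 0, 22), (-64, 1, 1, 9), (32, 1, 5, 2)]),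
  (1, [(64, 0, 0, 55), (64, 0, 13, 3), (32, 1, 0, 53), (32, 1, 0, 23), (-64, 1, 1, 13), (32, 2, 0, 37), (-32, 2, 5, 2)]),
  (1, [(32, 2, 0, 21), (-32, 2, 1, 5)]),
  (1, [(32, 2, 0, 37), (-64, 2, 1, 9), (32, 2, 5, 2)]),
  (1, [(32, 2, 0, 53), (32, 2, 0, 23), (-64, 2, 1, 13)]),
  (1, []),
  (1, []),
  (1, [(-64, 0, 0, 54), (-64, 0, 0, 30), (64, 0, 13, 2), (64, 0, 2, 13)])]

theorem chk0_mx : chkAll (relsOf (0) (0)) (id_mx (0) (0)) cert0_mx = true := by decide +kernel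

def cert0_ml : List (ℤ × List (ℤ × ℕ × ℕ × ℕ)) := [
  (1, []),
  (1, []),
  (1, []),
  (1, [(-32, 0, 0, 30), (-32, 0, 1, 14), (-32, 0, 9, 3), (-32, 0, 13, 2), (64, 1, 0, 25), (32, 1, 0, 22), (64, 1, 1, 9), (-32, 1, 5, 2)]),
  (1, [(32, 0, 0, 43), (-32, 0, 10, 3), (32, 1, 0, 41), (-32, 1, 1, 10)]),
  (1, [(32, 0, 0, 59), (32, 0, 14, 3), (-32, 0, 3, 14), (32, 1, 0, 57), (32, 1, 0, 39), (-32, 1, 1, 14), (-32, 1, 2, 13), (-32, 2, 0, 41), (-32, 2, 2, 9)]),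
  (1, [(32, 1, 0, 29), (32, 1, 0, 23), (32, 1, 1, 13), (32, 1, 1, 7), (32, 2, 0, 25), (32, 2, 1, 9), (-32, 2, 1, 6), (-32, 2, 5, 2)]),
  (1, [(32, 0, 0, 59), (32, 1, 0, 45), (32, 1, 0, 30), (-32, 1, 1, 14), (32, 1, 2, 13), (32, 2, 0, 41), (32, 2, 2, 9)]),
  (1, [(64, 1, 0, 55), (64, 2, 0, 57), (32, 2, 0, 45), (32, 2, 0, 54), (32, 2, 0, 30), (32, 2, 0, 39), (-64, 2, 2, 13)]),
  (1, [(-64, 0, 0, 53), (-64, 0, 0, 29), (64, 0, 1, 13), (64, 0, 1, 7)]),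
  (1, [(-32, 0, 0, 55), (32, 0, 13, 3), (32, 0, 3, 13), (-32, 1, 0, 53), (-32, 1, 0, 29), (32, 1, 1, 13), (32, 1, 1, 7), (-32, 2, 1, 9), (-32, 2, 1, 6)]),
  (1, [])]

theorem chk0_ml : chkAll (relsOf (0) (0)) (id_ml (0) (0)) cert0_ml = true := by decide +kernel

def cert0_mz : List (ℤ × List (ℤ × ℕ × ℕ × ℕ)) := [
  (1, []),
  (1, []),
  (1, []),
  (1, [(-64, 0, 13, 3), (64, 1, 0, 29), (64, 1, 1, 13), (32, 2, 0, 25), (32, 2, 1, 9), (32, 2, 1, 6), (32, 2, 5, 2)]),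
  (1, [(-64, 0, 14, 3), (64, 1, 0, 45), (64, 1, 2, 13), (32, 2, 0, 41), (32, 2, 1, 10), (64, 2, 2, 9)]),
  (1, [(64, 1, 0, 55), (32, 2, 0, 57), (64, 2, 0, 45), (32, 2, 0, 39), (32, 2, 1, 14), (-32, 2, 2, 13)]),
  (1, [(96, 2, 0, 29), (32, 2, 0, 23), (96, 2, 1, 13), (32, 2, 1, 7)]),
  (1, [(96, 2, 0, 45), (32, 2, 0, 39), (32, 2, 1, 11), (96, 2, 2, 13)]),
  (1, [(96, 2, 0, 61), (128, 2, 0, 55), (32, 2, 0, 31)]),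
  (1, []),
  (1, [(-32, 2, 0, 53), (-32, 2, 0, 29), (32, 2, 1, 13), (32, 2, 1, 7)]),
  (1, [(64, 0, 0, 59), (-64, 0, 14, 3), (-64, 0, 3, 14), (64, 1, 0, 57), (-64, 1, 0, 39), (-64, 1, 1, 14), (64, 1, 2, 13), (64, 2, 1, 10), (64, 2, 2, 9)])]

theorem chk0_mz : chkAll (relsOf (0) (0)) (id_mz (0) (0)) cert0_mz = true := by decide +kernel

def cert0_qx : List (ℤ × List (ℤ × ℕ × ℕ × ℕ)) := [
  (1, [(64, 0, 0, 22), (-64, 0, 5, 2)]),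
  (1, [(-64, 0, 0, 41), (-64, 0, 1, 10), (128, 0, 9, 2)]),
  (1, [(64, 0, 0, 54), (-64, 0, 1, 14), (64, 0, 9, 3), (-64, 0, 2, 13)]),
  (1, [(64, 0, 0, 26), (64, 0, 1, 10)]),
  (1, [(64, 0, 0, 42), (64, 0, 2, 10)]),
  (1, [(64, 0, 0, 58), (64, 0, 10, 3)]),
  (1, [(64, 1, 0, 22), (-64, 1, 5, 2)]),
  (1, [(-64, 0, 0, 46), (-64, 0, 0, 43), (64, 0, 2, 14), (64, 0, 2, 11), (-64, 1, 0, 41), (-64, 1, 1, 10), (128, 1, 9, 2)]),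
  (1, [(64, 0, 0, 59), (64, 0, 14, 3), (64, 0, 3, 14), (-64, 1, 0, 57), (-64, 1, 0, 39), (-64, 1, 1, 14), (-64, 1, 2, 13), (64, 2, 0, 26), (64, 2, 2, 9)]),
  (1, []),
  (1, [(128, 1, 0, 22), (-128, 1, 5, 2)]),
  (1, [(-128, 0, 0, 42), (128, 0, 2, 10)])]

theorem chk0_qx : chkAll (relsOf (0) (0)) (id_qx (0) (0)) cert0_qx = true := by decide +kernel

def cert0_ql : List (ℤ × List (ℤ × ℕ × ℕ × ℕ)) := [
  (1, [(128, 0, 0, 26), (128, 0, 1, 10), (-128, 0, 9, 2)]),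
  (1, [(128, 0, 0, 42)]),
  (1, [(128, 0, 0, 58), (-128, 0, 2, 14), (128, 0, 10, 3)]),
  (1, []),
  (1, []),
  (1, []),
  (1, [(128, 0, 0, 58), (128, 0, 0, 46), (-128, 0, 2, 14), (-128, 0, 2, 11), (128, 1, 0, 41), (128, 1, 1, 10), (-128, 1, 9, 2)]),
  (1, [(128, 1, 0, 42)]),
  (1, [(128, 1, 0, 58), (128, 1, 0, 43), (-128, 1, 2, 14), (128, 2, 0, 42), (-128, 2, 2, 10)]),
  (1, [(-128, 0, 0, 41), (128, 0, 1, 10)]),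
  (1, [(-64, 0, 0, 43), (64, 0, 10, 3), (-64, 1, 0, 41), (64, 1, 1, 10)]),
  (1, [])]

theorem chk0_ql : chkAll (relsOf (0) (0)) (id_ql (0) (0)) cert0_ql = true := by decide +kernel

def cert0_qz : List (ℤ × List (ℤ × ℕ × ℕ × ℕ)) := [
  (1, [(64, 0, 0, 30), (64, 0, 1, 14), (-64, 0, 9, 3), (-64, 0, 13, 2)]),
  (1, [(64, 0, 0, 46), (64, 0, 2, 14), (-64, 0, 2, 11), (-64, 0, 10, 3)]),
  (1, [(-64, 2, 0, 41), (64, 2, 0, 26)]),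
  (1, [(64, 0, 0, 58), (64, 0, 0, 46), (-64, 0, 2, 14), (-64, 0, 2, 11), (64, 1, 0, 41), (64, 1, 1, 10)]),
  (1, [(64, 1, 0, 42), (64, 1, 2, 10)]),
  (1, [(64, 1, 0, 58), (64, 1, 0, 43), (64, 2, 0, 42), (-64, 2, 2, 10)]),
  (1, [(-128, 0, 0, 59), (128, 1, 0, 39), (128, 1, 1, 14), (64, 2, 0, 26), (64, 2, 1, 10), (-128, 2, 2, 9)]),
  (1, [(-128, 1, 0, 43), (128, 1, 2, 14), (64, 2, 0, 42), (192, 2, 2, 10)]),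
  (1, [(192, 2, 0, 58), (64, 2, 0, 43)]),
  (1, [(-128, 1, 0, 22), (128, 1, 5, 2)]),
  (1, [(-64, 2, 0, 41), (64, 2, 1, 10)]),
  (1, [(-128, 1, 0, 42), (128, 1, 2, 10)])]

theorem chk0_qz : chkAll (relsOf (0) (0)) (id_qz (0) (0)) cert0_qz = true := by decide +kernel

def cert0_R : List (ℤ × List (ℤ × ℕ × ℕ × ℕ)) := [
  (1, [(-128, 0, 0, 57), (128, 0, 0, 39), (128, 0, 13, 2), (128, 0, 2, 13), (128, 1, 0, 37), (128, 1, 0, 25), (-128, 1, 0, 22), (128, 1, 5, 2)]),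
  (1, [(32, 0, 0, 55), (32, 0, 13, 3), (32, 0, 3, 13), (-32, 1, 0, 53), (32, 1, 0, 23), (32, 2, 0, 37), (32, 2, 0, 25)]),
  (1, [(-128, 2, 0, 53), (128, 2, 0, 23)]),
  (1, [(-32, 0, 0, 53), (32, 0, 0, 29), (64, 0, 0, 23), (32, 0, 1, 13), (32, 0, 1, 7)]),
  (1, [(128, 0, 0, 54), (128, 0, 1, 14), (-128, 0, 9, 3), (-128, 0, 2, 13)])]

theorem chk0_R : chkAll (relsOf (0) (0)) (id_R (0) (0)) cert0_R = true := by decide +kernel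

end JD
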