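import Pool.Agent.H8.JD.C5TabDef

set_option autoImplicit false

/-! JD class 5: certificates, type (0, 1), generated -/

namespace JD

def cert1_sx : List (ℤ × List (ℤ × ℕ × ℕ × ℕ)) := [
  (1, []),
  (1, []),
  (1, []),
  (1, [(128, 0, 0, 21)]),
  (1, [(128, 0, 0, 37), (-128, 0, 1, 9), (128, 0, 5, 2)]),
  (1, [(128, 0, 0, 53), (-128, 0, 1, 13), (128, 0, 5, 3)]),
  (1, []),
  (1, []),
  (1, []),
  (1, []),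
  (1, []),
  (1, [(-128, 0, 0, 22), (128, 0, 5, 2)])]

theorem chk1_sx : chkAll (relsOf (0) (1)) (id_sx (0) (1)) cert1_sx = true := by decide +kernel

def cert1_sl : List (ℤ × List (ℤ × ℕ × ℕ × ℕ)) := [
  (1, [(64, 0, 0, 21), (64, 0, 1, 5)]),
  (1, [(64, 0, 0, 37), (64, 0, 5, 2)]),
  (1, [(64, 0, 0, 53), (64, 0, 5, 3)]),
  (1, [(-64, 0, 0, 22), (128, 0, 1, 9), (-64, 0, 5, 2)]),
  (1, [(64, 0, 0, 41), (-64, 0, 1, 10)]),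
  (1, [(128, 0, 0, 57), (64, 0, 0, 54), (-64, 0, 1, 14), (-64, 0, 9, 3), (-64, 0, 2, 13)]),
  (1, [(64, 0, 0, 29), (64, 0, 0, 23), (64, 0, 1, 13), (64, 0, 1, 7), (64, 1, 0, 21), (64, 1, 1, 5)]),
  (1, [(-64, 0, 0, 57), (64, 0, 0, 39), (64, 0, 13, 2), (64, 0, 2, 13), (128, 1, 0, 37), (64, 1, 0, 25), (64, 1, 5, 2)]),
  (1, [(64, 0, 0, 61), (64, 0, 0, 55), (64, 0, 13, 3), (64, 0, 3, 13), (64, 1, 0, 53), (64, 1, 5, 3)]),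
  (1, [(-128, 0, 0, 21), (128, 0, 1, 5)]),
  (1, [(-64, 0, 0, 23), (64, 0, 5, 3), (-64, 1, 0, 21), (64, 1, 1, 5)]),
  (1, [])]

theorem chk1_sl : chkAll (relsOf (0) (1)) (id_sl (0) (1)) cert1_sl = true := by decide +kernel

def cert1_sz : List (ℤ × List (ℤ × ℕ × ℕ × ℕ)) := [
  (1, []),
  (1, []),
  (1, []),
  (1, [(64, 0, 0, 29), (64, 0, 1, 13), (-64, 0, 1, 7), (-64, 0, 5, 3), (64, 1, 0, 21), (64, 1, 1, 5)]),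
  (1, [(-128, 0, 0, 57), (-64, 0, 0, 54), (64, 0, 1, 14), (64, 0, 9, 3), (64, 0, 2, 13), (128, 1, 0, 37), (-64, 1, 0, 22), (64, 1, 5, 2)]),
  (1, [(64, 0, 0, 61), (-64, 0, 1, 15), (64, 1, 0, 53), (64, 1, 5, 3)]),
  (1, [(128, 2, 0, 21), (128, 2, 1, 5)]),
  (1, [(128, 0, 0, 41), (-128, 0, 0, 61), (-128, 0, 1, 10), (128, 0, 1, 15), (128, 1, 0, 23), (-128, 1, 5, 3), (256, 2, 0, 37)]),
  (1, [(-128, 1, 0, 22), (128, 1, 5, 2), (128, 2, 0, 53), (128, 2, 0, 23)]),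
  (1, []),
  (1, [(64, 0, 0, 22), (-64, 0, 5, 2), (-64, 2, 0, 21), (64, 2, 1, 5)]),
  (1, [(-128, 1, 0, 22), (128, 1, 5, 2)])]

theorem chk1_sz : chkAll (relsOf (0) (1)) (id_sz (0) (1)) cert1_sz = true := by decide +kernel

def cert1_mx : List (ℤ × List (ℤ × ℕ × ℕ × ℕ)) := [
  (1, []),
  (1, []),
  (1, []),
  (1, [(32, 0, 0, 29), (64, 0, 0, 23), (32, 0, 1, 13), (32, 0, 1, 7), (-32, 0, 5, 3), (32, 1, 0, 21), (-32, 1, 1, 5)]),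
  (1, [(-64, 0, 0, 57), (-32, 0, 0, 54), (64, 0, 0, 39), (32, 0, 1, 14), (32, 0, 9, 3), (64, 0, 13, 2), (32, 0, 2, 13), (64, 1, 0, 37), (-32, 1, 0, 22), (-64, 1, 1, 9), (32, 1, 5, 2)]),
  (1, [(32, 0, 0, 61), (64, 0, 0, 55), (-32, 0, 1, 15), (64, 0, 13, 3), (32, 1, 0, 53), (-64, 1, 1, 13), (32, 1, 5, 3)]),
  (1, [(-32, 0, 0, 22), (32, 0, 5, 2), (32, 2, 0, 21), (-32, 2, 1, 5)]),
  (1, [(64, 0, 0, 41), (-32, 0, 0, 61), (32, 0, 1, 15), (-64, 0, 9, 2), (32, 1, 0, 23), (-32, 1, 5, 3), (64, 2, 0, 37), (-64, 2, 1, 9)]),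
  (1, [(-32, 0, 0, 54), (32, 0, 1, 14), (-32, 0, 9, 3), (32, 0, 2, 13), (-32, 1, 0, 22), (32, 1, 5, 2), (32, 2, 0, 53), (32, 2, 0, 23), (-64, 2, 1, 13)]),
  (1, []),
  (1, []),
  (1, [(-64, 0, 0, 54), (-64, 0, 0, 30), (64, 0, 13, 2), (64, 0, 2, 13)])]

theorem chk1_mx : chkAll (relsOf (0) (1)) (id_mx (0) (1)) cert1_mx = true := by decide +kernel

def cert1_ml : List (ℤ × List (ℤ × ℕ × ℕ × ℕ)) := [
  (1, []),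
  (1, []),
  (1, []),
  (1, [(-32, 0, 0, 30), (-32, 0, 1, 14), (-32, 0, 9, 3), (-32, 0, 13, 2), (64, 1, 0, 25), (32, 1, 0, 22), (64, 1, 1, 9), (-32, 1, 5, 2)]),
  (1, [(32, 0, 0, 43), (-32, 0, 10, 3), (32, 1, 0, 41), (-32, 1, 1, 10)]),
  (1, [(32, 0, 0, 62), (64, 0, 0, 59), (-32, 0, 2, 15), (32, 0, 14, 3), (-32, 0, 3, 14), (32, 1, 0, 57), (-32, 1, 1, 14), (-32, 1, 9, 3), (-32, 1, 2, 13)]),
  (1, [(-64, 0, 0, 41), (64, 0, 0, 61), (-32, 0, 0, 31), (-32, 0, 1, 15), (64, 0, 9, 2), (32, 1, 0, 29), (32, 1, 1, 13), (32, 1, 1, 7), (32, 1, 5, 3), (-64, 2, 0, 37), (64, 2, 1, 9)]),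
  (1, [(-32, 0, 0, 62), (32, 0, 2, 15), (32, 1, 0, 45), (32, 1, 0, 30), (32, 1, 0, 39), (-32, 1, 1, 14), (32, 1, 9, 3), (32, 1, 2, 13)]),
  (1, [(64, 0, 0, 46), (32, 0, 0, 63), (-64, 0, 2, 11), (-32, 0, 3, 15), (64, 1, 0, 41), (32, 1, 0, 61), (64, 1, 1, 10), (-32, 1, 1, 15), (-64, 1, 9, 2), (64, 1, 3, 13), (64, 2, 0, 57), (64, 2, 0, 30)]),
  (1, [(-64, 0, 0, 53), (-64, 0, 0, 29), (64, 0, 1, 13), (64, 0, 1, 7)]),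
  (1, [(-32, 0, 0, 55), (-32, 0, 0, 31), (32, 0, 13, 3), (32, 0, 3, 13), (-32, 1, 0, 53), (-32, 1, 0, 29), (32, 1, 1, 13), (32, 1, 1, 7)]),
  (1, [])]

theorem chk1_ml : chkAll (relsOf (0) (1)) (id_ml (0) (1)) cert1_ml = true := by decide +kernel

def cert1_mz : List (ℤ × List (ℤ × ℕ × ℕ × ℕ)) := [
  (1, []),
  (1, []),
  (1, []),
  (1, [(32, 0, 0, 31), (32, 0, 1, 15), (-64, 0, 13, 3), (64, 1, 0, 29), (32, 1, 0, 23), (64, 1, 1, 13), (-32, 1, 5, 3)]),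
  (1, [(-32, 0, 0, 62), (-64, 0, 0, 59), (32, 0, 2, 15), (-64, 0, 14, 3), (64, 1, 0, 45), (-32, 1, 0, 30), (64, 1, 0, 39), (32, 1, 1, 14), (32, 1, 9, 3), (32, 1, 13, 2), (64, 1, 2, 13)]),
  (1, [(32, 0, 0, 63), (-32, 0, 3, 15), (64, 1, 0, 61), (32, 1, 0, 55), (-32, 1, 1, 15), (32, 1, 13, 3), (32, 1, 3, 13)]),
  (1, [(-32, 0, 0, 30), (-32, 0, 1, 14), (32, 0, 9, 3), (32, 0, 13, 2), (32, 1, 0, 22), (-32, 1, 5, 2), (96, 2, 0, 29), (32, 2, 0, 23), (96, 2, 1, 13), (32, 2, 1, 7)]),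
  (1, [(-64, 0, 0, 46), (-64, 0, 0, 43), (32, 0, 0, 63), (64, 0, 2, 11), (-64, 0, 10, 3), (96, 0, 3, 15), (-128, 1, 0, 41), (96, 1, 0, 61), (96, 1, 0, 55), (32, 1, 0, 31), (-32, 1, 1, 15), (64, 1, 9, 2), (-32, 1, 13, 3), (-96, 1, 3, 13), (-192, 2, 0, 57), (64, 2, 0, 30)]),
  (1, [(-32, 0, 0, 62), (32, 0, 2, 15), (-64, 0, 14, 3), (-64, 0, 3, 14), (64, 1, 0, 57), (-32, 1, 0, 30), (-32, 1, 1, 14), (32, 1, 9, 3), (32, 1, 13, 2), (64, 1, 2, 13), (96, 2, 0, 61), (128, 2, 0, 55), (32, 2, 0, 31)]),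
  (1, []),
  (1, [(32, 0, 0, 54), (32, 0, 0, 30), (-32, 0, 13, 2), (-32, 0, 2, 13), (-32, 2, 0, 53), (-32, 2, 0, 29), (32, 2, 1, 13), (32, 2, 1, 7)]),
  (1, [(-64, 0, 14, 3), (-64, 0, 3, 14), (64, 1, 0, 57), (-64, 1, 0, 30), (64, 1, 13, 2), (64, 1, 2, 13)])]

theorem chk1_mz : chkAll (relsOf (0) (1)) (id_mz (0) (1)) cert1_mz = true := by decide +kernel

def cert1_qx : List (ℤ × List (ℤ × ℕ × ℕ × ℕ)) := [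
  (1, [(64, 0, 0, 22), (-64, 0, 5, 2)]),
  (1, [(-64, 0, 0, 41), (-64, 0, 1, 10), (128, 0, 9, 2)]),
  (1, [(64, 0, 0, 54), (-64, 0, 1, 14), (64, 0, 9, 3), (-64, 0, 2, 13)]),
  (1, [(64, 0, 0, 26), (64, 0, 1, 10)]),
  (1, [(64, 0, 0, 42), (64, 0, 2, 10)]),
  (1, [(64, 0, 0, 58), (64, 0, 10, 3)]),
  (1, [(64, 1, 0, 22), (-64, 1, 5, 2)]),
  (1, [(-64, 0, 0, 46), (-64, 0, 0, 43), (64, 0, 2, 14), (64, 0, 2, 11), (-64, 1, 0, 41), (-64, 1, 1, 10), (128, 1, 9, 2)]),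
  (1, [(64, 0, 14, 3), (64, 0, 3, 14), (-64, 1, 0, 57), (-64, 1, 1, 14), (64, 1, 9, 3), (-64, 1, 2, 13)]),
  (1, []),
  (1, [(128, 1, 0, 22), (-128, 1, 5, 2)]),
  (1, [(-128, 0, 0, 42), (128, 0, 2, 10)])]

theorem chk1_qx : chkAll (relsOf (0) (1)) (id_qx (0) (1)) cert1_qx = true := by decide +kernel

def cert1_ql : List (ℤ × List (ℤ × ℕ × ℕ × ℕ)) := [
  (1, [(128, 0, 0, 26), (128, 0, 1, 10), (-128, 0, 9, 2)]),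
  (1, [(128, 0, 0, 42)]),
  (1, [(128, 0, 0, 58), (-128, 0, 2, 14), (128, 0, 10, 3)]),
  (1, []),
  (1, []),
  (1, []),
  (1, [(128, 0, 0, 58), (128, 0, 0, 46), (-128, 0, 2, 14), (-128, 0, 2, 11), (128, 1, 0, 41), (128, 1, 1, 10), (-128, 1, 9, 2)]),
  (1, [(128, 1, 0, 42)]),
  (1, [(128, 1, 0, 58), (-128, 1, 2, 14), (128, 1, 10, 3)]),
  (1, [(-128, 0, 0, 41), (128, 0, 1, 10)]),
  (1, [(-64, 0, 0, 43), (64, 0, 10, 3), (-64, 1, 0, 41), (64, 1, 1, 10)]),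
  (1, [])]

theorem chk1_ql : chkAll (relsOf (0) (1)) (id_ql (0) (1)) cert1_ql = true := by decide +kernel

def cert1_qz : List (ℤ × List (ℤ × ℕ × ℕ × ℕ)) := [
  (1, [(64, 0, 0, 30), (64, 0, 1, 14), (-64, 0, 9, 3), (-64, 0, 13, 2)]),
  (1, [(64, 0, 0, 46), (64, 0, 2, 14), (-64, 0, 2, 11), (-64, 0, 10, 3)]),
  (1, [(64, 0, 0, 62), (-64, 0, 2, 15)]),
  (1, [(64, 0, 0, 58), (64, 0, 0, 46), (-64, 0, 2, 14), (-64, 0, 2, 11), (64, 1, 0, 41), (64, 1, 1, 10)]),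
  (1, [(64, 1, 0, 42), (64, 1, 2, 10)]),
  (1, [(64, 1, 0, 58), (64, 1, 10, 3)]),
  (1, [(-256, 0, 0, 42), (256, 0, 0, 62), (256, 0, 2, 10), (-256, 0, 2, 15), (-64, 1, 0, 30), (192, 1, 1, 14), (-192, 1, 9, 3), (64, 1, 13, 2), (256, 2, 0, 41)]),
  (1, [(64, 1, 0, 43), (128, 1, 2, 14), (-192, 1, 10, 3), (256, 2, 0, 42)]),
  (1, [(-64, 1, 0, 62), (64, 1, 2, 15), (256, 2, 0, 58)]),
  (1, [(-128, 1, 0, 22), (128, 1, 5, 2)]),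
  (1, [(64, 0, 0, 62), (-64, 0, 2, 15), (-64, 1, 0, 30), (64, 1, 1, 14), (-64, 1, 9, 3), (64, 1, 13, 2)]),
  (1, [(-128, 1, 0, 42), (128, 1, 2, 10)])]

theorem chk1_qz : chkAll (relsOf (0) (1)) (id_qz (0) (1)) cert1_qz = true := by decide +kernel

def cert1_R : List (ℤ × List (ℤ × ℕ × ℕ × ℕ)) := [
  (1, [(-128, 0, 0, 57), (128, 0, 0, 39), (128, 0, 13, 2), (128, 0, 2, 13), (128, 1, 0, 37), (128, 1, 0, 25), (-128, 1, 0, 22), (128, 1, 5, 2)]),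
  (1, [(32, 0, 0, 61), (32, 0, 0, 55), (32, 0, 13, 3), (32, 0, 3, 13), (-32, 1, 0, 53), (32, 1, 0, 23)]),
  (1, [(-128, 1, 0, 22), (128, 1, 5, 2), (-128, 2, 0, 53), (128, 2, 0, 23)]),
  (1, [(-32, 0, 0, 53), (32, 0, 0, 29), (64, 0, 0, 23), (32, 0, 1, 13), (32, 0, 1, 7)]),
  (1, [(128, 0, 0, 54), (128, 0, 1, 14), (-128, 0, 9, 3), (-128, 0, 2, 13)])]

theorem chk1_R : chkAll (relsOf (0) (1)) (id_R (0) (1)) cert1_R = true := by decide +kernel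

end JD
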