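import Pool.Agent.H8.JD.C5TabDef

set_option autoImplicit false

/-! JD class 5: certificates, type (-1, 0), generated -/

namespace JD

def cert2_sx : List (ℤ × List (ℤ × ℕ × ℕ × ℕ)) := [
  (1, []),
  (1, []),
  (1, []),
  (1, [(128, 0, 0, 21)]),
  (1, [(128, 0, 0, 37), (-128, 0, 1, 9), (128, 0, 5, 2)]),
  (1, [(128, 0, 0, 53), (-128, 0, 1, 13), (128, 0, 5, 3)]),
  (1, []),
  (1, []),
  (1, []),
  (1, []),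
  (1, []),
  (1, [(-256, 0, 0, 21), (-128, 0, 0, 22), (256, 0, 1, 5), (128, 0, 5, 2)])]

theorem chk2_sx : chkAll (relsOf (-1) (0)) (id_sx (-1) (0)) cert2_sx = true := by decide +kernel

def cert2_sl : List (ℤ × List (ℤ × ℕ × ℕ × ℕ)) := [
  (1, [(64, 0, 0, 21), (64, 0, 1, 5)]),
  (1, [(64, 0, 0, 37), (64, 0, 5, 2)]),
  (1, [(64, 0, 0, 53), (64, 0, 5, 3)]),
  (1, [(-128, 0, 0, 21), (-64, 0, 0, 22), (128, 0, 1, 5), (128, 0, 1, 9), (-64, 0, 5, 2)]),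
  (1, [(64, 0, 0, 41), (-64, 0, 1, 10)]),
  (1, [(128, 0, 0, 53), (128, 0, 0, 57), (64, 0, 0, 54), (-64, 0, 1, 14), (-128, 0, 5, 3), (-64, 0, 9, 3), (-64, 0, 2, 13)]),
  (1, [(64, 0, 0, 29), (64, 0, 0, 23), (64, 0, 1, 13), (64, 0, 1, 7), (64, 1, 0, 21), (64, 1, 1, 5)]),
  (1, [(-64, 0, 0, 57), (64, 0, 0, 39), (64, 0, 13, 2), (64, 0, 2, 13), (128, 1, 0, 21), (128, 1, 0, 37), (64, 1, 0, 25), (64, 1, 5, 2)]),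
  (1, [(64, 0, 0, 55), (64, 0, 13, 3), (64, 0, 3, 13), (64, 1, 0, 53), (64, 1, 0, 23), (128, 2, 0, 21), (64, 2, 0, 37), (64, 2, 0, 25), (64, 2, 0, 22), (-64, 2, 5, 2)]),
  (1, [(-128, 0, 0, 21), (128, 0, 1, 5)]),
  (1, [(-64, 0, 0, 23), (64, 0, 5, 3), (-64, 1, 0, 21), (64, 1, 1, 5)]),
  (1, [])]

theorem chk2_sl : chkAll (relsOf (-1) (0)) (id_sl (-1) (0)) cert2_sl = true := by decide +kernel

def cert2_sz : List (ℤ × List (ℤ × ℕ × ℕ × ℕ)) := [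
  (1, []),
  (1, []),
  (1, []),
  (1, [(64, 0, 0, 29), (64, 0, 1, 13), (-64, 0, 1, 7), (-64, 0, 5, 3), (64, 1, 0, 21), (64, 1, 1, 5)]),
  (1, [(-128, 0, 0, 53), (-128, 0, 0, 57), (-64, 0, 0, 54), (64, 0, 1, 14), (128, 0, 5, 3), (64, 0, 9, 3), (64, 0, 2, 13), (128, 1, 0, 37), (-64, 1, 0, 22), (64, 1, 5, 2)]),
  (1, [(64, 1, 0, 53), (64, 1, 0, 23), (64, 2, 0, 37), (-64, 2, 5, 2)]),
  (1, [(128, 2, 0, 21), (128, 2, 1, 5)]),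
  (1, [(128, 2, 0, 37), (128, 2, 5, 2)]),
  (1, [(128, 2, 0, 53), (128, 2, 0, 23)]),
  (1, []),
  (1, [(-64, 2, 0, 21), (64, 2, 1, 5)]),
  (1, [(-128, 1, 0, 22), (128, 1, 5, 2)])]

theorem chk2_sz : chkAll (relsOf (-1) (0)) (id_sz (-1) (0)) cert2_sz = true := by decide +kernel

def cert2_mx : List (ℤ × List (ℤ × ℕ × ℕ × ℕ)) := [
  (1, []),
  (1, []),
  (1, []),
  (1, [(32, 0, 0, 29), (64, 0, 0, 23), (32, 0, 1, 13), (32, 0, 1, 7), (-32, 0, 5, 3), (32, 1, 0, 21), (-32, 1, 1, 5)]),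
  (1, [(-64, 0, 0, 53), (-64, 0, 0, 57), (-32, 0, 0, 54), (64, 0, 0, 39), (32, 0, 1, 14), (64, 0, 5, 3), (32, 0, 9, 3), (64, 0, 13, 2), (32, 0, 2, 13), (64, 1, 0, 37), (-32, 1, 0, 22), (-64, 1, 1, 9), (32, 1, 5, 2)]),
  (1, [(64, 0, 0, 55), (64, 0, 13, 3), (32, 1, 0, 53), (32, 1, 0, 23), (-64, 1, 1, 13), (32, 2, 0, 37), (-32, 2, 5, 2)]),
  (1, [(32, 2, 0, 21), (-32, 2, 1, 5)]),
  (1, [(32, 2, 0, 37), (-64, 2, 1, 9), (32, 2, 5, 2)]),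
  (1, [(32, 2, 0, 53), (32, 2, 0, 23), (-64, 2, 1, 13)]),
  (1, []),
  (1, []),
  (1, [(-128, 0, 0, 53), (-128, 0, 0, 29), (-64, 0, 0, 54), (-64, 0, 0, 30), (128, 0, 1, 13), (128, 0, 1, 7), (64, 0, 13, 2), (64, 0, 2, 13)])]

theorem chk2_mx : chkAll (relsOf (-1) (0)) (id_mx (-1) (0)) cert2_mx = true := by decide +kernel

def cert2_ml : List (ℤ × List (ℤ × ℕ × ℕ × ℕ)) := [
  (1, []),
  (1, []),
  (1, []),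
  (1, [(64, 0, 0, 29), (-32, 0, 0, 30), (64, 0, 0, 23), (64, 0, 1, 13), (-32, 0, 1, 14), (64, 0, 1, 7), (-32, 0, 9, 3), (-32, 0, 13, 2), (64, 1, 0, 21), (64, 1, 0, 25), (32, 1, 0, 22), (64, 1, 1, 5), (64, 1, 1, 9), (-32, 1, 5, 2)]),
  (1, [(-64, 0, 0, 57), (32, 0, 0, 58), (64, 0, 0, 39), (64, 0, 13, 2), (64, 0, 2, 13), (-32, 0, 10, 3), (128, 1, 0, 21), (64, 1, 0, 37), (64, 1, 0, 25), (32, 1, 0, 41), (-64, 1, 0, 22), (-32, 1, 0, 38), (-32, 1, 0, 26), (-32, 1, 1, 10), (64, 1, 5, 2), (32, 1, 9, 2), (32, 1, 2, 9)]),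
  (1, [(64, 0, 0, 55), (64, 0, 13, 3), (64, 0, 14, 3), (64, 0, 3, 13), (-64, 1, 0, 53), (-32, 1, 0, 54), (64, 1, 0, 23), (64, 1, 0, 39), (32, 1, 0, 27), (-32, 1, 1, 14), (-32, 1, 2, 13), (128, 2, 0, 21), (64, 2, 0, 25), (-32, 2, 0, 41), (-64, 2, 5, 2), (-32, 2, 9, 2), (-64, 2, 2, 9)]),
  (1, [(32, 1, 0, 29), (32, 1, 0, 23), (32, 1, 1, 13), (32, 1, 1, 7), (32, 2, 0, 25), (32, 2, 1, 9), (-32, 2, 1, 6), (-32, 2, 5, 2)]),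
  (1, [(32, 1, 0, 45), (32, 1, 0, 30), (32, 1, 0, 39), (32, 1, 0, 27), (-32, 1, 1, 14), (32, 1, 2, 13), (32, 2, 0, 41), (-32, 2, 9, 2)]),
  (1, [(64, 1, 0, 55), (64, 2, 0, 57), (32, 2, 0, 45), (32, 2, 0, 54), (32, 2, 0, 30), (32, 2, 0, 39), (-64, 2, 2, 13)]),
  (1, [(-64, 0, 0, 53), (-64, 0, 0, 29), (64, 0, 1, 13), (64, 0, 1, 7)]),
  (1, [(-32, 0, 0, 55), (32, 0, 13, 3), (32, 0, 3, 13), (-32, 1, 0, 53), (-32, 1, 0, 29), (32, 1, 1, 13), (32, 1, 1, 7), (-64, 2, 1, 5), (-32, 2, 1, 9), (-32, 2, 1, 6)]),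
  (1, [])]

theorem chk2_ml : chkAll (relsOf (-1) (0)) (id_ml (-1) (0)) cert2_ml = true := by decide +kernel

def cert2_mz : List (ℤ × List (ℤ × ℕ × ℕ × ℕ)) := [
  (1, []),
  (1, []),
  (1, []),
  (1, [(-64, 0, 13, 3), (64, 1, 0, 29), (64, 1, 1, 13), (64, 2, 0, 21), (32, 2, 0, 25), (64, 2, 1, 5), (32, 2, 1, 9), (32, 2, 1, 6), (32, 2, 5, 2)]),
  (1, [(-64, 0, 14, 3), (64, 1, 0, 45), (64, 1, 2, 13), (64, 2, 0, 37), (32, 2, 0, 41), (32, 2, 1, 10), (64, 2, 5, 2), (64, 2, 2, 9)]),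
  (1, [(64, 1, 0, 55), (-64, 2, 0, 53), (32, 2, 0, 57), (64, 2, 0, 45), (64, 2, 0, 23), (32, 2, 0, 39), (32, 2, 1, 14), (-32, 2, 2, 13)]),
  (1, [(96, 2, 0, 29), (32, 2, 0, 23), (96, 2, 1, 13), (32, 2, 1, 7)]),
  (1, [(96, 2, 0, 45), (32, 2, 0, 39), (32, 2, 1, 11), (96, 2, 2, 13)]),
  (1, [(96, 2, 0, 61), (128, 2, 0, 55), (32, 2, 0, 31)]),
  (1, []),
  (1, [(-32, 2, 0, 53), (-32, 2, 0, 29), (32, 2, 1, 13), (32, 2, 1, 7)]),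
  (1, [(-64, 1, 0, 54), (64, 1, 0, 27), (-64, 1, 1, 14), (64, 1, 2, 13), (64, 2, 1, 10), (-64, 2, 9, 2)])]

theorem chk2_mz : chkAll (relsOf (-1) (0)) (id_mz (-1) (0)) cert2_mz = true := by decide +kernel

def cert2_qx : List (ℤ × List (ℤ × ℕ × ℕ × ℕ)) := [
  (1, [(128, 0, 0, 21), (64, 0, 0, 22), (-128, 0, 1, 5), (-64, 0, 5, 2)]),
  (1, [(-64, 0, 0, 41), (-256, 0, 1, 9), (-64, 0, 1, 10), (256, 0, 5, 2), (128, 0, 9, 2)]),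
  (1, [(128, 0, 0, 53), (64, 0, 0, 54), (-256, 0, 1, 13), (-64, 0, 1, 14), (128, 0, 5, 3), (64, 0, 9, 3), (-64, 0, 2, 13)]),
  (1, [(64, 0, 0, 26), (64, 0, 1, 10)]),
  (1, [(64, 0, 0, 42), (64, 0, 2, 10)]),
  (1, [(64, 0, 0, 58), (64, 0, 10, 3)]),
  (1, [(64, 1, 0, 22), (-64, 1, 5, 2)]),
  (1, [(64, 1, 0, 38), (-64, 1, 1, 10), (64, 1, 9, 2), (-64, 1, 2, 9)]),
  (1, [(64, 1, 0, 54), (64, 1, 0, 27), (-64, 1, 1, 14), (-64, 1, 2, 13), (64, 2, 0, 26), (-64, 2, 9, 2)]),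
  (1, []),
  (1, [(128, 1, 0, 22), (-128, 1, 5, 2)]),
  (1, [(-256, 0, 0, 41), (-128, 0, 0, 42), (256, 0, 1, 10), (128, 0, 2, 10)])]

theorem chk2_qx : chkAll (relsOf (-1) (0)) (id_qx (-1) (0)) cert2_qx = true := by decide +kernel

def cert2_ql : List (ℤ × List (ℤ × ℕ × ℕ × ℕ)) := [
  (1, [(-256, 0, 0, 21), (-128, 0, 0, 22), (128, 0, 0, 26), (256, 0, 1, 5), (256, 0, 1, 9), (128, 0, 1, 10), (-128, 0, 5, 2), (-128, 0, 9, 2)]),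
  (1, [(128, 0, 0, 41), (128, 0, 0, 42), (-128, 0, 1, 10)]),
  (1, [(256, 0, 0, 53), (256, 0, 0, 57), (128, 0, 0, 54), (128, 0, 0, 58), (-128, 0, 1, 14), (-256, 0, 5, 3), (-128, 0, 9, 3), (-128, 0, 2, 13), (-128, 0, 2, 14), (128, 0, 10, 3)]),
  (1, []),
  (1, []),
  (1, []),
  (1, [(128, 1, 0, 26), (128, 1, 1, 10), (-128, 1, 9, 2)]),
  (1, [(128, 1, 0, 42)]),
  (1, [(128, 1, 0, 58), (128, 1, 0, 43), (-128, 1, 2, 14), (128, 2, 0, 42), (-128, 2, 2, 10)]),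
  (1, [(-128, 0, 0, 41), (128, 0, 1, 10)]),
  (1, [(-64, 0, 0, 58), (64, 0, 10, 3), (-64, 1, 0, 41), (64, 1, 0, 38), (64, 1, 0, 26), (64, 1, 1, 10), (-64, 1, 9, 2), (-64, 1, 2, 9)]),
  (1, [])]

theorem chk2_ql : chkAll (relsOf (-1) (0)) (id_ql (-1) (0)) cert2_ql = true := by decide +kernel

def cert2_qz : List (ℤ × List (ℤ × ℕ × ℕ × ℕ)) := [
  (1, [(128, 0, 0, 29), (64, 0, 0, 30), (128, 0, 1, 13), (64, 0, 1, 14), (-128, 0, 1, 7), (-128, 0, 5, 3), (-64, 0, 9, 3), (-64, 0, 13, 2)]),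
  (1, [(-256, 0, 0, 53), (-256, 0, 0, 57), (-128, 0, 0, 54), (-64, 0, 0, 58), (128, 0, 1, 14), (256, 0, 5, 3), (128, 0, 9, 3), (128, 0, 2, 13), (128, 0, 2, 14), (-64, 0, 10, 3), (-64, 1, 0, 41), (64, 1, 0, 26)]),
  (1, [(-64, 2, 0, 41), (64, 2, 0, 26)]),
  (1, [(64, 1, 0, 26), (64, 1, 1, 10)]),
  (1, [(64, 1, 0, 42), (64, 1, 2, 10)]),
  (1, [(64, 1, 0, 58), (64, 1, 0, 43), (64, 2, 0, 42), (-64, 2, 2, 10)]),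
  (1, [(-128, 1, 0, 27), (128, 1, 1, 14), (64, 2, 0, 26), (64, 2, 1, 10), (128, 2, 9, 2)]),
  (1, [(-128, 1, 0, 43), (128, 1, 2, 14), (64, 2, 0, 42), (192, 2, 2, 10)]),
  (1, [(192, 2, 0, 58), (64, 2, 0, 43)]),
  (1, [(-128, 1, 0, 22), (128, 1, 5, 2)]),
  (1, [(-64, 2, 0, 41), (64, 2, 1, 10)]),
  (1, [(-128, 1, 0, 42), (128, 1, 2, 10)])]

theorem chk2_qz : chkAll (relsOf (-1) (0)) (id_qz (-1) (0)) cert2_qz = true := by decide +kernel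

def cert2_R : List (ℤ × List (ℤ × ℕ × ℕ × ℕ)) := [
  (1, [(-128, 0, 0, 57), (128, 0, 0, 39), (128, 0, 13, 2), (128, 0, 2, 13), (256, 1, 0, 21), (128, 1, 0, 37), (128, 1, 0, 25), (-128, 1, 0, 22), (128, 1, 5, 2)]),
  (1, [(32, 0, 0, 55), (32, 0, 13, 3), (32, 0, 3, 13), (-32, 1, 0, 53), (32, 1, 0, 23), (64, 2, 0, 21), (32, 2, 0, 37), (32, 2, 0, 25)]),
  (1, [(-128, 2, 0, 53), (128, 2, 0, 23)]),
  (1, [(-32, 0, 0, 53), (32, 0, 0, 29), (64, 0, 0, 23), (32, 0, 1, 13), (32, 0, 1, 7)]),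
  (1, [(256, 0, 0, 53), (128, 0, 0, 54), (128, 0, 1, 14), (-256, 0, 5, 3), (-128, 0, 9, 3), (-128, 0, 2, 13)])]

theorem chk2_R : chkAll (relsOf (-1) (0)) (id_R (-1) (0)) cert2_R = true := by decide +kernel

end JD
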