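import Pool.Agent.H8.JD.SSound
import Pool.Agent.H8.JD.SSysDef

set_option autoImplicit false

/-!
# JD: certificates for identities of degree 5 modulo quadratic relations (checker, soundness)

`JM` = Jordan monomials in three letters. `JM.nf` expands a monomial through an S-system
(scaled by `4 ^ (number of products)`).
-/

namespace JD

/-- Jordan monomials -/
inductive JM where
  | v : Fin 3 → JM
  | m : JM → JM → JM

/-- value in `J` -/
def JM.ev {J : Type*} [Mul J] (x : Fin 3 → J) : JM → J
  | .v i => x i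
  | .m a b => a.ev x * b.ev x

def JM.size : JM → ℕ
  | .v _ => 0
  | .m a b => a.size + b.size + 1

def JM.deg : JM → ℕ
  | .v _ => 1
  | .m a b => a.deg + b.deg

def canW (w : Wd) : Wd :=
  match Nat.ble (code w) (code w.reverse) with
  | true => w
  | false => w.reverse

def insWd (c : ℤ) (w : Wd) : List (ℤ × Wd) → List (ℤ × Wd)
  | [] => [(c, w)]
  | (d, u) :: l =>
    match Nat.beq (code u) (code w) with
    | true => (c + d, u) :: l
    | false => (d, u) :: insWd c w l

def mulM (a b : List (ℤ × Wd)) : List (ℤ × Wd) :=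
  a.foldr (fun x acc => b.foldr (fun y acc =>
    (mul4 x.2 y.2).foldr (fun u acc => insWd (x.1 * y.1) (canW u) acc) acc) acc) []

def JM.nf : JM → List (ℤ × Wd)
  | .v i => [(1, [i])]
  | .m a b => mulM a.nf b.nf

section sound

variable {F : Type*} [Field F] {J : Type*} [NonUnitalNonAssocCommRing J] [Module F J]

def evM (S : Wd → J) (l : List (ℤ × Wd)) : J := (l.map fun t => t.1 • S t.2).sum

@[simp] theorem evM_nil (S : Wd → J) : evM S [] = 0 := rfl
@[simp] theorem evM_cons (S : Wd → J) (t : ℤ × Wd) (l : List (ℤ × Wd)) :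
    evM S (t :: l) = t.1 • S t.2 + evM S l := by simp [evM]

theorem evM_insWd (S : Wd → J) (c : ℤ) (w : Wd) (l : List (ℤ × Wd)) :
    evM S (insWd c w l) = c • S w + evM S l := by
  induction l with
  | nil => simp [insWd]
  | cons t l ih =>
    obtain ⟨d, u⟩ := t
    unfold insWd
    cases hb : Nat.beq (code u) (code w)
    · simp only [evM_cons, ih]
      abel
    · have : u = w := code_injective (Nat.eq_of_beq_eq_true hb)
      subst this
      simp only [evM_cons, add_smul, add_assoc]

theorem S_canW {S : Wd → J} (hrev : ∀ w, S w.reverse = S w) (w : Wd) : S (canW w) = S w := by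
  unfold canW
  cases Nat.ble (code w) (code w.reverse)
  · exact hrev w
  · rfl

theorem evM_mul4 {S : Wd → J} (hrev : ∀ w, S w.reverse = S w) (c : ℤ) (l : List Wd)
    (acc : List (ℤ × Wd)) :
    evM S (l.foldr (fun u acc => insWd c (canW u) acc) acc) =
      c • (l.map S).sum + evM S acc := by
  induction l with
  | nil => simp
  | cons u l ih =>
    rw [List.foldr_cons, evM_insWd, ih, S_canW hrev, List.map_cons, List.sum_cons, smul_add]
    abel

theorem insWd_ne {c : ℤ} {w : Wd} (hw : w ≠ []) (l : List (ℤ × Wd)) (h : ∀ y ∈ l, y.2 ≠ []) :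
    ∀ y ∈ insWd c w l, y.2 ≠ [] := by
  induction l with
  | nil => intro y hy; simp [insWd] at hy; subst hy; exact hw
  | cons t l ih =>
    obtain ⟨d, u⟩ := t
    intro y hy
    unfold insWd at hy
    cases hb : Nat.beq (code u) (code w)
    · rw [hb] at hy
      rcases List.mem_cons.1 hy with rfl | hy
      · exact h _ List.mem_cons_self
      · exact ih (fun y hy => h y (List.mem_cons_of_mem _ hy)) y hy
    · rw [hb] at hy
      rcases List.mem_cons.1 hy with rfl | hy
      · exact h (d, u) List.mem_cons_self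
      · exact h y (List.mem_cons_of_mem _ hy)

theorem canW_ne {w : Wd} (hw : w ≠ []) : canW w ≠ [] := by
  unfold canW
  cases Nat.ble (code w) (code w.reverse)
  · simpa using hw
  · exact hw

theorem foldr_insWd_ne (c : ℤ) (l : List Wd) (hl : ∀ u ∈ l, u ≠ []) (acc : List (ℤ × Wd))
    (h : ∀ y ∈ acc, y.2 ≠ []) :
    ∀ y ∈ l.foldr (fun u acc => insWd c (canW u) acc) acc, y.2 ≠ [] := by
  induction l with
  | nil => exact h
  | cons u l ih =>
    rw [List.foldr_cons]
    exact insWd_ne (canW_ne (hl u List.mem_cons_self)) _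
      (ih (fun u hu => hl u (List.mem_cons_of_mem _ hu)))

theorem mulM_ne (a b : List (ℤ × Wd)) (ha : ∀ y ∈ a, y.2 ≠ []) :
    ∀ y ∈ mulM a b, y.2 ≠ [] := by
  unfold mulM
  induction a with
  | nil => simp
  | cons x a ih =>
    rw [List.foldr_cons]
    have ih' := ih (fun y hy => ha y (List.mem_cons_of_mem _ hy))
    have key : ∀ (b acc : List (ℤ × Wd)), (∀ y ∈ acc, y.2 ≠ []) →
        ∀ y ∈ b.foldr (fun y acc =>
          (mul4 x.2 y.2).foldr (fun u acc => insWd (x.1 * y.1) (canW u) acc) acc) acc,
          y.2 ≠ [] := by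
      intro b acc hacc
      induction b with
      | nil => exact hacc
      | cons y b ihb =>
        rw [List.foldr_cons]
        refine foldr_insWd_ne _ _ ?_ _ ihb
        intro u hu
        exact (mul4_mem hu (ha x List.mem_cons_self)).1
    exact key b _ ih'

theorem JM.nf_ne (t : JM) : ∀ y ∈ t.nf, y.2 ≠ [] := by
  induction t with
  | v i => intro y hy; simp [JM.nf] at hy; subst hy; simp
  | m a b iha _ => exact mulM_ne _ _ iha

theorem evM_mulM {x : Fin 3 → J} {S : Wd → J} (hS : SSys F x S) (a b : List (ℤ × Wd))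
    (ha : ∀ y ∈ a, y.2 ≠ []) (hb : ∀ y ∈ b, y.2 ≠ []) :
    evM S (mulM a b) = (4 : ℤ) • (evM S a * evM S b) := by
  have hmul : ∀ v w : Wd, v ≠ [] → w ≠ [] → ((mul4 v w).map S).sum = (4 : ℤ) • (S v * S w) := by
    intro v w hv hw
    have := hS.mul v w hv hw
    rw [show (4 : F) = ((4 : ℤ) : F) by norm_num, Int.cast_smul_eq_zsmul] at this
    rw [this]
    simp [mul4]
    abel
  unfold mulM
  induction a with
  | nil => simp
  | cons x' a ih =>
    rw [List.foldr_cons]
    have ih' := ih (fun y hy => ha y (List.mem_cons_of_mem _ hy))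
    have key : ∀ (b : List (ℤ × Wd)) (acc : List (ℤ × Wd)), (∀ y ∈ b, y.2 ≠ []) →
        evM S (b.foldr (fun y acc =>
          (mul4 x'.2 y.2).foldr (fun u acc => insWd (x'.1 * y.1) (canW u) acc) acc) acc) =
        (4 : ℤ) • ((x'.1 • S x'.2) * evM S b) + evM S acc := by
      intro b acc hb
      induction b with
      | nil => simp
      | cons y b ihb =>
        rw [List.foldr_cons, evM_mul4 hS.rev, ihb (fun y hy => hb y (List.mem_cons_of_mem _ hy)),
          hmul _ _ (ha x' List.mem_cons_self) (hb y List.mem_cons_self), evM_cons, mul_add,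
          smul_mul_smul_comm, smul_add, smul_smul, smul_smul, mul_comm (x'.1 * y.1) 4]
        abel
    rw [key _ _ hb, ih', evM_cons, add_mul, smul_add]

theorem JM.ev_nf {x : Fin 3 → J} {S : Wd → J} (hS : SSys F x S) (t : JM) :
    evM S t.nf = ((4 : ℤ) ^ t.size) • t.ev x := by
  induction t with
  | v i => simp [JM.nf, JM.size, JM.ev, hS.single]
  | m a b iha ihb =>
    rw [JM.nf, evM_mulM hS _ _ a.nf_ne b.nf_ne, iha, ihb, smul_mul_smul_comm, smul_smul,
      JM.ev, JM.size]
    congr 1
    ring

end sound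

/-! ### checker -/

/-- determinant of a word -/
def detZ (w : Wd) : ℤ :=
  match code w with
  | 57 => 1
  | 30 => 1
  | 39 => 1
  | 45 => -1
  | 27 => -1
  | 54 => -1
  | _ => 0

/-- add `c` times a list of words to a vector -/
def addW (c : ℤ) (t : List (ℤ × Wd)) (l : Vec) : Vec :=
  t.foldr (fun x acc => ins (c * x.1) (rc x.2) acc) l

/-- the quadratic relations: lists of `(coefficient, letter, letter)`; the first one has
obstruction `τ`, the others `0` -/
abbrev Rels := List (List (ℤ × Fin 3 × Fin 3))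

def relV (R : Rels) (r : ℕ) (p q : Wd) (c : ℤ) (l : Vec) : Vec :=
  let l1 := (R.getD r []).foldr (fun x acc => ins (c * x.1) (rc (p ++ [x.2.1, x.2.2] ++ q)) acc) l
  match r with
  | 0 => ins (- c * ((if p.length % 2 = 0 then 1 else -1) * detZ (p ++ q))) 0 l1
  | _ + 1 => l1

def chkId (R : Rels) (lhs : List (ℤ × JM)) (tc : ℤ) (k : ℤ)
    (cert : List (ℤ × ℕ × ℕ × ℕ)) : Bool :=
  lhs.all (fun x => Nat.beq x.2.size 4) &&
  cert.all (fun x => Nat.ble 1 (3 + 1 - x.2.1) && Nat.beq ((dec 8 x.2.2.1).length + (dec 8 x.2.2.2).length) 3) &&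
  ((cert.foldr (fun x acc => relV R x.2.1 (dec 8 x.2.2.1) (dec 8 x.2.2.2) (-x.1) acc)
    (ins (- k * 256 * tc) 0 (lhs.foldr (fun x acc => addW (k * x.1) x.2.nf acc) []))).all
      fun x => match x.1 with
        | Int.ofNat 0 => true
        | _ => false)

section sound2

variable {M : Type*} [AddCommGroup M]

/-- generic value of a vector -/
def evG (K : ℕ → M) (l : Vec) : M := (l.map fun t => t.1 • K t.2).sum

@[simp] theorem evG_nil (K : ℕ → M) : evG K [] = 0 := rfl
@[simp] theorem evG_cons (K : ℕ → M) (t : ℤ × ℕ) (l : Vec) :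
    evG K (t :: l) = t.1 • K t.2 + evG K l := by simp [evG]

theorem evG_cons0 (K : ℕ → M) (c : ℤ) (k : ℕ) (l : Vec) :
    evG K (cons0 c k l) = c • K k + evG K l := by
  unfold cons0
  split
  · simp
  · rw [evG_cons]
  · rw [evG_cons]

theorem evG_ins (K : ℕ → M) (c : ℤ) (k : ℕ) (l : Vec) :
    evG K (ins c k l) = c • K k + evG K l := by
  induction l with
  | nil => simp [ins]
  | cons t l ih =>
    obtain ⟨d, k'⟩ := t
    unfold ins
    cases hb : Nat.ble k' k
    · simp only [evG_cons]
    · cases hc : Nat.beq k' k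
      · simp only [evG_cons, ih]
        abel
      · have hk : k' = k := Nat.eq_of_beq_eq_true hc
        subst hk
        simp only [evG_cons, evG_cons0, add_smul, add_assoc]

theorem evG_all_zero (K : ℕ → M) (l : Vec)
    (h : (l.all fun x => match x.1 with
        | Int.ofNat 0 => true
        | _ => false) = true) : evG K l = 0 := by
  induction l with
  | nil => rfl
  | cons t l ih =>
    rw [List.all_cons, Bool.and_eq_true] at h
    rw [evG_cons, ih h.2]
    obtain ⟨c, k⟩ := t
    match c, h.1 with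
    | Int.ofNat 0, _ => simp

end sound2

section sound3

variable {F : Type*} [Field F] {J : Type*} [NonUnitalNonAssocCommRing J] [Module F J]

/-- the hypotheses on the relations -/
structure RelHyp (R : Rels) (lam : Wd → F) (τ : F) : Prop where
  rev : ∀ w, lam w.reverse = lam w
  rel0 : ∀ p q : Wd, p.length + q.length = 3 →
    ((R.getD 0 []).map fun x => (x.1 : F) * lam (p ++ [x.2.1, x.2.2] ++ q)).sum =
      (-1) ^ p.length * τ * det3 F (p ++ q)
  rel : ∀ r : ℕ, 1 ≤ r → r ≤ 3 → ∀ p q : Wd, p.length + q.length = 3 →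
    ((R.getD r []).map fun x => (x.1 : F) * lam (p ++ [x.2.1, x.2.2] ++ q)).sum = 0

theorem detZ_eq (w : Wd) : (detZ w : F) = det3 F w := by
  unfold det3
  split_ifs with h1 h2
  · rcases h1 with rfl | rfl | rfl <;> simp [detZ, code]
  · rcases h2 with rfl | rfl | rfl <;> simp [detZ, code]
  · unfold detZ
    split
    · rename_i hc
      exact absurd (Or.inl (code_injective (hc.trans (by decide : (57 : ℕ) = code [0, 1, 2])))) h1
    · rename_i hc
      exact absurd (Or.inr (Or.inl (code_injective (hc.trans (by decide : (30 : ℕ) = code [1, 2, 0]))))) h1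
    · rename_i hc
      exact absurd (Or.inr (Or.inr (code_injective (hc.trans (by decide : (39 : ℕ) = code [2, 0, 1]))))) h1
    · rename_i hc
      exact absurd (Or.inl (code_injective (hc.trans (by decide : (45 : ℕ) = code [0, 2, 1])))) h2
    · rename_i hc
      exact absurd (Or.inr (Or.inl (code_injective (hc.trans (by decide : (27 : ℕ) = code [2, 1, 0]))))) h2
    · rename_i hc
      exact absurd (Or.inr (Or.inr (code_injective (hc.trans (by decide : (54 : ℕ) = code [1, 0, 2]))))) h2
    · simp

/-- value of a code, with `τ` at the empty word -/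
noncomputable def sigT (lam : Wd → F) (τ : F) : ℕ → F :=
  Function.extend code (fun w => if w = [] then τ else lam w) 0

theorem sigT_code (lam : Wd → F) (τ : F) (w : Wd) (hw : w ≠ []) :
    sigT lam τ (code w) = lam w := by
  unfold sigT
  rw [code_injective.extend_apply]
  simp [hw]

theorem sigT_zero (lam : Wd → F) (τ : F) : sigT lam τ 0 = τ := by
  have : sigT lam τ (code []) = τ := by
    unfold sigT
    rw [code_injective.extend_apply]
    simp
  exact this

theorem sigT_rc {lam : Wd → F} {τ : F} (hrev : ∀ w, lam w.reverse = lam w) (w : Wd)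
    (hw : w ≠ []) : sigT lam τ (rc w) = lam w := by
  rcases rc_eq w with h1 | h1 <;> rw [h1, sigT_code]
  · exact hw
  · exact hrev w
  · simpa using hw

theorem evG_addW {lam : Wd → F} {τ : F} (hrev : ∀ w, lam w.reverse = lam w) (c : ℤ)
    (t : List (ℤ × Wd)) (ht : ∀ y ∈ t, y.2 ≠ []) (l : Vec) :
    evG (sigT lam τ) (addW c t l) =
      c • (t.map fun x => x.1 • lam x.2).sum + evG (sigT lam τ) l := by
  induction t with
  | nil => simp [addW]
  | cons x t ih =>
    have ih' := ih (fun y hy => ht y (List.mem_cons_of_mem _ hy))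
    simp only [addW, List.foldr_cons] at ih' ⊢
    rw [evG_ins, ih', sigT_rc hrev _ (ht x List.mem_cons_self), List.map_cons, List.sum_cons,
      smul_add, smul_smul]
    abel

theorem evG_relV {R : Rels} {lam : Wd → F} {τ : F} (h : RelHyp R lam τ) (r : ℕ) (hr : r ≤ 3)
    (p q : Wd) (hpq : p.length + q.length = 3) (c : ℤ) (l : Vec) :
    evG (sigT lam τ) (relV R r p q c l) = evG (sigT lam τ) l := by
  have key : ∀ (t : List (ℤ × Fin 3 × Fin 3)) (l : Vec),
      evG (sigT lam τ) (t.foldr (fun x acc =>
        ins (c * x.1) (rc (p ++ [x.2.1, x.2.2] ++ q)) acc) l) =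
      c • (t.map fun x => (x.1 : F) * lam (p ++ [x.2.1, x.2.2] ++ q)).sum +
        evG (sigT lam τ) l := by
    intro t l
    induction t with
    | nil => simp
    | cons x t ih =>
      rw [List.foldr_cons, evG_ins, ih, sigT_rc h.rev _ (by simp), List.map_cons, List.sum_cons,
        smul_add, mul_smul, ← zsmul_eq_mul]
      abel
  unfold relV
  match r, hr with
  | 0, _ =>
    simp only
    rw [evG_ins, key, sigT_zero, h.rel0 p q hpq]
    have h1 : ((-1 : F)) ^ p.length = (((if p.length % 2 = 0 then 1 else -1 : ℤ)) : F) := by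
      rcases Nat.even_or_odd p.length with he | ho
      · rw [he.neg_one_pow, if_pos (Nat.even_iff.1 he)]; simp
      · rw [ho.neg_one_pow, if_neg (by rw [Nat.odd_iff.1 ho]; norm_num)]; simp
    rw [h1, ← detZ_eq]
    simp only [zsmul_eq_mul]
    push_cast
    ring
  | r + 1, hr =>
    simp only
    rw [key, h.rel (r + 1) (by omega) hr p q hpq]
    simp

theorem chkId_sound (h2 : (2 : F) ≠ 0) {R : Rels} {x : Fin 3 → J} {S : Wd → J}
    (hS : SSys F x S) (φ : J →ₗ[F] F) {τ : F} (h : RelHyp R (fun w => φ (S w)) τ)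
    (lhs : List (ℤ × JM)) (tc : ℤ) (k : ℤ) (hk' : (k : F) ≠ 0)
    (cert : List (ℤ × ℕ × ℕ × ℕ)) (hc : chkId R lhs tc k cert = true) :
    (lhs.map fun y => (y.1 : F) * φ (y.2.ev x)).sum = tc * τ := by
  unfold chkId at hc
  rw [Bool.and_eq_true, Bool.and_eq_true] at hc
  obtain ⟨⟨h1, h2'⟩, h3⟩ := hc
  have e1 := evG_all_zero (sigT (fun w => φ (S w)) τ) _ h3
  have e2 : ∀ (cert : List (ℤ × ℕ × ℕ × ℕ)),
      (cert.all (fun x => Nat.ble 1 (3 + 1 - x.2.1) &&
        Nat.beq ((dec 8 x.2.2.1).length + (dec 8 x.2.2.2).length) 3) = true) → ∀ l : Vec,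
      evG (sigT (fun w => φ (S w)) τ) (cert.foldr (fun x acc =>
        relV R x.2.1 (dec 8 x.2.2.1) (dec 8 x.2.2.2) (-x.1) acc) l) =
      evG (sigT (fun w => φ (S w)) τ) l := by
    intro cert hcert l
    induction cert with
    | nil => rfl
    | cons y cert ih =>
      rw [List.all_cons, Bool.and_eq_true, Bool.and_eq_true] at hcert
      have a1 := Nat.le_of_ble_eq_true hcert.1.1
      rw [List.foldr_cons, evG_relV h _ (by omega) _ _ (Nat.eq_of_beq_eq_true hcert.1.2)]
      exact ih hcert.2
  rw [e2 cert h2', evG_ins, sigT_zero] at e1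
  have e3 : ∀ (lhs : List (ℤ × JM)), (lhs.all (fun x => Nat.beq x.2.size 4) = true) →
      evG (sigT (fun w => φ (S w)) τ) (lhs.foldr (fun x acc => addW (k * x.1) x.2.nf acc) []) =
      k • ((256 : ℤ) • (lhs.map fun y => (y.1 : F) * φ (y.2.ev x)).sum) := by
    intro lhs hl
    induction lhs with
    | nil => simp
    | cons y lhs ih =>
      rw [List.all_cons, Bool.and_eq_true] at hl
      have hsz := Nat.eq_of_beq_eq_true hl.1
      rw [List.foldr_cons, evG_addW h.rev _ _ y.2.nf_ne, ih hl.2, List.map_cons, List.sum_cons]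
      have e4 : (y.2.nf.map fun x => x.1 • φ (S x.2)).sum = (256 : ℤ) • φ (y.2.ev x) := by
        have := congrArg φ (JM.ev_nf hS y.2)
        rw [map_zsmul, hsz] at this
        rw [show (256 : ℤ) = 4 ^ 4 by norm_num, ← this]
        unfold evM
        rw [map_list_sum, List.map_map]
        congr 1
        apply List.map_congr_left
        intro t _
        simp
      rw [e4]
      simp only [zsmul_eq_mul]
      push_cast
      ring
  rw [e3 lhs h1] at e1
  have h256 : ((256 : ℤ) : F) ≠ 0 := by
    have : ((256 : ℤ) : F) = 2 ^ 8 := by norm_num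
    rw [this]; exact pow_ne_zero _ h2
  simp only [zsmul_eq_mul] at e1
  push_cast at e1 h256
  have : (k : F) * (256 * ((lhs.map fun y => (y.1 : F) * φ (y.2.ev x)).sum - tc * τ)) = 0 := by
    linear_combination e1
  have h5 := (mul_eq_zero.1 this).resolve_left hk'
  have h6 := (mul_eq_zero.1 h5).resolve_left h256
  exact sub_eq_zero.1 h6

end sound3

end JD
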