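import Pool.Agent.H8.JD.SSysDef

set_option autoImplicit false

/-!
# JD Target 1: speciality criterion for S-systems, any number of letters

Let `A` be the free algebra on `ι` (realised here as `MonoidAlgebra F (FreeMonoid ι)`; all that is
used is a basis `b` indexed by `List ι` with `b (v ++ w) = b v * b w`, `b [] = 1`),
`ρ : A → J` the linear map `b w ↦ S w`, `*` the linear map `b w ↦ b w.reverse`,
`K` = symmetric elements `k` of the augmentation ideal with `ρ k = 0`.

PROOF. (0) From `SSys.mul`: for `h` symmetric, `y` arbitrary (both without constant term)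
`ρ h * ρ y = (ρ (h y) + ρ (y h)) / 2`. Hence for `k ∈ K`, `h` symmetric: `h k + k h ∈ K`,
and `ρ (h k) = 0` since `ρ (h k) = ρ ((h k)*) = ρ (k h)`.
(1) `ρ (g h k) = 0` for symmetric `g h`, `k ∈ K`: with `{a,b} = a b + b a`,
`2 (g h k + k h g) = {g,{h,k}} + {k,{g,h}} - {h,{g,k}}` (all in `K`).
(2) `ρ (p k q) = 0` for all words `p q`: induction on `q.length`:
`ρ (p k (v q)) = - ρ (p v k q) + ρ (p (k v + v k) q)`, and `k v + v k ∈ K`; at the end
`ρ (p k) = ρ (k p*)`, which is `0` by hypothesis for `p.length ≥ 3`, by (0), (1) for length `≤ 2`.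
(3) Let `Y` = all linear functionals `ψ` on `A` which vanish on `a k b`, `k ∈ K`; `J` acts on `Y`:
choose a linear section `s : J → Sym(A)`, `ρ (s j) = j` (exists, since the
`S w = ρ ((w + w*)/2)` span `J`), `(j ψ)(a) = ψ (s j a)`. As
`s (i j) - (s i s j + s j s i)/2 ∈ K` this is a special representation; for `φ : J → F` linear with
`φ u ≠ 0` we have `φ ∘ ρ ∈ Y` by (2) and `(u (φ ∘ ρ)) 1 = φ u ≠ 0`.
The kernel is an ideal not containing `u`, so it is `0`.
-/

namespace JD

universe u v w

section Target1

set_option linter.unusedSectionVars false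

variable {F : Type u} [Field F] {J : Type v} [NonUnitalNonAssocCommRing J]
    [Module F J] [IsScalarTower F J J] [SMulCommClass F J J] {ι : Type w}
    {A : Type max u w} [Ring A] [Algebra F A] (b : Module.Basis (List ι) F A)

/-- reversal -/
noncomputable def Target1_st : A →ₗ[F] A := b.constr F (fun w => b w.reverse)

/-- augmentation -/
noncomputable def Target1_ep : A →ₗ[F] F := by
  classical exact b.constr F (fun w => if w = [] then (1 : F) else 0)

/-- the projection to `J` -/
noncomputable def Target1_rho (S : List ι → J) : A →ₗ[F] J := b.constr F S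

theorem Target1_st_b (w : List ι) : Target1_st b (b w) = b w.reverse := by
  simp [Target1_st]

theorem Target1_rho_b (S : List ι → J) (w : List ι) : Target1_rho b S (b w) = S w := by
  simp [Target1_rho]

theorem Target1_ep_nil : Target1_ep b (b []) = 1 := by
  simp [Target1_ep]

theorem Target1_ep_ne {w : List ι} (h : w ≠ []) : Target1_ep b (b w) = 0 := by
  simp [Target1_ep, h]

theorem Target1_st_st (a : A) : Target1_st b (Target1_st b a) = a := by
  have h : (Target1_st b) ∘ₗ (Target1_st b) = LinearMap.id := by
    apply b.ext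
    intro w
    simp [Target1_st_b]
  exact LinearMap.congr_fun h a

theorem Target1_st_mul (hb : ∀ v w, b (v ++ w) = b v * b w) (a c : A) :
    Target1_st b (a * c) = Target1_st b c * Target1_st b a := by
  have h : (LinearMap.mul F A).compr₂ (Target1_st b) =
      ((LinearMap.mul F A).flip.compl₂ (Target1_st b)) ∘ₗ (Target1_st b) := by
    apply b.ext
    intro v
    apply b.ext
    intro w
    simp only [LinearMap.compr₂_apply, LinearMap.mul_apply', LinearMap.comp_apply,
      LinearMap.compl₂_apply, LinearMap.flip_apply]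
    rw [← hb, Target1_st_b, Target1_st_b, Target1_st_b, ← hb, List.reverse_append]
  have := LinearMap.congr_fun (LinearMap.congr_fun h a) c
  simpa using this

theorem Target1_ep_mul (hb : ∀ v w, b (v ++ w) = b v * b w) (a c : A) :
    Target1_ep b (a * c) = Target1_ep b a * Target1_ep b c := by
  have h : (LinearMap.mul F A).compr₂ (Target1_ep b) =
      ((LinearMap.mul F F).compl₂ (Target1_ep b)) ∘ₗ (Target1_ep b) := by
    apply b.ext
    intro v
    apply b.ext
    intro w
    simp only [LinearMap.compr₂_apply, LinearMap.mul_apply', LinearMap.comp_apply,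
      LinearMap.compl₂_apply]
    rw [← hb]
    rcases eq_or_ne v [] with hv | hv
    · subst hv
      rw [List.nil_append, Target1_ep_nil, one_mul]
    · rw [Target1_ep_ne b hv, Target1_ep_ne b (by simp [hv]), zero_mul]
  have := LinearMap.congr_fun (LinearMap.congr_fun h a) c
  simpa using this

theorem Target1_ep_st (a : A) : Target1_ep b (Target1_st b a) = Target1_ep b a := by
  have h : (Target1_ep b) ∘ₗ (Target1_st b) = Target1_ep b := by
    apply b.ext
    intro w
    simp only [LinearMap.comp_apply, Target1_st_b]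
    rcases eq_or_ne w [] with hw | hw
    · subst hw; rfl
    · rw [Target1_ep_ne b hw, Target1_ep_ne b (by simp [hw])]
  exact LinearMap.congr_fun h a

theorem Target1_rho_st (S : List ι → J) (hrev : ∀ w, S w.reverse = S w) (a : A) :
    Target1_rho b S (Target1_st b a) = Target1_rho b S a := by
  have h : (Target1_rho b S) ∘ₗ (Target1_st b) = Target1_rho b S := by
    apply b.ext
    intro w
    simp only [LinearMap.comp_apply, Target1_st_b, Target1_rho_b, hrev]
  exact LinearMap.congr_fun h a

/-- the augmentation ideal is spanned by the nonempty words -/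
theorem Target1_mem_span {a : A} (ha : Target1_ep b a = 0) :
    a ∈ Submodule.span F (b '' {w | w ≠ []}) := by
  have key : ∀ a : A, a - Target1_ep b a • b [] ∈ Submodule.span F (b '' {w | w ≠ []}) := by
    intro a
    have ha : a ∈ Submodule.span F (Set.range b) := by rw [b.span_eq]; trivial
    induction ha using Submodule.span_induction with
    | mem x hx =>
      obtain ⟨w, rfl⟩ := hx
      rcases eq_or_ne w [] with hw | hw
      · subst hw
        rw [Target1_ep_nil, one_smul, sub_self]
        exact Submodule.zero_mem _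
      · rw [Target1_ep_ne b hw, zero_smul, sub_zero]
        exact Submodule.subset_span ⟨w, hw, rfl⟩
    | zero => simp
    | add x y _ _ hx hy =>
      have : x + y - Target1_ep b (x + y) • b [] =
          (x - Target1_ep b x • b []) + (y - Target1_ep b y • b []) := by
        rw [map_add]; module
      rw [this]
      exact Submodule.add_mem _ hx hy
    | smul c x _ hx =>
      have : c • x - Target1_ep b (c • x) • b [] = c • (x - Target1_ep b x • b []) := by
        rw [map_smul, smul_eq_mul]; module
      rw [this]
      exact Submodule.smul_mem _ _ hx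
  have := key a
  rwa [ha, zero_smul, sub_zero] at this

theorem Target1_mul4 {x : ι → J} {S : List ι → J} (hS : SSys F x S)
    (hb : ∀ v w, b (v ++ w) = b v * b w) {a c : A}
    (ha : Target1_ep b a = 0) (hc : Target1_ep b c = 0) :
    (4 : F) • (Target1_rho b S a * Target1_rho b S c) =
      Target1_rho b S (a * c) + Target1_rho b S (a * Target1_st b c) +
      Target1_rho b S (Target1_st b a * c) + Target1_rho b S (c * a) := by
  have ha' := Target1_mem_span b ha
  have hc' := Target1_mem_span b hc
  clear ha hc
  induction ha' using Submodule.span_induction with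
  | mem x hx =>
    obtain ⟨v, hv, rfl⟩ := hx
    induction hc' using Submodule.span_induction with
    | mem y hy =>
      obtain ⟨w, hw, rfl⟩ := hy
      rw [Target1_st_b, Target1_st_b, ← hb, ← hb, ← hb, ← hb]
      simp only [Target1_rho_b]
      exact hS.mul v w hv hw
    | zero => simp
    | add y z _ _ hy hz =>
      simp only [map_add, mul_add, add_mul, smul_add]
      linear_combination (norm := module) hy + hz
    | smul t y _ hy =>
      simp only [map_smul, mul_smul_comm, smul_mul_assoc]
      linear_combination (norm := module) t • hy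
  | zero => simp
  | add y z _ _ hy hz =>
    simp only [map_add, mul_add, add_mul, smul_add]
    linear_combination (norm := module) hy + hz
  | smul t y _ hy =>
    simp only [map_smul, mul_smul_comm, smul_mul_assoc]
    linear_combination (norm := module) t • hy

/-- `2 ρ h ρ y = ρ (h y) + ρ (y h)` for `h` symmetric. -/
theorem Target1_mul2 (h2 : (2 : F) ≠ 0) {x : ι → J} {S : List ι → J} (hS : SSys F x S)
    (hb : ∀ v w, b (v ++ w) = b v * b w) {a c : A}
    (ha : Target1_ep b a = 0) (has : Target1_st b a = a) (hc : Target1_ep b c = 0) :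
    (2 : F) • (Target1_rho b S a * Target1_rho b S c) = Target1_rho b S (a * c + c * a) := by
  have h4 := Target1_mul4 b hS hb ha hc
  have h1 : Target1_rho b S (a * Target1_st b c) = Target1_rho b S (c * a) := by
    rw [← Target1_rho_st b S hS.rev (c * a), Target1_st_mul b hb, has]
  rw [h1, has] at h4
  have h5 : (2 : F) • ((2 : F) • (Target1_rho b S a * Target1_rho b S c)) =
      (2 : F) • Target1_rho b S (a * c + c * a) := by
    rw [map_add, smul_smul]
    have : (2 : F) * 2 = 4 := by norm_num
    rw [this, h4]
    module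
  have := congrArg (fun t => (2 : F)⁻¹ • t) h5
  simpa [smul_smul, inv_mul_cancel₀ h2, ← mul_assoc] using this

/-- symmetric elements without constant term -/
structure Target1_Sym (a : A) : Prop where
  st : Target1_st b a = a
  ep : Target1_ep b a = 0

/-- the symmetric elements killed by `ρ` -/
structure Target1_K (S : List ι → J) (a : A) : Prop where
  sym : Target1_Sym b a
  rho : Target1_rho b S a = 0

theorem Target1_Sym.anti (hb : ∀ v w, b (v ++ w) = b v * b w) {a c : A}
    (ha : Target1_Sym b a) (hc : Target1_Sym b c) : Target1_Sym b (a * c + c * a) := by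
  refine ⟨?_, ?_⟩
  · rw [map_add, Target1_st_mul b hb, Target1_st_mul b hb, ha.st, hc.st, add_comm]
  · rw [map_add, Target1_ep_mul b hb, Target1_ep_mul b hb, ha.ep, hc.ep]; simp

theorem Target1_K.anti (h2 : (2 : F) ≠ 0) {x : ι → J} {S : List ι → J} (hS : SSys F x S)
    (hb : ∀ v w, b (v ++ w) = b v * b w) {a k : A}
    (ha : Target1_Sym b a) (hk : Target1_K b S k) : Target1_K b S (a * k + k * a) := by
  refine ⟨ha.anti b hb hk.sym, ?_⟩
  rw [← Target1_mul2 b h2 hS hb ha.ep ha.st hk.sym.ep, hk.rho, mul_zero, smul_zero]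

theorem Target1_half (h2 : (2 : F) ≠ 0) {j : J} (h : (2 : F) • j = 0) : j = 0 := by
  have := congrArg (fun t => (2 : F)⁻¹ • t) h
  simpa [smul_smul, inv_mul_cancel₀ h2] using this

/-- if `ρ` kills the symmetric part of `a` then it kills `a` -/
theorem Target1_rho_of_add_st (h2 : (2 : F) ≠ 0) {S : List ι → J}
    (hrev : ∀ w, S w.reverse = S w) {a : A}
    (h : Target1_rho b S (a + Target1_st b a) = 0) : Target1_rho b S a = 0 := by
  apply Target1_half h2
  rw [map_add, Target1_rho_st b S hrev] at h
  rw [two_smul]
  exact h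

theorem Target1_rho_one_K (h2 : (2 : F) ≠ 0) {x : ι → J} {S : List ι → J} (hS : SSys F x S)
    (hb : ∀ v w, b (v ++ w) = b v * b w) {h k : A}
    (hh : Target1_Sym b h) (hk : Target1_K b S k) : Target1_rho b S (h * k) = 0 := by
  apply Target1_rho_of_add_st b h2 hS.rev
  rw [Target1_st_mul b hb, hh.st, hk.sym.st]
  exact (Target1_K.anti b h2 hS hb hh hk).rho

theorem Target1_rho_two_K (h2 : (2 : F) ≠ 0) {x : ι → J} {S : List ι → J} (hS : SSys F x S)
    (hb : ∀ v w, b (v ++ w) = b v * b w) {g h k : A}
    (hg : Target1_Sym b g) (hh : Target1_Sym b h) (hk : Target1_K b S k) :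
    Target1_rho b S (g * h * k) = 0 := by
  apply Target1_rho_of_add_st b h2 hS.rev
  rw [Target1_st_mul b hb, Target1_st_mul b hb, hh.st, hg.st, hk.sym.st]
  apply Target1_half h2
  have e1 := (Target1_K.anti b h2 hS hb hg (Target1_K.anti b h2 hS hb hh hk)).rho
  have e2 := (Target1_K.anti b h2 hS hb (hg.anti b hb hh) hk).rho
  have e3 := (Target1_K.anti b h2 hS hb hh (Target1_K.anti b h2 hS hb hg hk)).rho
  have key : (2 : F) • (g * h * k + k * (h * g)) =
      (g * (h * k + k * h) + (h * k + k * h) * g) +
      ((g * h + h * g) * k + k * (g * h + h * g)) -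
      (h * (g * k + k * g) + (g * k + k * g) * h) := by
    rw [two_smul]
    noncomm_ring
  rw [← map_smul, key, map_sub, map_add, e1, e2, e3]
  simp

theorem Target1_b_sym (i : ι) : Target1_Sym b (b [i]) :=
  ⟨by rw [Target1_st_b]; rfl, Target1_ep_ne b (by simp)⟩

theorem Target1_rho_word_K_word (h2 : (2 : F) ≠ 0) {x : ι → J} {S : List ι → J}
    (hS : SSys F x S) (hb : ∀ v w, b (v ++ w) = b v * b w) (hb1 : b [] = 1)
    (hk : ∀ k : A, Target1_K b S k → ∀ w : List ι, 3 ≤ w.length →
      Target1_rho b S (k * b w) = 0) (q : List ι) :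
    ∀ (p : List ι) (k : A), Target1_K b S k → Target1_rho b S (b p * k * b q) = 0 := by
  induction q with
  | nil =>
    intro p k hkk
    rw [hb1, mul_one]
    rcases Nat.lt_or_ge p.length 3 with hp | hp
    · match p, hp with
      | [], _ => rw [hb1, one_mul]; exact hkk.rho
      | [i], _ => exact Target1_rho_one_K b h2 hS hb (Target1_b_sym b i) hkk
      | [i, j], _ =>
        have : b [i, j] = b [i] * b [j] := hb [i] [j]
        rw [this]
        exact Target1_rho_two_K b h2 hS hb (Target1_b_sym b i) (Target1_b_sym b j) hkk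
      | _ :: _ :: _ :: _, h => simp at h; omega
    · rw [← Target1_rho_st b S hS.rev, Target1_st_mul b hb, hkk.sym.st, Target1_st_b]
      exact hk k hkk _ (by simpa using hp)
  | cons i q ih =>
    intro p k hkk
    have e1 := ih p _ (Target1_K.anti b h2 hS hb (Target1_b_sym b i) hkk)
    have e2 := ih (p ++ [i]) k hkk
    have h3 : b (i :: q) = b [i] * b q := hb [i] q
    have h4 : b p * k * b (i :: q) =
        b p * (b [i] * k + k * b [i]) * b q - b (p ++ [i]) * k * b q := by
      rw [h3, hb p [i]]
      noncomm_ring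
    rw [h4, map_sub, e1, e2, sub_zero]

theorem Target1_rho_K (h2 : (2 : F) ≠ 0) {x : ι → J} {S : List ι → J}
    (hS : SSys F x S) (hb : ∀ v w, b (v ++ w) = b v * b w) (hb1 : b [] = 1)
    (hk : ∀ k : A, Target1_K b S k → ∀ w : List ι, 3 ≤ w.length →
      Target1_rho b S (k * b w) = 0) {k : A} (hkk : Target1_K b S k) (a c : A) :
    Target1_rho b S (a * k * c) = 0 := by
  have ha : a ∈ Submodule.span F (Set.range b) := by rw [b.span_eq]; trivial
  have hc : c ∈ Submodule.span F (Set.range b) := by rw [b.span_eq]; trivial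
  induction ha using Submodule.span_induction with
  | mem y hy =>
    obtain ⟨p, rfl⟩ := hy
    induction hc using Submodule.span_induction with
    | mem z hz =>
      obtain ⟨q, rfl⟩ := hz
      exact Target1_rho_word_K_word b h2 hS hb hb1 hk q p k hkk
    | zero => simp
    | add y z _ _ hy hz => rw [mul_add, map_add, hy, hz, add_zero]
    | smul t y _ hy => rw [mul_smul_comm, map_smul, hy, smul_zero]
  | zero => simp
  | add y z _ _ hy hz => rw [add_mul, add_mul, map_add, hy, hz, add_zero]
  | smul t y _ hy => rw [smul_mul_assoc, smul_mul_assoc, map_smul, hy, smul_zero]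

/-- the space of functionals -/
def Target1_Y (S : List ι → J) : Submodule F (A → F) where
  carrier := {ψ | IsLinearMap F ψ ∧ ∀ k : A, Target1_K b S k → ∀ a c : A, ψ (a * k * c) = 0}
  zero_mem' := ⟨⟨fun _ _ => by simp, fun _ _ => by simp⟩, fun _ _ _ _ => rfl⟩
  add_mem' := by
    intro ψ χ hψ hχ
    refine ⟨⟨fun a c => ?_, fun t a => ?_⟩, fun k hk a c => ?_⟩
    · simp only [Pi.add_apply, hψ.1.map_add, hχ.1.map_add]; ring
    · simp only [Pi.add_apply, hψ.1.map_smul, hχ.1.map_smul, smul_eq_mul]; ring
    · rw [Pi.add_apply, hψ.2 k hk a c, hχ.2 k hk a c, add_zero]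
  smul_mem' := by
    intro t ψ hψ
    refine ⟨⟨fun a c => ?_, fun r a => ?_⟩, fun k hk a c => ?_⟩
    · simp only [Pi.smul_apply, hψ.1.map_add, smul_eq_mul]; ring
    · simp only [Pi.smul_apply, hψ.1.map_smul, smul_eq_mul]; ring
    · rw [Pi.smul_apply, hψ.2 k hk a c, smul_zero]

/-- the action of `A` on the functionals -/
def Target1_act (S : List ι → J) : A →ₗ[F] Module.End F (Target1_Y b S) where
  toFun y :=
    { toFun := fun ψ => ⟨fun a => ψ.1 (y * a), by
        refine ⟨⟨fun a c => ?_, fun t a => ?_⟩, fun k hk a c => ?_⟩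
        · simp only [mul_add, ψ.2.1.map_add]
        · simp only [mul_smul_comm, ψ.2.1.map_smul]
        · have := ψ.2.2 k hk (y * a) c
          rw [← this]
          simp only [mul_assoc]⟩
      map_add' := fun ψ χ => rfl
      map_smul' := fun t ψ => rfl }
  map_add' y z := by
    apply LinearMap.ext
    intro ψ
    apply Subtype.ext
    funext a
    change ψ.1 ((y + z) * a) = ψ.1 (y * a) + ψ.1 (z * a)
    rw [add_mul, ψ.2.1.map_add]
  map_smul' t y := by
    apply LinearMap.ext
    intro ψ
    apply Subtype.ext
    funext a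
    change ψ.1 ((t • y) * a) = t • ψ.1 (y * a)
    rw [smul_mul_assoc, ψ.2.1.map_smul]

theorem Target1_act_mul (S : List ι → J) (y z : A) :
    Target1_act b S (y * z) = Target1_act b S z * Target1_act b S y := by
  apply LinearMap.ext
  intro ψ
  apply Subtype.ext
  funext a
  change ψ.1 ((y * z) * a) = ψ.1 (y * (z * a))
  rw [mul_assoc]

theorem Target1_act_K (S : List ι → J) {k : A} (hk : Target1_K b S k) :
    Target1_act b S k = 0 := by
  apply LinearMap.ext
  intro ψ
  apply Subtype.ext
  funext a
  have := ψ.2.2 k hk 1 a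
  rw [one_mul] at this
  exact this

/-- symmetric elements without constant term, as a submodule -/
noncomputable def Target1_symSub : Submodule F A where
  carrier := {a | Target1_Sym b a}
  zero_mem' := ⟨by simp, by simp⟩
  add_mem' := by
    intro a c ha hc
    exact ⟨by rw [map_add, ha.st, hc.st], by rw [map_add, ha.ep, hc.ep, add_zero]⟩
  smul_mem' := by
    intro t a ha
    exact ⟨by rw [map_smul, ha.st], by rw [map_smul, ha.ep, smul_zero]⟩

theorem Target1_section (h2 : (2 : F) ≠ 0) {x : ι → J} {S : List ι → J}
    (hS : SSys F x S) (hspan : Submodule.span F (Set.range S) = ⊤) :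
    ∃ s : J →ₗ[F] A, (∀ j, Target1_rho b S (s j) = j) ∧ ∀ j, Target1_Sym b (s j) := by
  let r : Target1_symSub b →ₗ[F] J := (Target1_rho b S) ∘ₗ (Target1_symSub b).subtype
  have hr : LinearMap.range r = ⊤ := by
    rw [eq_top_iff, ← hspan, Submodule.span_le]
    rintro _ ⟨w, rfl⟩
    rcases eq_or_ne w [] with hw | hw
    · subst hw
      rw [hS.nil]
      exact Submodule.zero_mem _
    · refine ⟨⟨(2 : F)⁻¹ • (b w + b w.reverse), ?_, ?_⟩, ?_⟩
      · rw [map_smul, map_add, Target1_st_b, Target1_st_b, List.reverse_reverse, add_comm]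
      · rw [map_smul, map_add, Target1_ep_ne b hw, Target1_ep_ne b (by simp [hw])]; simp
      · change Target1_rho b S ((2 : F)⁻¹ • (b w + b w.reverse)) = S w
        rw [map_smul, map_add, Target1_rho_b, Target1_rho_b, hS.rev, ← two_smul F, smul_smul,
          inv_mul_cancel₀ h2, one_smul]
  obtain ⟨s, hs⟩ := r.exists_rightInverse_of_surjective hr
  refine ⟨(Target1_symSub b).subtype ∘ₗ s, fun j => LinearMap.congr_fun hs j, fun j => (s j).2⟩

theorem Target1_main (h2 : (2 : F) ≠ 0) {x : ι → J} {S : List ι → J} {u : J}
    (hS : SSys F x S) (hspan : Submodule.span F (Set.range S) = ⊤) (hu0 : u ≠ 0)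
    (hu : ∀ I : Submodule F J, IsIdeal F J I → I ≠ ⊥ → u ∈ I)
    (hb : ∀ v w, b (v ++ w) = b v * b w) (hb1 : b [] = 1)
    (hk : ∀ k : A, Target1_K b S k → ∀ w : List ι, 3 ≤ w.length →
      Target1_rho b S (k * b w) = 0) :
    IsSpecial.{u, v, max u w} F J := by
  obtain ⟨s, hs, hsym⟩ := Target1_section b h2 hS hspan
  let f : J →ₗ[F] Module.End F (Target1_Y b S) := (Target1_act b S) ∘ₗ s
  have hf : ∀ i j : J, f (i * j) = (2 : F)⁻¹ • (f i * f j + f j * f i) := by
    intro i j
    have hK : Target1_K b S (s (i * j) - (2 : F)⁻¹ • (s j * s i + s i * s j)) := by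
      have h1 := (hsym j).anti b hb (hsym i)
      refine ⟨⟨?_, ?_⟩, ?_⟩
      · rw [map_sub, map_smul, h1.st, (hsym _).st]
      · rw [map_sub, map_smul, h1.ep, (hsym _).ep]; simp
      · rw [map_sub, map_smul, ← Target1_mul2 b h2 hS hb (hsym j).ep (hsym j).st (hsym i).ep,
          hs, hs, hs, smul_smul, inv_mul_cancel₀ h2, one_smul, mul_comm j i, sub_self]
    have h0 := Target1_act_K b S hK
    rw [map_sub, map_smul, map_add, Target1_act_mul, Target1_act_mul, sub_eq_zero] at h0
    exact h0
  have hinj : Function.Injective f := by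
    intro i j hij
    by_contra hne
    have hker : LinearMap.ker f ≠ ⊥ := by
      intro hbot
      have hm : i - j ∈ LinearMap.ker f := by
        rw [LinearMap.mem_ker, map_sub, hij, sub_self]
      rw [hbot, Submodule.mem_bot] at hm
      exact hne (sub_eq_zero.mp hm)
    have hmem := hu (LinearMap.ker f) (fun a c hc => by
      rw [LinearMap.mem_ker] at hc ⊢
      rw [hf, hc]
      simp) hker
    rw [LinearMap.mem_ker] at hmem
    apply hu0
    rw [← Module.forall_dual_apply_eq_zero_iff F u]
    intro φ
    have hψ : (fun a => φ (Target1_rho b S a)) ∈ Target1_Y b S := by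
      refine ⟨⟨fun a c => by rw [map_add, map_add], fun t a => by rw [map_smul, map_smul]⟩,
        fun k hkk a c => ?_⟩
      change φ (Target1_rho b S (a * k * c)) = 0
      rw [Target1_rho_K b h2 hS hb hb1 hk hkk, map_zero]
    have h1 := congrArg (fun T => ((T (⟨_, hψ⟩ : Target1_Y b S)) : Target1_Y b S).1 1) hmem
    have h3 : φ (Target1_rho b S (s u * 1)) = 0 := h1
    rwa [mul_one, hs] at h3
  exact ⟨Module.End F (Target1_Y b S), inferInstance, inferInstance, inferInstance, inferInstance,
    f, hinj, hf⟩

end Target1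

theorem special_of_SSys (F : Type u) [Field F] (J : Type v) [NonUnitalNonAssocCommRing J]
    [Module F J] [IsScalarTower F J J] [SMulCommClass F J J] (ι : Type w) (x : ι → J)
    (S : List ι → J) (u : J) (h2 : (2 : F) ≠ 0) (hS : SSys F x S)
    (hspan : Submodule.span F (Set.range S) = ⊤) (hu0 : u ≠ 0)
    (hu : ∀ I : Submodule F J, IsIdeal F J I → I ≠ ⊥ → u ∈ I)
    (hk : ∀ k : List ι →₀ F, k.mapDomain List.reverse = k → k [] = 0 →
      k.sum (fun v c => c • S v) = 0 →
      ∀ w : List ι, 3 ≤ w.length → k.sum (fun v c => c • S (v ++ w)) = 0) :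
    IsSpecial.{u, v, max u w} F J := by
  let b : Module.Basis (List ι) F (MonoidAlgebra F (FreeMonoid ι)) :=
    MonoidAlgebra.basis (FreeMonoid ι) F
  have hb : ∀ v w, b (v ++ w) = b v * b w := by
    intro v w
    change MonoidAlgebra.single (FreeMonoid.ofList (v ++ w)) (1 : F) =
      MonoidAlgebra.single (FreeMonoid.ofList v) (1 : F) *
        MonoidAlgebra.single (FreeMonoid.ofList w) (1 : F)
    rw [MonoidAlgebra.single_mul_single, mul_one]
    rfl
  have hb1 : b [] = 1 := rfl
  refine Target1_main b h2 hS hspan hu0 hu hb hb1 ?_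
  intro k hkk w hw
  have hrepr : k = (b.repr k).sum (fun v c => c • b v) := by
    have := b.linearCombination_repr k
    rw [Finsupp.linearCombination_apply] at this
    exact this.symm
  have hrho : ∀ a : MonoidAlgebra F (FreeMonoid ι), Target1_rho b S a =
      (b.repr a).sum (fun v c => c • S v) := by
    intro a
    rw [Target1_rho, Module.Basis.constr_apply]
  have e := hk (b.repr k) ?_ ?_ ?_ w hw
  · rw [← e]
    conv_lhs => rw [hrepr]
    rw [Finsupp.sum, Finset.sum_mul, map_sum]
    rw [Finsupp.sum]
    refine Finset.sum_congr rfl fun v _ => ?_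
    rw [smul_mul_assoc, ← hb, map_smul, Target1_rho_b]
  · have h1 := hkk.sym.st
    have h3 : ∀ a, b.repr (Target1_st b a) = (b.repr a).mapDomain List.reverse := by
      intro a
      have h : b.repr.toLinearMap ∘ₗ (Target1_st b) =
          (Finsupp.lmapDomain F F List.reverse) ∘ₗ b.repr.toLinearMap := by
        apply b.ext
        intro v
        simp [Target1_st_b, Finsupp.mapDomain_single]
      exact LinearMap.congr_fun h a
    rw [← h3, h1]
  · have h1 := hkk.sym.ep
    have h3 : ∀ a, Target1_ep b a = b.repr a [] := by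
      intro a
      have h : Target1_ep b = (b.coord []) := by
        apply b.ext
        intro v
        rcases eq_or_ne v [] with hv | hv
        · subst hv
          rw [Target1_ep_nil]
          simp
        · rw [Target1_ep_ne b hv]
          simp [hv]
      rw [h, Module.Basis.coord_apply]
    rw [← h3, h1]
  · rw [← hrho]
    exact hkk.rho

end JD
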