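import Pool.Agent.H8.JD.SSysEx
import Pool.Agent.H8.JD.Target1

set_option autoImplicit false

/-!
# JD class 5, three generators: definitions

`C5J F J x S φ` : `J` is nilpotent with `J^6 = 0`, `x : Fin 3 → J` generators that are
independent modulo `J^2`, `S` an S-system, `φ : J → F` linear.
The words are evaluated by `lam w = φ (S w)`.

For a `3 × 3` matrix `k` (a quadratic form in the letters) `kval lam k p q` is the value of
`p k q`; `InU lam k t` says that `k` is symmetric and `lam (p k q) = (-1)^|p| t det (p q)` for
all words with `|p| + |q| = 3`; `Usub lam` is the space of all such `k`.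
-/

namespace JD

universe u v w

section pure

variable {F : Type u} [Field F]

/-- value of the quadratic form `k` between the words `p` and `q` -/
def kval (lam : List (Fin 3) → F) (k : Matrix (Fin 3) (Fin 3) F) (p q : List (Fin 3)) : F :=
  ∑ a, ∑ b, k a b * lam (p ++ [a, b] ++ q)

/-- `k` is a symmetric quadratic relation up to `t` times the determinant -/
structure InU (lam : List (Fin 3) → F) (k : Matrix (Fin 3) (Fin 3) F) (t : F) : Prop where
  symm : ∀ a b, k a b = k b a
  rel : ∀ p q : List (Fin 3), p.length + q.length = 3 →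
    kval lam k p q = (-1) ^ p.length * t * det3 F (p ++ q)

theorem kval_add (lam : List (Fin 3) → F) (k k' : Matrix (Fin 3) (Fin 3) F)
    (p q : List (Fin 3)) : kval lam (k + k') p q = kval lam k p q + kval lam k' p q := by
  simp only [kval, Matrix.add_apply, add_mul, Finset.sum_add_distrib]

theorem kval_smul (lam : List (Fin 3) → F) (c : F) (k : Matrix (Fin 3) (Fin 3) F)
    (p q : List (Fin 3)) : kval lam (c • k) p q = c * kval lam k p q := by
  simp only [kval, Matrix.smul_apply, smul_eq_mul, Finset.mul_sum, mul_assoc]

/-- `t(k)` is a linear function of `k` -/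
def tval (lam : List (Fin 3) → F) : Matrix (Fin 3) (Fin 3) F →ₗ[F] F where
  toFun k := kval lam k [] [0, 1, 2]
  map_add' k k' := kval_add lam k k' _ _
  map_smul' c k := kval_smul lam c k _ _

theorem InU.t_eq {lam : List (Fin 3) → F} {k : Matrix (Fin 3) (Fin 3) F} {t : F}
    (h : InU lam k t) : t = tval lam k := by
  have := h.rel [] [0, 1, 2] rfl
  simp [det3] at this
  exact this.symm

/-- the space of quadratic relations up to the determinant -/
def Usub (lam : List (Fin 3) → F) : Submodule F (Matrix (Fin 3) (Fin 3) F) where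
  carrier := {k | InU lam k (tval lam k)}
  zero_mem' := by
    refine ⟨fun _ _ => rfl, fun p q _ => ?_⟩
    rw [map_zero]
    simp [kval]
  add_mem' := by
    intro k k' h h'
    refine ⟨fun a b => ?_, fun p q hpq => ?_⟩
    · rw [Matrix.add_apply, Matrix.add_apply, h.symm, h'.symm]
    · rw [kval_add, h.rel p q hpq, h'.rel p q hpq, map_add]
      ring
  smul_mem' := by
    intro c k h
    refine ⟨fun a b => ?_, fun p q hpq => ?_⟩
    · rw [Matrix.smul_apply, Matrix.smul_apply, h.symm]
    · rw [kval_smul, h.rel p q hpq, map_smul, smul_eq_mul]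
      ring

theorem mem_Usub {lam : List (Fin 3) → F} {k : Matrix (Fin 3) (Fin 3) F} :
    k ∈ Usub lam ↔ InU lam k (tval lam k) := Iff.rfl

theorem InU.mem {lam : List (Fin 3) → F} {k : Matrix (Fin 3) (Fin 3) F} {t : F}
    (h : InU lam k t) : k ∈ Usub lam := by
  rw [mem_Usub, ← h.t_eq]
  exact h

end pure

/-- The data for class 5 with three generators (`lam w = φ (S w)`). -/
structure C5J (F : Type u) [Field F] (J : Type v) [NonUnitalNonAssocCommRing J] [Module F J]
    [IsScalarTower F J J] [SMulCommClass F J J] (x : Fin 3 → J) (S : List (Fin 3) → J)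
    (φ : J →ₗ[F] F) : Prop where
  two : (2 : F) ≠ 0
  fin : Module.Finite F J
  bot : jpow F J 6 = ⊥
  sys : SSys F x S
  mem : ∀ w : List (Fin 3), w ≠ [] → S w ∈ jpow F J w.length
  span : Submodule.span F (Set.range S) = ⊤
  indep : LinearIndependent F (fun i => (jpow F J 2).mkQ (x i))

end JD
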