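import Pool.Agent.H8.JD.C5Def

set_option autoImplicit false

/-!
# JD class 5: layers

All elementary linear algebra in a finite dimensional space (`dlay F J i` is defined with
truncated subtraction; `jpow F J (i+1) ≤ jpow F J i` is `jpow_succ_le`).
* `finrank_span_le_dlay`: the span of `s` is contained in the image `N` of `jpow F J i` under `T`;
  `finrank N + finrank (ker T ⊓ jpow i) = finrank (jpow i)` and `jpow (i+1) ≤ ker T ⊓ jpow i`.
* `exists_layer`: choose a complement of `jpow (i+1)` in `jpow i`; its dimension is `dlay F J i ≤ n`;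
  take a basis, and fill up with zeros.
* `finrank_eq_layers`: telescoping; `jpow F J 1 = ⊤`, `ngen = finrank (J ⧸ jpow F J 2)`.
* `jpow_le_span`: strong induction on `n`, `jpow_le_of`, `SSys.mul` divided by `4`.
-/

namespace JD

universe u v w

section

variable {F : Type u} [Field F] {J : Type u} [NonUnitalNonAssocCommRing J] [Module F J]
    [IsScalarTower F J J] [SMulCommClass F J J]

theorem finrank_span_le_dlay [Module.Finite F J] {M : Type w} [AddCommGroup M] [Module F M]
    (i : ℕ) (T : J →ₗ[F] M) (hT : ∀ a ∈ jpow F J (i + 1), T a = 0) (s : Set M)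
    (hs : ∀ m ∈ s, ∃ a ∈ jpow F J i, T a = m) :
    Module.finrank F (Submodule.span F s) ≤ dlay F J i := by
  have hle := jpow_succ_le (F := F) (J := J) i
  have h1 : Submodule.span F s ≤ LinearMap.range (T.domRestrict (jpow F J i)) := by
    rw [Submodule.span_le]
    intro m hm
    obtain ⟨a, ha, rfl⟩ := hs m hm
    exact ⟨⟨a, ha⟩, rfl⟩
  have h2 : Module.finrank F (Submodule.span F s) ≤
      Module.finrank F (LinearMap.range (T.domRestrict (jpow F J i))) :=
    Submodule.finrank_mono h1
  have h3 := LinearMap.finrank_range_add_finrank_ker (T.domRestrict (jpow F J i))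
  have h4 : (jpow F J (i + 1)).comap (jpow F J i).subtype ≤
      LinearMap.ker (T.domRestrict (jpow F J i)) := by
    intro a ha
    rw [LinearMap.mem_ker]
    exact hT a.1 ha
  have h5 := Submodule.finrank_mono h4
  have h6 : Module.finrank F ((jpow F J (i + 1)).comap (jpow F J i).subtype) =
      Module.finrank F (jpow F J (i + 1)) :=
    LinearEquiv.finrank_eq (Submodule.comapSubtypeEquivOfLe hle)
  unfold dlay
  omega

theorem exists_layer [Module.Finite F J] (i n : ℕ) (hn : dlay F J i ≤ n) :
    ∃ g : Fin n → J, (∀ j, g j ∈ jpow F J i) ∧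
      ∀ a ∈ jpow F J i, ∃ c : Fin n → F, a - ∑ j, c j • g j ∈ jpow F J (i + 1) := by
  have hle := jpow_succ_le (F := F) (J := J) i
  have h6 : Module.finrank F ((jpow F J (i + 1)).comap (jpow F J i).subtype) =
      Module.finrank F (jpow F J (i + 1)) :=
    LinearEquiv.finrank_eq (Submodule.comapSubtypeEquivOfLe hle)
  have h7 := Submodule.finrank_quotient_add_finrank
    ((jpow F J (i + 1)).comap (jpow F J i).subtype)
  have h8 : Module.finrank F
      (jpow F J i ⧸ (jpow F J (i + 1)).comap (jpow F J i).subtype) ≤
      Module.finrank F (Fin n → F) := by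
    rw [Module.finrank_fin_fun]
    unfold dlay at hn
    omega
  obtain ⟨e, he⟩ := finrank_le_iff_exists_linearMap.mp h8
  obtain ⟨f, hf⟩ := LinearMap.exists_leftInverse_of_injective e (LinearMap.ker_eq_bot.mpr he)
  have hmk := Submodule.mkQ_surjective ((jpow F J (i + 1)).comap (jpow F J i).subtype)
  choose g hg using fun j : Fin n => hmk (f (Pi.single j 1))
  refine ⟨fun j => (g j).1, fun j => (g j).2, fun a ha => ?_⟩
  refine ⟨e (Submodule.mkQ _ ⟨a, ha⟩), ?_⟩
  have hfe : f (e (Submodule.mkQ _ ⟨a, ha⟩)) =
      ((jpow F J (i + 1)).comap (jpow F J i).subtype).mkQ ⟨a, ha⟩ :=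
    LinearMap.congr_fun hf _
  have hsum : f (e (Submodule.mkQ _ ⟨a, ha⟩)) =
      ((jpow F J (i + 1)).comap (jpow F J i).subtype).mkQ
        (∑ j, e (Submodule.mkQ _ ⟨a, ha⟩) j • g j) := by
    rw [map_sum]
    conv_lhs => rw [pi_eq_sum_univ' (e (Submodule.mkQ _ ⟨a, ha⟩))]
    rw [map_sum]
    refine Finset.sum_congr rfl fun j _ => ?_
    rw [map_smul, map_smul, hg j]
  rw [hfe] at hsum
  have := (Submodule.Quotient.eq _).mp hsum
  rw [Submodule.mem_comap] at this
  simpa using this

theorem finrank_eq_layers [Module.Finite F J] :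
    Module.finrank F J = ngen F J + dlay F J 2 + dlay F J 3 + dlay F J 4 +
      Module.finrank F (jpow F J 5) := by
  have h1 := Submodule.finrank_quotient_add_finrank (jpow F J 2)
  have h2 := Submodule.finrank_mono (jpow_succ_le (F := F) (J := J) 2)
  have h3 := Submodule.finrank_mono (jpow_succ_le (F := F) (J := J) 3)
  have h4 := Submodule.finrank_mono (jpow_succ_le (F := F) (J := J) 4)
  unfold ngen dlay
  simp only [Nat.reduceAdd] at *
  omega

/-- `J^n` is spanned by the values of the words of length at least `n` -/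
theorem jpow_le_span {x : Fin 3 → J} {S : List (Fin 3) → J} (h2 : (2 : F) ≠ 0)
    (hS : SSys F x S) (hspan : Submodule.span F (Set.range S) = ⊤) (n : ℕ) (hn : 1 ≤ n) :
    jpow F J n ≤ Submodule.span F (S '' {w | n ≤ w.length}) := by
  induction n using Nat.strong_induction_on with
  | _ n ih =>
    rcases Nat.lt_or_ge n 2 with h | h
    · obtain rfl : n = 1 := by omega
      rw [jpow_one, ← hspan, Submodule.span_le]
      rintro _ ⟨w, rfl⟩
      rcases w with _ | ⟨a, w⟩
      · rw [hS.nil]; exact Submodule.zero_mem _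
      · exact Submodule.subset_span ⟨a :: w, by simp, rfl⟩
    · refine jpow_le_of h _ fun i j hi hj hij a ha b hb => ?_
      have ha' := ih i (by omega) hi ha
      have hb' := ih j (by omega) hj hb
      refine LinearMap.BilinMap.apply_apply_mem_of_mem_span
        (Submodule.span F (S '' {w | n ≤ w.length})) _ _ (LinearMap.mul F J) ?_ a b ha' hb'
      rintro _ ⟨v, hv, rfl⟩ _ ⟨w, hw, rfl⟩
      have hv' : i ≤ v.length := hv
      have hw' : j ≤ w.length := hw
      have hvn : v ≠ [] := by rintro rfl; simp at hv'; omega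
      have hwn : w ≠ [] := by rintro rfl; simp at hw'; omega
      have hm := hS.mul v w hvn hwn
      have h4 : (4 : F) ≠ 0 := by
        have : (4 : F) = 2 * 2 := by norm_num
        rw [this]; exact mul_ne_zero h2 h2
      have : S v * S w = (4 : F)⁻¹ • (S (v ++ w) + S (v ++ w.reverse) + S (v.reverse ++ w) +
          S (w ++ v)) := by
        rw [← hm, smul_smul, inv_mul_cancel₀ h4, one_smul]
      rw [LinearMap.mul_apply', this]
      refine Submodule.smul_mem _ _ (Submodule.add_mem _ (Submodule.add_mem _
        (Submodule.add_mem _ ?_ ?_) ?_) ?_)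
      all_goals
        refine Submodule.subset_span ⟨_, ?_, rfl⟩
        simp only [Set.mem_ofPred_eq, List.length_append, List.length_reverse]
        omega

end

end JD
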