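import Pool.Agent.H8.JD.C5T
import Pool.Agent.H8.JD.C5Layer

set_option autoImplicit false

/-!
# JD class 5: consequences of Lemma T

* `C5J.exc` (an exceptional cocyclic algebra has a relation `k` with `t ≠ 0`).
PROOF. By `special_of_SSys` (contrapositive) there are `K : List (Fin 3) →₀ F`, symmetric, without
constant term, `∑ K v • S v = 0`, and a word `w`, `|w| ≥ 3`, with `∑ K v • S (v ++ w) ≠ 0`.
Words `v` of length `≥ 3` do not contribute to the last sum (`S = 0` on words of length `≥ 6` by
`h.mem`, `h.bot`). The words of length 1: `∑ K [i] • x i ∈ J^2` (all longer words have values in `J^2`)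
so `K [i] = 0` by `h.indep`. Hence with `k a b = K [a,b]` (symmetric)
`y = ∑ k a b • S [a,b] = - ∑_{|v| ≥ 3} K v • S v ∈ J^3`, and `0 ≠ ∑ k a b • S ([a,b] ++ w)`, which
needs `|w| = 3` and is an element of `J^5 = F e`, so `φ` of it is `≠ 0` (`φ e ≠ 0`). By `C5J.inU`
`φ` of it is `t * det3 w`, `t = tval k`; so `t ≠ 0`.
* `C5J.d2`: `6 ≤ dlay 2 + finrank Usub`.
PROOF. `k ↦ ∑ k a b • S [a,b]` modulo `J^3` is a linear map from the (6-dimensional) space of
symmetric matrices to `J^2 / J^3`; its kernel is contained in `Usub` (`C5J.inU`); its range has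
dimension `≤ dlay F J 2`.
(For the dimension 6 only `≥ 6` is needed: six explicit linearly independent symmetric matrices,
e.g. the injective linear map `(Fin 6 → F) → Matrix`, `c ↦ !![c 0, c 1, c 2; c 1, c 3, c 4; c 2, c 4, c 5]`.)
* `C5J.d4`: `1 ≤ dlay 4`.
PROOF. Otherwise `J^4 = J^5`, so `x i * S w ∈ J * J^5 ≤ J^6 = 0` for `|w| = 4`:
`S (i :: w) = - S (w ++ [i])` (from `SSys.mul` and `SSys.rev`). Rotating five times gives
`S w = (-1)^5 S w` for `|w| = 5`, so `S w = 0` for `|w| = 5`, hence `J^5 = 0` by `jpow_le_span`.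
-/

namespace JD

universe u v w

section

variable {F : Type u} [Field F] {J : Type u} [NonUnitalNonAssocCommRing J] [Module F J]
    [IsScalarTower F J J] [SMulCommClass F J J] {x : Fin 3 → J} {S : List (Fin 3) → J}
    {φ : J →ₗ[F] F}

set_option linter.unusedSectionVars false in
theorem C5Exc_split (K : List (Fin 3) →₀ F) (g : List (Fin 3) → J) :
    K.sum (fun v c => c • g v) - K [] • g [] - ∑ i, K [i] • g [i] -
      ∑ a, ∑ b, K [a, b] • g [a, b] ∈ Submodule.span F (g '' {v | 3 ≤ v.length}) := by
  classical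
  induction K using Finsupp.induction_linear with
  | zero => simp
  | add K L hK hL =>
    have e : (K + L).sum (fun v c => c • g v) =
        K.sum (fun v c => c • g v) + L.sum (fun v c => c • g v) :=
      Finsupp.sum_add_index' (fun _ => zero_smul _ _) (fun _ _ _ => add_smul _ _ _)
    rw [e]
    simp only [Finsupp.add_apply, add_smul, Finset.sum_add_distrib]
    have := add_mem hK hL
    convert this using 1
    abel
  | single v c =>
    have e : (Finsupp.single v c).sum (fun v c => c • g v) = c • g v :=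
      Finsupp.sum_single_index (zero_smul F (g v))
    rw [e]
    match v with
    | [] => simp
    | [i] => simp [Finsupp.single_apply]
    | [a, b] =>
      simp [Finsupp.single_apply, ite_and]
    | a :: b :: d :: l =>
      simp only [Finsupp.single_apply]
      simp
      exact Submodule.smul_mem _ _ (Submodule.subset_span ⟨_, by simp, rfl⟩)

theorem C5Exc_six (h : C5J F J x S φ) (w : List (Fin 3)) (hw : 6 ≤ w.length) : S w = 0 := by
  have h1 := h.mem w (by intro h0; subst h0; simp at hw)
  have h2 := jpow_anti (F := F) (J := J) hw h1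
  rwa [h.bot, Submodule.mem_bot] at h2

/-- index of the entry `(a, b)` of a symmetric matrix -/
def C5Exc_ix : Fin 3 → Fin 3 → Fin 6 :=
  ![![0, 1, 2], ![1, 3, 4], ![2, 4, 5]]

theorem C5Exc_ix_symm (a b : Fin 3) : C5Exc_ix a b = C5Exc_ix b a := by
  revert a b; decide

theorem C5Exc_ix_surj (i : Fin 6) : ∃ a b, C5Exc_ix a b = i := by
  revert i; decide

theorem C5Exc_sym (F : Type u) [Field F] : ∃ m : (Fin 6 → F) →ₗ[F] Matrix (Fin 3) (Fin 3) F,
    Function.Injective m ∧ ∀ c a b, m c a b = m c b a := by
  refine ⟨{ toFun := fun c => Matrix.of fun a b => c (C5Exc_ix a b)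
            map_add' := fun _ _ => rfl
            map_smul' := fun _ _ => rfl }, ?_, ?_⟩
  · intro c d hcd
    funext i
    obtain ⟨a, b, rfl⟩ := C5Exc_ix_surj i
    exact congrFun (congrFun hcd a) b
  · intro c a b
    exact congrArg c (C5Exc_ix_symm a b)

theorem C5J.exc (h : C5J F J x S φ) (e : J) (he : e ≠ 0) (htop : jpow F J 5 = Submodule.span F {e})
    (hφ : φ e ≠ 0) (hmem : ∀ I : Submodule F J, IsIdeal F J I → I ≠ ⊥ → e ∈ I)
    (hexc : ¬ IsSpecial.{u, u, u} F J) :
    ∃ (k : Matrix (Fin 3) (Fin 3) F) (t : F), t ≠ 0 ∧ InU (fun w => φ (S w)) k t := by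
  by_contra hno
  push Not at hno
  apply hexc
  refine special_of_SSys F J (Fin 3) x S e h.two h.sys h.span he hmem ?_
  intro K hrev hnil hsum w hw
  have hmem2 : ∀ a b, S [a, b] ∈ jpow F J 2 := fun a b => h.mem [a, b] (by simp)
  have hsp3 : Submodule.span F (S '' {v | 3 ≤ v.length}) ≤ jpow F J 3 := by
    rw [Submodule.span_le]
    rintro _ ⟨v, hv, rfl⟩
    have hv' : 3 ≤ v.length := hv
    exact jpow_anti hv' (h.mem v (by intro h0; subst h0; simp at hv'))
  have h1 := C5Exc_split K S
  rw [hsum, hnil, zero_smul, sub_zero, zero_sub] at h1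
  have h1' := hsp3 h1
  have h2 : ∑ i, K [i] • x i ∈ jpow F J 2 := by
    have h3 := jpow_anti (F := F) (J := J) (show 2 ≤ 3 by norm_num) h1'
    have h4 : ∑ a, ∑ b, K [a, b] • S [a, b] ∈ jpow F J 2 :=
      sum_mem fun a _ => sum_mem fun b _ => Submodule.smul_mem _ _ (hmem2 a b)
    have h5 := neg_mem (add_mem h3 h4)
    convert h5 using 1
    simp only [h.sys.single]
    abel
  have hK1 : ∀ i, K [i] = 0 := by
    have h3 := Fintype.linearIndependent_iff.1 h.indep (fun i => K [i]) (by
      have h4 := (Submodule.Quotient.mk_eq_zero (jpow F J 2)).2 h2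
      rw [← Submodule.mkQ_apply, map_sum] at h4
      simpa only [map_smul] using h4)
    exact h3
  let k : Matrix (Fin 3) (Fin 3) F := Matrix.of fun a b => K [a, b]
  have hk : ∀ a b, k a b = k b a := by
    intro a b
    change K [a, b] = K [b, a]
    conv_lhs => rw [← hrev]
    exact Finsupp.mapDomain_apply List.reverse_injective K [b, a]
  have hy : ∑ a, ∑ b, k a b • S [a, b] ∈ jpow F J 3 := by
    have h3 := neg_mem h1'
    convert h3 using 1
    simp [hK1, k]
  have hU := h.inU k hk hy
  have ht : tval (fun w => φ (S w)) k = 0 := by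
    by_contra hne
    exact hno k _ hne hU
  have h3 := C5Exc_split K (fun v => S (v ++ w))
  have h4 : Submodule.span F ((fun v => S (v ++ w)) '' {v | 3 ≤ v.length}) = ⊥ := by
    rw [Submodule.span_eq_bot]
    rintro _ ⟨v, hv, rfl⟩
    have hv' : 3 ≤ v.length := hv
    exact C5Exc_six h _ (by rw [List.length_append]; omega)
  rw [h4, Submodule.mem_bot, hnil, zero_smul, sub_zero] at h3
  simp only [hK1, zero_smul, Finset.sum_const_zero, sub_zero] at h3
  rw [sub_eq_zero] at h3
  rw [h3]
  rcases Nat.lt_or_ge 3 w.length with hw' | hw'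
  · refine Finset.sum_eq_zero fun a _ => Finset.sum_eq_zero fun b _ => ?_
    rw [C5Exc_six h ([a, b] ++ w) (by simp; omega), smul_zero]
  · have hw3 : w.length = 3 := by omega
    have hz : ∑ a, ∑ b, K [a, b] • S ([a, b] ++ w) ∈ jpow F J 5 := by
      refine sum_mem fun a _ => sum_mem fun b _ => Submodule.smul_mem _ _ ?_
      have := h.mem ([a, b] ++ w) (by simp)
      rwa [List.length_append, hw3] at this
    rw [htop, Submodule.mem_span_singleton] at hz
    obtain ⟨r, hr⟩ := hz
    have h5 : φ (∑ a, ∑ b, K [a, b] • S ([a, b] ++ w)) = 0 := by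
      have h6 := hU.rel [] w (by simpa using hw3)
      rw [ht, mul_zero, zero_mul] at h6
      rw [← h6]
      simp only [map_sum, map_smul, smul_eq_mul, kval, List.nil_append]
      rfl
    rw [← hr, map_smul, smul_eq_mul] at h5
    have h7 : r = 0 := (mul_eq_zero.1 h5).resolve_right hφ
    rw [← hr, h7, zero_smul]

theorem C5J.d2 (h : C5J F J x S φ) :
    6 ≤ dlay F J 2 + Module.finrank F (Usub (fun w => φ (S w))) := by
  have hfin := h.fin
  obtain ⟨m, hm, hsym⟩ := C5Exc_sym F
  let L : Matrix (Fin 3) (Fin 3) F →ₗ[F] J :=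
    { toFun := fun k => ∑ a, ∑ b, k a b • S [a, b]
      map_add' := by
        intro k l
        simp only [Matrix.add_apply, add_smul, Finset.sum_add_distrib]
      map_smul' := by
        intro r k
        simp only [Matrix.smul_apply, smul_eq_mul, mul_smul, Finset.smul_sum, RingHom.id_apply] }
  let T : (Fin 6 → F) →ₗ[F] (J ⧸ jpow F J 3) := (jpow F J 3).mkQ ∘ₗ L ∘ₗ m
  have hL2 : ∀ k, L k ∈ jpow F J 2 := by
    intro k
    change ∑ a, ∑ b, k a b • S [a, b] ∈ jpow F J 2
    exact sum_mem fun a _ => sum_mem fun b _ => Submodule.smul_mem _ _ (h.mem [a, b] (by simp))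
  have h1 : Module.finrank F (LinearMap.range T) ≤ dlay F J 2 := by
    have := finrank_span_le_dlay (F := F) (J := J) 2 (jpow F J 3).mkQ
      (fun a ha => (Submodule.Quotient.mk_eq_zero _).2 ha) (LinearMap.range T : Set _)
      (by
        rintro _ ⟨c, rfl⟩
        exact ⟨L (m c), hL2 _, rfl⟩)
    rwa [Submodule.span_eq] at this
  have h2 : Module.finrank F (LinearMap.ker T) ≤
      Module.finrank F (Usub (fun w => φ (S w))) := by
    have hk : ∀ c ∈ LinearMap.ker T, m c ∈ Usub (fun w => φ (S w)) := by
      intro c hc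
      rw [LinearMap.mem_ker] at hc
      exact (h.inU (m c) (hsym c) ((Submodule.Quotient.mk_eq_zero _).1 hc)).mem
    refine LinearMap.finrank_le_finrank_of_injective (f := (m.restrict hk)) ?_
    intro c d hcd
    have := congrArg Subtype.val hcd
    exact Subtype.ext (hm this)
  have h3 := LinearMap.finrank_range_add_finrank_ker T
  rw [Module.finrank_fin_fun] at h3
  omega

theorem C5J.d4 (h : C5J F J x S φ) (h5 : jpow F J 5 ≠ ⊥) : 1 ≤ dlay F J 4 := by
  have hfin := h.fin
  by_contra hd
  have hd0 : dlay F J 4 = 0 := by omega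
  unfold dlay at hd0
  rw [show 4 + 1 = 5 from rfl] at hd0
  have h45 : jpow F J 5 = jpow F J 4 :=
    Submodule.eq_of_le_of_finrank_le (jpow_succ_le 4) (by omega)
  have hrot : ∀ (i : Fin 3) (w : List (Fin 3)), w.length = 4 → S (i :: w) = - S (w ++ [i]) := by
    intro i w hw
    have hw0 : w ≠ [] := by intro h0; subst h0; simp at hw
    have h1 := h.sys.mul [i] w (by simp) hw0
    have h2 : S [i] * S w = 0 := by
      have h3 := h.mem w hw0
      rw [hw, ← h45] at h3
      have h4 := mul_mem_jpow (h.mem [i] (by simp)) h3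
      have h5 : jpow F J (List.length [i] + 5) = ⊥ := h.bot
      rwa [h5, Submodule.mem_bot] at h4
    rw [h2, smul_zero] at h1
    have h6 : S ([i] ++ w.reverse) = S (w ++ [i]) := by
      have h7 := h.sys.rev (w ++ [i])
      rw [← h7]
      simp
    have h8 : S ([i].reverse ++ w) = S (i :: w) := rfl
    have h9 : S ([i] ++ w) = S (i :: w) := rfl
    rw [h6, h8, h9] at h1
    have h10 : (2 : F) • (S (i :: w) + S (w ++ [i])) = 0 := by
      rw [two_smul, h1]
      abel
    rcases smul_eq_zero.1 h10 with h11 | h11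
    · exact absurd h11 h.two
    · exact eq_neg_of_add_eq_zero_left h11
  have hS5 : ∀ w : List (Fin 3), 5 ≤ w.length → S w = 0 := by
    intro w hw
    rcases Nat.lt_or_ge 5 w.length with hw' | hw'
    · exact C5Exc_six h w hw'
    · have hl : w.length = 5 := by omega
      match w, hl with
      | [a, b, c, d, f], _ =>
        have e1 := hrot a [b, c, d, f] rfl
        have e2 := hrot b [c, d, f, a] rfl
        have e3 := hrot c [d, f, a, b] rfl
        have e4 := hrot d [f, a, b, c] rfl
        have e5 := hrot f [a, b, c, d] rfl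
        simp only [List.cons_append, List.nil_append] at e1 e2 e3 e4 e5
        have e6 : (2 : F) • S [a, b, c, d, f] = 0 := by
          rw [two_smul]
          nth_rewrite 1 [e1]
          rw [e2, e3, e4, e5]
          simp
        rcases smul_eq_zero.1 e6 with h11 | h11
        · exact absurd h11 h.two
        · exact h11
  apply h5
  rw [eq_bot_iff]
  refine (jpow_le_span h.two h.sys h.span 5 (by norm_num)).trans ?_
  rw [Submodule.span_le]
  rintro _ ⟨w, hw, rfl⟩
  exact (Submodule.mem_bot F).2 (hS5 w hw)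

end

end JD
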