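import Pool.Agent.H8.JD.C5Def

set_option autoImplicit false

/-!
# JD class 5: Lemma T (pure part)

PROOF. Write `f a b c = kval lam k [] [a,b,c]`, `g a b c = kval lam k [a] [b,c]`.
(h3) - (h2): `f b c a + f c b a = f a b c + f a c b`. By (h1) the left side is
`- f a c b - f a b c`, so `2 (f a b c + f a c b) = 0`: `f a c b = - f a b c`, and
`f c b a = - f a b c` by (h1). So `f` is alternating: `f a b c = t * det3 [a,b,c]` with
`t = f 0 1 2 = tval lam k`. Then (h2) says `g a c b = - g a b c`. Adding (h4) for `a b c` and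
for `b a c` gives `2 (g b a c + g a b c) = 0` (use `g c a b + g c b a = 0`, `f a b c + f b a c = 0`),
so `g` is alternating and (h4) gives `f a b c = - g a b c`. So `g = - t det3`.
Remaining cases: `kval lam k [a,b] [c] = kval lam k [c] [b,a]` and
`kval lam k [a,b,c] [] = kval lam k [] [c,b,a]` by `hrev` and the symmetry of `k`.
(`det3` of a word of length 3 in `Fin 3`: use `decide`-style case checks,
`fin_cases a <;> fin_cases b <;> fin_cases c <;> simp [det3]`.)
-/

namespace JD

universe u v w

theorem kval_reverse {F : Type u} [Field F] (lam : List (Fin 3) → F)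
    (hrev : ∀ w, lam w.reverse = lam w) (k : Matrix (Fin 3) (Fin 3) F)
    (hk : ∀ a b, k a b = k b a) (p q : List (Fin 3)) :
    kval lam k p.reverse q.reverse = kval lam k q p := by
  unfold kval
  rw [Finset.sum_comm]
  refine Finset.sum_congr rfl fun a _ => Finset.sum_congr rfl fun b _ => ?_
  rw [hk b a, ← hrev (q ++ [a, b] ++ p)]
  congr 2
  simp

private theorem C5LemT_alt {F : Type u} [Field F] (h2 : (2 : F) ≠ 0)
    (f : Fin 3 → Fin 3 → Fin 3 → F) (h12 : ∀ a b c, f b a c = - f a b c)
    (h23 : ∀ a b c, f a c b = - f a b c) (a b c : Fin 3) :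
    f a b c = f 0 1 2 * det3 F [a, b, c] := by
  have hz : ∀ x : F, x = -x → x = 0 := by
    intro x hx
    have h : 2 * x = 0 := by linear_combination hx
    exact (mul_eq_zero.mp h).resolve_left h2
  have r1 : ∀ a c, f a a c = 0 := fun a c => hz _ (h12 a a c)
  have r2 : ∀ a b, f a b b = 0 := fun a b => hz _ (h23 a b b)
  have r3 : ∀ a b, f a b a = 0 := fun a b => by rw [h12 b a a, r2, neg_zero]
  have e021 : f 0 2 1 = - f 0 1 2 := h23 0 1 2
  have e102 : f 1 0 2 = - f 0 1 2 := h12 0 1 2
  have e120 : f 1 2 0 = f 0 1 2 := by rw [h23 1 0 2, e102, neg_neg]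
  have e201 : f 2 0 1 = f 0 1 2 := by rw [h12 0 2 1, e021, neg_neg]
  have e210 : f 2 1 0 = - f 0 1 2 := by rw [h12 1 2 0, e120]
  fin_cases a <;> fin_cases b <;> fin_cases c <;>
    simp [det3, r1, r2, r3, e021, e102, e120, e201, e210]

/-- Lemma T, pure version. -/
theorem inU_of_ops {F : Type u} [Field F] (h2 : (2 : F) ≠ 0) (lam : List (Fin 3) → F)
    (hrev : ∀ w, lam w.reverse = lam w) (k : Matrix (Fin 3) (Fin 3) F)
    (hk : ∀ a b, k a b = k b a)
    (h1 : ∀ a b c, kval lam k [] [a, b, c] + kval lam k [] [c, b, a] = 0)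
    (h2' : ∀ a b c, kval lam k [] [a, b, c] + kval lam k [] [a, c, b] +
      kval lam k [a] [b, c] + kval lam k [a] [c, b] = 0)
    (h3 : ∀ a b c, kval lam k [a] [b, c] + kval lam k [a] [c, b] +
      kval lam k [] [b, c, a] + kval lam k [] [c, b, a] = 0)
    (h4 : ∀ a b c, kval lam k [] [a, b, c] + kval lam k [c] [a, b] +
      kval lam k [b] [a, c] + kval lam k [a] [b, c] = 0) :
    InU lam k (tval lam k) := by
  have hc : ∀ x : F, 2 * x = 0 → x = 0 := fun x hx => (mul_eq_zero.mp hx).resolve_left h2
  have f23 : ∀ a b c, kval lam k [] [a, c, b] = - kval lam k [] [a, b, c] := by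
    intro a b c
    have h := hc (kval lam k [] [a, b, c] + kval lam k [] [a, c, b]) (by
      linear_combination h2' a b c - h3 a b c + h1 b c a + h1 a b c)
    linear_combination h
  have f13 : ∀ a b c, kval lam k [] [c, b, a] = - kval lam k [] [a, b, c] := by
    intro a b c
    linear_combination h1 a b c
  have f12 : ∀ a b c, kval lam k [] [b, a, c] = - kval lam k [] [a, b, c] := by
    intro a b c
    rw [f13 c a b, f23 c b a, f13 a b c, neg_neg]
  have hf : ∀ a b c, kval lam k [] [a, b, c] = tval lam k * det3 F [a, b, c] := by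
    intro a b c
    exact C5LemT_alt h2 (fun a b c => kval lam k [] [a, b, c]) f12 f23 a b c
  have g23 : ∀ a b c, kval lam k [a] [c, b] = - kval lam k [a] [b, c] := by
    intro a b c
    linear_combination h2' a b c - f23 a b c
  have g12 : ∀ a b c, kval lam k [b] [a, c] = - kval lam k [a] [b, c] := by
    intro a b c
    have h := hc (kval lam k [b] [a, c] + kval lam k [a] [b, c]) (by
      linear_combination h4 a b c + h4 b a c - f12 a b c - g23 c a b)
    linear_combination h
  have hgf : ∀ a b c, kval lam k [a] [b, c] = - kval lam k [] [a, b, c] := by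
    intro a b c
    have h := h4 a b c
    have e1 : kval lam k [c] [a, b] = kval lam k [a] [b, c] := by
      rw [g12 a c b, g23 a b c, neg_neg]
    rw [e1, g12 a b c] at h
    linear_combination h
  have hg : ∀ a b c, kval lam k [a] [b, c] = - (tval lam k * det3 F [a, b, c]) := by
    intro a b c
    rw [hgf, hf]
  have hd : ∀ a b c, tval lam k * det3 F [c, b, a] = - (tval lam k * det3 F [a, b, c]) := by
    intro a b c
    rw [← hf, ← hf, f13]
  refine ⟨hk, fun p q hpq => ?_⟩
  match p, q, hpq with
  | [], [a, b, c], _ =>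
    rw [hf]
    simp
  | [a], [b, c], _ =>
    rw [hg]
    simp
  | [a, b], [c], _ =>
    have h := kval_reverse lam hrev k hk [b, a] [c]
    simp only [List.reverse_cons, List.reverse_nil, List.nil_append, List.cons_append] at h
    rw [h, hg, hd a b c]
    simp
  | [a, b, c], [], _ =>
    have h := kval_reverse lam hrev k hk [c, b, a] []
    simp only [List.reverse_cons, List.reverse_nil, List.nil_append, List.cons_append] at h
    rw [h, hf, hd a b c]
    simp only [List.length_cons, List.length_nil, List.append_nil]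
    ring
  | a :: b :: c :: d :: p, q, h => simp at h; omega
  | [], [], h => simp at h
  | [], [_], h => simp at h
  | [], [_, _], h => simp at h
  | [], _ :: _ :: _ :: _ :: _, h => simp at h
  | [_], [], h => simp at h
  | [_], [_], h => simp at h
  | [_], _ :: _ :: _ :: _, h => simp at h; omega
  | [_, _], [], h => simp at h
  | [_, _], _ :: _ :: _, h => simp at h; omega
  | [_, _, _], _ :: _, h => simp at h

end JD
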