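import Pool.Agent.H8.JD.C5Def

set_option autoImplicit false

/-!
# JD class 5: linear change of letters

`mlx g S w` is the multilinear extension: the value of `S` on the word `w` in the new letters
`y_i = ∑ j, g i j • x_j`: `mlx g S [i₁,…,iₙ] = ∑ g i₁ j₁ ⋯ g iₙ jₙ • S [j₁,…,jₙ]`.

PROOFS. `mlx_append` by induction on `v` (generalising `S`), `mlx_reverse` by induction on `w` with
`mlx_append` and exchange of two finite sums (`mlx` is additive and homogeneous in `S`).
`SSys.mlx`: `mul` from the `mul` of `S` by bilinearity: both sides are multilinear in the letters, i.e.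
`4 • (mlx g S v * mlx g S w) = mlx g (fun p => mlx g (fun q => 4 • (S p * S q)) w) v`
(induction), then use `hS.mul` for words `p, q` of the lengths of `v, w`, hence nonempty
(lemma `mlx_congr`: `mlx g S w` depends only on the values of `S` on words of the length of `w`).
`InU.mlx`: `kval (mlx g lam) k p q = mlx g (fun p' => mlx g (fun q' => kval lam K p' q') q) p`
with `K a b = ∑ i j, k i j * g i a * g j b`; insert `InU` and use that the multilinear extension of
`det3` is `det g * det3` on words of length 3 (`Matrix.det_fin_three`), and that for words of lengths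
`(0,3), (1,2), (2,1), (3,0)` everything is a finite sum.
-/

namespace JD

universe u v w

section

variable {F : Type u} [Field F] {M : Type v} [AddCommGroup M] [Module F M]

/-- multilinear extension of `S` to the letters `y i = ∑ j, g i j x j` -/
def mlx (g : Fin 3 → Fin 3 → F) : (List (Fin 3) → M) → List (Fin 3) → M
  | S, [] => S []
  | S, i :: w => ∑ j, g i j • mlx g (fun v => S (j :: v)) w
  termination_by _ w => w.length

theorem C5Mlx_nil (g : Fin 3 → Fin 3 → F) (S : List (Fin 3) → M) : mlx g S [] = S [] := by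
  rw [mlx]

theorem C5Mlx_cons (g : Fin 3 → Fin 3 → F) (S : List (Fin 3) → M) (i : Fin 3)
    (w : List (Fin 3)) :
    mlx g S (i :: w) = ∑ j, g i j • mlx g (fun v => S (j :: v)) w := by
  rw [mlx]

theorem mlx_congr (g : Fin 3 → Fin 3 → F) (S S' : List (Fin 3) → M) (w : List (Fin 3))
    (h : ∀ v, v.length = w.length → S v = S' v) : mlx g S w = mlx g S' w := by
  induction w generalizing S S' with
  | nil => rw [C5Mlx_nil, C5Mlx_nil, h [] rfl]
  | cons i w ih =>
    rw [C5Mlx_cons, C5Mlx_cons]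
    refine Finset.sum_congr rfl fun j _ => ?_
    rw [ih _ _ fun v hv => h (j :: v) (by simp [hv])]

theorem mlx_add (g : Fin 3 → Fin 3 → F) (S S' : List (Fin 3) → M) (w : List (Fin 3)) :
    mlx g (fun v => S v + S' v) w = mlx g S w + mlx g S' w := by
  induction w generalizing S S' with
  | nil => rw [C5Mlx_nil, C5Mlx_nil, C5Mlx_nil]
  | cons i w ih =>
    rw [C5Mlx_cons, C5Mlx_cons, C5Mlx_cons, ← Finset.sum_add_distrib]
    refine Finset.sum_congr rfl fun j _ => ?_
    rw [ih, smul_add]

theorem mlx_smul (g : Fin 3 → Fin 3 → F) (c : F) (S : List (Fin 3) → M) (w : List (Fin 3)) :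
    mlx g (fun v => c • S v) w = c • mlx g S w := by
  induction w generalizing S with
  | nil => rw [C5Mlx_nil, C5Mlx_nil]
  | cons i w ih =>
    rw [C5Mlx_cons, C5Mlx_cons, Finset.smul_sum]
    refine Finset.sum_congr rfl fun j _ => ?_
    rw [ih, smul_comm]

theorem C5Mlx_zero (g : Fin 3 → Fin 3 → F) (w : List (Fin 3)) :
    mlx g (fun _ => (0 : M)) w = 0 := by
  have h := mlx_smul g (0 : F) (fun _ => (0 : M)) w
  simpa using h

theorem C5Mlx_sum (g : Fin 3 → Fin 3 → F) {κ : Type*} (s : Finset κ)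
    (T : κ → List (Fin 3) → M) (w : List (Fin 3)) :
    mlx g (fun v => ∑ j ∈ s, T j v) w = ∑ j ∈ s, mlx g (T j) w := by
  classical
  induction s using Finset.induction_on with
  | empty => simpa using C5Mlx_zero g w
  | insert a s ha ih =>
    rw [Finset.sum_insert ha, ← ih, ← mlx_add]
    refine mlx_congr _ _ _ _ fun v _ => ?_
    rw [Finset.sum_insert ha]

theorem C5Mlx_sum_smul (g : Fin 3 → Fin 3 → F) {κ : Type*} (s : Finset κ) (c : κ → F)
    (T : κ → List (Fin 3) → M) (w : List (Fin 3)) :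
    mlx g (fun v => ∑ j ∈ s, c j • T j v) w = ∑ j ∈ s, c j • mlx g (T j) w := by
  rw [C5Mlx_sum g s (fun j v => c j • T j v)]
  exact Finset.sum_congr rfl fun j _ => mlx_smul _ _ _ _

theorem C5Mlx_comm (g : Fin 3 → Fin 3 → F) (T : List (Fin 3) → List (Fin 3) → M)
    (v w : List (Fin 3)) :
    mlx g (fun q => mlx g (fun p => T p q) v) w = mlx g (fun p => mlx g (fun q => T p q) w) v := by
  induction v generalizing T with
  | nil =>
    rw [C5Mlx_nil]
    refine mlx_congr _ _ _ _ fun q _ => ?_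
    rw [C5Mlx_nil]
  | cons i v ih =>
    rw [C5Mlx_cons]
    have h1 : (fun q => mlx g (fun p => T p q) (i :: v)) =
        fun q => ∑ j, g i j • mlx g (fun p => T (j :: p) q) v := by
      funext q
      rw [C5Mlx_cons]
    rw [h1, C5Mlx_sum_smul g Finset.univ (g i) (fun j q => mlx g (fun p => T (j :: p) q) v)]
    refine Finset.sum_congr rfl fun j _ => ?_
    rw [ih fun p q => T (j :: p) q]

theorem mlx_append (g : Fin 3 → Fin 3 → F) (S : List (Fin 3) → M) (v w : List (Fin 3)) :
    mlx g S (v ++ w) = mlx g (fun p => mlx g (fun q => S (p ++ q)) w) v := by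
  induction v generalizing S with
  | nil =>
    rw [C5Mlx_nil]
    rfl
  | cons i v ih =>
    rw [List.cons_append, C5Mlx_cons, C5Mlx_cons]
    refine Finset.sum_congr rfl fun j _ => ?_
    rw [ih]
    rfl

theorem mlx_reverse (g : Fin 3 → Fin 3 → F) (S : List (Fin 3) → M) (w : List (Fin 3)) :
    mlx g S w.reverse = mlx g (fun v => S v.reverse) w := by
  induction w generalizing S with
  | nil =>
    rw [List.reverse_nil, C5Mlx_nil, C5Mlx_nil, List.reverse_nil]
  | cons i w ih =>
    rw [List.reverse_cons, mlx_append, ih, C5Mlx_cons,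
      ← C5Mlx_sum_smul g Finset.univ (g i) (fun j v => S (j :: v).reverse)]
    refine mlx_congr _ _ _ _ fun v _ => ?_
    rw [C5Mlx_cons]
    refine Finset.sum_congr rfl fun j _ => ?_
    rw [C5Mlx_nil, List.reverse_cons]

theorem map_mlx {N : Type w} [AddCommGroup N] [Module F N] (g : Fin 3 → Fin 3 → F)
    (φ : M →ₗ[F] N) (S : List (Fin 3) → M) (w : List (Fin 3)) :
    φ (mlx g S w) = mlx g (fun v => φ (S v)) w := by
  induction w generalizing S with
  | nil => rw [C5Mlx_nil, C5Mlx_nil]
  | cons i w ih =>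
    rw [C5Mlx_cons, C5Mlx_cons, map_sum]
    refine Finset.sum_congr rfl fun j _ => ?_
    rw [map_smul, ih]

theorem mlx_mem (g : Fin 3 → Fin 3 → F) (S : List (Fin 3) → M) (w : List (Fin 3))
    (P : Submodule F M) (h : ∀ v, v.length = w.length → S v ∈ P) : mlx g S w ∈ P := by
  induction w generalizing S with
  | nil =>
    rw [C5Mlx_nil]
    exact h [] rfl
  | cons i w ih =>
    rw [C5Mlx_cons]
    exact Submodule.sum_mem _ fun j _ =>
      P.smul_mem _ (ih _ fun v hv => h (j :: v) (by simp [hv]))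

theorem C5Mlx_mul {J : Type v} [NonUnitalNonAssocCommRing J] [Module F J]
    [IsScalarTower F J J] [SMulCommClass F J J] (g : Fin 3 → Fin 3 → F)
    (S T : List (Fin 3) → J) (v w : List (Fin 3)) :
    mlx g S v * mlx g T w = mlx g (fun p => mlx g (fun q => S p * T q) w) v := by
  have h1 := map_mlx g (LinearMap.mulRight F (mlx g T w)) S v
  have h2 : ∀ a : J, a * mlx g T w = mlx g (fun q => a * T q) w := fun a => by
    have := map_mlx g (LinearMap.mulLeft F a) T w
    simpa using this
  rw [LinearMap.mulRight_apply] at h1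
  rw [h1]
  refine mlx_congr _ _ _ _ fun p _ => ?_
  rw [LinearMap.mulRight_apply, h2]

theorem SSys.mlx {J : Type v} [NonUnitalNonAssocCommRing J] [Module F J]
    [IsScalarTower F J J] [SMulCommClass F J J] {x : Fin 3 → J} {S : List (Fin 3) → J}
    (hS : SSys F x S) (g : Fin 3 → Fin 3 → F) :
    SSys F (fun i => ∑ j, g i j • x j) (JD.mlx g S) := by
  refine ⟨?_, fun i => ?_, fun w => ?_, fun v w hv hw => ?_, ?_⟩
  · rw [C5Mlx_nil, hS.nil]
  · rw [C5Mlx_cons]
    refine Finset.sum_congr rfl fun j _ => ?_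
    rw [C5Mlx_nil, hS.single]
  · rw [mlx_reverse]
    exact mlx_congr _ _ _ _ fun v _ => hS.rev v
  · have h1 : (4 : F) • (JD.mlx g S v * JD.mlx g S w) = JD.mlx g (fun p => JD.mlx g (fun q =>
        (4 : F) • (S p * S q)) w) v := by
      rw [C5Mlx_mul, ← mlx_smul]
      refine mlx_congr _ _ _ _ fun p _ => ?_
      rw [← mlx_smul]
    have h2 : JD.mlx g (fun p => JD.mlx g (fun q => (4 : F) • (S p * S q)) w) v =
        JD.mlx g (fun p => JD.mlx g (fun q => S (p ++ q) + S (p ++ q.reverse) +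
          S (p.reverse ++ q) + S (q ++ p)) w) v := by
      refine mlx_congr _ _ _ _ fun p hp => ?_
      refine mlx_congr _ _ _ _ fun q hq => ?_
      refine hS.mul p q ?_ ?_
      · rintro rfl
        exact hv (List.length_eq_zero_iff.1 hp.symm)
      · rintro rfl
        exact hw (List.length_eq_zero_iff.1 hq.symm)
    rw [h1, h2, mlx_append g S v w, mlx_append g S v w.reverse, mlx_append g S v.reverse w,
      mlx_append g S w v, mlx_reverse g _ v,
      C5Mlx_comm g (fun p q => S (q ++ p)) v w, ← mlx_add, ← mlx_add, ← mlx_add]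
    refine mlx_congr _ _ _ _ fun p _ => ?_
    rw [mlx_reverse g _ w, ← mlx_add, ← mlx_add, ← mlx_add]
  · obtain ⟨N, hN⟩ := hS.bdd
    refine ⟨N, fun w hw => ?_⟩
    rw [mlx_congr g S (fun _ => 0) w fun v hv => hN v (by omega), C5Mlx_zero]

theorem C5Mlx_det (g : Fin 3 → Fin 3 → F) (w : List (Fin 3)) (hw : w.length = 3) :
    mlx g (det3 F) w = Matrix.det (Matrix.of g) * det3 F w := by
  obtain ⟨a, b, c, rfl⟩ : ∃ a b c, w = [a, b, c] := by
    match w, hw with
    | [a, b, c], _ => exact ⟨a, b, c, rfl⟩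
  have h1 : mlx g (det3 F) [a, b, c] = g a 0 * g b 1 * g c 2 + g a 1 * g b 2 * g c 0 +
      g a 2 * g b 0 * g c 1 - g a 0 * g b 2 * g c 1 - g a 2 * g b 1 * g c 0 -
      g a 1 * g b 0 * g c 2 := by
    simp [C5Mlx_cons, C5Mlx_nil, Fin.sum_univ_three, det3]
    ring
  rw [h1, Matrix.det_fin_three]
  fin_cases a <;> fin_cases b <;> fin_cases c <;> simp [det3] <;> ring

theorem C5Mlx_kval (lam : List (Fin 3) → F) (g : Fin 3 → Fin 3 → F)
    (k : Matrix (Fin 3) (Fin 3) F) (p q : List (Fin 3)) :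
    kval (mlx g lam) k p q = mlx g (fun p' => mlx g (fun q' =>
      kval lam (fun a b => ∑ i, ∑ j, k i j * g i a * g j b) p' q') q) p := by
  have h1 : ∀ a b, mlx g lam (p ++ [a, b] ++ q) = mlx g (fun p' => mlx g (fun q' =>
      ∑ i, ∑ j, (g a i * g b j) • lam (p' ++ [i, j] ++ q')) q) p := by
    intro a b
    rw [List.append_assoc, mlx_append]
    refine mlx_congr _ _ _ _ fun p' _ => ?_
    rw [mlx_append, C5Mlx_cons]
    rw [C5Mlx_sum]
    refine Finset.sum_congr rfl fun i _ => ?_
    rw [C5Mlx_cons, C5Mlx_sum, Finset.smul_sum]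
    refine Finset.sum_congr rfl fun j _ => ?_
    rw [C5Mlx_nil, smul_smul, ← mlx_smul]
    refine mlx_congr _ _ _ _ fun q' _ => ?_
    simp
  have h2 : ∀ a b, k a b * mlx g lam (p ++ [a, b] ++ q) = mlx g (fun p' => mlx g (fun q' =>
      k a b • ∑ i, ∑ j, (g a i * g b j) • lam (p' ++ [i, j] ++ q')) q) p := by
    intro a b
    rw [h1, ← smul_eq_mul, ← mlx_smul]
    refine mlx_congr _ _ _ _ fun p' _ => ?_
    rw [← mlx_smul]
  have h3 : ∀ a, ∑ b, k a b * mlx g lam (p ++ [a, b] ++ q) = mlx g (fun p' => mlx g (fun q' =>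
      ∑ b, k a b • ∑ i, ∑ j, (g a i * g b j) • lam (p' ++ [i, j] ++ q')) q) p := by
    intro a
    rw [Finset.sum_congr rfl fun b _ => h2 a b, ← C5Mlx_sum]
    refine mlx_congr _ _ _ _ fun p' _ => ?_
    rw [← C5Mlx_sum]
  unfold kval
  rw [Finset.sum_congr rfl fun a _ => h3 a, ← C5Mlx_sum]
  refine mlx_congr _ _ _ _ fun p' _ => ?_
  rw [← C5Mlx_sum]
  refine mlx_congr _ _ _ _ fun q' _ => ?_
  simp only [smul_eq_mul, Fin.sum_univ_three]
  ring

theorem InU.mlx (lam : List (Fin 3) → F) (g : Fin 3 → Fin 3 → F)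
    (k : Matrix (Fin 3) (Fin 3) F) (hk : ∀ a b, k a b = k b a) (t : F)
    (h : InU lam (fun a b => ∑ i, ∑ j, k i j * g i a * g j b) t) :
    InU (JD.mlx g lam) k (t * Matrix.det (Matrix.of g)) := by
  refine ⟨hk, fun p q hpq => ?_⟩
  rw [C5Mlx_kval]
  have h1 : JD.mlx g (fun p' => JD.mlx g (fun q' =>
      kval lam (fun a b => ∑ i, ∑ j, k i j * g i a * g j b) p' q') q) p =
      JD.mlx g (fun p' => JD.mlx g (fun q' => ((-1) ^ p.length * t) • det3 F (p' ++ q')) q) p := by
    refine mlx_congr _ _ _ _ fun p' hp => ?_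
    refine mlx_congr _ _ _ _ fun q' hq => ?_
    rw [h.rel p' q' (by omega), hp, smul_eq_mul]
  rw [h1]
  simp only [mlx_smul]
  rw [← mlx_append, C5Mlx_det g (p ++ q) (by simpa using hpq), smul_eq_mul]
  ring

end

end JD
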