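import Pool.Agent.H8.JD.C5NF

set_option autoImplicit false

/-! # JD class 5: nfA (proof: header of `C5NF`) -/

namespace JD

universe u

section

variable {F : Type u} [Field F]

private def C5NFA_idx : Fin 3 → Fin 3 → Fin 3 → Fin 10 :=
  ![![![0, 1, 2], ![1, 3, 4], ![2, 4, 5]], ![![1, 3, 4], ![3, 6, 7], ![4, 7, 8]],
    ![![2, 4, 5], ![4, 7, 8], ![5, 8, 9]]]

private theorem C5NFA_idx_swap1 : ∀ i j k, C5NFA_idx i j k = C5NFA_idx j i k := by decide

private theorem C5NFA_idx_swap2 : ∀ i j k, C5NFA_idx i j k = C5NFA_idx i k j := by decide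

private theorem C5NFA_idx_surj : ∀ l : Fin 10, ∃ i j k, C5NFA_idx i j k = l := by decide

/-- totally symmetric arrays -/
private def C5NFA_A (v : Fin 10 → F) (i : Fin 3) : Matrix (Fin 3) (Fin 3) F :=
  Matrix.of fun j k => v (C5NFA_idx i j k)

private theorem C5NFA_A_apply (v : Fin 10 → F) (i j k : Fin 3) :
    C5NFA_A v i j k = v (C5NFA_idx i j k) := rfl

private theorem C5NFA_A_add (v v' : Fin 10 → F) (i : Fin 3) :
    C5NFA_A (v + v') i = C5NFA_A v i + C5NFA_A v' i := rfl

private theorem C5NFA_A_smul (c : F) (v : Fin 10 → F) (i : Fin 3) :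
    C5NFA_A (c • v) i = c • C5NFA_A v i := rfl

private theorem C5NFA_A_zero {v : Fin 10 → F} (h : ∀ i, C5NFA_A v i = 0) : v = 0 := by
  funext l
  obtain ⟨i, j, k, rfl⟩ := C5NFA_idx_surj l
  have := congrFun (congrFun (h i) j) k
  exact this

private theorem C5NFA_A_sym1 (v : Fin 10 → F) (i j k : Fin 3) :
    C5NFA_A v i j k = C5NFA_A v j i k := by
  rw [C5NFA_A_apply, C5NFA_A_apply, C5NFA_idx_swap1]

private theorem C5NFA_A_sym2 (v : Fin 10 → F) (i j k : Fin 3) :
    C5NFA_A v i j k = C5NFA_A v i k j := by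
  rw [C5NFA_A_apply, C5NFA_A_apply, C5NFA_idx_swap2]

private theorem C5NFA_kill {C : Fin 3 → Matrix (Fin 3) (Fin 3) F}
    (h1 : ∀ i j k, C i j k = C j i k) (h2 : ∀ i j k, C i j k = C i k j) (ξ η : Fin 3 → F)
    (j : Fin 3) :
    ∑ k, (∑ i, η i • C i) j k * ξ k = ∑ k, (∑ i, ξ i • C i) j k * η k := by
  simp only [Matrix.sum_apply, Matrix.smul_apply, smul_eq_mul, Finset.sum_mul]
  rw [Finset.sum_comm]
  refine Finset.sum_congr rfl fun i _ => Finset.sum_congr rfl fun k _ => ?_
  rw [h1 k j i, h2 j k i, ← h1 i j k]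
  ring

/-- arrays of rank one -/
private theorem C5NFA_rank1 {C : Fin 3 → Matrix (Fin 3) (Fin 3) F}
    (h1 : ∀ i j k, C i j k = C j i k) (h2 : ∀ i j k, C i j k = C i k j) (χ : Fin 3 → F)
    (s : Matrix (Fin 3) (Fin 3) F) (hC : ∀ i, C i = χ i • s) (i0 : Fin 3) (h0 : χ i0 ≠ 0) :
    s = (s i0 i0 / (χ i0) ^ 2) • Matrix.vecMulVec χ χ := by
  have e1 : ∀ i j k, χ i * s j k = χ j * s i k := by
    intro i j k
    have := h1 i j k
    rw [hC i, hC j] at this
    exact this
  have e2 : ∀ j k, s j k = s k j := by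
    intro j k
    have := h2 i0 j k
    rw [hC i0] at this
    exact mul_left_cancel₀ h0 this
  ext j k
  rw [Matrix.smul_apply, Matrix.vecMulVec_apply, smul_eq_mul]
  have e3 : χ i0 * s j k = χ j * s i0 k := e1 i0 j k
  have e4 : χ i0 * s i0 k = χ k * s i0 i0 := by
    rw [e2 i0 k]
    exact e1 i0 k i0
  field_simp
  linear_combination χ i0 * e3 + χ j * e4

/-- coordinates on symmetric matrices -/
private def C5NFA_E : Matrix (Fin 3) (Fin 3) F →ₗ[F] (Fin 6 → F) where
  toFun k := ![k 0 0, k 0 1, k 0 2, k 1 1, k 1 2, k 2 2]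
  map_add' k k' := by
    ext i
    fin_cases i <;> rfl
  map_smul' c k := by
    ext i
    fin_cases i <;> rfl

private theorem C5NFA_E_inj {k k' : Matrix (Fin 3) (Fin 3) F} (h : ∀ i j, k i j = k j i)
    (h' : ∀ i j, k' i j = k' j i) (he : C5NFA_E k = C5NFA_E k') : k = k' := by
  have e0 : k 0 0 = k' 0 0 := congrFun he 0
  have e1 : k 0 1 = k' 0 1 := congrFun he 1
  have e2 : k 0 2 = k' 0 2 := congrFun he 2
  have e3 : k 1 1 = k' 1 1 := congrFun he 3
  have e4 : k 1 2 = k' 1 2 := congrFun he 4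
  have e5 : k 2 2 = k' 2 2 := congrFun he 5
  ext i j
  fin_cases i <;> fin_cases j
  · exact e0
  · exact e1
  · exact e2
  · show k 1 0 = k' 1 0
    rw [h 1 0, h' 1 0, e1]
  · exact e3
  · exact e4
  · show k 2 0 = k' 2 0
    rw [h 2 0, h' 2 0, e2]
  · show k 2 1 = k' 2 1
    rw [h 2 1, h' 2 1, e4]
  · exact e5

private theorem C5NFA_pi (k : Fin 3 → Matrix (Fin 3) (Fin 3) F)
    (hs : ∀ l, ∀ i j, k l i j = k l j i) (hk : LinearIndependent F k) :
    ∃ π : Matrix (Fin 3) (Fin 3) F →ₗ[F] (Fin 3 → F), ∀ m : Matrix (Fin 3) (Fin 3) F,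
      (∀ i j, m i j = m j i) → π m = 0 → ∃ c : Fin 3 → F, m = ∑ l, c l • k l := by
  have hsum : ∀ c : Fin 3 → F, ∀ i j, (∑ l, c l • k l) i j = (∑ l, c l • k l) j i := by
    intro c i j
    simp only [Matrix.sum_apply, Matrix.smul_apply]
    exact Finset.sum_congr rfl fun l _ => by rw [hs l i j]
  have hE : LinearIndependent F (fun l => C5NFA_E (k l)) := by
    rw [Fintype.linearIndependent_iff] at hk ⊢
    intro c hc
    apply hk c
    apply C5NFA_E_inj (hsum c) (fun _ _ => rfl)
    rw [map_zero, map_sum, ← hc]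
    exact Finset.sum_congr rfl fun l _ => by rw [map_smul]
  let W : Submodule F (Fin 6 → F) := Submodule.span F (Set.range fun l => C5NFA_E (k l))
  have hW : Module.finrank F W = 3 := by
    have := finrank_span_eq_card hE
    rwa [Fintype.card_fin] at this
  have hQ : Module.finrank F ((Fin 6 → F) ⧸ W) = 3 := by
    have h1 := Submodule.finrank_quotient_add_finrank W
    rw [hW, Module.finrank_fin_fun] at h1
    omega
  have e : ((Fin 6 → F) ⧸ W) ≃ₗ[F] (Fin 3 → F) :=
    LinearEquiv.ofFinrankEq _ _ (by rw [hQ, Module.finrank_fin_fun])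
  refine ⟨e.toLinearMap ∘ₗ W.mkQ ∘ₗ C5NFA_E, ?_⟩
  intro m hm h0
  have h1 : W.mkQ (C5NFA_E m) = 0 := by
    apply e.injective
    rw [map_zero]
    exact h0
  rw [Submodule.mkQ_apply, Submodule.Quotient.mk_eq_zero] at h1
  rw [Submodule.mem_span_range_iff_exists_fun] at h1
  obtain ⟨c, hc⟩ := h1
  refine ⟨c, C5NFA_E_inj hm (hsum c) ?_⟩
  rw [← hc, map_sum]
  exact Finset.sum_congr rfl fun l _ => by rw [map_smul]

private theorem C5NFA_zero1 (Φ : (Fin 10 → F) →ₗ[F] (Fin 3 → Fin 3 → F)) :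
    ∃ v, v ≠ 0 ∧ Φ v = 0 := by
  have h : LinearMap.ker Φ ≠ ⊥ := by
    apply LinearMap.ker_ne_bot_of_finrank_lt
    rw [Module.finrank_pi_fintype]
    simp
  obtain ⟨v, hv, hv0⟩ := Submodule.exists_mem_ne_zero_of_ne_bot h
  exact ⟨v, hv0, LinearMap.mem_ker.mp hv⟩

private theorem C5NFA_zero2 (κ1 κ2 : Matrix (Fin 3) (Fin 3) F)
    (g : (Fin 3 → F) →ₗ[F] Matrix (Fin 3) (Fin 3) F)
    (hg : ∀ ζ, g ζ ∈ Submodule.span F (Set.range ![κ1, κ2])) : ∃ ζ, ζ ≠ 0 ∧ g ζ = 0 := by
  let K : Submodule F (Matrix (Fin 3) (Fin 3) F) := Submodule.span F (Set.range ![κ1, κ2])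
  have hK : Module.finrank F K ≤ 2 := by
    have := finrank_range_le_card (R := F) ![κ1, κ2]
    rwa [Fintype.card_fin] at this
  have h : LinearMap.ker (g.codRestrict K hg) ≠ ⊥ := by
    apply LinearMap.ker_ne_bot_of_finrank_lt
    rw [Module.finrank_fin_fun]
    omega
  obtain ⟨v, hv, hv0⟩ := Submodule.exists_mem_ne_zero_of_ne_bot h
  refine ⟨v, hv0, ?_⟩
  have := LinearMap.mem_ker.mp hv
  exact congrArg Subtype.val this

/-- a basis of the orthogonal complement -/
private theorem C5NFA_perp (ξ : Fin 3 → F) (hξ : ξ ≠ 0) : ∃ x a b : Fin 3 → F,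
    LinearIndependent F ![x, a, b] ∧ (∑ i, a i * ξ i = 0) ∧ (∑ i, b i * ξ i = 0) ∧
    (∀ η : Fin 3 → F, ∑ i, η i * ξ i = 0 → ∃ p q : F, η = p • a + q • b) ∧
    ∀ k : Matrix (Fin 3) (Fin 3) F, (∀ i j, k i j = k j i) → (∀ j, ∑ i, k j i * ξ i = 0) →
      ∃ α β γ : F, k = α • sq a + β • sy a b + γ • sq b := by
  have h : ξ 0 ≠ 0 ∨ ξ 1 ≠ 0 ∨ ξ 2 ≠ 0 := by
    by_contra hcon
    push Not at hcon
    apply hξ
    funext i
    fin_cases i
    · exact hcon.1
    · exact hcon.2.1
    · exact hcon.2.2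
  rcases h with h | h | h
  · refine ⟨![1, 0, 0], ![-(ξ 1 / ξ 0), 1, 0], ![-(ξ 2 / ξ 0), 0, 1], ?_, ?_, ?_, ?_, ?_⟩
    · rw [Fintype.linearIndependent_iff]
      intro c hc
      rw [Fin.sum_univ_three] at hc
      have h0 := congrFun hc 0
      have h1 := congrFun hc 1
      have h2 := congrFun hc 2
      simp at h0 h1 h2
      rw [h1, h2] at h0
      simp at h0
      intro i
      fin_cases i
      · exact h0
      · exact h1
      · exact h2
    · rw [Fin.sum_univ_three]
      simp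
      field_simp
      ring
    · rw [Fin.sum_univ_three]
      simp
      field_simp
      ring
    · intro η hη
      rw [Fin.sum_univ_three] at hη
      refine ⟨η 1, η 2, ?_⟩
      funext i
      fin_cases i
      · show η 0 = η 1 * (-(ξ 1 / ξ 0)) + η 2 * (-(ξ 2 / ξ 0))
        field_simp
        linear_combination hη
      · show η 1 = η 1 * 1 + η 2 * 0
        ring
      · show η 2 = η 1 * 0 + η 2 * 1
        ring
    · intro k hk hk0
      have e0 := hk0 0
      have e1 := hk0 1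
      have e2 := hk0 2
      rw [Fin.sum_univ_three] at e0 e1 e2
      have s01 := hk 1 0
      have s02 := hk 2 0
      have s12 := hk 2 1
      have f1 : k 0 1 = -(ξ 1 / ξ 0) * k 1 1 - ξ 2 / ξ 0 * k 1 2 := by
        rw [← s01]
        field_simp
        linear_combination e1
      have f2 : k 0 2 = -(ξ 1 / ξ 0) * k 1 2 - ξ 2 / ξ 0 * k 2 2 := by
        rw [← s02, ← s12]
        field_simp
        linear_combination e2
      have f0 : k 0 0 = -(ξ 1 / ξ 0) * k 0 1 - ξ 2 / ξ 0 * k 0 2 := by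
        field_simp
        linear_combination e0
      rw [f1, f2] at f0
      refine ⟨k 1 1, k 1 2, k 2 2, ?_⟩
      ext i j
      fin_cases i <;> fin_cases j <;> simp [sq, sy, Matrix.vecMulVec_apply]
      · rw [f0]; ring
      · rw [f1]; ring
      · rw [f2]; ring
      · rw [s01, f1]; ring
      · rw [s02, f2]; ring
      · exact s12
  · refine ⟨![0, 1, 0], ![1, -(ξ 0 / ξ 1), 0], ![0, -(ξ 2 / ξ 1), 1], ?_, ?_, ?_, ?_, ?_⟩
    · rw [Fintype.linearIndependent_iff]
      intro c hc
      rw [Fin.sum_univ_three] at hc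
      have h0 := congrFun hc 0
      have h1 := congrFun hc 1
      have h2 := congrFun hc 2
      simp at h0 h1 h2
      rw [h0, h2] at h1
      simp at h1
      intro i
      fin_cases i
      · exact h1
      · exact h0
      · exact h2
    · rw [Fin.sum_univ_three]
      simp
      field_simp
      ring
    · rw [Fin.sum_univ_three]
      simp
      field_simp
      ring
    · intro η hη
      rw [Fin.sum_univ_three] at hη
      refine ⟨η 0, η 2, ?_⟩
      funext i
      fin_cases i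
      · show η 0 = η 0 * 1 + η 2 * 0
        ring
      · show η 1 = η 0 * (-(ξ 0 / ξ 1)) + η 2 * (-(ξ 2 / ξ 1))
        field_simp
        linear_combination hη
      · show η 2 = η 0 * 0 + η 2 * 1
        ring
    · intro k hk hk0
      have e0 := hk0 0
      have e1 := hk0 1
      have e2 := hk0 2
      rw [Fin.sum_univ_three] at e0 e1 e2
      have s01 := hk 1 0
      have s02 := hk 2 0
      have s12 := hk 2 1
      have f1 : k 0 1 = -(ξ 0 / ξ 1) * k 0 0 - ξ 2 / ξ 1 * k 0 2 := by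
        field_simp
        linear_combination e0
      have f2 : k 1 2 = -(ξ 0 / ξ 1) * k 0 2 - ξ 2 / ξ 1 * k 2 2 := by
        rw [← s12, ← s02]
        field_simp
        linear_combination e2
      have f0 : k 1 1 = -(ξ 0 / ξ 1) * k 0 1 - ξ 2 / ξ 1 * k 1 2 := by
        rw [← s01]
        field_simp
        linear_combination e1
      rw [f1, f2] at f0
      refine ⟨k 0 0, k 0 2, k 2 2, ?_⟩
      ext i j
      fin_cases i <;> fin_cases j <;> simp [sq, sy, Matrix.vecMulVec_apply]
      · rw [f1]; ring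
      · rw [s01, f1]; ring
      · rw [f0]; ring
      · rw [f2]; ring
      · exact s02
      · rw [s12, f2]; ring
  · refine ⟨![0, 0, 1], ![1, 0, -(ξ 0 / ξ 2)], ![0, 1, -(ξ 1 / ξ 2)], ?_, ?_, ?_, ?_, ?_⟩
    · rw [Fintype.linearIndependent_iff]
      intro c hc
      rw [Fin.sum_univ_three] at hc
      have h0 := congrFun hc 0
      have h1 := congrFun hc 1
      have h2 := congrFun hc 2
      simp at h0 h1 h2
      rw [h0, h1] at h2
      simp at h2
      intro i
      fin_cases i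
      · exact h2
      · exact h0
      · exact h1
    · rw [Fin.sum_univ_three]
      simp
      field_simp
      ring
    · rw [Fin.sum_univ_three]
      simp
      field_simp
      ring
    · intro η hη
      rw [Fin.sum_univ_three] at hη
      refine ⟨η 0, η 1, ?_⟩
      funext i
      fin_cases i
      · show η 0 = η 0 * 1 + η 1 * 0
        ring
      · show η 1 = η 0 * 0 + η 1 * 1
        ring
      · show η 2 = η 0 * (-(ξ 0 / ξ 2)) + η 1 * (-(ξ 1 / ξ 2))
        field_simp
        linear_combination hη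
    · intro k hk hk0
      have e0 := hk0 0
      have e1 := hk0 1
      have e2 := hk0 2
      rw [Fin.sum_univ_three] at e0 e1 e2
      have s01 := hk 1 0
      have s02 := hk 2 0
      have s12 := hk 2 1
      have f1 : k 0 2 = -(ξ 0 / ξ 2) * k 0 0 - ξ 1 / ξ 2 * k 0 1 := by
        field_simp
        linear_combination e0
      have f2 : k 1 2 = -(ξ 0 / ξ 2) * k 0 1 - ξ 1 / ξ 2 * k 1 1 := by
        rw [← s01]
        field_simp
        linear_combination e1
      have f0 : k 2 2 = -(ξ 0 / ξ 2) * k 0 2 - ξ 1 / ξ 2 * k 1 2 := by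
        rw [← s02, ← s12]
        field_simp
        linear_combination e2
      rw [f1, f2] at f0
      refine ⟨k 0 0, k 0 1, k 1 1, ?_⟩
      ext i j
      fin_cases i <;> fin_cases j <;> simp [sq, sy, Matrix.vecMulVec_apply]
      · rw [f1]; ring
      · exact s01
      · rw [f2]; ring
      · rw [s02, f1]; ring
      · rw [s12, f2]; ring
      · rw [f0]; ring

private theorem C5NFA_two (U : Submodule F (Matrix (Fin 3) (Fin 3) F))
    (t : Matrix (Fin 3) (Fin 3) F →ₗ[F] F) (hdim : 3 ≤ Module.finrank F U)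
    (k0 : Matrix (Fin 3) (Fin 3) F) (hk0 : k0 ∈ U) (htk0 : t k0 ≠ 0) :
    ∃ κ1 ∈ U, ∃ κ2 ∈ U, t κ1 = 0 ∧ t κ2 = 0 ∧ LinearIndependent F ![κ1, κ2] := by
  let M : Submodule F (Matrix (Fin 3) (Fin 3) F) := U ⊓ LinearMap.ker t
  have hU : U ≤ M ⊔ Submodule.span F {k0} := by
    intro k hk
    have h1 : k - (t k / t k0) • k0 ∈ M := by
      refine ⟨U.sub_mem hk (U.smul_mem _ hk0), ?_⟩
      change k - (t k / t k0) • k0 ∈ LinearMap.ker t
      rw [LinearMap.mem_ker, map_sub, map_smul, smul_eq_mul, div_mul_cancel₀ _ htk0, sub_self]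
    have h3 : k = (k - (t k / t k0) • k0) + (t k / t k0) • k0 := by abel
    rw [h3]
    exact Submodule.add_mem_sup h1 (Submodule.smul_mem _ _ (Submodule.mem_span_singleton_self k0))
  have hM : 1 < Module.finrank F M := by
    have h1 := Submodule.finrank_mono hU
    have h3 := Submodule.finrank_add_le_finrank_add_finrank M (Submodule.span F {k0})
    have h4 : Module.finrank F (Submodule.span F {k0}) = 1 := by
      apply finrank_span_singleton
      rintro rfl
      exact htk0 (map_zero t)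
    omega
  haveI : Nontrivial M := Module.nontrivial_of_finrank_pos (R := F) (by omega)
  obtain ⟨x, hx⟩ := exists_ne (0 : M)
  obtain ⟨y, hy⟩ := exists_linearIndependent_pair_of_one_lt_finrank hM hx
  refine ⟨x, x.2.1, y, y.2.1, x.2.2, y.2.2, ?_⟩
  rw [LinearIndependent.pair_iff] at hy ⊢
  intro a b hab
  apply hy a b
  apply Subtype.ext
  exact hab

private theorem C5NFA_main (U : Submodule F (Matrix (Fin 3) (Fin 3) F))
    (t : Matrix (Fin 3) (Fin 3) F →ₗ[F] F)
    (hsymm : ∀ k ∈ U, ∀ a b, k a b = k b a) (hdim : 3 ≤ Module.finrank F U)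
    (ht : ∃ k ∈ U, t k ≠ 0) (hS : SymCond U t) (hW : SymWCond U t) :
    ∃ (ξ : Fin 3 → F) (k1 k2 : Matrix (Fin 3) (Fin 3) F), ξ ≠ 0 ∧ k1 ∈ U ∧ k2 ∈ U ∧
      t k1 = 0 ∧ t k2 = 0 ∧ LinearIndependent F ![k1, k2] ∧
      (∀ j, ∑ k, k1 j k * ξ k = 0) ∧ (∀ j, ∑ k, k2 j k * ξ k = 0) := by
  obtain ⟨k0, hk0, htk0⟩ := ht
  obtain ⟨κ1, hκ1, κ2, hκ2, ht1, ht2, hli⟩ := C5NFA_two U t hdim k0 hk0 htk0
  have hli3 : LinearIndependent F ![k0, κ1, κ2] := by
    rw [Fintype.linearIndependent_iff]
    intro c hc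
    rw [Fin.sum_univ_three] at hc
    change c 0 • k0 + c 1 • κ1 + c 2 • κ2 = 0 at hc
    have h1 := congrArg t hc
    rw [map_add, map_add, map_smul, map_smul, map_smul, ht1, ht2, map_zero, smul_zero, smul_zero,
      add_zero, add_zero, smul_eq_mul] at h1
    have h0 : c 0 = 0 := (mul_eq_zero.mp h1).resolve_right htk0
    rw [h0, zero_smul, zero_add] at hc
    have h2 := (LinearIndependent.pair_iff.mp hli) _ _ hc
    intro i
    fin_cases i
    · exact h0
    · exact h2.1
    · exact h2.2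
  obtain ⟨π, hπ⟩ := C5NFA_pi ![k0, κ1, κ2] (by
    intro l i j
    fin_cases l
    · exact hsymm k0 hk0 i j
    · exact hsymm κ1 hκ1 i j
    · exact hsymm κ2 hκ2 i j) hli3
  -- `π m = 0` implies `m ∈ U`, and `m ∈ K` if `t m = 0`
  have hπU : ∀ m : Matrix (Fin 3) (Fin 3) F, (∀ i j, m i j = m j i) → π m = 0 → m ∈ U := by
    intro m hm h0
    obtain ⟨c, hc⟩ := hπ m hm h0
    rw [hc, Fin.sum_univ_three]
    exact U.add_mem (U.add_mem (U.smul_mem _ hk0) (U.smul_mem _ hκ1)) (U.smul_mem _ hκ2)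
  have hπK : ∀ m : Matrix (Fin 3) (Fin 3) F, (∀ i j, m i j = m j i) → π m = 0 → t m = 0 →
      m ∈ Submodule.span F (Set.range ![κ1, κ2]) := by
    intro m hm h0 htm
    obtain ⟨c, hc⟩ := hπ m hm h0
    rw [Fin.sum_univ_three] at hc
    change m = c 0 • k0 + c 1 • κ1 + c 2 • κ2 at hc
    have h1 := congrArg t hc
    rw [htm, map_add, map_add, map_smul, map_smul, map_smul, ht1, ht2, smul_zero, smul_zero,
      add_zero, add_zero, smul_eq_mul] at h1
    have h3 : c 0 = 0 := (mul_eq_zero.mp h1.symm).resolve_right htk0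
    rw [hc, h3, zero_smul, zero_add]
    exact Submodule.add_mem _
      (Submodule.smul_mem _ _ (Submodule.subset_span ⟨0, rfl⟩))
      (Submodule.smul_mem _ _ (Submodule.subset_span ⟨1, rfl⟩))
  have hKt : ∀ m ∈ Submodule.span F (Set.range ![κ1, κ2]), m ∈ U ∧ t m = 0 := by
    intro m hm
    have hle : Submodule.span F (Set.range ![κ1, κ2]) ≤ U ⊓ LinearMap.ker t := by
      rw [Submodule.span_le]
      rintro _ ⟨l, rfl⟩
      fin_cases l
      · exact ⟨hκ1, ht1⟩
      · exact ⟨hκ2, ht2⟩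
    exact hle hm
  -- step 2
  obtain ⟨v, hv0, hv⟩ := C5NFA_zero1 (F := F)
    { toFun := fun v i => π (C5NFA_A v i)
      map_add' := by
        intro v v'
        funext i
        rw [C5NFA_A_add, map_add]
        rfl
      map_smul' := by
        intro c v
        funext i
        rw [C5NFA_A_smul, map_smul]
        rfl }
  have hv' : ∀ i, π (C5NFA_A v i) = 0 := fun i => congrFun hv i
  have hs1 := C5NFA_A_sym1 v
  have hs2 := C5NFA_A_sym2 v
  have hvU : ∀ i, C5NFA_A v i ∈ U := fun i => hπU _ (hs2 i) (hv' i)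
  have hvt : ∀ i, t (C5NFA_A v i) = 0 := hS _ hs1 hs2 hvU
  have hvK : ∀ i, C5NFA_A v i ∈ Submodule.span F (Set.range ![κ1, κ2]) :=
    fun i => hπK _ (hs2 i) (hv' i) (hvt i)
  by_cases hcase : ∃ i j, LinearIndependent F ![C5NFA_A v i, C5NFA_A v j]
  · -- rank 2
    obtain ⟨i, j, hij⟩ := hcase
    obtain ⟨ξ, hξ, hξ0⟩ := C5NFA_zero2 κ1 κ2
      { toFun := fun ζ => ∑ i, ζ i • C5NFA_A v i
        map_add' := by
          intro ζ ζ'
          rw [← Finset.sum_add_distrib]
          exact Finset.sum_congr rfl fun l _ => by rw [Pi.add_apply, add_smul]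
        map_smul' := by
          intro c ζ
          rw [RingHom.id_apply, Finset.smul_sum]
          exact Finset.sum_congr rfl fun l _ => by
            rw [Pi.smul_apply, smul_eq_mul, mul_smul] }
      (fun ζ => by
        change ∑ i, ζ i • C5NFA_A v i ∈ _
        exact Submodule.sum_mem _ fun l _ => Submodule.smul_mem _ _ (hvK l))
    change ∑ i, ξ i • C5NFA_A v i = 0 at hξ0
    have hkill : ∀ l j, ∑ k, C5NFA_A v l j k * ξ k = 0 := by
      intro l j
      have h1 := C5NFA_kill hs1 hs2 ξ (Pi.single l 1) j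
      have h3 : ∑ i, (Pi.single l 1 : Fin 3 → F) i • C5NFA_A v i = C5NFA_A v l := by
        rw [Finset.sum_eq_single l]
        · rw [Pi.single_eq_same, one_smul]
        · intro b _ hb
          rw [Pi.single_eq_of_ne hb, zero_smul]
        · intro hl
          exact absurd (Finset.mem_univ l) hl
      rw [h3, hξ0] at h1
      rw [h1]
      simp
    exact ⟨ξ, _, _, hξ, hvU i, hvU j, hvt i, hvt j, hij, hkill i, hkill j⟩
  · -- rank 1
    push Not at hcase
    obtain ⟨l0, hl0⟩ : ∃ l, C5NFA_A v l ≠ 0 := by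
      by_contra hcon
      push Not at hcon
      exact hv0 (C5NFA_A_zero hcon)
    have hχ : ∀ i, ∃ c : F, c • C5NFA_A v l0 = C5NFA_A v i := by
      intro i
      have h1 := hcase l0 i
      rw [LinearIndependent.pair_iff' hl0] at h1
      push Not at h1
      exact h1
    choose w hw using hχ
    have hwl0 : w l0 ≠ 0 := by
      intro h1
      have := hw l0
      rw [h1, zero_smul] at this
      exact hl0 this.symm
    have hw0 : w ≠ 0 := fun h1 => hwl0 (by rw [h1]; rfl)
    have hs := C5NFA_rank1 hs1 hs2 w (C5NFA_A v l0) (fun i => (hw i).symm) l0 hwl0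
    -- `sq w`
    have hcne : C5NFA_A v l0 l0 l0 / (w l0) ^ 2 ≠ 0 := by
      intro h1
      rw [h1, zero_smul] at hs
      exact hl0 hs
    have hww : Matrix.vecMulVec w w = (C5NFA_A v l0 l0 l0 / (w l0) ^ 2)⁻¹ • C5NFA_A v l0 := by
      conv_rhs => rw [hs]
      rw [smul_smul]
      have e1 : (C5NFA_A v l0 l0 l0 / (w l0) ^ 2)⁻¹ * ((C5NFA_A v l0 l0 l0 / (w l0) ^ 2)) = 1 :=
        inv_mul_cancel₀ hcne
      conv_rhs => rw [← hs]
      rw [e1, one_smul]
    have hwU : Matrix.vecMulVec w w ∈ U := by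
      rw [hww]
      exact U.smul_mem _ (hvU l0)
    have hwt : t (Matrix.vecMulVec w w) = 0 := by
      rw [hww, map_smul, hvt l0, smul_zero]
    have hwK : Matrix.vecMulVec w w ∈ Submodule.span F (Set.range ![κ1, κ2]) := by
      rw [hww]
      exact Submodule.smul_mem _ _ (hvK l0)
    have hwne : Matrix.vecMulVec w w ≠ 0 := by
      intro h1
      have := congrFun (congrFun h1 l0) l0
      rw [Matrix.vecMulVec_apply] at this
      exact hwl0 (mul_self_eq_zero.mp this)
    obtain ⟨_, a, b, hxab, ha, hb, hperp, -⟩ := C5NFA_perp w hw0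
    have hab : ∀ p q : F, p • a + q • b = 0 → p = 0 ∧ q = 0 := by
      intro p q hpq
      rw [Fintype.linearIndependent_iff] at hxab
      have h1 := hxab ![0, p, q] (by
        rw [Fin.sum_univ_three]
        simpa using hpq)
      exact ⟨h1 1, h1 2⟩
    -- second array
    obtain ⟨v2, hv20, hv2⟩ := C5NFA_zero1 (F := F)
      { toFun := fun v => ![π (∑ i, a i • C5NFA_A v i), π (∑ i, b i • C5NFA_A v i),
          ![(∑ i, a i • C5NFA_A v i) l0 l0, (∑ i, b i • C5NFA_A v i) l0 l0, C5NFA_A v l0 l0 l0]]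
        map_add' := by
          intro v v'
          have e1 : ∀ d : Fin 3 → F, ∑ i, d i • C5NFA_A (v + v') i =
              ∑ i, d i • C5NFA_A v i + ∑ i, d i • C5NFA_A v' i := by
            intro d
            rw [← Finset.sum_add_distrib]
            exact Finset.sum_congr rfl fun i _ => by rw [C5NFA_A_add, smul_add]
          rw [e1, e1, C5NFA_A_add, map_add, map_add]
          funext i
          fin_cases i
          · rfl
          · rfl
          · funext j
            fin_cases j <;> rfl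
        map_smul' := by
          intro c v
          have e1 : ∀ d : Fin 3 → F, ∑ i, d i • C5NFA_A (c • v) i =
              c • ∑ i, d i • C5NFA_A v i := by
            intro d
            rw [Finset.smul_sum]
            exact Finset.sum_congr rfl fun i _ => by rw [C5NFA_A_smul, smul_comm]
          rw [e1, e1, C5NFA_A_smul, map_smul, map_smul]
          funext i
          fin_cases i
          · rfl
          · rfl
          · funext j
            fin_cases j <;> rfl }
    have g1 : π (∑ i, a i • C5NFA_A v2 i) = 0 := congrFun hv2 0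
    have g2 : π (∑ i, b i • C5NFA_A v2 i) = 0 := congrFun hv2 1
    have g3 : (∑ i, a i • C5NFA_A v2 i) l0 l0 = 0 := congrFun (congrFun hv2 2) 0
    have g4 : (∑ i, b i • C5NFA_A v2 i) l0 l0 = 0 := congrFun (congrFun hv2 2) 1
    have g5 : C5NFA_A v2 l0 l0 l0 = 0 := congrFun (congrFun hv2 2) 2
    have r1 := C5NFA_A_sym1 v2
    have r2 := C5NFA_A_sym2 v2
    have hsymC : ∀ d : Fin 3 → F, ∀ i j, (∑ l, d l • C5NFA_A v2 l) i j =
        (∑ l, d l • C5NFA_A v2 l) j i := by
      intro d i j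
      simp only [Matrix.sum_apply, Matrix.smul_apply]
      exact Finset.sum_congr rfl fun l _ => by rw [r2 l i j]
    have hcomb : ∀ p q : F, ∑ i, (p • a + q • b) i • C5NFA_A v2 i =
        p • ∑ i, a i • C5NFA_A v2 i + q • ∑ i, b i • C5NFA_A v2 i := by
      intro p q
      rw [Finset.smul_sum, Finset.smul_sum, ← Finset.sum_add_distrib]
      refine Finset.sum_congr rfl fun i _ => ?_
      rw [Pi.add_apply, Pi.smul_apply, Pi.smul_apply, smul_eq_mul, smul_eq_mul, add_smul,
        mul_smul, mul_smul]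
    have hCaU := hπU _ (hsymC a) g1
    have hCbU := hπU _ (hsymC b) g2
    have ht' : ∀ ξ : Fin 3 → F, ∑ i, ξ i * w i = 0 → t (∑ i, ξ i • C5NFA_A v2 i) = 0 := by
      refine hW w hwU (C5NFA_A v2) r1 r2 ?_
      intro ξ hξ
      obtain ⟨p, q, rfl⟩ := hperp ξ hξ
      rw [hcomb]
      exact U.add_mem (U.smul_mem _ hCaU) (U.smul_mem _ hCbU)
    have hCaK := hπK _ (hsymC a) g1 (ht' a ha)
    have hCbK := hπK _ (hsymC b) g2 (ht' b hb)
    -- one of the two is not a multiple of `sq w`
    obtain ⟨η, hη, hηU, hηt, hηn⟩ : ∃ η : Fin 3 → F, ∑ i, η i * w i = 0 ∧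
        ∑ i, η i • C5NFA_A v2 i ∈ U ∧ t (∑ i, η i • C5NFA_A v2 i) = 0 ∧
        ∀ c : F, c • Matrix.vecMulVec w w ≠ ∑ i, η i • C5NFA_A v2 i := by
      by_contra hcon
      push Not at hcon
      obtain ⟨c, hc⟩ := hcon a ha hCaU (ht' a ha)
      obtain ⟨c', hc'⟩ := hcon b hb hCbU (ht' b hb)
      have hz : ∀ (c : F) (m : Matrix (Fin 3) (Fin 3) F), c • Matrix.vecMulVec w w = m →
          m l0 l0 = 0 → m = 0 := by
        intro c m hm h0
        rw [← hm, Matrix.smul_apply, Matrix.vecMulVec_apply, smul_eq_mul] at h0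
        have h1 : c = 0 := (mul_eq_zero.mp h0).resolve_right (mul_ne_zero hwl0 hwl0)
        rw [← hm, h1, zero_smul]
      have hCa0 := hz c _ hc g3
      have hCb0 := hz c' _ hc' g4
      have hC0 : ∀ ξ : Fin 3 → F, ∑ i, ξ i * w i = 0 → ∑ i, ξ i • C5NFA_A v2 i = 0 := by
        intro ξ hξ
        obtain ⟨p, q, rfl⟩ := hperp ξ hξ
        rw [hcomb, hCa0, hCb0, smul_zero, smul_zero, add_zero]
      have hCi : ∀ i, C5NFA_A v2 i = w i • ((w l0)⁻¹ • C5NFA_A v2 l0) := by
        intro i
        have h1 := hC0 (Pi.single i 1 - (w i * (w l0)⁻¹) • Pi.single l0 1) (by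
          simp only [Pi.sub_apply, Pi.smul_apply, smul_eq_mul, sub_mul, Finset.sum_sub_distrib]
          have e1 : ∀ l : Fin 3, ∀ d : F, ∑ x, d * (Pi.single l (1 : F) : Fin 3 → F) x * w x =
              d * w l := by
            intro l d
            rw [Finset.sum_eq_single l]
            · rw [Pi.single_eq_same, mul_one]
            · intro b _ hb
              rw [Pi.single_eq_of_ne hb, mul_zero, zero_mul]
            · intro hl
              exact absurd (Finset.mem_univ l) hl
          have e2 := e1 i 1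
          simp only [one_mul] at e2
          rw [e2, e1 l0, mul_assoc, inv_mul_cancel₀ hwl0, mul_one, sub_self])
        have e3 : ∀ l : Fin 3, ∑ x, (Pi.single l (1 : F) : Fin 3 → F) x • C5NFA_A v2 x =
            C5NFA_A v2 l := by
          intro l
          rw [Finset.sum_eq_single l]
          · rw [Pi.single_eq_same, one_smul]
          · intro b _ hb
            rw [Pi.single_eq_of_ne hb, zero_smul]
          · intro hl
            exact absurd (Finset.mem_univ l) hl
        simp only [Pi.sub_apply, Pi.smul_apply, sub_smul, Finset.sum_sub_distrib, smul_assoc]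
          at h1
        rw [← Finset.smul_sum, e3, e3, sub_eq_zero] at h1
        rw [h1, smul_smul]
      have hs' := C5NFA_rank1 r1 r2 w ((w l0)⁻¹ • C5NFA_A v2 l0) hCi l0 hwl0
      have e4 : ((w l0)⁻¹ • C5NFA_A v2 l0) l0 l0 = 0 := by
        rw [Matrix.smul_apply, g5, smul_zero]
      rw [e4, zero_div, zero_smul] at hs'
      apply hv20
      apply C5NFA_A_zero
      intro i
      rw [hCi i, hs', smul_zero]
    -- a vector `ξ`
    obtain ⟨ζ, hζ, hζ0⟩ := C5NFA_zero2 κ1 κ2
      { toFun := fun ζ => ζ 0 • (∑ i, a i • C5NFA_A v2 i) + ζ 1 • (∑ i, b i • C5NFA_A v2 i) +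
          ζ 2 • Matrix.vecMulVec w w
        map_add' := by
          intro ζ ζ'
          simp only [Pi.add_apply, add_smul]
          abel
        map_smul' := by
          intro c ζ
          simp only [Pi.smul_apply, smul_eq_mul, mul_smul, RingHom.id_apply, smul_add] }
      (fun ζ => Submodule.add_mem _ (Submodule.add_mem _ (Submodule.smul_mem _ _ hCaK)
        (Submodule.smul_mem _ _ hCbK)) (Submodule.smul_mem _ _ hwK))
    change ζ 0 • (∑ i, a i • C5NFA_A v2 i) + ζ 1 • (∑ i, b i • C5NFA_A v2 i) +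
          ζ 2 • Matrix.vecMulVec w w = 0 at hζ0
    rw [← hcomb] at hζ0
    have hξ0 : ζ 0 • a + ζ 1 • b ≠ 0 := by
      intro h1
      obtain ⟨h3, h4⟩ := hab _ _ h1
      apply hζ
      rw [h1] at hζ0
      simp only [Pi.zero_apply, zero_smul, Finset.sum_const_zero, zero_add] at hζ0
      have h5 : ζ 2 = 0 := (smul_eq_zero.mp hζ0).resolve_right hwne
      funext i
      fin_cases i
      · exact h3
      · exact h4
      · exact h5
    have hξw : ∑ i, (ζ 0 • a + ζ 1 • b) i * w i = 0 := by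
      simp only [Pi.add_apply, Pi.smul_apply, smul_eq_mul, add_mul, Finset.sum_add_distrib,
        mul_assoc]
      rw [← Finset.mul_sum, ← Finset.mul_sum, ha, hb, mul_zero, mul_zero, add_zero]
    have hsqkill : ∀ ξ : Fin 3 → F, ∑ i, ξ i * w i = 0 → ∀ j,
        ∑ k, (Matrix.vecMulVec w w) j k * ξ k = 0 := by
      intro ξ hξ j
      have e1 : ∀ k, (Matrix.vecMulVec w w) j k * ξ k = w j * (ξ k * w k) := by
        intro k
        rw [Matrix.vecMulVec_apply]
        ring
      rw [Finset.sum_congr rfl fun k _ => e1 k, ← Finset.mul_sum, hξ, mul_zero]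
    refine ⟨ζ 0 • a + ζ 1 • b, Matrix.vecMulVec w w, ∑ i, η i • C5NFA_A v2 i, hξ0, hwU, hηU, hwt,
      hηt, ?_, hsqkill _ hξw, ?_⟩
    · rw [LinearIndependent.pair_iff' hwne]
      exact hηn
    · intro j
      rw [C5NFA_kill r1 r2 (ζ 0 • a + ζ 1 • b) η j]
      have e1 : ∑ i, (ζ 0 • a + ζ 1 • b) i • C5NFA_A v2 i = (-ζ 2) • Matrix.vecMulVec w w := by
        rw [neg_smul]
        exact eq_neg_of_add_eq_zero_left hζ0
      rw [e1]
      have e2 : ∀ k, ((-ζ 2) • Matrix.vecMulVec w w) j k * η k =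
          (-ζ 2) * ((Matrix.vecMulVec w w) j k * η k) := by
        intro k
        rw [Matrix.smul_apply, smul_eq_mul]
        ring
      rw [Finset.sum_congr rfl fun k _ => e2 k, ← Finset.mul_sum, hsqkill η hη j, mul_zero]

end

theorem nfA {F : Type u} [Field F] (h2 : (2 : F) ≠ 0)
    (U : Submodule F (Matrix (Fin 3) (Fin 3) F)) (t : Matrix (Fin 3) (Fin 3) F →ₗ[F] F)
    (hsymm : ∀ k ∈ U, ∀ a b, k a b = k b a) (hdim : 3 ≤ Module.finrank F U)
    (ht : ∃ k ∈ U, t k ≠ 0) (hS : SymCond U t) (hW : SymWCond U t) :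
    ∃ (x a b : Fin 3 → F) (k1 k2 : Matrix (Fin 3) (Fin 3) F),
      LinearIndependent F ![x, a, b] ∧ k1 ∈ U ∧ k2 ∈ U ∧ t k1 = 0 ∧ t k2 = 0 ∧
      LinearIndependent F ![k1, k2] ∧
      (∃ α β γ : F, k1 = α • sq a + β • sy a b + γ • sq b) ∧
      (∃ α β γ : F, k2 = α • sq a + β • sy a b + γ • sq b) := by
  obtain ⟨ξ, k1, k2, hξ, hk1, hk2, ht1, ht2, hli, he1, he2⟩ := C5NFA_main U t hsymm hdim ht hS hW
  obtain ⟨x, a, b, hxab, -, -, -, hk⟩ := C5NFA_perp ξ hξ
  exact ⟨x, a, b, k1, k2, hxab, hk1, hk2, ht1, ht2, hli, hk k1 (hsymm k1 hk1) he1,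
    hk k2 (hsymm k2 hk2) he2⟩

end JD
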