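import Pool.Agent.H8.JD.C5NF

set_option autoImplicit false

/-! # JD class 5: nfB (proof: header of `C5NF`) -/

namespace JD

universe u

/-- change of the last two vectors of an independent triple -/
theorem C5NFB_ind {F : Type u} [Field F] (x a b : Fin 3 → F)
    (hind : LinearIndependent F ![x, a, b]) (p q r s : F) (hdet : p * s - q * r ≠ 0) :
    LinearIndependent F ![x, p • a + q • b, r • a + s • b] := by
  rw [Fintype.linearIndependent_iff] at hind ⊢
  intro g hg
  simp only [Fin.sum_univ_three, Matrix.cons_val_zero, Matrix.cons_val_one,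
    Matrix.cons_val] at hg
  have h := hind ![g 0, g 1 * p + g 2 * r, g 1 * q + g 2 * s] (by
    simp only [Fin.sum_univ_three, Matrix.cons_val_zero, Matrix.cons_val_one,
      Matrix.cons_val]
    rw [← hg]
    module)
  have h0 := h 0
  have h1 := h 1
  have h2 := h 2
  simp only [Matrix.cons_val_zero, Matrix.cons_val_one, Matrix.cons_val] at h0 h1 h2
  have e1 : g 1 * (p * s - q * r) = 0 := by linear_combination s * h1 - r * h2
  have e2 : g 2 * (p * s - q * r) = 0 := by linear_combination p * h2 - q * h1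
  have g1 : g 1 = 0 := (mul_eq_zero.mp e1).resolve_right hdet
  have g2 : g 2 = 0 := (mul_eq_zero.mp e2).resolve_right hdet
  intro i
  fin_cases i
  · exact h0
  · exact g1
  · exact g2

/-- the square of a combination -/
theorem C5NFB_sq {F : Type u} [Field F] (a b : Fin 3 → F) (p q : F) :
    sq (p • a + q • b) = (p * p) • sq a + (p * q) • sy a b + (q * q) • sq b := by
  ext i j
  simp only [sq, sy, Matrix.add_apply, Matrix.smul_apply, Matrix.vecMulVec_apply, Pi.add_apply,
    Pi.smul_apply, smul_eq_mul]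
  ring

/-- the symmetric product of two combinations -/
theorem C5NFB_sy {F : Type u} [Field F] (a b : Fin 3 → F) (p q r s : F) :
    sy (p • a + q • b) (r • a + s • b) =
      (2 * p * r) • sq a + (p * s + q * r) • sy a b + (2 * q * s) • sq b := by
  ext i j
  simp only [sq, sy, Matrix.add_apply, Matrix.smul_apply, Matrix.vecMulVec_apply, Pi.add_apply,
    Pi.smul_apply, smul_eq_mul]
  ring

/-- a binary quadric of discriminant zero is a square -/
theorem C5NFB_square {F : Type u} [Field F] [IsAlgClosed F] (a b : Fin 3 → F)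
    (α β γ : F) (hd : α * γ = β * β) (hne : ¬ (α = 0 ∧ β = 0 ∧ γ = 0)) :
    ∃ p q : F, ¬ (p = 0 ∧ q = 0) ∧
      α • sq a + β • sy a b + γ • sq b = sq (p • a + q • b) := by
  by_cases hα : α = 0
  · subst hα
    have hβ : β = 0 := by
      have : β * β = 0 := by rw [← hd]; ring
      exact mul_self_eq_zero.mp this
    subst hβ
    obtain ⟨r, hr⟩ := IsAlgClosed.exists_pow_nat_eq γ (n := 2) (by norm_num)
    refine ⟨0, r, ?_, ?_⟩
    · rintro ⟨-, h⟩
      apply hne
      refine ⟨rfl, rfl, ?_⟩
      rw [← hr, h]; ring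
    · rw [C5NFB_sq, ← hr]
      ring_nf
  · obtain ⟨r, hr⟩ := IsAlgClosed.exists_pow_nat_eq α (n := 2) (by norm_num)
    have hr0 : r ≠ 0 := by
      intro h
      apply hα
      rw [← hr, h]; ring
    refine ⟨r, β / r, ?_, ?_⟩
    · rintro ⟨h, -⟩
      exact hr0 h
    · rw [C5NFB_sq]
      have e1 : r * r = α := by rw [← hr]; ring
      have e2 : r * (β / r) = β := by field_simp
      have e3 : β / r * (β / r) = γ := by
        have : β / r * (β / r) = (β * β) / (r * r) := by field_simp
        rw [this, e1, ← hd]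
        field_simp
      rw [e1, e2, e3]

/-- a quadratic form in two variables has a nontrivial zero -/
theorem C5NFB_zero {F : Type u} [Field F] [IsAlgClosed F] (h2 : (2 : F) ≠ 0) (A B C : F) :
    ∃ p q : F, ¬ (p = 0 ∧ q = 0) ∧ A * p * p + B * p * q + C * q * q = 0 := by
  by_cases hA : A = 0
  · refine ⟨1, 0, by simp, ?_⟩
    subst hA
    ring
  · obtain ⟨r, hr⟩ := IsAlgClosed.exists_pow_nat_eq (B * B - 4 * A * C) (n := 2) (by norm_num)
    refine ⟨(r - B), 2 * A, ?_, ?_⟩
    · rintro ⟨-, h⟩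
      rcases mul_eq_zero.mp h with h | h
      · exact h2 h
      · exact hA h
    · linear_combination A * hr

theorem nfB {F : Type u} [Field F] [IsAlgClosed F] (h2 : (2 : F) ≠ 0) (x a b : Fin 3 → F)
    (k1 k2 : Matrix (Fin 3) (Fin 3) F) (hind : LinearIndependent F ![x, a, b])
    (hk : LinearIndependent F ![k1, k2])
    (h1 : ∃ α β γ : F, k1 = α • sq a + β • sy a b + γ • sq b)
    (h2' : ∃ α β γ : F, k2 = α • sq a + β • sy a b + γ • sq b) :
    ∃ (l z : Fin 3 → F) (c : F), (c = 0 ∨ c = 1) ∧ LinearIndependent F ![x, l, z] ∧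
      sy l z ∈ Submodule.span F {k1, k2} ∧ sq z - c • sq l ∈ Submodule.span F {k1, k2} := by
  obtain ⟨α1, β1, γ1, hk1⟩ := h1
  obtain ⟨α2, β2, γ2, hk2⟩ := h2'
  set K := Submodule.span F {k1, k2} with hK
  have hk1K : k1 ∈ K := Submodule.subset_span (by simp)
  have hk2K : k2 ∈ K := Submodule.subset_span (by simp)
  rw [LinearIndependent.pair_iff] at hk
  -- a square in K
  obtain ⟨p, q, hpq, hq0⟩ := C5NFB_zero h2 (α1 * γ1 - β1 * β1)
    (α1 * γ2 + α2 * γ1 - 2 * β1 * β2) (α2 * γ2 - β2 * β2)
  have hcomb : p • k1 + q • k2 = (p * α1 + q * α2) • sq a + (p * β1 + q * β2) • sy a b +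
      (p * γ1 + q * γ2) • sq b := by
    rw [hk1, hk2]; module
  have hne : ¬ (p * α1 + q * α2 = 0 ∧ p * β1 + q * β2 = 0 ∧ p * γ1 + q * γ2 = 0) := by
    rintro ⟨e1, e2, e3⟩
    rw [e1, e2, e3] at hcomb
    apply hpq
    apply hk p q
    rw [hcomb]; simp
  obtain ⟨r, s, hrs, hsq⟩ := C5NFB_square a b (p * α1 + q * α2) (p * β1 + q * β2)
    (p * γ1 + q * γ2) (by linear_combination hq0) hne
  rw [← hcomb] at hsq
  -- complete to a basis
  obtain ⟨r', s', hdet⟩ : ∃ r' s' : F, r * s' - s * r' = 1 := by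
    by_cases hr : r = 0
    · have hs : s ≠ 0 := fun h => hrs ⟨hr, h⟩
      exact ⟨-s⁻¹, 0, by field_simp; ring⟩
    · exact ⟨0, r⁻¹, by field_simp; ring⟩
  set a' := r • a + s • b with ha'
  set b' := r' • a + s' • b with hb'
  have hind' : LinearIndependent F ![x, a', b'] :=
    C5NFB_ind x a b hind r s r' s' (by rw [hdet]; exact one_ne_zero)
  have haK : sq a' ∈ K := by
    rw [← hsq]
    exact K.add_mem (K.smul_mem _ hk1K) (K.smul_mem _ hk2K)
  -- a and b in terms of a' and b'
  have hab : a = s' • a' + (-s) • b' := by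
    rw [ha', hb']
    have : s' • (r • a + s • b) + (-s) • (r' • a + s' • b) = (r * s' - s * r') • a := by module
    rw [this, hdet, one_smul]
  have hbb : b = (-r') • a' + r • b' := by
    rw [ha', hb']
    have : (-r') • (r • a + s • b) + r • (r' • a + s' • b) = (r * s' - s * r') • b := by module
    rw [this, hdet, one_smul]
  -- the second generator
  obtain ⟨p', q', hpq'⟩ : ∃ p' q' : F, p * q' - q * p' ≠ 0 := by
    by_cases hp : p = 0
    · have hq : q ≠ 0 := fun h => hpq ⟨hp, h⟩
      exact ⟨1, 0, by rw [hp]; simpa using hq⟩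
    · exact ⟨0, 1, by simpa using hp⟩
  have hkK : p' • k1 + q' • k2 ∈ K := K.add_mem (K.smul_mem _ hk1K) (K.smul_mem _ hk2K)
  obtain ⟨α, β, γ, hαβγ⟩ : ∃ α β γ : F,
      p' • k1 + q' • k2 = α • sq a' + β • sy a' b' + γ • sq b' := by
    have ea : sq a = (s' * s') • sq a' + (s' * (-s)) • sy a' b' + ((-s) * (-s)) • sq b' := by
      conv_lhs => rw [hab]
      rw [C5NFB_sq]
    have eb : sq b = ((-r') * (-r')) • sq a' + ((-r') * r) • sy a' b' + (r * r) • sq b' := by
      conv_lhs => rw [hbb]
      rw [C5NFB_sq]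
    have eab : sy a b = (2 * s' * (-r')) • sq a' + (s' * r + (-s) * (-r')) • sy a' b' +
        (2 * (-s) * r) • sq b' := by
      conv_lhs => rw [hab, hbb]
      rw [C5NFB_sy]
    refine ⟨(p' * α1 + q' * α2) * (s' * s') + (p' * β1 + q' * β2) * (2 * s' * (-r')) +
        (p' * γ1 + q' * γ2) * ((-r') * (-r')),
      (p' * α1 + q' * α2) * (s' * (-s)) + (p' * β1 + q' * β2) * (s' * r + (-s) * (-r')) +
        (p' * γ1 + q' * γ2) * ((-r') * r),
      (p' * α1 + q' * α2) * ((-s) * (-s)) + (p' * β1 + q' * β2) * (2 * (-s) * r) +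
        (p' * γ1 + q' * γ2) * (r * r), ?_⟩
    rw [hk1, hk2, ea, eb, eab]
    module
  -- `k = β sy a' b' + γ sq b'` lies in `K` and is not zero
  have hk' : β • sy a' b' + γ • sq b' ∈ K := by
    have : β • sy a' b' + γ • sq b' = (p' • k1 + q' • k2) - α • sq a' := by
      rw [hαβγ]; abel
    rw [this]
    exact K.sub_mem hkK (K.smul_mem _ haK)
  have hk'0 : ¬ (β = 0 ∧ γ = 0) := by
    rintro ⟨e1, e2⟩
    rw [e1, e2] at hαβγ
    have h3 : p' • k1 + q' • k2 = α • (p • k1 + q • k2) := by
      rw [hαβγ, hsq]; simp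
    have h4 : (p' - α * p) • k1 + (q' - α * q) • k2 = 0 := by
      have : (p' - α * p) • k1 + (q' - α * q) • k2 =
        (p' • k1 + q' • k2) - α • (p • k1 + q • k2) := by module
      rw [this, h3, sub_self]
    obtain ⟨e3, e4⟩ := hk _ _ h4
    apply hpq'
    linear_combination p * e4 - q * e3
  by_cases hγ : γ = 0
  · -- case (ii)
    have hβ : β ≠ 0 := fun h => hk'0 ⟨h, hγ⟩
    refine ⟨b', a', 0, Or.inl rfl, ?_, ?_, ?_⟩
    · have := C5NFB_ind x a' b' hind' 0 1 1 0 (by simp)
      simpa using this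
    · have e : sy b' a' = β⁻¹ • (β • sy a' b' + γ • sq b') := by
        rw [hγ, zero_smul, add_zero, smul_smul, inv_mul_cancel₀ hβ, one_smul]
        unfold sy
        rw [add_comm]
      rw [e]
      exact K.smul_mem _ hk'
    · rw [zero_smul, sub_zero]
      exact haK
  · -- case (iii)
    set d := β / γ with hd
    have hbK : sq (d • a' + (1 : F) • b') ∈ K := by
      have e : sq (d • a' + (1 : F) • b') = γ⁻¹ • (β • sy a' b' + γ • sq b') + (d * d) • sq a' := by
        rw [C5NFB_sq, smul_add, smul_smul, smul_smul, inv_mul_cancel₀ hγ]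
        have : γ⁻¹ * β = d * 1 := by rw [hd]; field_simp
        rw [this]
        module
      rw [e]
      exact K.add_mem (K.smul_mem _ hk') (K.smul_mem _ haK)
    set b'' := d • a' + (1 : F) • b' with hb''
    have hind'' : LinearIndependent F ![x, a', b''] := by
      have := C5NFB_ind x a' b' hind' 1 0 d 1 (by simp)
      simpa [hb''] using this
    obtain ⟨ii, hii⟩ := IsAlgClosed.exists_pow_nat_eq (-1 : F) (n := 2) (by norm_num)
    have hii0 : ii ≠ 0 := by
      intro h
      rw [h] at hii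
      norm_num at hii
    refine ⟨(1 : F) • a' + (1 : F) • b'', ii • a' + (-ii) • b'', 1, Or.inr rfl, ?_, ?_, ?_⟩
    · apply C5NFB_ind x a' b'' hind''
      have : (1 : F) * -ii - 1 * ii = -(2 * ii) := by ring
      rw [this]
      exact neg_ne_zero.mpr (mul_ne_zero h2 hii0)
    · rw [C5NFB_sy]
      have : (1 : F) * -ii + 1 * ii = 0 := by ring
      rw [this, zero_smul, add_zero]
      exact K.add_mem (K.smul_mem _ haK) (K.smul_mem _ hbK)
    · rw [C5NFB_sq a' b'' ii (-ii), C5NFB_sq a' b'' 1 1]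
      have e : (ii * ii) • sq a' + (ii * -ii) • sy a' b'' + (-ii * -ii) • sq b'' -
          (1 : F) • (((1 : F) * 1) • sq a' + ((1 : F) * 1) • sy a' b'' + ((1 : F) * 1) • sq b'') =
          (-2 : F) • sq a' + (-2 : F) • sq b'' := by
        have e1 : ii * ii = -1 := by rw [← hii]; ring
        have e2 : ii * -ii = 1 := by linear_combination -e1
        have e3 : -ii * -ii = -1 := by linear_combination e1
        rw [e1, e2, e3]
        module
      rw [e]
      exact K.add_mem (K.smul_mem _ haK) (K.smul_mem _ hbK)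

end JD
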