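import Pool.Agent.H8.JD.C5NF

set_option autoImplicit false
set_option linter.unusedSimpArgs false

/-! # JD class 5: nfC (proof: header of `C5NF`) -/

namespace JD

universe u

section aux

variable {F : Type u} [Field F]

/-- the determinant of three vectors -/
def C5NFC_det (x l z : Fin 3 → F) : F :=
  x 0 * (l 1 * z 2 - l 2 * z 1) - x 1 * (l 0 * z 2 - l 2 * z 0) + x 2 * (l 0 * z 1 - l 1 * z 0)

theorem C5NFC_li (x l z : Fin 3 → F) :
    LinearIndependent F ![x, l, z] ↔ C5NFC_det x l z ≠ 0 := by
  have h := Matrix.linearIndependent_rows_iff_isUnit (A := Matrix.of ![x, l, z]) (K := F)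
  have h1 : (Matrix.of ![x, l, z]).det = C5NFC_det x l z := by
    rw [Matrix.det_fin_three]
    simp [C5NFC_det]
    ring
  rw [Matrix.isUnit_iff_isUnit_det, h1, isUnit_iff_ne_zero] at h
  exact h

theorem C5NFC_sq_apply (a : Fin 3 → F) (i j : Fin 3) : sq a i j = a i * a j := rfl

theorem C5NFC_sy_apply (a b : Fin 3 → F) (i j : Fin 3) : sy a b i j = a i * b j + b i * a j := rfl

/-- expansion of a symmetric matrix in a basis -/
theorem C5NFC_expand (h2 : (2 : F) ≠ 0) (x l z : Fin 3 → F) (hind : LinearIndependent F ![x, l, z])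
    (k : Matrix (Fin 3) (Fin 3) F) (hk : ∀ a b, k a b = k b a) :
    ∃ g al be s1 s2 s3 : F, k = g • sq x + al • sy x l + be • sy x z + s1 • sq l + s2 • sy l z
      + s3 • sq z := by
  set A : Matrix (Fin 3) (Fin 3) F := Matrix.of ![x, l, z] with hA
  have hu : IsUnit A := (Matrix.linearIndependent_rows_iff_isUnit (A := A) (K := F)).1 hind
  have hdet : IsUnit A.det := (Matrix.isUnit_iff_isUnit_det A).1 hu
  have hinv : A⁻¹ * A = 1 := Matrix.nonsing_inv_mul A hdet
  have hkT : k.transpose = k := by
    ext i j
    exact hk j i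
  set M : Matrix (Fin 3) (Fin 3) F := (A⁻¹).transpose * k * A⁻¹ with hM
  have hMT : M.transpose = M := by
    rw [hM, Matrix.transpose_mul, Matrix.transpose_mul, Matrix.transpose_transpose, hkT,
      Matrix.mul_assoc]
  have hinvT : A.transpose * (A⁻¹).transpose = 1 := by
    rw [← Matrix.transpose_mul, hinv, Matrix.transpose_one]
  have hkM : k = A.transpose * M * A := by
    calc k = 1 * k * 1 := by rw [Matrix.one_mul, Matrix.mul_one]
      _ = (A.transpose * (A⁻¹).transpose) * k * (A⁻¹ * A) := by rw [hinv, hinvT]
      _ = A.transpose * M * A := by rw [hM]; simp only [Matrix.mul_assoc]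
  have hs : ∀ i j, M i j = M j i := fun i j => by
    have := congrFun (congrFun hMT j) i
    simpa [Matrix.transpose_apply] using this
  refine ⟨M 0 0, M 0 1, M 0 2, M 1 1, M 1 2, M 2 2, ?_⟩
  have e0 : ∀ i, A 0 i = x i := fun i => rfl
  have e1 : ∀ i, A 1 i = l i := fun i => rfl
  have e2 : ∀ i, A 2 i = z i := fun i => rfl
  ext i j
  rw [hkM]
  simp only [Matrix.mul_apply, Fin.sum_univ_three, Matrix.transpose_apply, Matrix.add_apply,
    Matrix.smul_apply, smul_eq_mul, C5NFC_sq_apply, C5NFC_sy_apply, e0, e1, e2, hs 1 0, hs 2 0,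
    hs 2 1]
  ring

theorem C5NFC_cube (U : Submodule F (Matrix (Fin 3) (Fin 3) F))
    (t : Matrix (Fin 3) (Fin 3) F →ₗ[F] F) (hS : SymCond U t) (y : Fin 3 → F) (hy : y ≠ 0)
    (s : F) (hU : s • sq y ∈ U) (ht : t (s • sq y) ≠ 0) : False := by
  obtain ⟨i, hi⟩ := Function.ne_iff.1 hy
  have h := hS (fun i => y i • (s • sq y)) (fun i j k => by
      simp only [Matrix.smul_apply, smul_eq_mul, C5NFC_sq_apply]; ring) (fun i j k => by
      simp only [Matrix.smul_apply, smul_eq_mul, C5NFC_sq_apply]; ring)
      (fun i => U.smul_mem _ hU) i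
  rw [map_smul, smul_eq_mul] at h
  rcases mul_eq_zero.1 h with h | h
  · exact hi h
  · exact ht h

theorem C5NFC_tri (U : Submodule F (Matrix (Fin 3) (Fin 3) F))
    (t : Matrix (Fin 3) (Fin 3) F →ₗ[F] F) (hS : SymCond U t) (a y : Fin 3 → F) (ha : a ≠ 0)
    (hU : sq a ∈ U) (ht : t (sq a) = 0) (hU' : sy a y ∈ U) (ht' : t (sy a y) ≠ 0) : False := by
  obtain ⟨i, hi⟩ := Function.ne_iff.1 ha
  have h := hS (fun i => a i • sy a y + y i • sq a) (fun i j k => by
      simp only [Matrix.smul_apply, Matrix.add_apply, smul_eq_mul, C5NFC_sq_apply,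
        C5NFC_sy_apply]; ring) (fun i j k => by
      simp only [Matrix.smul_apply, Matrix.add_apply, smul_eq_mul, C5NFC_sq_apply,
        C5NFC_sy_apply]; ring)
      (fun i => U.add_mem (U.smul_mem _ hU') (U.smul_mem _ hU)) i
  simp only [map_add, map_smul, smul_eq_mul, ht, mul_zero, add_zero] at h
  rcases mul_eq_zero.1 h with h | h
  · exact hi h
  · exact ht' h

/-- the last step in the case `γ = 0`, given `k = sy x l' + s • sq l'` -/
theorem C5NFC_last (h2 : (2 : F) ≠ 0) (U : Submodule F (Matrix (Fin 3) (Fin 3) F))
    (t : Matrix (Fin 3) (Fin 3) F →ₗ[F] F) (x l z : Fin 3 → F) (c s : F)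
    (hind : C5NFC_det x l z ≠ 0) (hlz : sy l z ∈ U) (hlz0 : t (sy l z) = 0)
    (hz : sq z - c • sq l ∈ U) (hz0 : t (sq z - c • sq l) = 0)
    (hk : sy x l + s • sq l ∈ U) (hk0 : t (sy x l + s • sq l) ≠ 0) :
    ∃ (x' l' z' : Fin 3 → F) (μ : F), (μ = 0 ∨ μ = -1) ∧ LinearIndependent F ![x', l', z'] ∧
      sy x' l' - (2 * μ) • sq x' ∈ U ∧ t (sy x' l' - (2 * μ) • sq x') ≠ 0 ∧
      sy l' z' ∈ U ∧ t (sy l' z') = 0 ∧
      sq z' - c • sq l' ∈ U ∧ t (sq z' - c • sq l') = 0 := by
  have e : sy (x + (s / 2) • l) l - (2 * (0 : F)) • sq (x + (s / 2) • l) = sy x l + s • sq l := by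
    ext i j
    simp only [Matrix.smul_apply, Matrix.add_apply, Matrix.sub_apply, smul_eq_mul, C5NFC_sq_apply,
        C5NFC_sy_apply, Pi.add_apply, Pi.smul_apply]
    field_simp
    ring
  refine ⟨x + (s / 2) • l, l, z, 0, Or.inl rfl, ?_, ?_, ?_, hlz, hlz0, hz, hz0⟩
  · rw [C5NFC_li]
    convert hind using 1
    simp only [C5NFC_det, Pi.add_apply, Pi.smul_apply, smul_eq_mul]
    ring
  · rw [e]; exact hk
  · rw [e]; exact hk0

end aux

theorem nfC {F : Type u} [Field F] [IsAlgClosed F] (h2 : (2 : F) ≠ 0)
    (U : Submodule F (Matrix (Fin 3) (Fin 3) F)) (t : Matrix (Fin 3) (Fin 3) F →ₗ[F] F)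
    (hsymm : ∀ k ∈ U, ∀ a b, k a b = k b a)
    (ht : ∃ k ∈ U, t k ≠ 0) (hS : SymCond U t)
    (x l z : Fin 3 → F) (c : F) (hc : c = 0 ∨ c = 1) (hind : LinearIndependent F ![x, l, z])
    (hlz : sy l z ∈ U) (hlz0 : t (sy l z) = 0) (hz : sq z - c • sq l ∈ U)
    (hz0 : t (sq z - c • sq l) = 0) :
    ∃ (x' l' z' : Fin 3 → F) (μ : F), (μ = 0 ∨ μ = -1) ∧ LinearIndependent F ![x', l', z'] ∧
      sy x' l' - (2 * μ) • sq x' ∈ U ∧ t (sy x' l' - (2 * μ) • sq x') ≠ 0 ∧
      sy l' z' ∈ U ∧ t (sy l' z') = 0 ∧
      sq z' - c • sq l' ∈ U ∧ t (sq z' - c • sq l') = 0 := by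
  obtain ⟨im, him⟩ := IsAlgClosed.exists_pow_nat_eq (-1 : F) (n := 2) (by norm_num)
  obtain ⟨k0, hk0U, hk0⟩ := ht
  obtain ⟨g, al, be, s1, s2, s3, hk⟩ := C5NFC_expand h2 x l z hind k0 (hsymm k0 hk0U)
  have hdet := (C5NFC_li x l z).1 hind
  have hx : x ≠ 0 := by
    rintro rfl
    exact hdet (by simp [C5NFC_det])
  have hl : l ≠ 0 := by
    rintro rfl
    exact hdet (by simp [C5NFC_det])
  have hz' : z ≠ 0 := by
    rintro rfl
    exact hdet (by simp [C5NFC_det])
  -- reduce `s`
  set s : F := s1 + c * s3 with hs
  have ek : k0 - s2 • sy l z - s3 • (sq z - c • sq l)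
      = g • sq x + al • sy x l + be • sy x z + s • sq l := by
    rw [hk, hs]
    ext i j
    simp only [Matrix.smul_apply, Matrix.add_apply, Matrix.sub_apply, smul_eq_mul, C5NFC_sq_apply,
        C5NFC_sy_apply]
    ring
  have hkU : g • sq x + al • sy x l + be • sy x z + s • sq l ∈ U := by
    rw [← ek]
    exact U.sub_mem (U.sub_mem hk0U (U.smul_mem _ hlz)) (U.smul_mem _ hz)
  have hkt : t (g • sq x + al • sy x l + be • sy x z + s • sq l) ≠ 0 := by
    rw [← ek]
    simp only [map_sub, map_smul] at hz0 ⊢
    rw [hz0, hlz0]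
    simpa using hk0
  clear_value s
  by_cases hg : g = 0
  · subst hg
    rw [zero_smul, zero_add] at hkU hkt
    rcases hc with rfl | rfl
    · -- `c = 0`
      rw [zero_smul, sub_zero] at hz hz0
      by_cases hal : al = 0
      · subst hal
        rw [zero_smul, zero_add] at hkU hkt
        by_cases hbe : be = 0
        · subst hbe
          rw [zero_smul, zero_add] at hkU hkt
          exact (C5NFC_cube U t hS l hl s hkU hkt).elim
        · exfalso
          obtain ⟨i, hi⟩ := Function.ne_iff.1 hz'
          have h := hS (fun i => z i • (be • sy x z + s • sq l) + (be * x i) • sq z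
              + (s * l i) • sy l z) (fun i j k => by
              simp only [Matrix.smul_apply, Matrix.add_apply, smul_eq_mul, C5NFC_sq_apply,
                C5NFC_sy_apply]; ring) (fun i j k => by
              simp only [Matrix.smul_apply, Matrix.add_apply, smul_eq_mul, C5NFC_sq_apply,
                C5NFC_sy_apply]; ring)
              (fun i => U.add_mem (U.add_mem (U.smul_mem _ hkU) (U.smul_mem _ hz))
                (U.smul_mem _ hlz)) i
          rw [map_add, map_add, map_smul, map_smul, map_smul, hz0, hlz0, smul_zero, smul_zero,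
            add_zero, add_zero, smul_eq_mul] at h
          rcases mul_eq_zero.1 h with h | h
          · exact hi h
          · exact hkt h
      · -- `al ≠ 0`
        have e1 : sy (al • l + be • z) z = al • sy l z + (2 * be) • sq z := by
          ext i j
          simp only [Matrix.smul_apply, Matrix.add_apply, smul_eq_mul, C5NFC_sq_apply,
            C5NFC_sy_apply, Pi.add_apply, Pi.smul_apply]
          ring
        have e2 : sy x (al • l + be • z) + (s / al ^ 2) • sq (al • l + be • z)
            = (al • sy x l + be • sy x z + s • sq l) + (s * be / al) • sy l z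
              + (s * be ^ 2 / al ^ 2) • sq z := by
          ext i j
          simp only [Matrix.smul_apply, Matrix.add_apply, smul_eq_mul, C5NFC_sq_apply,
            C5NFC_sy_apply, Pi.add_apply, Pi.smul_apply]
          field_simp
          ring
        refine C5NFC_last h2 U t x (al • l + be • z) z 0 (s / al ^ 2) ?_ ?_ ?_ ?_ ?_ ?_ ?_
        · have : C5NFC_det x (al • l + be • z) z = al * C5NFC_det x l z := by
            simp only [C5NFC_det, Pi.add_apply, Pi.smul_apply, smul_eq_mul]
            ring
          rw [this]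
          exact mul_ne_zero hal hdet
        · rw [e1]
          exact U.add_mem (U.smul_mem _ hlz) (U.smul_mem _ hz)
        · rw [e1, map_add, map_smul, map_smul, hlz0, hz0]
          simp
        · rw [zero_smul, sub_zero]; exact hz
        · rw [zero_smul, sub_zero]; exact hz0
        · rw [e2]
          exact U.add_mem (U.add_mem hkU (U.smul_mem _ hlz)) (U.smul_mem _ hz)
        · rw [e2, map_add, map_add, map_smul t _ (sy l z), map_smul t _ (sq z), hlz0, hz0,
            smul_zero, smul_zero, add_zero, add_zero]
          exact hkt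
    · -- `c = 1`
      rw [one_smul] at hz hz0
      set a : Fin 3 → F := (1 / 2 : F) • (l - im • z) with ha
      set b : Fin 3 → F := (1 / 2 : F) • (l + im • z) with hb
      have him' : im * im = -1 := by rw [← him]; ring
      have him0 : im ≠ 0 := by
        rintro rfl
        simp at him'
      have esa : sq a = (-1 / 4 : F) • (sq z - sq l) + (-im / 4) • sy l z := by
        ext i j
        simp only [Matrix.smul_apply, Matrix.add_apply, Matrix.sub_apply, smul_eq_mul,
          C5NFC_sq_apply, C5NFC_sy_apply, ha, Pi.sub_apply, Pi.add_apply, Pi.smul_apply]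
        have h4 : (4 : F) ≠ 0 := by
          have : (4 : F) = 2 * 2 := by norm_num
          rw [this]; exact mul_ne_zero h2 h2
        field_simp
        linear_combination (4 * z i * z j) * him'
      have esb : sq b = (-1 / 4 : F) • (sq z - sq l) + (im / 4) • sy l z := by
        ext i j
        simp only [Matrix.smul_apply, Matrix.add_apply, Matrix.sub_apply, smul_eq_mul,
          C5NFC_sq_apply, C5NFC_sy_apply, hb, Pi.sub_apply, Pi.add_apply, Pi.smul_apply]
        have h4 : (4 : F) ≠ 0 := by
          have : (4 : F) = 2 * 2 := by norm_num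
          rw [this]; exact mul_ne_zero h2 h2
        field_simp
        linear_combination (4 * z i * z j) * him'
      have hsaU : sq a ∈ U := by
        rw [esa]
        exact U.add_mem (U.smul_mem _ hz) (U.smul_mem _ hlz)
      have hsbU : sq b ∈ U := by
        rw [esb]
        exact U.add_mem (U.smul_mem _ hz) (U.smul_mem _ hlz)
      have hsa0 : t (sq a) = 0 := by
        rw [esa, map_add, map_smul, map_smul, hz0, hlz0]
        simp
      have hsb0 : t (sq b) = 0 := by
        rw [esb, map_add, map_smul, map_smul, hz0, hlz0]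
        simp
      have hl' : l = a + b := by
        ext i
        simp only [ha, hb, Pi.sub_apply, Pi.add_apply, Pi.smul_apply, smul_eq_mul]
        field_simp
        ring
      have hz'' : z = im • (a - b) := by
        ext i
        simp only [ha, hb, Pi.sub_apply, Pi.add_apply, Pi.smul_apply, smul_eq_mul]
        field_simp
        linear_combination (2 * z i) * him'
      have hdab : C5NFC_det x a b = (im / 2) * C5NFC_det x l z := by
        simp only [C5NFC_det, ha, hb, Pi.sub_apply, Pi.add_apply, Pi.smul_apply, smul_eq_mul]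
        field_simp
        ring
      have hdab0 : C5NFC_det x a b ≠ 0 := by
        rw [hdab]
        exact mul_ne_zero (div_ne_zero him0 h2) hdet
      have ha0 : a ≠ 0 := by
        intro h
        rw [h] at hdab0
        exact hdab0 (by simp [C5NFC_det])
      have hb0 : b ≠ 0 := by
        intro h
        rw [h] at hdab0
        exact hdab0 (by simp [C5NFC_det])
      clear_value a b
      -- rewrite `k` in terms of `x, a, b`
      set p : F := al + im * be with hp
      set q : F := al - im * be with hq
      have ek2 : al • sy x l + be • sy x z + s • sq l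
          = p • sy x a + q • sy x b + s • (sq a + sy a b + sq b) := by
        rw [hz'', hl', hp, hq]
        ext i j
        simp only [Matrix.smul_apply, Matrix.add_apply, Matrix.sub_apply, smul_eq_mul,
          C5NFC_sq_apply, C5NFC_sy_apply, Pi.sub_apply, Pi.add_apply, Pi.smul_apply]
        ring
      rw [ek2] at hkU hkt
      by_cases hp0 : p = 0
      · exfalso
        by_cases hq0 : q = 0
        · rw [hp0, hq0, zero_smul, zero_smul, zero_add, zero_add] at hkU hkt
          have e3 : sq a + sy a b + sq b = sq l := by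
            rw [hl']
            ext i j
            simp only [Matrix.add_apply, C5NFC_sq_apply, C5NFC_sy_apply, Pi.add_apply]
            ring
          rw [e3] at hkU hkt
          exact C5NFC_cube U t hS l hl s hkU hkt
        · rw [hp0, zero_smul, zero_add] at hkU hkt
          have e4 : sy b (q • x + s • a) = (q • sy x b + s • (sq a + sy a b + sq b)) - s • sq a
              - s • sq b := by
            ext i j
            simp only [Matrix.smul_apply, Matrix.add_apply, Matrix.sub_apply, smul_eq_mul,
              C5NFC_sq_apply, C5NFC_sy_apply, Pi.sub_apply, Pi.add_apply, Pi.smul_apply]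
            ring
          refine C5NFC_tri U t hS b (q • x + s • a) hb0 hsbU hsb0 ?_ ?_
          · rw [e4]
            exact U.sub_mem (U.sub_mem hkU (U.smul_mem _ hsaU)) (U.smul_mem _ hsbU)
          · rw [e4, map_sub, map_sub, map_smul t s (sq a), map_smul t s (sq b), hsa0, hsb0,
              smul_zero, sub_zero, sub_zero]
            exact hkt
      · by_cases hq0 : q = 0
        · exfalso
          rw [hq0, zero_smul, add_zero] at hkU hkt
          have e4 : sy a (p • x + s • b) = (p • sy x a + s • (sq a + sy a b + sq b)) - s • sq a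
              - s • sq b := by
            ext i j
            simp only [Matrix.smul_apply, Matrix.add_apply, Matrix.sub_apply, smul_eq_mul,
              C5NFC_sq_apply, C5NFC_sy_apply, Pi.sub_apply, Pi.add_apply, Pi.smul_apply]
            ring
          refine C5NFC_tri U t hS a (p • x + s • b) ha0 hsaU hsa0 ?_ ?_
          · rw [e4]
            exact U.sub_mem (U.sub_mem hkU (U.smul_mem _ hsaU)) (U.smul_mem _ hsbU)
          · rw [e4, map_sub, map_sub, map_smul t s (sq a), map_smul t s (sq b), hsa0, hsb0,
              smul_zero, sub_zero, sub_zero]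
            exact hkt
        · -- both nonzero
          have e5 : sy (p • a + q • b) (im • (p • a - q • b))
              = (2 * im * p ^ 2) • sq a - (2 * im * q ^ 2) • sq b := by
            ext i j
            simp only [Matrix.smul_apply, Matrix.add_apply, Matrix.sub_apply, smul_eq_mul,
              C5NFC_sq_apply, C5NFC_sy_apply, Pi.sub_apply, Pi.add_apply, Pi.smul_apply]
            ring
          have e6 : sq (im • (p • a - q • b)) - (1 : F) • sq (p • a + q • b)
              = (-2 * p ^ 2) • sq a + (-2 * q ^ 2) • sq b := by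
            ext i j
            simp only [Matrix.smul_apply, Matrix.add_apply, Matrix.sub_apply, smul_eq_mul,
              C5NFC_sq_apply, C5NFC_sy_apply, Pi.sub_apply, Pi.add_apply, Pi.smul_apply]
            linear_combination ((p * a i - q * b i) * (p * a j - q * b j)) * him'
          have e7 : sy x (p • a + q • b) + (s / (p * q)) • sq (p • a + q • b)
              = (p • sy x a + q • sy x b + s • (sq a + sy a b + sq b))
                + (s * p / q - s) • sq a + (s * q / p - s) • sq b := by
            ext i j
            simp only [Matrix.smul_apply, Matrix.add_apply, Matrix.sub_apply, smul_eq_mul,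
              C5NFC_sq_apply, C5NFC_sy_apply, Pi.sub_apply, Pi.add_apply, Pi.smul_apply]
            field_simp
            ring
          refine C5NFC_last h2 U t x (p • a + q • b) (im • (p • a - q • b)) 1 (s / (p * q))
            ?_ ?_ ?_ ?_ ?_ ?_ ?_
          · have : C5NFC_det x (p • a + q • b) (im • (p • a - q • b))
                = (-2 * im * p * q) * C5NFC_det x a b := by
              simp only [C5NFC_det, Pi.sub_apply, Pi.add_apply, Pi.smul_apply, smul_eq_mul]
              ring
            rw [this]
            exact mul_ne_zero (mul_ne_zero (mul_ne_zero (mul_ne_zero (neg_ne_zero.2 h2) him0) hp0)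
              hq0) hdab0
          · rw [e5]
            exact U.sub_mem (U.smul_mem _ hsaU) (U.smul_mem _ hsbU)
          · rw [e5, map_sub, map_smul, map_smul, hsa0, hsb0]
            simp
          · rw [e6]
            exact U.add_mem (U.smul_mem _ hsaU) (U.smul_mem _ hsbU)
          · rw [e6, map_add, map_smul, map_smul, hsa0, hsb0]
            simp
          · rw [e7]
            exact U.add_mem (U.add_mem hkU (U.smul_mem _ hsaU)) (U.smul_mem _ hsbU)
          · rw [e7, map_add, map_add, map_smul t _ (sq a), map_smul t _ (sq b), hsa0, hsb0,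
              smul_zero, smul_zero, add_zero, add_zero]
            exact hkt
  · -- `g ≠ 0`
    set y : Fin 3 → F := x + (al / g) • l + (be / g) • z with hy
    have hdy : C5NFC_det y l z = C5NFC_det x l z := by
      simp only [C5NFC_det, hy, Pi.add_apply, Pi.smul_apply, smul_eq_mul]
      ring
    have hy0 : y ≠ 0 := by
      intro h
      rw [h] at hdy
      exact hdet (by rw [← hdy]; simp [C5NFC_det])
    set w : F := (s - al ^ 2 / g - c * be ^ 2 / g) / g with hw
    have e8 : sq y + w • sq l = (1 / g) • (g • sq x + al • sy x l + be • sy x z + s • sq l)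
        + (al * be / g ^ 2) • sy l z + (be ^ 2 / g ^ 2) • (sq z - c • sq l) := by
      rw [hw, hy]
      ext i j
      simp only [Matrix.smul_apply, Matrix.add_apply, Matrix.sub_apply, smul_eq_mul,
        C5NFC_sq_apply, C5NFC_sy_apply, Pi.sub_apply, Pi.add_apply, Pi.smul_apply]
      field_simp
      ring
    have hyU : sq y + w • sq l ∈ U := by
      rw [e8]
      exact U.add_mem (U.add_mem (U.smul_mem _ hkU) (U.smul_mem _ hlz)) (U.smul_mem _ hz)
    have hyt : t (sq y + w • sq l) ≠ 0 := by
      rw [e8, map_add, map_add, map_smul t (1 / g), map_smul t _ (sy l z),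
        map_smul t _ (sq z - c • sq l), hlz0, hz0, smul_zero, smul_zero, add_zero, add_zero]
      exact mul_ne_zero (one_div_ne_zero hg) hkt
    have hyd : C5NFC_det y l z ≠ 0 := by rw [hdy]; exact hdet
    clear_value y w
    by_cases hw0 : w = 0
    · exfalso
      rw [hw0, zero_smul, add_zero] at hyU hyt
      refine C5NFC_cube U t hS y hy0 1 ?_ ?_
      · rw [one_smul]; exact hyU
      · rw [one_smul]; exact hyt
    · obtain ⟨r, hr⟩ := IsAlgClosed.exists_pow_nat_eq w (n := 2) (by norm_num)
      have hr0 : r ≠ 0 := by
        rintro rfl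
        exact hw0 (by rw [← hr]; ring)
      have him' : im * im = -1 := by rw [← him]; ring
      have him0 : im ≠ 0 := by
        rintro rfl
        simp at him'
      set f : F := -2 * im * r with hf
      have hf0 : f ≠ 0 := mul_ne_zero (mul_ne_zero (neg_ne_zero.2 h2) him0) hr0
      have e9 : sy (y + (im * r) • l) (f • l) - (2 * (-1 : F)) • sq (y + (im * r) • l)
          = (2 : F) • (sq y + w • sq l) := by
        rw [hf, ← hr]
        ext i j
        simp only [Matrix.smul_apply, Matrix.add_apply, Matrix.sub_apply, smul_eq_mul,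
          C5NFC_sq_apply, C5NFC_sy_apply, Pi.sub_apply, Pi.add_apply, Pi.smul_apply]
        linear_combination (-2 * r ^ 2 * l i * l j) * him'
      have e10 : sy (f • l) (f • z) = (f ^ 2) • sy l z := by
        ext i j
        simp only [Matrix.smul_apply, smul_eq_mul, C5NFC_sy_apply, Pi.smul_apply]
        ring
      have e11 : sq (f • z) - c • sq (f • l) = (f ^ 2) • (sq z - c • sq l) := by
        ext i j
        simp only [Matrix.smul_apply, Matrix.sub_apply, smul_eq_mul, C5NFC_sq_apply, Pi.smul_apply]
        ring
      refine ⟨y + (im * r) • l, f • l, f • z, -1, Or.inr rfl, ?_, ?_, ?_, ?_, ?_, ?_, ?_⟩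
      · rw [C5NFC_li]
        have : C5NFC_det (y + (im * r) • l) (f • l) (f • z) = f ^ 2 * C5NFC_det y l z := by
          simp only [C5NFC_det, Pi.add_apply, Pi.smul_apply, smul_eq_mul]
          ring
        rw [this]
        exact mul_ne_zero (pow_ne_zero 2 hf0) hyd
      · rw [e9]; exact U.smul_mem _ hyU
      · rw [e9, map_smul]; exact mul_ne_zero h2 hyt
      · rw [e10]; exact U.smul_mem _ hlz
      · rw [e10, map_smul, hlz0, smul_zero]
      · rw [e11]; exact U.smul_mem _ hz
      · rw [e11, map_smul, hz0, smul_zero]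

end JD
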