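import Pool.Agent.H8.JD.C5Layer

set_option autoImplicit false

/-!
# JD class 5, `dim J^3/J^4 ≤ 1`: there is no obstruction

PROOF. (0) J-LEVEL. By `exists_layer` there are `g ∈ J^3` and `π` with `S w - π w • g ∈ J^4` for
`|w| = 3` (`π w.reverse = π w` may be assumed). Put (for `|w| = 3`)
`P i j = S (i :: j :: w) + S (i :: j :: w.reverse)`, `Q i j = S (i :: w ++ [j]) + S (i :: w.reverse ++ [j])`.
`SSys.mul` gives `2 x_i S w = S (i :: w) + S (w ++ [i])`, hence
`4 x_j (x_i S w) = P j i + Q i j`, `4 S [i,j] * S w = P i j + P j i`, `Q i j = Q j i`. So `2 Q i j` and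
`2 P i j` are linear combinations of `x_j (x_i S w)`, `x_i (x_j S w)`, `S [i,j] * S w`; these vanish
for `S w` replaced by an element of `J^4`. Hence there are `a, b : Fin 3 → Fin 3 → F` with
(F) `lam (i j w) + lam (i j w*) = 2 a i j π w`, `lam (i w j) + lam (i w* j) = 2 b i j π w`, `lam = φ ∘ S`,
and `b i j = b j i`. Everything is multilinear in the letters; we use it for vectors.
Flips of a word `(v1,v2,v3,v4,v5)`: `3 <-> 5`: sum `= 2 a(v1,v2) π(v3,v4,v5)`; `2 <-> 4`: sum
`= 2 b(v1,v5) π(v2,v3,v4)`; `1 <-> 3`: sum `= 2 a(v5,v4) π(v1,v2,v3)`.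
(1) ZERO FLIPS: if all right hand sides in (F) are `0`, then `lam` is alternating in the
positions 1,3,5 and alternating in 2,4: `lam(v1..v5) = det(v1,v3,v5) ω(v2,v4)`, `ω` alternating on `F^3`;
take `m ≠ 0` with `ω(m, ·) = 0`: for `k ∈ U` with obstruction `t`:
`t det(p,m,q) = ∑ k i j lam(i,j,p,m,q) = ∑ k i j det(i,p,q) ω(j,m) = 0` for all `p, q`. So `t = 0`.
(2) Write `P(v;b) = π(v,b,v)`. The word `(v,b,v,b,e)` with flips 13 and 24: (*1)
`a(e,b) P(v;b) = b(e,v) P(b;v)`. The word `(v,b,v,d,v)` with flips 13 and 35: (*2)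
`a(v,d) P(v;b) = a(v,b) P(v;d)`.
If `P = 0` then `π = 0` (alternating and reversal invariant): case (1). If `a = 0`: by (*1)
`b(e,v) P(b;v) = 0` for all, so `b = 0` (polynomial functions on an infinite field): case (1).
Otherwise `a ≠ 0`, `P ≠ 0`: by (*1) for generic `b, v` the linear forms `a(·,b)` and `b(·,v)` are
proportional, so `a(e,b) = χ(e) α(b)`, `b = β χ⊗χ`; by (*2) `P(v;b) = ρ(v) α(b)`; (*1) again:
`α(b)^2 ρ(v) = β χ(v) ρ(b) α(v)`, so `ρ = κ' χ α`, `α = β χ`. So `a = b = β χ⊗χ`, `π = κ χ⊗χ⊗χ`.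
Then `lam' = lam - β κ χ^⊗5` has zero flips, `lam' = det(v1,v3,v5) ω(v2,v4)`; for `k ∈ U`, word
`(v,b,v)`: `0 = t det(v,b,v) = k(χ,χ) β κ χ(v)^2 χ(b) + 0`, so `k(χ,χ) β κ = 0` and
`t det(p,m,q) = ∑ k i j lam'(i,j,p,m,q) = 0` as in (1).
-/

namespace JD

universe u v w

section core

variable {F : Type u} [Field F] {V : Type v} [AddCommGroup V] [Module F V]

/-- a product of two linear forms vanishes only if one of them does -/
theorem C5P1_lin_mul (f g : V →ₗ[F] F) (h : ∀ v, f v * g v = 0) (hg : g ≠ 0) : f = 0 := by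
  by_contra hf
  obtain ⟨v, hv⟩ : ∃ v, f v ≠ 0 := by
    by_contra h'
    push Not at h'
    exact hf (LinearMap.ext h')
  obtain ⟨w, hw⟩ : ∃ w, g w ≠ 0 := by
    by_contra h'
    push Not at h'
    exact hg (LinearMap.ext h')
  have gv : g v = 0 := (mul_eq_zero.mp (h v)).resolve_left hv
  have fw : f w = 0 := (mul_eq_zero.mp (h w)).resolve_right hw
  have h3 := h (v + w)
  rw [map_add, map_add, gv, fw, add_zero, zero_add] at h3
  rcases mul_eq_zero.mp h3 with h4 | h4
  · exact hv h4
  · exact hw h4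

theorem C5P1_core (h2 : (2 : F) ≠ 0) (a β : V →ₗ[F] V →ₗ[F] F)
    (p : V →ₗ[F] V →ₗ[F] V →ₗ[F] F)
    (hβ : ∀ u v, β u v = β v u) (hp : ∀ u v w, p u v w = p w v u)
    (h1 : ∀ v b e, a e b * p v b v = β e v * p b v b)
    (h3 : ∀ v b d, a v d * p v b v = a v b * p v d v) :
    ∃ (χ : V →ₗ[F] F) (κ : F), ∀ e b u v w,
      a e b * p u v w = κ * (χ e * χ b * χ u * χ v * χ w) ∧
      β e b * p u v w = κ * (χ e * χ b * χ u * χ v * χ w) := by
  by_cases hP : ∀ v b, p v b v = 0
  · have hp0 : ∀ u v w, p u v w = 0 := by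
      intro u v w
      have e1 := hP (u + w) v
      simp only [map_add, LinearMap.add_apply] at e1
      rw [hP u v, hP w v, hp w v u] at e1
      have : (2 : F) * p u v w = 0 := by linear_combination e1
      exact (mul_eq_zero.mp this).resolve_left h2
    exact ⟨0, 0, fun e b u v w => by simp [hp0]⟩
  push Not at hP
  obtain ⟨v0, b1, hvb⟩ := hP
  -- the linear form in the middle
  let g : V → V →ₗ[F] F := fun v =>
    { toFun := fun b => p v b v
      map_add' := fun b b' => by rw [map_add, LinearMap.add_apply]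
      map_smul' := fun c b => by rw [map_smul, LinearMap.smul_apply]; rfl }
  have gv : ∀ v b, g v b = p v b v := fun v b => rfl
  have hg0 : g v0 ≠ 0 := fun h => hvb (by rw [← gv, h]; rfl)
  by_cases ha : a = 0
  · have hβ0 : β = 0 := by
      refine LinearMap.ext fun e => ?_
      refine C5P1_lin_mul (β e) (g v0) (fun v => ?_) hg0
      rw [gv, ← h1 v v0 e, ha]
      simp
    exact ⟨0, 0, fun e b u v w => by simp [ha, hβ0]⟩
  obtain ⟨e0, he0⟩ : ∃ e0, a e0 ≠ 0 := by
    by_contra h'
    push Not at h'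
    exact ha (LinearMap.ext h')
  obtain ⟨b0, hb0⟩ : ∃ b0, a e0 b0 * g v0 b0 ≠ 0 := by
    by_contra h'
    push Not at h'
    exact he0 (C5P1_lin_mul (a e0) (g v0) h' hg0)
  rw [gv] at hb0
  have hab : a e0 b0 ≠ 0 := left_ne_zero_of_mul hb0
  have hpb : p v0 b0 v0 ≠ 0 := right_ne_zero_of_mul hb0
  have hb1 : β e0 v0 * p b0 v0 b0 ≠ 0 := by rw [← h1 v0 b0 e0]; exact hb0
  have hβe : β e0 v0 ≠ 0 := left_ne_zero_of_mul hb1
  have hpv : p b0 v0 b0 ≠ 0 := right_ne_zero_of_mul hb1
  have hgb0 : g b0 ≠ 0 := fun h => hpv (by rw [← gv, h]; rfl)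
  -- χ
  set χ : V →ₗ[F] F := β v0 with hχ
  have hχe : χ e0 ≠ 0 := by rw [hχ, hβ]; exact hβe
  have claim1 : ∀ e e' v, β e v * χ e' = β e' v * χ e := by
    intro e e' v
    have := C5P1_lin_mul (χ e' • β e - χ e • β e') (g b0) (fun v => ?_) hgb0
    · have h4 := LinearMap.congr_fun this v
      simp only [LinearMap.sub_apply, LinearMap.smul_apply, smul_eq_mul, LinearMap.zero_apply] at h4
      linear_combination h4
    · simp only [LinearMap.sub_apply, LinearMap.smul_apply, smul_eq_mul, gv]
      have k1 := h1 v b0 e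
      have k2 := h1 v b0 e'
      have k3 := h1 v0 b0 e
      have k4 := h1 v0 b0 e'
      rw [hβ e v0] at k3
      rw [hβ e' v0] at k4
      have : ((χ e' * β e v - χ e * β e' v) * p b0 v b0) * p b0 v0 b0 = 0 := by
        linear_combination (-(β v0 e') * p b0 v0 b0) * k1 + (β v0 e) * p b0 v0 b0 * k2
          + (a e' b0 * p v b0 v) * k3 - (a e b0 * p v b0 v) * k4
      exact (mul_eq_zero.mp this).resolve_right hpv
  obtain ⟨c, hc⟩ : ∃ c : F, ∀ e v, β e v = c * (χ e * χ v) := by
    refine ⟨β e0 e0 / (χ e0) ^ 2, fun e v => ?_⟩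
    have k1 := claim1 e e0 v
    have k2 := claim1 v e0 e0
    rw [hβ v e0] at k2
    field_simp
    linear_combination (χ e0) * k1 + (χ e) * k2
  have hc0 : c ≠ 0 := by
    rintro rfl
    apply hβe
    rw [hc, zero_mul]
  have claim3 : ∀ e e' b, a e b * χ e' = a e' b * χ e := by
    intro e e' b
    have := C5P1_lin_mul (χ e' • a e - χ e • a e') (g v0) (fun b => ?_) hg0
    · have h4 := LinearMap.congr_fun this b
      simp only [LinearMap.sub_apply, LinearMap.smul_apply, smul_eq_mul, LinearMap.zero_apply] at h4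
      linear_combination h4
    · simp only [LinearMap.sub_apply, LinearMap.smul_apply, smul_eq_mul, gv]
      have k1 := h1 v0 b e
      have k2 := h1 v0 b e'
      rw [hc e v0] at k1
      rw [hc e' v0] at k2
      linear_combination (χ e') * k1 - (χ e) * k2
  set α : V →ₗ[F] F := (χ e0)⁻¹ • a e0 with hα
  have haα : ∀ e b, a e b = χ e * α b := by
    intro e b
    have k := claim3 e e0 b
    rw [hα, LinearMap.smul_apply, smul_eq_mul]
    field_simp
    linear_combination k
  have hαb0 : α b0 ≠ 0 := by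
    intro h
    apply hab
    rw [haα, h, mul_zero]
  have claim4 : ∀ b v, α b * p v b v = c * (χ v * p b v b) := by
    intro b v
    have k := h1 v b e0
    rw [haα e0 b, hc e0 v] at k
    apply mul_left_cancel₀ hχe
    linear_combination k
  have claim5 : ∀ v b d, α d * p v b v = α b * p v d v := by
    have hne : ∀ v, χ v ≠ 0 → ∀ b d, α d * p v b v = α b * p v d v := by
      intro v hv b d
      have k := h3 v b d
      rw [haα, haα] at k
      apply mul_left_cancel₀ hv
      linear_combination k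
    intro v b d
    by_cases hv : χ v = 0
    · have k0 := hne e0 hχe b d
      have k1 := hne (v + e0) (by rw [map_add, hv, zero_add]; exact hχe) b d
      have k2 := hne (v - e0) (by rw [map_sub, hv, zero_sub]; exact neg_ne_zero.mpr hχe) b d
      simp only [map_add, map_sub, LinearMap.add_apply, LinearMap.sub_apply] at k1 k2
      have : (2 : F) * (α d * p v b v - α b * p v d v) = 0 := by
        linear_combination k1 + k2 - 2 * k0
      exact sub_eq_zero.mp ((mul_eq_zero.mp this).resolve_left h2)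
    · exact hne v hv b d
  have hpρ : ∀ v b, p v b v * α b0 = α b * p v b0 v := by
    intro v b
    linear_combination claim5 v b b0
  have hκ : ∀ v, p v b0 v * (α b0) ^ 2 = c * p b0 b0 b0 * (χ v * α v) := by
    intro v
    have k1 := claim4 b0 v
    have k2 := hpρ b0 v
    linear_combination (α b0) * k1 + (c * χ v) * k2
  set κ' : F := c * p b0 b0 b0 / (α b0) ^ 3 with hκ'
  have hpv2 : ∀ v b, p v b v = κ' * (α b * χ v * α v) := by
    intro v b
    rw [hκ']
    have k1 := hpρ v b
    have k2 := hκ v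
    field_simp
    linear_combination (α b0) ^ 2 * k1 + (α b) * k2
  have hnz : κ' * (χ v0 * α v0) ≠ 0 := by
    intro h
    apply hpb
    rw [hpv2]
    linear_combination (α b0) * h
  have hαc : ∀ b, α b = c * χ b := by
    have hα0 : α ≠ 0 := fun h => hαb0 (by rw [h]; rfl)
    have := C5P1_lin_mul (α - c • χ) α (fun b => ?_) hα0
    · intro b
      have h4 := LinearMap.congr_fun this b
      simp only [LinearMap.sub_apply, LinearMap.smul_apply, smul_eq_mul, LinearMap.zero_apply] at h4
      linear_combination h4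
    · simp only [LinearMap.sub_apply, LinearMap.smul_apply, smul_eq_mul]
      have k := claim4 b v0
      rw [hpv2, hpv2] at k
      apply mul_left_cancel₀ hnz
      linear_combination k
  have hp3 : ∀ u v w, p u v w = κ' * c ^ 2 * (χ u * χ v * χ w) := by
    intro u v w
    have k0 := hpv2 (u + w) v
    have k1 := hpv2 u v
    have k2 := hpv2 w v
    simp only [map_add, LinearMap.add_apply] at k0
    rw [hp w v u] at k0
    simp only [hαc] at k0 k1 k2
    have : (2 : F) * (p u v w - κ' * c ^ 2 * (χ u * χ v * χ w)) = 0 := by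
      linear_combination k0 - k1 - k2
    exact sub_eq_zero.mp ((mul_eq_zero.mp this).resolve_left h2)
  refine ⟨χ, c * (κ' * c ^ 2), fun e b u v w => ⟨?_, ?_⟩⟩
  · rw [hp3, haα, hαc]
    ring
  · rw [hp3, hc]
    ring

end core

section fin

variable {F : Type u} [Field F]

theorem C5P1_alt (h2 : (2 : F) ≠ 0) (L : Fin 3 → Fin 3 → Fin 3 → Fin 3 → Fin 3 → F)
    (Z13 : ∀ i j k l m, L i j k l m + L k j i l m = 0)
    (Z35 : ∀ i j k l m, L i j k l m + L i j m l k = 0)
    (i j k l m : Fin 3) :
    L i j k l m = det3 F [i, k, m] * L 0 j 1 l 2 := by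
  have a13 : ∀ i j k l m, L i j k l m = - L k j i l m := fun i j k l m => by
    linear_combination Z13 i j k l m
  have a35 : ∀ i j k l m, L i j k l m = - L i j m l k := fun i j k l m => by
    linear_combination Z35 i j k l m
  have z13 : ∀ i j l m, L i j i l m = 0 := fun i j l m => by
    have : (2 : F) * L i j i l m = 0 := by linear_combination Z13 i j i l m
    exact (mul_eq_zero.mp this).resolve_left h2
  have z35 : ∀ i j k l, L i j k l k = 0 := fun i j k l => by
    have : (2 : F) * L i j k l k = 0 := by linear_combination Z35 i j k l k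
    exact (mul_eq_zero.mp this).resolve_left h2
  have z15 : ∀ i j k l, L i j k l i = 0 := fun i j k l => by
    rw [a13, z35, neg_zero]
  have e1 : L 1 j 0 l 2 = - L 0 j 1 l 2 := a13 1 j 0 l 2
  have e2 : L 0 j 2 l 1 = - L 0 j 1 l 2 := a35 0 j 2 l 1
  have e3 : L 1 j 2 l 0 = L 0 j 1 l 2 := by rw [a35 1 j 2 l 0, e1, neg_neg]
  have e4 : L 2 j 0 l 1 = L 0 j 1 l 2 := by rw [a13 2 j 0 l 1, e2, neg_neg]
  have e5 : L 2 j 1 l 0 = - L 0 j 1 l 2 := by rw [a13 2 j 1 l 0, e3]
  fin_cases i <;> fin_cases k <;> fin_cases m <;>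
    simp [det3, z13, z35, z15, e1, e2, e3, e4, e5]

theorem C5P1_fin (h2 : (2 : F) ≠ 0) (lam : List (Fin 3) → F) (χ : Fin 3 → F) (κ : F)
    (F13 : ∀ i j k l m, lam [i, j, k, l, m] + lam [k, j, i, l, m] =
      2 * (κ * (χ m * χ l * χ i * χ j * χ k)))
    (F24 : ∀ i j k l m, lam [i, j, k, l, m] + lam [i, l, k, j, m] =
      2 * (κ * (χ i * χ m * χ j * χ k * χ l)))
    (F35 : ∀ i j k l m, lam [i, j, k, l, m] + lam [i, j, m, l, k] =
      2 * (κ * (χ i * χ j * χ k * χ l * χ m)))
    (k : Matrix (Fin 3) (Fin 3) F) (t : F)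
    (hk : ∀ p m q, ∑ i, ∑ j, k i j * lam [i, j, p, m, q] = t * det3 F [p, m, q]) : t = 0 := by
  let L : Fin 3 → Fin 3 → Fin 3 → Fin 3 → Fin 3 → F := fun i j k l m =>
    lam [i, j, k, l, m] - κ * (χ i * χ j * χ k * χ l * χ m)
  have hL : ∀ i j k l m, L i j k l m =
    lam [i, j, k, l, m] - κ * (χ i * χ j * χ k * χ l * χ m) := fun _ _ _ _ _ => rfl
  have hLd := C5P1_alt h2 L (fun i j k l m => by
      rw [hL, hL]; linear_combination F13 i j k l m) (fun i j k l m => by
      rw [hL, hL]; linear_combination F35 i j k l m)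
  let ω : Fin 3 → Fin 3 → F := fun j l => L 0 j 1 l 2
  have hω : ∀ j l, ω j l = - ω l j := fun j l => by
    show L 0 j 1 l 2 = - L 0 l 1 j 2
    rw [hL, hL]
    linear_combination F24 0 j 1 l 2
  have hω0 : ∀ j, ω j j = 0 := fun j => by
    have : (2 : F) * ω j j = 0 := by linear_combination hω j j
    exact (mul_eq_zero.mp this).resolve_left h2
  have hlam : ∀ i j p m q, lam [i, j, p, m, q] =
      κ * (χ i * χ j * χ p * χ m * χ q) + det3 F [i, p, q] * ω j m := fun i j p m q => by
    have := hLd i j p m q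
    rw [hL] at this
    linear_combination this
  set s : F := ∑ i, ∑ j, k i j * (χ i * χ j) with hs
  let c : Fin 3 → Fin 3 → Fin 3 → F := fun j p q => ∑ i, k i j * det3 F [i, p, q]
  have E : ∀ p m q, t * det3 F [p, m, q] =
      κ * s * (χ p * χ m * χ q) + ∑ j, c j p q * ω j m := by
    intro p m q
    rw [← hk p m q]
    simp only [hlam, hs, c, Fin.sum_univ_three]
    ring
  have E2 : ∀ p m, κ * s * (χ p * χ m * χ p) = 0 := by
    intro p m
    have e := E p m p
    have c0 : ∀ j, c j p p = 0 := by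
      intro j
      show ∑ i, k i j * det3 F [i, p, p] = 0
      have : ∀ i, det3 F [i, p, p] = 0 := by
        intro i
        fin_cases i <;> fin_cases p <;> simp [det3]
      simp [this]
    have d0 : det3 F [p, m, p] = 0 := by
      fin_cases m <;> fin_cases p <;> simp [det3]
    simp only [c0, d0, zero_mul, Finset.sum_const_zero, mul_zero, add_zero] at e
    exact e.symm
  have E3 : ∀ p m q, κ * s * (χ p * χ m * χ q) = 0 := by
    intro p m q
    rcases mul_eq_zero.mp (E2 p m) with h | h
    · rw [h, zero_mul]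
    · have : χ p * χ m = 0 := by
        rcases mul_eq_zero.mp h with h' | h'
        · exact h'
        · rw [h', zero_mul]
      rw [this, zero_mul, mul_zero]
  have E4 : ∀ p m q, t * det3 F [p, m, q] = ∑ j, c j p q * ω j m := by
    intro p m q
    rw [E, E3, zero_add]
  have T0 : t * ω 1 2 = 0 := by
    have e0 := E4 1 0 2
    have e1 := E4 1 1 2
    have e2 := E4 1 2 2
    simp only [det3, Fin.sum_univ_three] at e0 e1 e2
    simp at e0 e1 e2
    rw [hω 1 0, hω 2 0, hω0] at e0
    rw [hω 2 1, hω0] at e1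
    rw [hω0] at e2
    linear_combination (-(ω 1 2)) * e0 + (ω 0 2) * e1 - (ω 0 1) * e2
  have T1 : t * ω 0 2 = 0 := by
    have e0 := E4 0 0 2
    have e1 := E4 0 1 2
    have e2 := E4 0 2 2
    simp only [det3, Fin.sum_univ_three] at e0 e1 e2
    simp at e0 e1 e2
    rw [hω 1 0, hω 2 0, hω0] at e0
    rw [hω 2 1, hω0] at e1
    rw [hω0] at e2
    linear_combination (-(ω 1 2)) * e0 + (ω 0 2) * e1 - (ω 0 1) * e2
  have T2 : t * ω 0 1 = 0 := by
    have e0 := E4 0 0 1
    have e1 := E4 0 1 1
    have e2 := E4 0 2 1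
    simp only [det3, Fin.sum_univ_three] at e0 e1 e2
    simp at e0 e1 e2
    rw [hω 1 0, hω 2 0, hω0] at e0
    rw [hω 2 1, hω0] at e1
    rw [hω0] at e2
    linear_combination (-(ω 1 2)) * e0 + (ω 0 2) * e1 - (ω 0 1) * e2
  have e := E4 0 1 2
  have hd : det3 F [0, 1, 2] = 1 := by simp [det3]
  rw [hd, Fin.sum_univ_three, hω0 1, hω 2 1] at e
  have : t * t = 0 := by
    linear_combination t * e + (c 0 0 2) * T2 - (c 2 0 2) * T0
  exact mul_self_eq_zero.mp this

end fin

section vec

variable {F : Type u} [Field F]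

theorem C5P1_ext1 (f : (Fin 3 → F) → F) (hf : IsLinearMap F f)
    (h : ∀ i, f (Pi.single i 1) = 0) (v : Fin 3 → F) : f v = 0 := by
  have : hf.mk' f = 0 := by
    refine LinearMap.pi_ext' fun i => LinearMap.ext_ring ?_
    simpa using h i
  have h2 := LinearMap.congr_fun this v
  simpa using h2

theorem C5P1_ext5 (Φ : (Fin 3 → F) → (Fin 3 → F) → (Fin 3 → F) → (Fin 3 → F) → (Fin 3 → F) → F)
    (l1 : ∀ v2 v3 v4 v5, IsLinearMap F (fun v1 => Φ v1 v2 v3 v4 v5))
    (l2 : ∀ v1 v3 v4 v5, IsLinearMap F (fun v2 => Φ v1 v2 v3 v4 v5))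
    (l3 : ∀ v1 v2 v4 v5, IsLinearMap F (fun v3 => Φ v1 v2 v3 v4 v5))
    (l4 : ∀ v1 v2 v3 v5, IsLinearMap F (fun v4 => Φ v1 v2 v3 v4 v5))
    (l5 : ∀ v1 v2 v3 v4, IsLinearMap F (fun v5 => Φ v1 v2 v3 v4 v5))
    (h : ∀ i j k l m, Φ (Pi.single i 1) (Pi.single j 1) (Pi.single k 1) (Pi.single l 1)
      (Pi.single m 1) = 0) (v1 v2 v3 v4 v5 : Fin 3 → F) : Φ v1 v2 v3 v4 v5 = 0 := by
  refine C5P1_ext1 _ (l1 v2 v3 v4 v5) (fun i => ?_) v1
  refine C5P1_ext1 _ (l2 _ v3 v4 v5) (fun j => ?_) v2
  refine C5P1_ext1 _ (l3 _ _ v4 v5) (fun k => ?_) v3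
  refine C5P1_ext1 _ (l4 _ _ _ v5) (fun l => ?_) v4
  exact C5P1_ext1 _ (l5 _ _ _ _) (fun m => h i j k l m) v5

/-- a coordinate followed by `x` -/
def C5P1_pr {M : Type w} [AddCommGroup M] [Module F M] (x : Fin 3 → M) :
    (Fin 3 → F) →ₗ[F] M :=
  ∑ i, (LinearMap.proj i : (Fin 3 → F) →ₗ[F] F).smulRight (x i)

theorem C5P1_pr_single {M : Type w} [AddCommGroup M] [Module F M] (x : Fin 3 → M) (i : Fin 3) :
    C5P1_pr (F := F) x (Pi.single i 1) = x i := by
  simp [C5P1_pr, LinearMap.sum_apply, Pi.single_apply]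

/-- The vector form of the flip relations. -/
theorem C5P1_chi (h2 : (2 : F) ≠ 0) (lam : List (Fin 3) → F) (A B : Fin 3 → Fin 3 → F)
    (p : Fin 3 → Fin 3 → Fin 3 → F) (hB : ∀ i j, B i j = B j i)
    (hp : ∀ i j k, p i j k = p k j i)
    (F13 : ∀ i j k l m, lam [i, j, k, l, m] + lam [k, j, i, l, m] = 2 * (A m l * p i j k))
    (F24 : ∀ i j k l m, lam [i, j, k, l, m] + lam [i, l, k, j, m] = 2 * (B i m * p j k l))
    (F35 : ∀ i j k l m, lam [i, j, k, l, m] + lam [i, j, m, l, k] = 2 * (A i j * p k l m)) :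
    ∃ (χ : Fin 3 → F) (κ : F), ∀ e b u v w,
      A e b * p u v w = κ * (χ e * χ b * χ u * χ v * χ w) ∧
      B e b * p u v w = κ * (χ e * χ b * χ u * χ v * χ w) := by
  let L : (Fin 3 → F) →ₗ[F] (Fin 3 → F) →ₗ[F] (Fin 3 → F) →ₗ[F] (Fin 3 → F) →ₗ[F]
      (Fin 3 → F) →ₗ[F] F :=
    C5P1_pr fun i => C5P1_pr fun j => C5P1_pr fun k => C5P1_pr fun l => C5P1_pr fun m =>
      lam [i, j, k, l, m]
  let a : (Fin 3 → F) →ₗ[F] (Fin 3 → F) →ₗ[F] F := C5P1_pr fun i => C5P1_pr fun j => A i j
  let β : (Fin 3 → F) →ₗ[F] (Fin 3 → F) →ₗ[F] F := C5P1_pr fun i => C5P1_pr fun j => B i j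
  let π : (Fin 3 → F) →ₗ[F] (Fin 3 → F) →ₗ[F] (Fin 3 → F) →ₗ[F] F :=
    C5P1_pr fun i => C5P1_pr fun j => C5P1_pr fun k => p i j k
  have hL : ∀ i j k l m, L (Pi.single i 1) (Pi.single j 1) (Pi.single k 1) (Pi.single l 1)
      (Pi.single m 1) = lam [i, j, k, l, m] := by
    intro i j k l m
    simp only [L, C5P1_pr_single]
  have ha : ∀ i j, a (Pi.single i 1) (Pi.single j 1) = A i j := by
    intro i j
    simp only [a, C5P1_pr_single]
  have hb : ∀ i j, β (Pi.single i 1) (Pi.single j 1) = B i j := by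
    intro i j
    simp only [β, C5P1_pr_single]
  have hπ : ∀ i j k, π (Pi.single i 1) (Pi.single j 1) (Pi.single k 1) = p i j k := by
    intro i j k
    simp only [π, C5P1_pr_single]
  clear_value L a β π
  have V13 : ∀ v1 v2 v3 v4 v5, L v1 v2 v3 v4 v5 + L v3 v2 v1 v4 v5 -
      2 * (a v5 v4 * π v1 v2 v3) = 0 := by
    refine C5P1_ext5 _ ?_ ?_ ?_ ?_ ?_ ?_
    · intro v2 v3 v4 v5
      exact ⟨fun x y => by simp only [map_add, LinearMap.add_apply]; ring,
        fun c x => by simp only [map_smul, LinearMap.smul_apply, smul_eq_mul]; ring⟩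
    · intro v2 v3 v4 v5
      exact ⟨fun x y => by simp only [map_add, LinearMap.add_apply]; ring,
        fun c x => by simp only [map_smul, LinearMap.smul_apply, smul_eq_mul]; ring⟩
    · intro v2 v3 v4 v5
      exact ⟨fun x y => by simp only [map_add, LinearMap.add_apply]; ring,
        fun c x => by simp only [map_smul, LinearMap.smul_apply, smul_eq_mul]; ring⟩
    · intro v2 v3 v4 v5
      exact ⟨fun x y => by simp only [map_add, LinearMap.add_apply]; ring,
        fun c x => by simp only [map_smul, smul_eq_mul, LinearMap.smul_apply]; ring⟩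
    · intro v2 v3 v4 v5
      exact ⟨fun x y => by simp only [map_add, LinearMap.add_apply]; ring,
        fun c x => by simp only [map_smul, LinearMap.smul_apply, smul_eq_mul]; ring⟩
    · intro i j k l m
      rw [hL, hL, ha, hπ, F13, sub_self]
  have V24 : ∀ v1 v2 v3 v4 v5, L v1 v2 v3 v4 v5 + L v1 v4 v3 v2 v5 -
      2 * (β v1 v5 * π v2 v3 v4) = 0 := by
    refine C5P1_ext5 _ ?_ ?_ ?_ ?_ ?_ ?_
    · intro v2 v3 v4 v5
      exact ⟨fun x y => by simp only [map_add, LinearMap.add_apply]; ring,
        fun c x => by simp only [map_smul, LinearMap.smul_apply, smul_eq_mul]; ring⟩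
    · intro v2 v3 v4 v5
      exact ⟨fun x y => by simp only [map_add, LinearMap.add_apply]; ring,
        fun c x => by simp only [map_smul, LinearMap.smul_apply, smul_eq_mul]; ring⟩
    · intro v2 v3 v4 v5
      exact ⟨fun x y => by simp only [map_add, LinearMap.add_apply]; ring,
        fun c x => by simp only [map_smul, LinearMap.smul_apply, smul_eq_mul]; ring⟩
    · intro v2 v3 v4 v5
      exact ⟨fun x y => by simp only [map_add, LinearMap.add_apply]; ring,
        fun c x => by simp only [map_smul, smul_eq_mul, LinearMap.smul_apply]; ring⟩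
    · intro v2 v3 v4 v5
      exact ⟨fun x y => by simp only [map_add]; ring,
        fun c x => by simp only [map_smul, LinearMap.smul_apply, smul_eq_mul]; ring⟩
    · intro i j k l m
      rw [hL, hL, hb, hπ, F24, sub_self]
  have V35 : ∀ v1 v2 v3 v4 v5, L v1 v2 v3 v4 v5 + L v1 v2 v5 v4 v3 -
      2 * (a v1 v2 * π v3 v4 v5) = 0 := by
    refine C5P1_ext5 _ ?_ ?_ ?_ ?_ ?_ ?_
    · intro v2 v3 v4 v5
      exact ⟨fun x y => by simp only [map_add, LinearMap.add_apply]; ring,
        fun c x => by simp only [map_smul, LinearMap.smul_apply, smul_eq_mul]; ring⟩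
    · intro v2 v3 v4 v5
      exact ⟨fun x y => by simp only [map_add, LinearMap.add_apply]; ring,
        fun c x => by simp only [map_smul, LinearMap.smul_apply, smul_eq_mul]; ring⟩
    · intro v2 v3 v4 v5
      exact ⟨fun x y => by simp only [map_add, LinearMap.add_apply]; ring,
        fun c x => by simp only [map_smul, LinearMap.smul_apply, smul_eq_mul]; ring⟩
    · intro v2 v3 v4 v5
      exact ⟨fun x y => by simp only [map_add, LinearMap.add_apply]; ring,
        fun c x => by simp only [map_smul, smul_eq_mul, LinearMap.smul_apply]; ring⟩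
    · intro v2 v3 v4 v5
      exact ⟨fun x y => by simp only [map_add, LinearMap.add_apply]; ring,
        fun c x => by simp only [map_smul, LinearMap.smul_apply, smul_eq_mul]; ring⟩
    · intro i j k l m
      rw [hL, hL, ha, hπ, F35, sub_self]
  have Vβ : ∀ u v, β u v = β v u := by
    intro u v
    have : ∀ u v, β u v - β v u = 0 := by
      intro u v
      refine C5P1_ext1 (fun u => β u v - β v u)
        ⟨fun x y => by simp only [map_add, LinearMap.add_apply]; ring,
          fun c x => by simp only [map_smul, LinearMap.smul_apply, smul_eq_mul]; ring⟩ ?_ u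
      intro i
      refine C5P1_ext1 (fun v => β (Pi.single i 1) v - β v (Pi.single i 1))
        ⟨fun x y => by simp only [map_add, LinearMap.add_apply]; ring,
          fun c x => by simp only [map_smul, LinearMap.smul_apply, smul_eq_mul]; ring⟩ ?_ v
      intro j
      simp only [hb]
      rw [hB i j, sub_self]
    exact sub_eq_zero.mp (this u v)
  have Vπ : ∀ u v w, π u v w = π w v u := by
    intro u v w
    have : ∀ u v w, π u v w - π w v u = 0 := by
      intro u v w
      refine C5P1_ext1 (fun u => π u v w - π w v u)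
        ⟨fun x y => by simp only [map_add, LinearMap.add_apply]; ring,
          fun c x => by simp only [map_smul, LinearMap.smul_apply, smul_eq_mul]; ring⟩ ?_ u
      intro i
      refine C5P1_ext1 (fun v => π (Pi.single i 1) v w - π w v (Pi.single i 1))
        ⟨fun x y => by simp only [map_add, LinearMap.add_apply]; ring,
          fun c x => by simp only [map_smul, LinearMap.smul_apply, smul_eq_mul]; ring⟩ ?_ v
      intro j
      refine C5P1_ext1 (fun w => π (Pi.single i 1) (Pi.single j 1) w -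
          π w (Pi.single j 1) (Pi.single i 1))
        ⟨fun x y => by simp only [map_add, LinearMap.add_apply]; ring,
          fun c x => by simp only [map_smul, LinearMap.smul_apply, smul_eq_mul]; ring⟩ ?_ w
      intro k
      simp only [hπ]
      rw [hp i j k, sub_self]
    exact sub_eq_zero.mp (this u v w)
  obtain ⟨χ, κ, hχ⟩ := C5P1_core h2 a β π Vβ Vπ
    (by
      intro v b e
      have k1 := V13 v b v b e
      have k2 := V24 v b v b e
      rw [Vβ v e] at k2
      have : (2 : F) * (a e b * π v b v - β e v * π b v b) = 0 := by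
        linear_combination k2 - k1
      exact sub_eq_zero.mp ((mul_eq_zero.mp this).resolve_left h2))
    (by
      intro v b d
      have k1 := V13 v b v d v
      have k2 := V35 v b v d v
      have : (2 : F) * (a v d * π v b v - a v b * π v d v) = 0 := by
        linear_combination k2 - k1
      exact sub_eq_zero.mp ((mul_eq_zero.mp this).resolve_left h2))
  refine ⟨fun i => χ (Pi.single i 1), κ, fun e b u v w => ?_⟩
  have k := hχ (Pi.single e 1) (Pi.single b 1) (Pi.single u 1) (Pi.single v 1) (Pi.single w 1)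
  rw [ha, hb, hπ] at k
  exact k

end vec

section layerlin

variable {F : Type u} [Field F] {J : Type u} [NonUnitalNonAssocCommRing J] [Module F J]
    [IsScalarTower F J J] [SMulCommClass F J J]

/-- a layer of dimension at most `n` has `n` generators and linear coordinates -/
theorem C5P1_layer [Module.Finite F J] (i n : ℕ) (hn : dlay F J i ≤ n) :
    ∃ (g : Fin n → J) (ψ : J →ₗ[F] (Fin n → F)), (∀ j, g j ∈ jpow F J i) ∧
      (∀ a ∈ jpow F J (i + 1), ψ a = 0) ∧
      ∀ a ∈ jpow F J i, a - ∑ j, ψ a j • g j ∈ jpow F J (i + 1) := by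
  obtain ⟨g, hg, hc⟩ := exists_layer i n hn
  let T : (Fin n → F) →ₗ[F] (J ⧸ jpow F J (i + 1)) :=
    Fintype.linearCombination F (fun j => (jpow F J (i + 1)).mkQ (g j))
  have hT : ∀ c, T c = (jpow F J (i + 1)).mkQ (∑ j, c j • g j) := by
    intro c
    rw [map_sum]
    simp only [T, Fintype.linearCombination_apply, map_smul]
  obtain ⟨R0, hR0⟩ := T.rangeRestrict.exists_rightInverse_of_surjective T.range_rangeRestrict
  obtain ⟨R, hR⟩ := LinearMap.exists_extend R0
  refine ⟨g, R ∘ₗ (jpow F J (i + 1)).mkQ, hg, fun a ha => ?_, fun a ha => ?_⟩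
  · have : (jpow F J (i + 1)).mkQ a = 0 := by
      rw [Submodule.mkQ_apply]
      exact (Submodule.Quotient.mk_eq_zero _).mpr ha
    rw [LinearMap.comp_apply, this, map_zero]
  · obtain ⟨c, hc⟩ := hc a ha
    have h1 : (jpow F J (i + 1)).mkQ a = T c := by
      rw [hT, ← sub_eq_zero, ← map_sub]
      exact (Submodule.Quotient.mk_eq_zero _).mpr hc
    have h2 : R ((jpow F J (i + 1)).mkQ a) = R0 ⟨T c, LinearMap.mem_range_self T c⟩ := by
      rw [h1, ← hR]
      rfl
    have h3 : T (R0 ⟨T c, LinearMap.mem_range_self T c⟩) = T c := by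
      have := LinearMap.congr_fun hR0 ⟨T c, LinearMap.mem_range_self T c⟩
      exact congrArg Subtype.val this
    rw [← h2, hT, ← h1, ← sub_eq_zero, ← map_sub] at h3
    have h4 := (Submodule.Quotient.mk_eq_zero _).mp h3
    rw [← neg_mem_iff, neg_sub] at h4
    exact h4

end layerlin

theorem C5J.P1 {F : Type u} [Field F] [IsAlgClosed F] {J : Type u}
    [NonUnitalNonAssocCommRing J] [Module F J]
    [IsScalarTower F J J] [SMulCommClass F J J] {x : Fin 3 → J} {S : List (Fin 3) → J}
    {φ : J →ₗ[F] F} (h : C5J F J x S φ) (h3 : dlay F J 3 ≤ 1)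
    (k : Matrix (Fin 3) (Fin 3) F) (t : F) (hk : InU (fun w => φ (S w)) k t) : t = 0 := by
  have := h.fin
  have h2 := h.two
  have hS := h.sys
  have h4 : (4 : F) ≠ 0 := by
    have : (4 : F) = 2 * 2 := by norm_num
    rw [this]
    exact mul_ne_zero h2 h2
  obtain ⟨g, ψ, hg, hψ, hgen⟩ := C5P1_layer (F := F) (J := J) 3 1 h3
  set G : J := g 0 with hG
  let lam : List (Fin 3) → F := fun w => φ (S w)
  -- membership
  have mx : ∀ i, x i ∈ jpow F J 1 := fun i => by
    rw [jpow_one]; exact Submodule.mem_top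
  have m2 : ∀ i j, S [i, j] ∈ jpow F J 2 := fun i j => h.mem [i, j] (by simp)
  have m3 : ∀ a b c, S [a, b, c] ∈ jpow F J 3 := fun a b c => h.mem [a, b, c] (by simp)
  have z6 : ∀ a ∈ jpow F J 6, a = 0 := fun a ha => by
    rw [h.bot] at ha
    exact (Submodule.mem_bot F).mp ha
  let p : Fin 3 → Fin 3 → Fin 3 → F := fun a b c => ψ (S [a, b, c]) 0
  have hr : ∀ a b c, S [a, b, c] - p a b c • G ∈ jpow F J 4 := by
    intro a b c
    have := hgen _ (m3 a b c)
    simpa using this
  -- reversal
  have rev : ∀ w : List (Fin 3), lam w.reverse = lam w := fun w => congrArg φ (hS.rev w)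
  have rev5 : ∀ i j k l m, lam [i, j, k, l, m] = lam [m, l, k, j, i] := fun i j k l m =>
    rev [m, l, k, j, i]
  have revS4 : ∀ i j k l, S [i, j, k, l] = S [l, k, j, i] := fun i j k l =>
    hS.rev [l, k, j, i]
  have revS5 : ∀ i j k l m, S [i, j, k, l, m] = S [m, l, k, j, i] := fun i j k l m =>
    hS.rev [m, l, k, j, i]
  -- multiplication rules
  have r1 : ∀ j a b c, (2 : F) • (x j * S [a, b, c]) = S [j, a, b, c] + S [j, c, b, a] := by
    intro j a b c
    have e := hS.mul [j] [a, b, c] (by simp) (by simp)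
    rw [hS.single] at e
    simp only [List.cons_append, List.nil_append, List.reverse_cons, List.reverse_nil] at e
    rw [revS4 a b c j] at e
    apply smul_right_injective J h2
    show (2 : F) • ((2 : F) • (x j * S [a, b, c])) = (2 : F) • (S [j, a, b, c] + S [j, c, b, a])
    rw [smul_smul, show (2 : F) * 2 = 4 by norm_num, e, two_smul]
    abel
  have r2 : ∀ i a b c d, (2 : F) • (x i * S [a, b, c, d]) = S [i, a, b, c, d] +
      S [i, d, c, b, a] := by
    intro i a b c d
    have e := hS.mul [i] [a, b, c, d] (by simp) (by simp)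
    rw [hS.single] at e
    simp only [List.cons_append, List.nil_append, List.reverse_cons, List.reverse_nil] at e
    rw [revS5 a b c d i] at e
    apply smul_right_injective J h2
    show (2 : F) • ((2 : F) • (x i * S [a, b, c, d])) =
      (2 : F) • (S [i, a, b, c, d] + S [i, d, c, b, a])
    rw [smul_smul, show (2 : F) * 2 = 4 by norm_num, e, two_smul]
    abel
  have r3 : ∀ i j a b c, (4 : F) • (x i * (x j * S [a, b, c])) = S [i, j, a, b, c] +
      S [i, c, b, a, j] + S [i, j, c, b, a] + S [i, a, b, c, j] := by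
    intro i j a b c
    have e1 : (4 : F) • (x i * (x j * S [a, b, c])) =
        (2 : F) • (x i * ((2 : F) • (x j * S [a, b, c]))) := by
      rw [mul_smul_comm, smul_smul]
      norm_num
    rw [e1, r1, mul_add, smul_add, r2, r2]
    abel
  have r4 : ∀ i j a b c, (4 : F) • (S [i, j] * S [a, b, c]) = S [i, j, a, b, c] +
      S [i, j, c, b, a] + S [j, i, a, b, c] + S [j, i, c, b, a] := by
    intro i j a b c
    have e := hS.mul [i, j] [a, b, c] (by simp) (by simp)
    simp only [List.cons_append, List.nil_append, List.reverse_cons, List.reverse_nil] at e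
    rw [e, revS5 a b c i j]
  -- the forms
  let A : Fin 3 → Fin 3 → F := fun i j =>
    φ (x i * (x j * G)) - φ (x j * (x i * G)) + φ (S [i, j] * G)
  let B : Fin 3 → Fin 3 → F := fun i j =>
    φ (x i * (x j * G)) + φ (x j * (x i * G)) - φ (S [i, j] * G)
  have q1 : ∀ i j a b c, φ (x i * (x j * S [a, b, c])) = p a b c * φ (x i * (x j * G)) := by
    intro i j a b c
    have e1 : x i * (x j * S [a, b, c]) =
        p a b c • (x i * (x j * G)) + x i * (x j * (S [a, b, c] - p a b c • G)) := by
      rw [mul_sub, mul_sub, mul_smul_comm, mul_smul_comm]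
      abel
    have e2 : x i * (x j * (S [a, b, c] - p a b c • G)) = 0 :=
      z6 _ (mul_mem_jpow (i := 1) (j := 5) (mx i) (mul_mem_jpow (i := 1) (j := 4) (mx j)
        (hr a b c)))
    rw [e1, e2, add_zero, map_smul, smul_eq_mul]
  have q2 : ∀ i j a b c, φ (S [i, j] * S [a, b, c]) = p a b c * φ (S [i, j] * G) := by
    intro i j a b c
    have e1 : S [i, j] * S [a, b, c] =
        p a b c • (S [i, j] * G) + S [i, j] * (S [a, b, c] - p a b c • G) := by
      rw [mul_sub, mul_smul_comm]
      abel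
    have e2 : S [i, j] * (S [a, b, c] - p a b c • G) = 0 :=
      z6 _ (mul_mem_jpow (i := 2) (j := 4) (m2 i j) (hr a b c))
    rw [e1, e2, add_zero, map_smul, smul_eq_mul]
  have f1 : ∀ i j a b c, 4 * (p a b c * φ (x i * (x j * G))) = lam [i, j, a, b, c] +
      lam [i, c, b, a, j] + lam [i, j, c, b, a] + lam [i, a, b, c, j] := by
    intro i j a b c
    rw [← q1, ← smul_eq_mul, ← map_smul, r3, map_add, map_add, map_add]
  have f2 : ∀ i j a b c, 4 * (p a b c * φ (S [i, j] * G)) = lam [i, j, a, b, c] +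
      lam [i, j, c, b, a] + lam [j, i, a, b, c] + lam [j, i, c, b, a] := by
    intro i j a b c
    rw [← q2, ← smul_eq_mul, ← map_smul, r4, map_add, map_add, map_add]
  have FA : ∀ i j a b c, lam [i, j, a, b, c] + lam [i, j, c, b, a] = 2 * (A i j * p a b c) := by
    intro i j a b c
    have k1 := f1 i j a b c
    have k2 := f1 j i a b c
    have k3 := f2 i j a b c
    rw [rev5 j c b a i, rev5 j a b c i] at k2
    apply mul_left_cancel₀ h2
    simp only [A]
    linear_combination k2 - k1 - k3
  have FB : ∀ i j a b c, lam [i, a, b, c, j] + lam [i, c, b, a, j] = 2 * (B i j * p a b c) := by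
    intro i j a b c
    have k1 := f1 i j a b c
    have k2 := f1 j i a b c
    have k3 := f2 i j a b c
    rw [rev5 j c b a i, rev5 j a b c i] at k2
    apply mul_left_cancel₀ h2
    simp only [B]
    linear_combination k3 - k1 - k2
  have hB : ∀ i j, B i j = B j i := by
    intro i j
    simp only [B]
    rw [show S [i, j] = S [j, i] from hS.rev [j, i]]
    ring
  have hp : ∀ a b c, p a b c = p c b a := by
    intro a b c
    simp only [p]
    rw [show S [a, b, c] = S [c, b, a] from hS.rev [c, b, a]]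
  obtain ⟨χ, κ, hχ⟩ := C5P1_chi h2 lam A B p hB hp
    (fun i j k l m => by
      rw [rev5 i j k l m, rev5 k j i l m, FA, hp k j i])
    (fun i j k l m => by rw [FB])
    (fun i j k l m => by rw [FA])
  refine C5P1_fin h2 lam χ κ (fun i j k l m => ?_) (fun i j k l m => ?_)
    (fun i j k l m => ?_) k t (fun a b c => ?_)
  · rw [rev5 i j k l m, rev5 k j i l m, FA, hp k j i, (hχ m l i j k).1]
  · rw [FB, (hχ i m j k l).2]
  · rw [FA, (hχ i j k l m).1]
  · have e := hk.rel [] [a, b, c] rfl
    simpa [kval] using e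

end JD
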