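import Pool.Agent.H8.JD.C5Layer

set_option autoImplicit false

/-!
# JD class 5, `dim J^4/J^5 ≤ 1`, `dim J^3/J^4 ≤ 2`: there is no obstruction

PROOF (helper98, characteristic free). `V = F^3`, `lam w = φ (S w)`, `J^4 = F p + J^5`,
`z ≡ ζ(z) p`, `ξ(v) = φ(v p)`, `σ(abcd) = ζ(S(abcd))`. Then
(R) `lam(i a b c d) + lam(a b c d i) = 2 ξ(i) σ(a b c d)`.
For `f ∈ U` with obstruction `t ≠ 0` put `y = f(ξ, ·)`. (R) and the symmetry of `f` give
(T) `σ(y a b c) - σ(y c b a) = t det(a, b, c)`; so `y ≠ 0`, `ξ ≠ 0`.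
Put `γ(h, q) = ζ(h q)`, `κ(v; b, h) = ζ((b v) h - v (b h))` (`h, q` quadratic, `m(v,w) = v w + w v`).
(K1) `κ(v; b, v²) = 0`; (K2) `κ(v; y, h) = 0`;
(K3) `D(s, u) := κ(y; s, m(y,u)) - κ(y; u, m(y,s)) = t det(y, s, u)`;
`N_c(b, h) := 2 ζ(c (b h)) = γ(m(c,b), h) - 2 κ(c; b, h)`,
`M_q(b, h) := φ(q (b h)) = ξ(b) γ(h, q) + 2 κ(b; h(ξ, ·), q)`.
As `dim J^3/J^4 ≤ 2`: `N_c = n1(c) Ψ1 + n2(c) Ψ2`, `M_q = μ1(q) Ψ1 + μ2(q) Ψ2`.
(a) `N_y ≠ 0`, otherwise `D = 0`. (b) `N_s = N_u = 0` implies `D(s,u) = 0`; so `n = (n1, n2)` is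
surjective (otherwise `V = F y + ker n` and `D = 0`).
(c) There is a quadratic `q ∉ U` with `M_q = 0` and `κ(x; x, q) = 0` (`ξ(x) = 1`; three
conditions in a 6-dimensional space, `dim U ≤ 2`). `M_q = 0` gives `γ(h,q) = -2 β(h(ξ,·))`,
`κ(b; c, q) = ξ(b) β(c)` with `β = κ(x; ·, q)`; `β ≠ 0`: otherwise `N_c(a,q) = 0` for all `c, a`, so
`Ψ_i(a,q) = 0`, `M_{q'}(a,q) = 0`, `κ(a; q(ξ,·), q') = 0` and this implies `q ∈ U` (`C5P2_K5`).
(d) Let `N_e = 0`, `e ≠ 0`. Then `β(e) = 0 = ξ(e)`. `ξ(y) ≠ 0`: otherwise `N_y(b,q) = 0` for all `b`,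
and the matrix `N_c(b,q) = -4 ξ(c) β(b) - 2 ξ(b) β(c)` has rank 2, not 1.
(e) Choose `s` with `D(e,s) ≠ 0`. At `(e, m(y,y))`: `N_y = 0`, `N_s ≠ 0`, `M_{q'} = 0`; so
`M_{q'} = A(q') N_y` for all `q'`. At `(y, m(y,e))`: `κ(y; e, q') = 0`. At `(e, m(y,s))`:
`κ(e; s, q') = 0`. Hence `D(e,s) = 0` by (K1), contradiction.
-/

namespace JD

universe u v w

section core

variable {F : Type u} [Field F] {V : Type v} [AddCommGroup V] [Module F V]
  {W : Type w} [AddCommGroup W] [Module F W]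

theorem C5P2_core (h2 : (2 : F) ≠ 0)
    (hV : ∀ n1 n2 : V →ₗ[F] F, ∃ e, e ≠ 0 ∧ n1 e = 0 ∧ n2 e = 0)
    (m : V →ₗ[F] V →ₗ[F] W) (hm : ∀ v w, m v w = m w v)
    (ξ : V →ₗ[F] F) (x : V) (hx : ξ x = 1)
    (ct : W →ₗ[F] V) (hct : ∀ v w, ct (m v w) = ξ v • w + ξ w • v)
    (hcs : ∀ v, ∃ h, ct h = v)
    (γ : W →ₗ[F] W →ₗ[F] F) (hγ : ∀ h q, γ h q = γ q h)
    (κ : V →ₗ[F] V →ₗ[F] W →ₗ[F] F) (K1 : ∀ v b, κ v b (m v v) = 0)
    (y : V) (η : V →ₗ[F] F) (hη : η y ≠ 0) (K2 : ∀ v h, κ v y h = 0)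
    (hD : ∀ s, (∀ t, κ y s (m y t) - κ y t (m y s) = 0) → ∃ c : F, s = c • y)
    (Ψ1 Ψ2 : V →ₗ[F] W →ₗ[F] F) (n1 n2 : V →ₗ[F] F) (μ1 μ2 : W →ₗ[F] F)
    (hN : ∀ c b h, γ (m c b) h - 2 * κ c b h = n1 c * Ψ1 b h + n2 c * Ψ2 b h)
    (hM : ∀ q b h, ξ b * γ h q + 2 * κ b (ct h) q = μ1 q * Ψ1 b h + μ2 q * Ψ2 b h)
    (K6 : ∀ l1 l2 l3 : W →ₗ[F] F, ∃ q, l1 q = 0 ∧ l2 q = 0 ∧ l3 q = 0 ∧
      ¬ ((∀ v b, κ v b q = 0) ∧ (∀ h, γ h q = 0) ∧ ∀ v h, κ v (ct q) h = 0)) : False := by
  -- polarisation of K1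
  have K1p : ∀ v w b, κ w b (m v v) = - (2 * κ v b (m v w)) := by
    intro v w b
    have e1 := K1 (v + w) b
    have e2 := K1 (v - w) b
    have e3 := K1 v b
    have e4 := K1 w b
    simp only [map_add, map_sub, LinearMap.add_apply, LinearMap.sub_apply] at e1 e2
    rw [hm w v] at e1 e2
    have : (2 : F) * (κ w b (m v v) + 2 * κ v b (m v w)) = 0 := by
      linear_combination e1 - e2 - 2 * e4
    linear_combination (mul_eq_zero.mp this).resolve_left h2
  -- a vector not proportional to `y`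
  obtain ⟨s0, hs0⟩ : ∃ s0 : V, ∀ c : F, s0 ≠ c • y := by
    obtain ⟨e, he, h1, _⟩ := hV η η
    refine ⟨e, fun c hc => ?_⟩
    rw [hc, map_smul, smul_eq_mul] at h1
    rcases mul_eq_zero.mp h1 with h | h
    · apply he
      rw [hc, h, zero_smul]
    · exact hη h
  have hD0 : ¬ ∀ s t, κ y s (m y t) - κ y t (m y s) = 0 := by
    intro h
    obtain ⟨c, hc⟩ := hD s0 (h s0)
    exact hs0 c hc
  -- `n y ≠ 0`
  have hny : ¬ (n1 y = 0 ∧ n2 y = 0) := by
    rintro ⟨h1, h2'⟩
    apply hD0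
    intro s t
    have e1 := hN y s (m y t)
    have e2 := hN y t (m y s)
    rw [h1, h2', hγ] at e1
    rw [h1, h2'] at e2
    apply mul_left_cancel₀ h2
    linear_combination e2 - e1
  -- `ker n` is small
  have hker : ∀ s t, n1 s = 0 → n2 s = 0 → n1 t = 0 → n2 t = 0 →
      κ y s (m y t) - κ y t (m y s) = 0 := by
    intro s t hs1 hs2 ht1 ht2
    have e1 := hN t s (m y y)
    have e2 := hN s t (m y y)
    rw [ht1, ht2, hm t s] at e1
    rw [hs1, hs2] at e2
    have e3 := K1p y t s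
    have e4 := K1p y s t
    have h4 : (2 : F) * 2 ≠ 0 := mul_ne_zero h2 h2
    apply mul_left_cancel₀ h4
    linear_combination e1 - e2 + 2 * e3 - 2 * e4
  have hDy : ∀ t, κ y y (m y t) = 0 := fun t => K2 y _
  have hDy' : ∀ t, κ y t (m y y) = 0 := fun t => K1 y t
  have hsurj : ∀ z1 z2 : F, (∀ c, n1 c * z1 + n2 c * z2 = 0) → z1 = 0 ∧ z2 = 0 := by
    intro z1 z2 hz
    by_contra hne
    apply hD0
    -- every `n c` is a multiple of `n y`
    have hr : ∀ c, ∃ r : F, n1 c = r * n1 y ∧ n2 c = r * n2 y := by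
      intro c
      have ec := hz c
      have ey := hz y
      by_cases hy1 : n1 y = 0
      · have hy2 : n2 y ≠ 0 := fun h => hny ⟨hy1, h⟩
        rw [hy1, zero_mul, zero_add] at ey
        have hz2 : z2 = 0 := (mul_eq_zero.mp ey).resolve_left hy2
        have hz1 : z1 ≠ 0 := fun h => hne ⟨h, hz2⟩
        rw [hz2, mul_zero, add_zero] at ec
        have hc1 : n1 c = 0 := (mul_eq_zero.mp ec).resolve_right hz1
        exact ⟨n2 c / n2 y, by rw [hc1, hy1, mul_zero], by field_simp⟩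
      · refine ⟨n1 c / n1 y, by field_simp, ?_⟩
        have hz2 : z2 ≠ 0 := by
          intro h
          rw [h, mul_zero, add_zero] at ey
          exact hne ⟨(mul_eq_zero.mp ey).resolve_left hy1, h⟩
        have h' : n2 c * n1 y = n1 c * n2 y := by
          apply mul_left_cancel₀ hz2
          linear_combination (n1 y) * ec - (n1 c) * ey
        rw [div_mul_eq_mul_div, eq_div_iff hy1, h']
    intro s t
    obtain ⟨r, hr1, hr2⟩ := hr s
    obtain ⟨r', hr1', hr2'⟩ := hr t
    have e := hker (s - r • y) (t - r' • y)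
      (by rw [map_sub, map_smul, smul_eq_mul, hr1, sub_self])
      (by rw [map_sub, map_smul, smul_eq_mul, hr2, sub_self])
      (by rw [map_sub, map_smul, smul_eq_mul, hr1', sub_self])
      (by rw [map_sub, map_smul, smul_eq_mul, hr2', sub_self])
    simp only [map_sub, map_smul, LinearMap.sub_apply, LinearMap.smul_apply, smul_eq_mul,
      hDy, hDy'] at e
    linear_combination e
  -- the special element `q`
  obtain ⟨q, hq1, hq2, hq3, hq⟩ := K6 μ1 μ2 (κ x x)
  have hMq : ∀ b h, ξ b * γ h q + 2 * κ b (ct h) q = 0 := by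
    intro b h
    rw [hM, hq1, hq2]
    ring
  have hγq : ∀ h, γ h q = - (2 * κ x (ct h) q) := by
    intro h
    have e := hMq x h
    rw [hx] at e
    linear_combination e
  have hκq : ∀ b c, κ b c q = ξ b * κ x c q := by
    intro b c
    obtain ⟨h, rfl⟩ := hcs c
    have e := hMq b h
    rw [hγq] at e
    apply mul_left_cancel₀ h2
    linear_combination e
  have hNq : ∀ c b, n1 c * Ψ1 b q + n2 c * Ψ2 b q =
      - (4 * (ξ c * κ x b q)) - 2 * (ξ b * κ x c q) := by
    intro c b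
    rw [← hN, hγq, hct, hκq c b, map_add, LinearMap.add_apply, map_smul, map_smul,
      LinearMap.smul_apply, LinearMap.smul_apply, smul_eq_mul, smul_eq_mul]
    ring
  have hβ : ∃ b, κ x b q ≠ 0 := by
    by_contra hcon
    push Not at hcon
    apply hq
    have hk0 : ∀ v b, κ v b q = 0 := by
      intro v b
      rw [hκq, hcon, mul_zero]
    refine ⟨hk0, fun h => by rw [hγq, hcon, mul_zero, neg_zero], fun v h => ?_⟩
    have hΨ : Ψ1 v q = 0 ∧ Ψ2 v q = 0 := by
      apply hsurj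
      intro c
      rw [hNq, hcon, hcon]
      ring
    have e := hM h v q
    rw [hΨ.1, hΨ.2, hγ, hγq, hcon] at e
    apply mul_left_cancel₀ h2
    linear_combination e
  -- the vector `e`
  obtain ⟨e, he0, he1, he2⟩ := hV n1 n2
  have hNe : ∀ b h, γ (m e b) h = 2 * κ e b h := by
    intro b h
    have := hN e b h
    rw [he1, he2] at this
    linear_combination this
  obtain ⟨b1, hb1⟩ := hβ
  have hβe : κ x e q = 0 := by
    have e1 := hNq e x
    rw [he1, he2, hq3, hx] at e1
    apply mul_left_cancel₀ h2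
    linear_combination e1
  have hξe : ξ e = 0 := by
    have e1 := hNq e b1
    rw [he1, he2, hβe] at e1
    have : (2 * 2 * κ x b1 q) * ξ e = 0 := by linear_combination e1
    exact (mul_eq_zero.mp this).resolve_left (mul_ne_zero (mul_ne_zero h2 h2) hb1)
  -- `ξ y ≠ 0`
  have hξy : ξ y ≠ 0 := by
    intro hy
    -- `b* = b1 - ξ b1 x`
    set b : V := b1 - ξ b1 • x with hb
    have hξb : ξ b = 0 := by
      rw [hb, map_sub, map_smul, hx, smul_eq_mul, mul_one, sub_self]
    have hβb : κ x b q ≠ 0 := by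
      rw [hb, map_sub, map_smul, LinearMap.sub_apply, LinearMap.smul_apply, hq3, smul_zero,
        sub_zero]
      exact hb1
    have y1 := hNq y b
    have y2 := hNq y x
    rw [K2, hy] at y1 y2
    have c1 := hNq x b
    have c2 := hNq x x
    have c3 := hNq b b
    have c4 := hNq b x
    rw [hq3, hξb, hx] at c1
    rw [hq3, hx] at c2
    rw [hξb] at c3
    rw [hq3, hξb, hx] at c4
    -- the 2 × 2 determinant of `Ψ` vanishes
    have hdet : Ψ1 b q * Ψ2 x q - Ψ1 x q * Ψ2 b q = 0 := by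
      by_cases hy1 : n1 y = 0
      · have hy2 : n2 y ≠ 0 := fun h => hny ⟨hy1, h⟩
        apply mul_left_cancel₀ hy2
        rw [hy1] at y1 y2
        linear_combination (Ψ1 b q) * y2 - (Ψ1 x q) * y1
      · apply mul_left_cancel₀ hy1
        linear_combination (Ψ2 x q) * y1 - (Ψ2 b q) * y2
    have : (2 * 2 * 2) * (κ x b q * κ x b q) = 0 := by
      have e1 : (n1 x * Ψ1 b q + n2 x * Ψ2 b q) * (n1 b * Ψ1 x q + n2 b * Ψ2 x q) -
          (n1 x * Ψ1 x q + n2 x * Ψ2 x q) * (n1 b * Ψ1 b q + n2 b * Ψ2 b q) = 0 := by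
        linear_combination (n1 x * n2 b - n2 x * n1 b) * hdet
      rw [c1, c2, c3, c4] at e1
      linear_combination e1
    rcases mul_eq_zero.mp this with h | h
    · exact mul_ne_zero (mul_ne_zero h2 h2) h2 h
    · exact mul_ne_zero hβb hβb h
  -- `s` with `D e s ≠ 0`
  have hey : ∀ c : F, e ≠ c • y := by
    intro c hc
    rw [hc, map_smul, smul_eq_mul] at he1 he2
    by_cases hc0 : c = 0
    · apply he0
      rw [hc, hc0, zero_smul]
    · exact hny ⟨(mul_eq_zero.mp he1).resolve_left hc0, (mul_eq_zero.mp he2).resolve_left hc0⟩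
  obtain ⟨s, hs⟩ : ∃ s, κ y e (m y s) - κ y s (m y e) ≠ 0 := by
    by_contra hcon
    push Not at hcon
    obtain ⟨c, hc⟩ := hD e hcon
    exact hey c hc
  have hγye : ∀ h, γ (m y e) h = 0 := by
    intro h
    rw [hm, hNe, K2, mul_zero]
  -- `w = Ψ (e, m y y)`
  have w1 : n1 y * Ψ1 e (m y y) + n2 y * Ψ2 e (m y y) = 0 := by
    rw [← hN, hγye, K1]
    ring
  have w2 : n1 s * Ψ1 e (m y y) + n2 s * Ψ2 e (m y y) ≠ 0 := by
    rw [← hN, hm s e, hNe, K1p y e s, K1p y s e]
    intro h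
    apply hs
    have h4 : (2 : F) * 2 ≠ 0 := mul_ne_zero h2 h2
    apply mul_left_cancel₀ h4
    linear_combination h
  have w3 : ∀ q', μ1 q' * Ψ1 e (m y y) + μ2 q' * Ψ2 e (m y y) = 0 := by
    intro q'
    rw [← hM, hξe, hct, map_add, LinearMap.add_apply, map_smul, LinearMap.smul_apply, K2]
    simp
  have hA : ∀ q', ∃ A : F, μ1 q' = A * n1 y ∧ μ2 q' = A * n2 y := by
    intro q'
    have e3 := w3 q'
    set a1 := Ψ1 e (m y y)
    set a2 := Ψ2 e (m y y)
    have hne : ¬ (a1 = 0 ∧ a2 = 0) := by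
      rintro ⟨h1, h2'⟩
      apply w2
      rw [h1, h2']
      ring
    by_cases hy1 : n1 y = 0
    · have hy2 : n2 y ≠ 0 := fun h => hny ⟨hy1, h⟩
      rw [hy1, zero_mul, zero_add] at w1
      have hz2 : a2 = 0 := (mul_eq_zero.mp w1).resolve_left hy2
      have hz1 : a1 ≠ 0 := fun h => hne ⟨h, hz2⟩
      rw [hz2, mul_zero, add_zero] at e3
      have hc1 : μ1 q' = 0 := (mul_eq_zero.mp e3).resolve_right hz1
      exact ⟨μ2 q' / n2 y, by rw [hc1, hy1, mul_zero], by field_simp⟩
    · refine ⟨μ1 q' / n1 y, by field_simp, ?_⟩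
      have hz2 : a2 ≠ 0 := by
        intro h
        rw [h, mul_zero, add_zero] at w1
        exact hne ⟨(mul_eq_zero.mp w1).resolve_left hy1, h⟩
      have h' : μ2 q' * n1 y = μ1 q' * n2 y := by
        apply mul_left_cancel₀ hz2
        linear_combination (n1 y) * e3 - (μ1 q') * w1
      rw [div_mul_eq_mul_div, eq_div_iff hy1, h']
  have hMA : ∀ q', ∃ A : F, ∀ b h, ξ b * γ h q' + 2 * κ b (ct h) q' =
      A * (γ (m y b) h - 2 * κ y b h) := by
    intro q'
    obtain ⟨A, hA1, hA2⟩ := hA q'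
    refine ⟨A, fun b h => ?_⟩
    rw [hM, hN, hA1, hA2]
    ring
  have g1 : ∀ q', κ y e q' = 0 := by
    intro q'
    obtain ⟨A, hA⟩ := hMA q'
    have e1 := hA y (m y e)
    rw [hγ (m y y) (m y e), hγye, hγye, hct, hξe, K2 y (m y e)] at e1
    simp only [map_add, map_smul, LinearMap.add_apply, LinearMap.smul_apply, smul_eq_mul] at e1
    have : (2 * ξ y) * κ y e q' = 0 := by linear_combination e1
    exact (mul_eq_zero.mp this).resolve_left (mul_ne_zero h2 hξy)
  have g2 : ∀ q', κ e s q' = 0 := by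
    intro q'
    obtain ⟨A, hA⟩ := hMA q'
    have e1 := hA e (m y s)
    rw [hγye, hct, hξe, g1] at e1
    simp only [map_add, map_smul, LinearMap.add_apply, LinearMap.smul_apply, smul_eq_mul, K2] at e1
    have : (2 * ξ y) * κ e s q' = 0 := by linear_combination e1
    exact (mul_eq_zero.mp this).resolve_left (mul_ne_zero h2 hξy)
  apply hs
  have e1 := K1p y e s
  rw [g2] at e1
  rw [g1]
  apply mul_left_cancel₀ h2
  linear_combination -e1

end core

section K5

variable {F : Type u} [Field F]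

theorem C5P2_inU_of (lam : List (Fin 3) → F) (k : Matrix (Fin 3) (Fin 3) F) (t : F)
    (hs : ∀ a b, k a b = k b a)
    (g0 : ∀ a b c, ∑ i, ∑ j, k i j * lam [i, j, a, b, c] = t * det3 F [a, b, c])
    (g1 : ∀ a b c, ∑ i, ∑ j, k i j * lam [a, i, j, b, c] = - (t * det3 F [a, b, c]))
    (g2 : ∀ a b c, ∑ i, ∑ j, k i j * lam [a, b, i, j, c] = t * det3 F [a, b, c])
    (g3 : ∀ a b c, ∑ i, ∑ j, k i j * lam [a, b, c, i, j] = - (t * det3 F [a, b, c])) :
    InU lam k t := by
  refine ⟨hs, fun p q hpq => ?_⟩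
  match p, q, hpq with
  | [], [a, b, c], _ => simpa [kval] using g0 a b c
  | [a], [b, c], _ => simpa [kval] using g1 a b c
  | [a, b], [c], _ => simpa [kval] using g2 a b c
  | [a, b, c], [], _ => simpa [kval, pow_succ] using g3 a b c
  | [], [], h => simp at h
  | [], [_], h => simp at h
  | [], [_, _], h => simp at h
  | [], _ :: _ :: _ :: _ :: _, h => simp at h
  | [_], [], h => simp at h
  | [_], [_], h => simp at h
  | [_], _ :: _ :: _ :: _, h => simp at h; omega
  | [_, _], [], h => simp at h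
  | [_, _], _ :: _ :: _, h => simp at h; omega
  | [_, _, _], _ :: _, h => simp at h
  | _ :: _ :: _ :: _ :: _, _, h => simp at h; omega

/-- an alternating function on three letters is a multiple of `det3` -/
theorem C5P2_alt3 (h2 : (2 : F) ≠ 0) (g : Fin 3 → Fin 3 → Fin 3 → F)
    (h12 : ∀ a b c, g a b c = - g b a c) (h13 : ∀ a b c, g a b c = - g c b a) (a b c : Fin 3) :
    g a b c = g 0 1 2 * det3 F [a, b, c] := by
  have z12 : ∀ a c, g a a c = 0 := fun a c => by
    have : (2 : F) * g a a c = 0 := by linear_combination h12 a a c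
    exact (mul_eq_zero.mp this).resolve_left h2
  have z13 : ∀ a b, g a b a = 0 := fun a b => by
    have : (2 : F) * g a b a = 0 := by linear_combination h13 a b a
    exact (mul_eq_zero.mp this).resolve_left h2
  have z23 : ∀ a b, g a b b = 0 := fun a b => by
    rw [h13, z12, neg_zero]
  have e1 : g 1 0 2 = - g 0 1 2 := h12 1 0 2
  have e2 : g 2 1 0 = - g 0 1 2 := h13 2 1 0
  have e3 : g 1 2 0 = g 0 1 2 := by rw [h12, e2, neg_neg]
  have e4 : g 2 0 1 = g 0 1 2 := by rw [h13, e1, neg_neg]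
  have e5 : g 0 2 1 = - g 0 1 2 := by rw [h12, e4]
  fin_cases a <;> fin_cases b <;> fin_cases c <;>
    simp [det3, z12, z23, z13, e1, e2, e3, e4, e5]

/-- the criterion for a quadratic relation -/
theorem C5P2_K5 (h2 : (2 : F) ≠ 0) (lam : List (Fin 3) → F)
    (rev : ∀ i j k l m, lam [i, j, k, l, m] = lam [m, l, k, j, i])
    (σ : Fin 3 → Fin 3 → Fin 3 → Fin 3 → F) (hσ : ∀ a b c d, σ a b c d = σ d c b a)
    (ξ : Fin 3 → F)
    (R : ∀ i a b c d, lam [i, a, b, c, d] + lam [a, b, c, d, i] = 2 * (ξ i * σ a b c d))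
    (q : Matrix (Fin 3) (Fin 3) F) (hs : ∀ a b, q a b = q b a)
    (hκ : ∀ i j, ∑ k, ∑ l, q k l * (σ j i k l + σ j i l k - σ j k l i - σ j l k i) = 0)
    (hγ : ∀ i j, ∑ k, ∑ l, q k l * (σ i j k l + σ i j l k + σ j i k l + σ j i l k) = 0)
    (hMM : ∀ i m n, ∑ k, ∑ l, q k l * (lam [m, n, i, k, l] + lam [m, n, l, k, i] +
      lam [n, m, i, k, l] + lam [n, m, l, k, i] + lam [m, n, i, l, k] + lam [m, n, k, l, i] +
      lam [n, m, i, l, k] + lam [n, m, k, l, i]) = 0) :
    ∃ t, InU lam q t := by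
  have swap : ∀ f : Fin 3 → Fin 3 → F, ∑ k, ∑ l, q k l * f l k = ∑ k, ∑ l, q k l * f k l := by
    intro f
    rw [Finset.sum_comm]
    refine Finset.sum_congr rfl fun k _ => Finset.sum_congr rfl fun l _ => ?_
    rw [hs]
  set A : Fin 3 → Fin 3 → F := fun a b => ∑ k, ∑ l, q k l * σ a b k l with hA
  set B : Fin 3 → Fin 3 → F := fun a b => ∑ k, ∑ l, q k l * σ a k l b with hB
  have kA : ∀ i j, 2 * (A j i - B j i) = 0 := by
    intro i j
    have e := hκ i j
    simp only [mul_sub, mul_add, Finset.sum_sub_distrib, Finset.sum_add_distrib] at e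
    rw [swap (fun k l => σ j i k l), swap (fun k l => σ j k l i)] at e
    simp only [hA, hB]
    linear_combination e
  have kB : ∀ i j, 2 * (A i j + A j i) = 0 := by
    intro i j
    have e := hγ i j
    simp only [mul_add, Finset.sum_add_distrib] at e
    rw [swap (fun k l => σ i j k l), swap (fun k l => σ j i k l)] at e
    simp only [hA]
    linear_combination e
  have kC : ∀ i j, B i j = B j i := by
    intro i j
    simp only [hB]
    rw [← swap (fun k l => σ j k l i)]
    refine Finset.sum_congr rfl fun k _ => Finset.sum_congr rfl fun l _ => ?_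
    show q k l * σ i k l j = q k l * σ j l k i
    rw [hσ]
  have hA0 : ∀ i j, A i j = 0 := by
    intro i j
    have e1 := (mul_eq_zero.mp (kA i j)).resolve_left h2
    have e2 := (mul_eq_zero.mp (kA j i)).resolve_left h2
    have e3 := (mul_eq_zero.mp (kB i j)).resolve_left h2
    have e4 := kC i j
    have : (2 : F) * A i j = 0 := by linear_combination e2 - e1 + e3 + e4
    exact (mul_eq_zero.mp this).resolve_left h2
  have hB0 : ∀ i j, B i j = 0 := by
    intro i j
    have e2 := (mul_eq_zero.mp (kA j i)).resolve_left h2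
    rw [hA0] at e2
    linear_combination -e2
  set g0 : Fin 3 → Fin 3 → Fin 3 → F := fun a b c => ∑ k, ∑ l, q k l * lam [k, l, a, b, c]
    with hg0
  set g1 : Fin 3 → Fin 3 → Fin 3 → F := fun a b c => ∑ k, ∑ l, q k l * lam [a, k, l, b, c]
    with hg1
  set g2 : Fin 3 → Fin 3 → Fin 3 → F := fun a b c => ∑ k, ∑ l, q k l * lam [a, b, k, l, c]
    with hg2
  set g3 : Fin 3 → Fin 3 → Fin 3 → F := fun a b c => ∑ k, ∑ l, q k l * lam [a, b, c, k, l]
    with hg3
  have r1 : ∀ a b c, g1 a b c = - g0 b c a := by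
    intro a b c
    have e : g1 a b c + g0 b c a = 2 * ξ a * A c b := by
      simp only [hg1, hg0, hA]
      rw [← swap (fun k l => σ c b k l), ← Finset.sum_add_distrib, Finset.mul_sum]
      refine Finset.sum_congr rfl fun k _ => ?_
      rw [← Finset.sum_add_distrib, Finset.mul_sum]
      refine Finset.sum_congr rfl fun l _ => ?_
      have e1 := R a k l b c
      rw [hσ k l b c] at e1
      linear_combination (q k l) * e1
    rw [hA0] at e
    linear_combination e
  have r2 : ∀ a b c, g2 a b c = g0 c a b := by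
    intro a b c
    have e : g2 a b c + g1 b c a = 2 * ξ a * B b c := by
      simp only [hg1, hg2, hB]
      rw [← Finset.sum_add_distrib, Finset.mul_sum]
      refine Finset.sum_congr rfl fun k _ => ?_
      rw [← Finset.sum_add_distrib, Finset.mul_sum]
      refine Finset.sum_congr rfl fun l _ => ?_
      have e1 := R a b k l c
      linear_combination (q k l) * e1
    rw [hB0, r1] at e
    linear_combination e
  have r3 : ∀ a b c, g3 a b c = - g0 a b c := by
    intro a b c
    have e : g3 a b c + g2 b c a = 2 * ξ a * A b c := by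
      simp only [hg3, hg2, hA]
      rw [← Finset.sum_add_distrib, Finset.mul_sum]
      refine Finset.sum_congr rfl fun k _ => ?_
      rw [← Finset.sum_add_distrib, Finset.mul_sum]
      refine Finset.sum_congr rfl fun l _ => ?_
      have e1 := R a b c k l
      linear_combination (q k l) * e1
    rw [hA0, r2] at e
    linear_combination e
  have r4 : ∀ a b c, g3 a b c = g0 c b a := by
    intro a b c
    simp only [hg3, hg0]
    rw [← swap (fun k l => lam [k, l, c, b, a])]
    refine Finset.sum_congr rfl fun k _ => Finset.sum_congr rfl fun l _ => ?_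
    rw [rev a b c k l]
  have h13 : ∀ a b c, g0 a b c = - g0 c b a := by
    intro a b c
    rw [← r4, r3]
  have h12 : ∀ a b c, g0 a b c = - g0 b a c := by
    intro m n i
    have e := hMM i m n
    simp only [mul_add, Finset.sum_add_distrib] at e
    rw [swap (fun k l => lam [m, n, k, l, i]), swap (fun k l => lam [n, m, k, l, i]),
      swap (fun k l => lam [m, n, i, k, l]), swap (fun k l => lam [n, m, i, k, l])] at e
    have e' : 2 * (g3 m n i + g2 m n i + g3 n m i + g2 n m i) = 0 := by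
      simp only [hg3, hg2]
      linear_combination e
    have e'' := (mul_eq_zero.mp e').resolve_left h2
    rw [r3, r2, r3, r2, h13 i m n, h13 i n m] at e''
    have : (2 : F) * (g0 m n i + g0 n m i) = 0 := by linear_combination -e''
    linear_combination (mul_eq_zero.mp this).resolve_left h2
  have alt := C5P2_alt3 h2 g0 h12 h13
  have cyc : ∀ a b c, g0 b c a = g0 a b c := by
    intro a b c
    rw [h12 b c a, h13 c b a, neg_neg]
  refine ⟨g0 0 1 2, C5P2_inU_of lam q _ hs (fun a b c => ?_) (fun a b c => ?_) (fun a b c => ?_)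
    (fun a b c => ?_)⟩
  · exact alt a b c
  · show g1 a b c = _
    rw [r1, cyc, alt]
  · show g2 a b c = _
    rw [r2, ← cyc, alt]
  · show g3 a b c = _
    rw [r3, alt]

end K5

section vec

variable {F : Type u} [Field F]

theorem C5P2_ext1 (f : (Fin 3 → F) → F) (hf : IsLinearMap F f)
    (h : ∀ i, f (Pi.single i 1) = 0) (v : Fin 3 → F) : f v = 0 := by
  have : hf.mk' f = 0 := by
    refine LinearMap.pi_ext' fun i => LinearMap.ext_ring ?_
    simpa using h i
  have h2 := LinearMap.congr_fun this v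
  simpa using h2

theorem C5P2_extW (f : (Fin 3 → Fin 3 → F) → F) (hf : IsLinearMap F f)
    (h : ∀ k l, f (Pi.single k (Pi.single l 1)) = 0) (v : Fin 3 → Fin 3 → F) : f v = 0 := by
  have : hf.mk' f = 0 := by
    refine LinearMap.pi_ext' fun k => LinearMap.pi_ext' fun l => LinearMap.ext_ring ?_
    simpa using h k l
  have h2 := LinearMap.congr_fun this v
  simpa using h2

/-- a coordinate followed by `x` -/
def C5P2_pr {M : Type w} [AddCommGroup M] [Module F M] (x : Fin 3 → M) :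
    (Fin 3 → F) →ₗ[F] M :=
  ∑ i, (LinearMap.proj i : (Fin 3 → F) →ₗ[F] F).smulRight (x i)

theorem C5P2_pr_apply {M : Type w} [AddCommGroup M] [Module F M] (x : Fin 3 → M)
    (v : Fin 3 → F) : C5P2_pr (F := F) x v = ∑ i, v i • x i := by
  simp [C5P2_pr, LinearMap.sum_apply]

theorem C5P2_pr_single {M : Type w} [AddCommGroup M] [Module F M] (x : Fin 3 → M) (i : Fin 3) :
    C5P2_pr (F := F) x (Pi.single i 1) = x i := by
  simp [C5P2_pr, LinearMap.sum_apply, Pi.single_apply]

/-- an entry followed by `x` -/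
def C5P2_prW {M : Type w} [AddCommGroup M] [Module F M] (x : Fin 3 → Fin 3 → M) :
    (Fin 3 → Fin 3 → F) →ₗ[F] M :=
  ∑ k, (C5P2_pr (x k)) ∘ₗ (LinearMap.proj k : (Fin 3 → Fin 3 → F) →ₗ[F] (Fin 3 → F))

theorem C5P2_prW_apply {M : Type w} [AddCommGroup M] [Module F M] (x : Fin 3 → Fin 3 → M)
    (h : Fin 3 → Fin 3 → F) : C5P2_prW (F := F) x h = ∑ k, ∑ l, h k l • x k l := by
  simp [C5P2_prW, LinearMap.sum_apply, C5P2_pr_apply]

theorem C5P2_prW_single {M : Type w} [AddCommGroup M] [Module F M] (x : Fin 3 → Fin 3 → M)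
    (k l : Fin 3) : C5P2_prW (F := F) x (Pi.single k (Pi.single l 1)) = x k l := by
  rw [C5P2_prW_apply]
  rw [Finset.sum_eq_single k, Finset.sum_eq_single l]
  · simp
  · intro b _ hb
    simp [hb]
  · simp
  · intro b _ hb
    simp [hb]
  · simp



theorem C5P2_E_apply (i j k l : Fin 3) : ((Pi.single i (Pi.single j (1 : F)) : Fin 3 → Fin 3 → F)) k l = ((Pi.single i (1 : F) : Fin 3 → F)) k * ((Pi.single j (1 : F) : Fin 3 → F)) l := by
  by_cases h : k = i
  · subst h
    simp
  · simp [h]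




theorem C5P2_cross (y s : Fin 3 → F) (i0 : Fin 3) (hi0 : y i0 ≠ 0)
    (c0 : y 1 * s 2 = y 2 * s 1) (c1 : y 2 * s 0 = y 0 * s 2) (c2 : y 0 * s 1 = y 1 * s 0) :
    ∃ c : F, s = c • y := by
  have hsy : ∀ j, s j * y i0 = s i0 * y j := by
    intro j
    clear hi0
    fin_cases i0 <;> fin_cases j <;> simp only [Fin.zero_eta, Fin.mk_one, Fin.reduceFinMk]
    · linear_combination c2
    · linear_combination -c1
    · linear_combination -c2
    · linear_combination c0
    · linear_combination c1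
    · linear_combination -c0
  refine ⟨s i0 / y i0, ?_⟩
  funext j
  rw [Pi.smul_apply, smul_eq_mul, div_mul_eq_mul_div, eq_div_iff hi0, hsy]

theorem C5P2_det : ∃ Δ : (Fin 3 → F) →ₗ[F] (Fin 3 → F) →ₗ[F] (Fin 3 → F) →ₗ[F] F,
    (∀ i j k, Δ ((Pi.single i (1 : F) : Fin 3 → F)) ((Pi.single j (1 : F) : Fin 3 → F)) ((Pi.single k (1 : F) : Fin 3 → F)) = det3 F [i, j, k]) ∧
    (∀ a b c, Δ a b c + Δ a c b = 0) ∧
    (∀ (y s : Fin 3 → F) (i0 : Fin 3), y i0 ≠ 0 → (∀ u, Δ y s u = 0) → ∃ c : F, s = c • y) := by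
  let Δ : (Fin 3 → F) →ₗ[F] (Fin 3 → F) →ₗ[F] (Fin 3 → F) →ₗ[F] F :=
    C5P2_pr fun i => C5P2_pr fun j => C5P2_pr fun k => det3 F [i, j, k]
  have hΔ : ∀ a b c, Δ a b c = a 0 * (b 1 * c 2 - b 2 * c 1) + a 1 * (b 2 * c 0 - b 0 * c 2) +
      a 2 * (b 0 * c 1 - b 1 * c 0) := by
    intro a b c
    simp only [Δ, C5P2_pr_apply, Fin.sum_univ_three, LinearMap.add_apply, LinearMap.smul_apply,
      smul_eq_mul]
    simp [det3]
    ring
  refine ⟨Δ, fun i j k => by simp only [Δ, C5P2_pr_single], fun a b c => ?_,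
    fun y s i0 hi0 hs => ?_⟩
  · rw [hΔ, hΔ]
    ring
  · have c0 := hs ((Pi.single 0 (1 : F) : Fin 3 → F))
    have c1 := hs ((Pi.single 1 (1 : F) : Fin 3 → F))
    have c2 := hs ((Pi.single 2 (1 : F) : Fin 3 → F))
    rw [hΔ] at c0 c1 c2
    simp at c0 c1 c2
    exact C5P2_cross y s i0 hi0 (by linear_combination c0) (by linear_combination c1)
      (by linear_combination c2)

theorem C5P2_mct (h2 : (2 : F) ≠ 0) (ξ : Fin 3 → F) (ξL : (Fin 3 → F) →ₗ[F] F)
    (hξL : ∀ i, ξL ((Pi.single i (1 : F) : Fin 3 → F)) = ξ i) :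
    ∃ (m : (Fin 3 → F) →ₗ[F] (Fin 3 → F) →ₗ[F] (Fin 3 → Fin 3 → F))
      (ct : (Fin 3 → Fin 3 → F) →ₗ[F] (Fin 3 → F)),
      (∀ i j, m ((Pi.single i (1 : F) : Fin 3 → F)) ((Pi.single j (1 : F) : Fin 3 → F)) = ((Pi.single i (Pi.single j (1 : F)) : Fin 3 → Fin 3 → F)) + ((Pi.single j (Pi.single i (1 : F)) : Fin 3 → Fin 3 → F))) ∧
      (∀ v w, m v w = m w v) ∧
      (∀ k l, ct ((Pi.single k (Pi.single l (1 : F)) : Fin 3 → Fin 3 → F)) = (2 : F)⁻¹ • (ξ k • ((Pi.single l (1 : F) : Fin 3 → F)) + ξ l • ((Pi.single k (1 : F) : Fin 3 → F)))) ∧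
      (∀ v w, ct (m v w) = ξL v • w + ξL w • v) := by
  obtain ⟨m, hm⟩ : ∃ m : (Fin 3 → F) →ₗ[F] (Fin 3 → F) →ₗ[F] (Fin 3 → Fin 3 → F),
      ∀ v w k l, m v w k l = v k * w l + w k * v l :=
    ⟨LinearMap.mk₂ F (fun v w k l => v k * w l + w k * v l)
      (fun v v' w => by funext k l; simp; ring)
      (fun c v w => by funext k l; simp; ring)
      (fun v w w' => by funext k l; simp; ring)
      (fun c v w => by funext k l; simp; ring), fun v w k l => rfl⟩
  have hmE : ∀ i j, m ((Pi.single i (1 : F) : Fin 3 → F)) ((Pi.single j (1 : F) : Fin 3 → F)) = ((Pi.single i (Pi.single j (1 : F)) : Fin 3 → Fin 3 → F)) + ((Pi.single j (Pi.single i (1 : F)) : Fin 3 → Fin 3 → F)) := by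
    intro i j
    funext k l
    rw [hm, Pi.add_apply, Pi.add_apply, C5P2_E_apply, C5P2_E_apply]
  obtain ⟨ct, hct⟩ : ∃ ct : (Fin 3 → Fin 3 → F) →ₗ[F] (Fin 3 → F),
      ∀ k l, ct ((Pi.single k (Pi.single l (1 : F)) : Fin 3 → Fin 3 → F)) = (2 : F)⁻¹ • (ξ k • ((Pi.single l (1 : F) : Fin 3 → F)) + ξ l • ((Pi.single k (1 : F) : Fin 3 → F))) :=
    ⟨C5P2_prW fun k l => (2 : F)⁻¹ • (ξ k • ((Pi.single l (1 : F) : Fin 3 → F)) + ξ l • ((Pi.single k (1 : F) : Fin 3 → F))),
      fun k l => C5P2_prW_single _ _ _⟩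
  refine ⟨m, ct, hmE, fun v w => ?_, hct, fun v w => ?_⟩
  · funext k l
    rw [hm, hm]
    ring
  · funext c
    have : ∀ v w, ct (m v w) c - (ξL v * w c + ξL w * v c) = 0 := by
      intro v w
      revert v
      refine C5P2_ext1 _ ?_ ?_
      · exact ⟨fun x y => by simp only [map_add, LinearMap.add_apply, Pi.add_apply] <;> ring,
          fun c x => by
            simp only [map_smul, LinearMap.smul_apply, Pi.smul_apply, smul_eq_mul] <;> ring⟩
      intro i
      revert w
      refine C5P2_ext1 _ ?_ ?_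
      · exact ⟨fun x y => by simp only [map_add, LinearMap.add_apply, Pi.add_apply] <;> ring,
          fun c x => by
            simp only [map_smul, LinearMap.smul_apply, Pi.smul_apply, smul_eq_mul] <;> ring⟩
      intro j
      rw [hmE, map_add, hct, hct, hξL, hξL]
      simp only [Pi.add_apply, Pi.smul_apply, smul_eq_mul]
      have h22 : (2 : F)⁻¹ * 2 = 1 := inv_mul_cancel₀ h2
      linear_combination (ξ i * ((Pi.single j (1 : F) : Fin 3 → F)) c + ξ j * ((Pi.single i (1 : F) : Fin 3 → F)) c) * h22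
    exact sub_eq_zero.mp (this v w)

/-- the relation T at the level of letters -/
theorem C5P2_T0 (h2 : (2 : F) ≠ 0) (lam : List (Fin 3) → F)
    (rev : ∀ i j k l m, lam [i, j, k, l, m] = lam [m, l, k, j, i])
    (σ : Fin 3 → Fin 3 → Fin 3 → Fin 3 → F) (ξ : Fin 3 → F)
    (R : ∀ i a b c d, lam [i, a, b, c, d] + lam [a, b, c, d, i] = 2 * (ξ i * σ a b c d))
    (f : Matrix (Fin 3) (Fin 3) F) (t : F) (hf : InU lam f t) (a b c : Fin 3) :
    ∑ j, (∑ i, f i j * ξ i) * σ j a b c - ∑ j, (∑ i, f i j * ξ i) * σ j c b a =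
      t * det3 F [a, b, c] := by
  have q1 : ∑ i, ∑ j, f i j * lam [i, j, a, b, c] = t * det3 F [a, b, c] := by
    have := hf.rel [] [a, b, c] rfl
    simpa [kval] using this
  have q2 : ∑ i, ∑ j, f i j * lam [i, j, c, b, a] = t * det3 F [c, b, a] := by
    have := hf.rel [] [c, b, a] rfl
    simpa [kval] using this
  have q3 : ∑ i, ∑ j, f i j * lam [j, c, b, a, i] = ∑ i, ∑ j, f i j * lam [j, a, b, c, i] := by
    rw [Finset.sum_comm]
    refine Finset.sum_congr rfl fun j _ => Finset.sum_congr rfl fun i _ => ?_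
    rw [rev, hf.symm i j]
  have q4 : ∀ a b c, 2 * ∑ j, (∑ i, f i j * ξ i) * σ j a b c =
      ∑ i, ∑ j, f i j * lam [i, j, a, b, c] + ∑ i, ∑ j, f i j * lam [j, a, b, c, i] := by
    intro a b c
    rw [← Finset.sum_add_distrib]
    simp only [← Finset.sum_add_distrib, Finset.sum_mul, Finset.mul_sum]
    rw [Finset.sum_comm]
    refine Finset.sum_congr rfl fun i _ => Finset.sum_congr rfl fun j _ => ?_
    have := R i j a b c
    linear_combination (-(f i j)) * this
  have d1 : det3 F [c, b, a] = - det3 F [a, b, c] := by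
    fin_cases a <;> fin_cases b <;> fin_cases c <;> simp [det3]
  have e1 := q4 a b c
  have e2 := q4 c b a
  rw [q1] at e1
  rw [q2, q3, d1] at e2
  apply mul_left_cancel₀ h2
  linear_combination e1 - e2

theorem C5P2_KS (h2 : (2 : F) ≠ 0) (σ : Fin 3 → Fin 3 → Fin 3 → Fin 3 → F)
    (hσ : ∀ a b c d, σ a b c d = σ d c b a)
    (m : (Fin 3 → F) →ₗ[F] (Fin 3 → F) →ₗ[F] (Fin 3 → Fin 3 → F))
    (hmE : ∀ i j, m ((Pi.single i (1 : F) : Fin 3 → F)) ((Pi.single j (1 : F) : Fin 3 → F)) = ((Pi.single i (Pi.single j (1 : F)) : Fin 3 → Fin 3 → F)) + ((Pi.single j (Pi.single i (1 : F)) : Fin 3 → Fin 3 → F)))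
    (κ : (Fin 3 → F) →ₗ[F] (Fin 3 → F) →ₗ[F] (Fin 3 → Fin 3 → F) →ₗ[F] F)
    (hκ : ∀ i j k l, κ ((Pi.single i (1 : F) : Fin 3 → F)) ((Pi.single j (1 : F) : Fin 3 → F)) ((Pi.single k (Pi.single l (1 : F)) : Fin 3 → Fin 3 → F)) =
      4⁻¹ * (σ j i k l + σ j i l k - σ j k l i - σ j l k i))
    (y : Fin 3 → F) (t : F)
    (T0 : ∀ a b c, ∑ j, y j * σ j a b c - ∑ j, y j * σ j c b a = t * det3 F [a, b, c])
    (Δ : (Fin 3 → F) →ₗ[F] (Fin 3 → F) →ₗ[F] (Fin 3 → F) →ₗ[F] F)
    (hΔ : ∀ i j k, Δ ((Pi.single i (1 : F) : Fin 3 → F)) ((Pi.single j (1 : F) : Fin 3 → F)) ((Pi.single k (1 : F) : Fin 3 → F)) = det3 F [i, j, k])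
    (Δ23 : ∀ a b c, Δ a b c + Δ a c b = 0) :
    (∀ v h, κ v y h = 0) ∧ (∀ v b, κ v b (m v v) = 0) ∧
      ∀ s u, κ y s (m y u) - κ y u (m y s) = t * Δ y s u := by
  obtain ⟨σ4, hσ4⟩ : ∃ σ4 : (Fin 3 → F) →ₗ[F] (Fin 3 → F) →ₗ[F] (Fin 3 → F) →ₗ[F]
      (Fin 3 → F) →ₗ[F] F, ∀ i j k l, σ4 ((Pi.single i (1 : F) : Fin 3 → F)) ((Pi.single j (1 : F) : Fin 3 → F)) ((Pi.single k (1 : F) : Fin 3 → F)) ((Pi.single l (1 : F) : Fin 3 → F)) = σ i j k l :=
    ⟨C5P2_pr fun i => C5P2_pr fun j => C5P2_pr fun k => C5P2_pr fun l => σ i j k l,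
      fun i j k l => by simp only [C5P2_pr_single]⟩
  have σrev : ∀ a b c d, σ4 a b c d - σ4 d c b a = 0 := by
    intro a b c d
    revert a
    refine C5P2_ext1 _ ?_ ?_
    · exact ⟨fun x y => by simp only [map_add, LinearMap.add_apply, Pi.add_apply] <;> ring,
        fun c x => by
          simp only [map_smul, LinearMap.smul_apply, Pi.smul_apply, smul_eq_mul] <;> ring⟩
    intro i
    revert b
    refine C5P2_ext1 _ ?_ ?_
    · exact ⟨fun x y => by simp only [map_add, LinearMap.add_apply, Pi.add_apply] <;> ring,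
        fun c x => by
          simp only [map_smul, LinearMap.smul_apply, Pi.smul_apply, smul_eq_mul] <;> ring⟩
    intro j
    revert c
    refine C5P2_ext1 _ ?_ ?_
    · exact ⟨fun x y => by simp only [map_add, LinearMap.add_apply, Pi.add_apply] <;> ring,
        fun c x => by
          simp only [map_smul, LinearMap.smul_apply, Pi.smul_apply, smul_eq_mul] <;> ring⟩
    intro k
    revert d
    refine C5P2_ext1 _ ?_ ?_
    · exact ⟨fun x y => by simp only [map_add, LinearMap.add_apply, Pi.add_apply] <;> ring,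
        fun c x => by
          simp only [map_smul, LinearMap.smul_apply, Pi.smul_apply, smul_eq_mul] <;> ring⟩
    intro l
    rw [hσ4, hσ4, hσ i j k l, sub_self]
  have KS : ∀ v b u w, κ v b (m u w) - 2⁻¹ * (σ4 b v u w + σ4 b v w u - σ4 b u w v -
      σ4 b w u v) = 0 := by
    intro v b u w
    revert v
    refine C5P2_ext1 _ ?_ ?_
    · exact ⟨fun x y => by simp only [map_add, LinearMap.add_apply, Pi.add_apply] <;> ring,
        fun c x => by
          simp only [map_smul, LinearMap.smul_apply, Pi.smul_apply, smul_eq_mul] <;> ring⟩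
    intro i
    revert b
    refine C5P2_ext1 _ ?_ ?_
    · exact ⟨fun x y => by simp only [map_add, LinearMap.add_apply, Pi.add_apply] <;> ring,
        fun c x => by
          simp only [map_smul, LinearMap.smul_apply, Pi.smul_apply, smul_eq_mul] <;> ring⟩
    intro j
    revert u
    refine C5P2_ext1 _ ?_ ?_
    · exact ⟨fun x y => by simp only [map_add, LinearMap.add_apply, Pi.add_apply] <;> ring,
        fun c x => by
          simp only [map_smul, LinearMap.smul_apply, Pi.smul_apply, smul_eq_mul] <;> ring⟩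
    intro k
    revert w
    refine C5P2_ext1 _ ?_ ?_
    · exact ⟨fun x y => by simp only [map_add, LinearMap.add_apply, Pi.add_apply] <;> ring,
        fun c x => by
          simp only [map_smul, LinearMap.smul_apply, Pi.smul_apply, smul_eq_mul] <;> ring⟩
    intro l
    simp only [hmE, map_add, hκ, hσ4]
    have : (2 : F)⁻¹ = 2 * 4⁻¹ := by
      have h4 : (4 : F) ≠ 0 := by
        have : (4 : F) = 2 * 2 := by norm_num
        rw [this]
        exact mul_ne_zero h2 h2
      field_simp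
      norm_num
    rw [this]
    ring
  -- the relation T for vectors
  have yσ : ∀ a b c, σ4 y ((Pi.single a (1 : F) : Fin 3 → F)) ((Pi.single b (1 : F) : Fin 3 → F)) ((Pi.single c (1 : F) : Fin 3 → F)) = ∑ j, y j * σ j a b c := by
    intro a b c
    have hy : y = ∑ j, y j • (Pi.single j (1 : F) : Fin 3 → F) := by
      funext k
      simp [Finset.sum_apply, Pi.single_apply]
    conv_lhs => rw [hy]
    rw [map_sum]
    simp only [map_smul, LinearMap.sum_apply, LinearMap.smul_apply, smul_eq_mul, hσ4]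
  have T : ∀ a b c, σ4 y a b c - σ4 y c b a - t * Δ a b c = 0 := by
    intro a b c
    revert a
    refine C5P2_ext1 _ ?_ ?_
    · exact ⟨fun x y => by simp only [map_add, LinearMap.add_apply, Pi.add_apply] <;> ring,
        fun c x => by
          simp only [map_smul, LinearMap.smul_apply, Pi.smul_apply, smul_eq_mul] <;> ring⟩
    intro i
    revert b
    refine C5P2_ext1 _ ?_ ?_
    · exact ⟨fun x y => by simp only [map_add, LinearMap.add_apply, Pi.add_apply] <;> ring,
        fun c x => by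
          simp only [map_smul, LinearMap.smul_apply, Pi.smul_apply, smul_eq_mul] <;> ring⟩
    intro j
    revert c
    refine C5P2_ext1 _ ?_ ?_
    · exact ⟨fun x y => by simp only [map_add, LinearMap.add_apply, Pi.add_apply] <;> ring,
        fun c x => by
          simp only [map_smul, LinearMap.smul_apply, Pi.smul_apply, smul_eq_mul] <;> ring⟩
    intro k
    rw [yσ, yσ, hΔ, T0, sub_self]
  have hκs : ∀ v b k l, κ v b ((Pi.single l (Pi.single k (1 : F)) : Fin 3 → Fin 3 → F)) - κ v b ((Pi.single k (Pi.single l (1 : F)) : Fin 3 → Fin 3 → F)) = 0 := by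
    intro v b k l
    revert v
    refine C5P2_ext1 _ ?_ ?_
    · exact ⟨fun x y => by simp only [map_add, LinearMap.add_apply, Pi.add_apply] <;> ring,
        fun c x => by
          simp only [map_smul, LinearMap.smul_apply, Pi.smul_apply, smul_eq_mul] <;> ring⟩
    intro i
    revert b
    refine C5P2_ext1 _ ?_ ?_
    · exact ⟨fun x y => by simp only [map_add, LinearMap.add_apply, Pi.add_apply] <;> ring,
        fun c x => by
          simp only [map_smul, LinearMap.smul_apply, Pi.smul_apply, smul_eq_mul] <;> ring⟩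
    intro j
    rw [hκ, hκ]
    ring
  have h22 : (2 : F)⁻¹ * 2 = 1 := inv_mul_cancel₀ h2
  refine ⟨fun v h => ?_, fun v b => ?_, fun s u => ?_⟩
  · revert v
    refine C5P2_ext1 _ ?_ ?_
    · exact ⟨fun x y => by simp only [map_add, LinearMap.add_apply, Pi.add_apply] <;> ring,
        fun c x => by
          simp only [map_smul, LinearMap.smul_apply, Pi.smul_apply, smul_eq_mul] <;> ring⟩
    intro i
    revert h
    refine C5P2_extW _ ?_ ?_
    · exact ⟨fun x y => by simp only [map_add, LinearMap.add_apply, Pi.add_apply] <;> ring,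
        fun c x => by
          simp only [map_smul, LinearMap.smul_apply, Pi.smul_apply, smul_eq_mul] <;> ring⟩
    intro k l
    have e1 := KS ((Pi.single i (1 : F) : Fin 3 → F)) y ((Pi.single k (1 : F) : Fin 3 → F)) ((Pi.single l (1 : F) : Fin 3 → F))
    have e2 := T ((Pi.single i (1 : F) : Fin 3 → F)) ((Pi.single k (1 : F) : Fin 3 → F)) ((Pi.single l (1 : F) : Fin 3 → F))
    have e3 := T ((Pi.single i (1 : F) : Fin 3 → F)) ((Pi.single l (1 : F) : Fin 3 → F)) ((Pi.single k (1 : F) : Fin 3 → F))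
    have e4 := Δ23 ((Pi.single i (1 : F) : Fin 3 → F)) ((Pi.single k (1 : F) : Fin 3 → F)) ((Pi.single l (1 : F) : Fin 3 → F))
    have e5 := hκs ((Pi.single i (1 : F) : Fin 3 → F)) y k l
    rw [hmE, map_add] at e1
    apply mul_left_cancel₀ h2
    linear_combination e1 - e5 + 2⁻¹ * e2 + 2⁻¹ * e3 + 2⁻¹ * t * e4
  · linear_combination KS v b v v
  · have e1 := KS y s y u
    have e2 := KS y u y s
    have e3 := T y s u
    have e4 := T y u s
    have e5 := Δ23 y s u
    have r1 := σrev s y y u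
    have r2 := σrev y u s y
    have r3 := σrev s u y y
    have r4 := σrev u s y y
    apply mul_left_cancel₀ h2
    linear_combination 2 * e1 - 2 * e2 + e3 - e4 - t * e5 +
      (σ4 s y y u - σ4 u y y s + σ4 u s y y - σ4 s u y y) * h22 + r1 + r2 - r3 + r4

/-- two linear forms on `F^3` have a common zero -/
theorem C5P2_hV (n1 n2 : (Fin 3 → F) →ₗ[F] F) : ∃ e : Fin 3 → F, e ≠ 0 ∧ n1 e = 0 ∧ n2 e = 0 := by
  have hlt : Module.finrank F (F × F) < Module.finrank F (Fin 3 → F) := by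
    rw [Module.finrank_prod, Module.finrank_self, Module.finrank_fin_fun]
    norm_num
  have hne := LinearMap.ker_ne_bot_of_finrank_lt (f := n1.prod n2) hlt
  obtain ⟨e, he, he0⟩ := Submodule.exists_mem_ne_zero_of_ne_bot hne
  rw [LinearMap.mem_ker] at he
  exact ⟨e, he0, congrArg Prod.fst he, congrArg Prod.snd he⟩

theorem C5P2_expandW (L : (Fin 3 → Fin 3 → F) →ₗ[F] F) (q : Fin 3 → Fin 3 → F) :
    L q = ∑ k, ∑ l, q k l * L ((Pi.single k (Pi.single l (1 : F)) : Fin 3 → Fin 3 → F)) := by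
  have : L = C5P2_prW fun k l => L ((Pi.single k (Pi.single l (1 : F)) : Fin 3 → Fin 3 → F)) := by
    refine LinearMap.pi_ext' fun k => LinearMap.pi_ext' fun l => LinearMap.ext_ring ?_
    simp only [LinearMap.comp_apply, LinearMap.single_apply, C5P2_prW_single]
  conv_lhs => rw [this]
  rw [C5P2_prW_apply]
  rfl

/-- a symmetric matrix outside `Usub` killed by three linear forms -/
theorem C5P2_exq (lam : List (Fin 3) → F) (hU : Module.finrank F (Usub lam) ≤ 2)
    (l1 l2 l3 : (Fin 3 → Fin 3 → F) →ₗ[F] F) :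
    ∃ q : Fin 3 → Fin 3 → F, (∀ a b, q a b = q b a) ∧ l1 q = 0 ∧ l2 q = 0 ∧ l3 q = 0 ∧
      (q : Matrix (Fin 3) (Fin 3) F) ∉ Usub lam := by
  let ι : (Fin 6 → F) →ₗ[F] (Fin 3 → Fin 3 → F) :=
    { toFun := fun c => ![![c 0, c 1, c 2], ![c 1, c 3, c 4], ![c 2, c 4, c 5]]
      map_add' := fun c c' => by
        funext i j
        fin_cases i <;> fin_cases j <;> simp
      map_smul' := fun r c => by
        funext i j
        fin_cases i <;> fin_cases j <;> simp }
  have hι : ∀ c, ι c = ![![c 0, c 1, c 2], ![c 1, c 3, c 4], ![c 2, c 4, c 5]] := fun _ => rfl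
  have hsym : ∀ c a b, ι c a b = ι c b a := by
    intro c a b
    rw [hι]
    fin_cases a <;> fin_cases b <;> simp
  have hinj : Function.Injective ι := by
    intro c c' h
    rw [hι, hι] at h
    have h0 := congrFun (congrFun h 0) 0
    have h1 := congrFun (congrFun h 0) 1
    have h2 := congrFun (congrFun h 0) 2
    have h3 := congrFun (congrFun h 1) 1
    have h4 := congrFun (congrFun h 1) 2
    have h5 := congrFun (congrFun h 2) 2
    simp at h0 h1 h2 h3 h4 h5
    funext i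
    fin_cases i <;> simp [h0, h1, h2, h3, h4, h5]
  let L : (Fin 6 → F) →ₗ[F] (F × F × F) := (l1 ∘ₗ ι).prod ((l2 ∘ₗ ι).prod (l3 ∘ₗ ι))
  by_contra hcon
  push Not at hcon
  have hker : ∀ c ∈ LinearMap.ker L, ι c ∈ (Usub lam) := by
    intro c hc
    rw [LinearMap.mem_ker] at hc
    have h1 : l1 (ι c) = 0 := congrArg Prod.fst hc
    have h2 : l2 (ι c) = 0 := congrArg (fun z => z.2.1) hc
    have h3 : l3 (ι c) = 0 := congrArg (fun z => z.2.2) hc
    exact hcon (ι c) (hsym c) h1 h2 h3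
  let K : LinearMap.ker L →ₗ[F] Usub lam :=
    { toFun := fun c => ⟨ι c.1, hker c.1 c.2⟩
      map_add' := fun c c' => by
        apply Subtype.ext
        exact map_add ι _ _
      map_smul' := fun r c => by
        apply Subtype.ext
        exact map_smul ι _ _ }
  have hK : Function.Injective K := by
    intro c c' h
    apply Subtype.ext
    apply hinj
    exact congrArg Subtype.val h
  have h1 : Module.finrank F (LinearMap.ker L) ≤ Module.finrank F (Usub lam) :=
    LinearMap.finrank_le_finrank_of_injective hK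
  have h2 := LinearMap.finrank_range_add_finrank_ker L
  have h3 : Module.finrank F (LinearMap.range L) ≤ 3 := by
    refine (Submodule.finrank_le _).trans ?_
    rw [Module.finrank_prod, Module.finrank_prod, Module.finrank_self]
  rw [Module.finrank_fin_fun] at h2
  omega

theorem C5P2_pure (h2 : (2 : F) ≠ 0) (lam : List (Fin 3) → F)
    (rev : ∀ i j k l m, lam [i, j, k, l, m] = lam [m, l, k, j, i])
    (σ : Fin 3 → Fin 3 → Fin 3 → Fin 3 → F) (hσ : ∀ a b c d, σ a b c d = σ d c b a)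
    (ξ : Fin 3 → F)
    (R : ∀ i a b c d, lam [i, a, b, c, d] + lam [a, b, c, d, i] = 2 * (ξ i * σ a b c d))
    (f : Matrix (Fin 3) (Fin 3) F) (t : F) (ht : t ≠ 0) (hf : InU lam f t)
    (hU : Module.finrank F (Usub lam) ≤ 2)
    (ψ1 ψ2 : Fin 3 → Fin 3 → Fin 3 → F) (n1 n2 : Fin 3 → F) (μ1 μ2 : Fin 3 → Fin 3 → F)
    (hN : ∀ c b k l, σ c b k l + σ c b l k + σ c k l b + σ c l k b =
      2 * (n1 c * ψ1 b k l + n2 c * ψ2 b k l))
    (hM : ∀ i k l m n, lam [m, n, i, k, l] + lam [m, n, l, k, i] +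
      lam [n, m, i, k, l] + lam [n, m, l, k, i] + lam [m, n, i, l, k] + lam [m, n, k, l, i] +
      lam [n, m, i, l, k] + lam [n, m, k, l, i] =
      8 * (μ1 m n * ψ1 i k l + μ2 m n * ψ2 i k l)) : False := by
  have h4 : (4 : F) ≠ 0 := by
    have : (4 : F) = 2 * 2 := by norm_num
    rw [this]
    exact mul_ne_zero h2 h2
  have h8 : (8 : F) ≠ 0 := by
    have : (8 : F) = 2 * 4 := by norm_num
    rw [this]
    exact mul_ne_zero h2 h4
  have h44 : (4 : F)⁻¹ * 4 = 1 := inv_mul_cancel₀ h4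
  have h22 : (2 : F)⁻¹ * 2 = 1 := inv_mul_cancel₀ h2
  have h24 : (2 : F)⁻¹ = 2 * 4⁻¹ := by
    field_simp
    norm_num
  -- the maps
  obtain ⟨ξL, hξL⟩ : ∃ ξL : (Fin 3 → F) →ₗ[F] F, ∀ i, ξL ((Pi.single i (1 : F) : Fin 3 → F)) = ξ i :=
    ⟨C5P2_pr ξ, fun i => C5P2_pr_single _ _⟩
  obtain ⟨Δ, hΔ, Δ23, hΔy⟩ := C5P2_det (F := F)
  obtain ⟨m, ct, hmE, hmsymm, hct, hctm⟩ := C5P2_mct h2 ξ ξL hξL
  obtain ⟨γ, hγ⟩ : ∃ γ : (Fin 3 → Fin 3 → F) →ₗ[F] (Fin 3 → Fin 3 → F) →ₗ[F] F,
      ∀ i j k l, γ ((Pi.single i (Pi.single j (1 : F)) : Fin 3 → Fin 3 → F)) ((Pi.single k (Pi.single l (1 : F)) : Fin 3 → Fin 3 → F)) =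
        4⁻¹ * (σ i j k l + σ i j l k + σ j i k l + σ j i l k) :=
    ⟨C5P2_prW fun i j => C5P2_prW fun k l =>
      4⁻¹ * (σ i j k l + σ i j l k + σ j i k l + σ j i l k),
      fun i j k l => by simp only [C5P2_prW_single]⟩
  obtain ⟨κ, hκ⟩ : ∃ κ : (Fin 3 → F) →ₗ[F] (Fin 3 → F) →ₗ[F] (Fin 3 → Fin 3 → F) →ₗ[F] F,
      ∀ i j k l, κ ((Pi.single i (1 : F) : Fin 3 → F)) ((Pi.single j (1 : F) : Fin 3 → F)) ((Pi.single k (Pi.single l (1 : F)) : Fin 3 → Fin 3 → F)) =
        4⁻¹ * (σ j i k l + σ j i l k - σ j k l i - σ j l k i) :=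
    ⟨C5P2_pr fun i => C5P2_pr fun j => C5P2_prW fun k l =>
      4⁻¹ * (σ j i k l + σ j i l k - σ j k l i - σ j l k i),
      fun i j k l => by simp only [C5P2_prW_single, C5P2_pr_single]⟩
  obtain ⟨Ψ1, hΨ1⟩ : ∃ Ψ1 : (Fin 3 → F) →ₗ[F] (Fin 3 → Fin 3 → F) →ₗ[F] F,
      ∀ i k l, Ψ1 ((Pi.single i (1 : F) : Fin 3 → F)) ((Pi.single k (Pi.single l (1 : F)) : Fin 3 → Fin 3 → F)) = ψ1 i k l :=
    ⟨C5P2_pr fun i => C5P2_prW fun k l => ψ1 i k l,
      fun i k l => by simp only [C5P2_prW_single, C5P2_pr_single]⟩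
  obtain ⟨Ψ2, hΨ2⟩ : ∃ Ψ2 : (Fin 3 → F) →ₗ[F] (Fin 3 → Fin 3 → F) →ₗ[F] F,
      ∀ i k l, Ψ2 ((Pi.single i (1 : F) : Fin 3 → F)) ((Pi.single k (Pi.single l (1 : F)) : Fin 3 → Fin 3 → F)) = ψ2 i k l :=
    ⟨C5P2_pr fun i => C5P2_prW fun k l => ψ2 i k l,
      fun i k l => by simp only [C5P2_prW_single, C5P2_pr_single]⟩
  obtain ⟨N1, hN1⟩ : ∃ N1 : (Fin 3 → F) →ₗ[F] F, ∀ i, N1 ((Pi.single i (1 : F) : Fin 3 → F)) = n1 i :=
    ⟨C5P2_pr n1, fun i => C5P2_pr_single _ _⟩
  obtain ⟨N2, hN2⟩ : ∃ N2 : (Fin 3 → F) →ₗ[F] F, ∀ i, N2 ((Pi.single i (1 : F) : Fin 3 → F)) = n2 i :=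
    ⟨C5P2_pr n2, fun i => C5P2_pr_single _ _⟩
  obtain ⟨U1, hU1⟩ : ∃ U1 : (Fin 3 → Fin 3 → F) →ₗ[F] F, ∀ k l, U1 ((Pi.single k (Pi.single l (1 : F)) : Fin 3 → Fin 3 → F)) = μ1 k l :=
    ⟨C5P2_prW μ1, fun k l => C5P2_prW_single _ _ _⟩
  obtain ⟨U2, hU2⟩ : ∃ U2 : (Fin 3 → Fin 3 → F) →ₗ[F] F, ∀ k l, U2 ((Pi.single k (Pi.single l (1 : F)) : Fin 3 → Fin 3 → F)) = μ2 k l :=
    ⟨C5P2_prW μ2, fun k l => C5P2_prW_single _ _ _⟩
  -- `y`
  let y : Fin 3 → F := fun j => ∑ i, f i j * ξ i
  have T0 : ∀ a b c, ∑ j, y j * σ j a b c - ∑ j, y j * σ j c b a = t * det3 F [a, b, c] :=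
    C5P2_T0 h2 lam rev σ ξ R f t hf
  obtain ⟨K2, K1, hDD⟩ := C5P2_KS h2 σ hσ m hmE κ hκ y t T0 Δ hΔ Δ23
  have hy0 : ∃ i, y i ≠ 0 := by
    by_contra hcon
    push Not at hcon
    have e := T0 0 1 2
    have hd : det3 F [0, 1, 2] = 1 := by simp [det3]
    simp only [hcon, zero_mul, Finset.sum_const_zero, sub_zero, hd, mul_one] at e
    exact ht e.symm
  obtain ⟨i0, hi0⟩ := hy0
  have hξ0 : ∃ i, ξ i ≠ 0 := by
    by_contra hcon
    push Not at hcon
    apply hi0
    show ∑ i, f i i0 * ξ i = 0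
    simp [hcon]
  obtain ⟨i1, hi1⟩ := hξ0
  clear_value y
  let x : Fin 3 → F := (ξ i1)⁻¹ • (Pi.single i1 (1 : F) : Fin 3 → F)
  have hx : ξL x = 1 := by
    show ξL ((ξ i1)⁻¹ • (Pi.single i1 (1 : F) : Fin 3 → F)) = 1
    rw [map_smul, hξL, smul_eq_mul, inv_mul_cancel₀ hi1]
  clear_value x
  have hγs : ∀ h q, γ h q = γ q h := by
    have : ∀ h q, γ h q - γ q h = 0 := by
      intro h q
      revert h
      refine C5P2_extW _ ?_ ?_
      · exact ⟨fun x y => by simp only [map_add, LinearMap.add_apply, Pi.add_apply] <;> ring,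
          fun c x => by
            simp only [map_smul, LinearMap.smul_apply, Pi.smul_apply, smul_eq_mul] <;> ring⟩
      intro i j
      revert q
      refine C5P2_extW _ ?_ ?_
      · exact ⟨fun x y => by simp only [map_add, LinearMap.add_apply, Pi.add_apply] <;> ring,
          fun c x => by
            simp only [map_smul, LinearMap.smul_apply, Pi.smul_apply, smul_eq_mul] <;> ring⟩
      intro k l
      rw [hγ, hγ, hσ k l i j, hσ k l j i, hσ l k i j, hσ l k j i]
      ring
    exact fun h q => sub_eq_zero.mp (this h q)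
  have hNN : ∀ c b h, γ (m c b) h - 2 * κ c b h = N1 c * Ψ1 b h + N2 c * Ψ2 b h := by
    have : ∀ c b h, γ (m c b) h - 2 * κ c b h - (N1 c * Ψ1 b h + N2 c * Ψ2 b h) = 0 := by
      intro c b h
      revert c
      refine C5P2_ext1 _ ?_ ?_
      · exact ⟨fun x y => by simp only [map_add, LinearMap.add_apply, Pi.add_apply] <;> ring,
          fun c x => by
            simp only [map_smul, LinearMap.smul_apply, Pi.smul_apply, smul_eq_mul] <;> ring⟩
      intro i
      revert b
      refine C5P2_ext1 _ ?_ ?_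
      · exact ⟨fun x y => by simp only [map_add, LinearMap.add_apply, Pi.add_apply] <;> ring,
          fun c x => by
            simp only [map_smul, LinearMap.smul_apply, Pi.smul_apply, smul_eq_mul] <;> ring⟩
      intro j
      revert h
      refine C5P2_extW _ ?_ ?_
      · exact ⟨fun x y => by simp only [map_add, LinearMap.add_apply, Pi.add_apply] <;> ring,
          fun c x => by
            simp only [map_smul, LinearMap.smul_apply, Pi.smul_apply, smul_eq_mul] <;> ring⟩
      intro k l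
      rw [hmE, map_add, LinearMap.add_apply, hγ, hγ, hκ, hN1, hN2, hΨ1, hΨ2]
      have e := hN i j k l
      rw [hσ i k l j, hσ i l k j] at e
      apply mul_left_cancel₀ h2
      linear_combination e + (σ i j k l + σ i j l k + σ j l k i + σ j k l i) * h44
    exact fun c b h => sub_eq_zero.mp (this c b h)
  obtain ⟨MM, hMM⟩ : ∃ MM : (Fin 3 → F) →ₗ[F] (Fin 3 → Fin 3 → F) →ₗ[F]
      (Fin 3 → Fin 3 → F) →ₗ[F] F, ∀ i k l m n, MM ((Pi.single i (1 : F) : Fin 3 → F)) ((Pi.single k (Pi.single l (1 : F)) : Fin 3 → Fin 3 → F)) ((Pi.single m (Pi.single n (1 : F)) : Fin 3 → Fin 3 → F)) =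
      lam [m, n, i, k, l] + lam [m, n, l, k, i] + lam [n, m, i, k, l] + lam [n, m, l, k, i] +
      lam [m, n, i, l, k] + lam [m, n, k, l, i] + lam [n, m, i, l, k] + lam [n, m, k, l, i] :=
    ⟨C5P2_pr fun i => C5P2_prW fun k l => C5P2_prW fun m n =>
      lam [m, n, i, k, l] + lam [m, n, l, k, i] + lam [n, m, i, k, l] + lam [n, m, l, k, i] +
      lam [m, n, i, l, k] + lam [m, n, k, l, i] + lam [n, m, i, l, k] + lam [n, m, k, l, i],
      fun i k l m n => by simp only [C5P2_prW_single, C5P2_pr_single]⟩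
  have M0 : ∀ b h q, 8 * (ξL b * γ h q + 2 * κ b (ct h) q) - MM b h q = 0 := by
    intro b h q
    revert b
    refine C5P2_ext1 _ ?_ ?_
    · exact ⟨fun x y => by simp only [map_add, LinearMap.add_apply, Pi.add_apply] <;> ring,
        fun c x => by
          simp only [map_smul, LinearMap.smul_apply, Pi.smul_apply, smul_eq_mul] <;> ring⟩
    intro i
    revert h
    refine C5P2_extW _ ?_ ?_
    · exact ⟨fun x y => by simp only [map_add, LinearMap.add_apply, Pi.add_apply] <;> ring,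
        fun c x => by
          simp only [map_smul, LinearMap.smul_apply, Pi.smul_apply, smul_eq_mul] <;> ring⟩
    intro k l
    revert q
    refine C5P2_extW _ ?_ ?_
    · exact ⟨fun x y => by simp only [map_add, LinearMap.add_apply, Pi.add_apply] <;> ring,
        fun c x => by
          simp only [map_smul, LinearMap.smul_apply, Pi.smul_apply, smul_eq_mul] <;> ring⟩
    intro a c
    rw [hct, hγ, hξL, hMM, map_smul, LinearMap.smul_apply, map_add, LinearMap.add_apply, map_smul,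
      map_smul, LinearMap.smul_apply, LinearMap.smul_apply, hκ, hκ]
    simp only [smul_eq_mul]
    set X1 := σ k l a c + σ k l c a + σ l k a c + σ l k c a with hX1
    set Y := ξ k * (σ l i a c + σ l i c a - σ l a c i - σ l c a i) +
      ξ l * (σ k i a c + σ k i c a - σ k a c i - σ k c a i) with hY
    have a1 := R i k l a c
    have a2 := R i k l c a
    have a3 := R i l k a c
    have a4 := R i l k c a
    have b1 := R k l i a c
    have b2 := R k l i c a
    have b3 := R k l a c i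
    have b4 := R k l c a i
    have c1 := R l k i a c
    have c2 := R l k i c a
    have c3 := R l k a c i
    have c4 := R l k c a i
    have s1 := rev a c i k l
    have s2 := rev a c l k i
    have s3 := rev c a i k l
    have s4 := rev c a l k i
    have s5 := rev a c i l k
    have s6 := rev a c k l i
    have s7 := rev c a i l k
    have s8 := rev c a k l i
    have t1 := rev l i a c k
    have t2 := rev l i c a k
    have t3 := rev k i a c l
    have t4 := rev k i c a l
    linear_combination -(a1 + a2 + a3 + a4) - (b1 + b2 - b3 - b4) - (c1 + c2 - c3 - c4) +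
      (t1 + t2 + t3 + t4) - (s1 + s2 + s3 + s4 + s5 + s6 + s7 + s8) + 2 * ξ i * X1 * h44 +
      2 * Y * (4 * 4⁻¹) * h22 + 2 * Y * h44
  have hMMv : ∀ b h q, MM b h q = 8 * (U1 q * Ψ1 b h + U2 q * Ψ2 b h) := by
    have : ∀ b h q, MM b h q - 8 * (U1 q * Ψ1 b h + U2 q * Ψ2 b h) = 0 := by
      intro b h q
      revert b
      refine C5P2_ext1 _ ?_ ?_
      · exact ⟨fun x y => by simp only [map_add, LinearMap.add_apply, Pi.add_apply] <;> ring,
          fun c x => by
            simp only [map_smul, LinearMap.smul_apply, Pi.smul_apply, smul_eq_mul] <;> ring⟩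
      intro i
      revert h
      refine C5P2_extW _ ?_ ?_
      · exact ⟨fun x y => by simp only [map_add, LinearMap.add_apply, Pi.add_apply] <;> ring,
          fun c x => by
            simp only [map_smul, LinearMap.smul_apply, Pi.smul_apply, smul_eq_mul] <;> ring⟩
      intro k l
      revert q
      refine C5P2_extW _ ?_ ?_
      · exact ⟨fun x y => by simp only [map_add, LinearMap.add_apply, Pi.add_apply] <;> ring,
          fun c x => by
            simp only [map_smul, LinearMap.smul_apply, Pi.smul_apply, smul_eq_mul] <;> ring⟩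
      intro a c
      rw [hMM, hU1, hU2, hΨ1, hΨ2]
      linear_combination hM i k l a c
    exact fun b h q => sub_eq_zero.mp (this b h q)
  refine C5P2_core h2 C5P2_hV m hmsymm ξL x hx ct hctm ?_ γ hγs κ K1 y
    (LinearMap.proj i0) hi0 K2 ?_ Ψ1 Ψ2 N1 N2 U1 U2 hNN ?_ ?_
  · -- `ct` is surjective
    intro v
    refine ⟨m x v - (2⁻¹ * ξL v) • m x x, ?_⟩
    rw [map_sub, map_smul, hctm, hctm, hx]
    funext c
    simp only [Pi.sub_apply, Pi.add_apply, Pi.smul_apply, smul_eq_mul]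
    linear_combination (-(ξL v * x c)) * h22
  · -- nondegeneracy
    intro s hs
    refine hΔy y s i0 hi0 (fun u => ?_)
    have e := hs u
    rw [hDD] at e
    exact (mul_eq_zero.mp e).resolve_left ht
  · -- M
    intro q b h
    have e := M0 b h q
    rw [hMMv] at e
    apply mul_left_cancel₀ h8
    linear_combination e
  · -- K6
    intro l1 l2 l3
    obtain ⟨q, hqs, hq1, hq2, hq3, hq⟩ := C5P2_exq lam hU l1 l2 l3
    refine ⟨q, hq1, hq2, hq3, ?_⟩
    rintro ⟨k1, k2, k3⟩
    apply hq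
    have hex : ∃ t', InU lam q t' := by
      refine C5P2_K5 h2 lam rev σ hσ ξ R q hqs (fun i j => ?_) (fun i j => ?_)
        (fun i a c => ?_)
      · have e := k1 ((Pi.single i (1 : F) : Fin 3 → F)) ((Pi.single j (1 : F) : Fin 3 → F))
        rw [C5P2_expandW] at e
        simp only [hκ] at e
        have h4i : (4 : F)⁻¹ ≠ 0 := inv_ne_zero h4
        apply mul_left_cancel₀ h4i
        rw [mul_zero, Finset.mul_sum, ← e]
        refine Finset.sum_congr rfl fun k _ => ?_
        rw [Finset.mul_sum]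
        exact Finset.sum_congr rfl fun l _ => by ring
      · have e := k2 ((Pi.single i (Pi.single j (1 : F)) : Fin 3 → Fin 3 → F))
        rw [C5P2_expandW] at e
        simp only [hγ] at e
        have h4i : (4 : F)⁻¹ ≠ 0 := inv_ne_zero h4
        apply mul_left_cancel₀ h4i
        rw [mul_zero, Finset.mul_sum, ← e]
        refine Finset.sum_congr rfl fun k _ => ?_
        rw [Finset.mul_sum]
        exact Finset.sum_congr rfl fun l _ => by ring
      · have e := M0 ((Pi.single i (1 : F) : Fin 3 → F)) q ((Pi.single a (Pi.single c (1 : F)) : Fin 3 → Fin 3 → F))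
        rw [hγs, k2, k3] at e
        have e1 : (MM ((Pi.single i (1 : F) : Fin 3 → F))).flip ((Pi.single a (Pi.single c (1 : F)) : Fin 3 → Fin 3 → F)) q = 0 := by
          rw [LinearMap.flip_apply]
          linear_combination -e
        rw [C5P2_expandW] at e1
        simp only [LinearMap.flip_apply, hMM] at e1
        exact e1
    obtain ⟨t', ht'⟩ := hex
    exact ht'.mem

end vec

section layerlin

variable {F : Type u} [Field F] {J : Type u} [NonUnitalNonAssocCommRing J] [Module F J]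
    [IsScalarTower F J J] [SMulCommClass F J J]

/-- a layer of dimension at most `n` has `n` generators and linear coordinates -/
theorem C5P2_layer [Module.Finite F J] (i n : ℕ) (hn : dlay F J i ≤ n) :
    ∃ (g : Fin n → J) (ψ : J →ₗ[F] (Fin n → F)), (∀ j, g j ∈ jpow F J i) ∧
      (∀ a ∈ jpow F J (i + 1), ψ a = 0) ∧
      ∀ a ∈ jpow F J i, a - ∑ j, ψ a j • g j ∈ jpow F J (i + 1) := by
  obtain ⟨g, hg, hc⟩ := exists_layer i n hn
  let T : (Fin n → F) →ₗ[F] (J ⧸ jpow F J (i + 1)) :=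
    Fintype.linearCombination F (fun j => (jpow F J (i + 1)).mkQ (g j))
  have hT : ∀ c, T c = (jpow F J (i + 1)).mkQ (∑ j, c j • g j) := by
    intro c
    rw [map_sum]
    simp only [T, Fintype.linearCombination_apply, map_smul]
  obtain ⟨R0, hR0⟩ := T.rangeRestrict.exists_rightInverse_of_surjective T.range_rangeRestrict
  obtain ⟨R, hR⟩ := LinearMap.exists_extend R0
  refine ⟨g, R ∘ₗ (jpow F J (i + 1)).mkQ, hg, fun a ha => ?_, fun a ha => ?_⟩
  · have : (jpow F J (i + 1)).mkQ a = 0 := by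
      rw [Submodule.mkQ_apply]
      exact (Submodule.Quotient.mk_eq_zero _).mpr ha
    rw [LinearMap.comp_apply, this, map_zero]
  · obtain ⟨c, hc⟩ := hc a ha
    have h1 : (jpow F J (i + 1)).mkQ a = T c := by
      rw [hT, ← sub_eq_zero, ← map_sub]
      exact (Submodule.Quotient.mk_eq_zero _).mpr hc
    have h2 : R ((jpow F J (i + 1)).mkQ a) = R0 ⟨T c, LinearMap.mem_range_self T c⟩ := by
      rw [h1, ← hR]
      rfl
    have h3 : T (R0 ⟨T c, LinearMap.mem_range_self T c⟩) = T c := by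
      have := LinearMap.congr_fun hR0 ⟨T c, LinearMap.mem_range_self T c⟩
      exact congrArg Subtype.val this
    rw [← h2, hT, ← h1, ← sub_eq_zero, ← map_sub] at h3
    have h4 := (Submodule.Quotient.mk_eq_zero _).mp h3
    rw [← neg_mem_iff, neg_sub] at h4
    exact h4

end layerlin

theorem C5J.P2 {F : Type u} [Field F] [IsAlgClosed F] {J : Type u}
    [NonUnitalNonAssocCommRing J] [Module F J]
    [IsScalarTower F J J] [SMulCommClass F J J] {x : Fin 3 → J} {S : List (Fin 3) → J}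
    {φ : J →ₗ[F] F} (h : C5J F J x S φ) (h4 : dlay F J 4 ≤ 1) (h3 : dlay F J 3 ≤ 2)
    (hU : Module.finrank F (Usub (fun w => φ (S w))) ≤ 2)
    (k : Matrix (Fin 3) (Fin 3) F) (t : F) (hk : InU (fun w => φ (S w)) k t) : t = 0 := by
  have := h.fin
  have h2 := h.two
  have hS := h.sys
  by_contra ht
  obtain ⟨g4, ψ4, hg4, hψ4, hgen4⟩ := C5P2_layer (F := F) (J := J) 4 1 h4
  obtain ⟨g3, ψ3, hg3, hψ3, hgen3⟩ := C5P2_layer (F := F) (J := J) 3 2 h3
  set p : J := g4 0 with hp
  let lam : List (Fin 3) → F := fun w => φ (S w)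
  let ζ : J →ₗ[F] F := (LinearMap.proj 0 : (Fin 1 → F) →ₗ[F] F) ∘ₗ ψ4
  have hζ5 : ∀ a ∈ jpow F J 5, ζ a = 0 := fun a ha => by
    show ψ4 a 0 = 0
    rw [hψ4 a ha]
    rfl
  have hζ : ∀ a ∈ jpow F J 4, a - ζ a • p ∈ jpow F J 5 := by
    intro a ha
    have := hgen4 a ha
    rw [Fin.sum_univ_one] at this
    exact this
  have hψ : ∀ a ∈ jpow F J 3, a - (ψ3 a 0 • g3 0 + ψ3 a 1 • g3 1) ∈ jpow F J 4 := by
    intro a ha
    have := hgen3 a ha
    rw [Fin.sum_univ_two] at this
    exact this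
  -- membership
  have mx : ∀ i, x i ∈ jpow F J 1 := fun i => by
    rw [jpow_one]; exact Submodule.mem_top
  have m2 : ∀ i j, S [i, j] ∈ jpow F J 2 := fun i j => h.mem [i, j] (by simp)
  have m4 : ∀ a b c d, S [a, b, c, d] ∈ jpow F J 4 := fun a b c d => h.mem [a, b, c, d] (by simp)
  have z6 : ∀ a ∈ jpow F J 6, a = 0 := fun a ha => by
    rw [h.bot] at ha
    exact (Submodule.mem_bot F).mp ha
  -- reversal
  have rev : ∀ w : List (Fin 3), lam w.reverse = lam w := fun w => congrArg φ (hS.rev w)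
  have rev5 : ∀ i j k l m, lam [i, j, k, l, m] = lam [m, l, k, j, i] := fun i j k l m =>
    rev [m, l, k, j, i]
  have revS3 : ∀ i j k, S [i, j, k] = S [k, j, i] := fun i j k => hS.rev [k, j, i]
  have revS4 : ∀ i j k l, S [i, j, k, l] = S [l, k, j, i] := fun i j k l =>
    hS.rev [l, k, j, i]
  have revS5 : ∀ i j k l m, S [i, j, k, l, m] = S [m, l, k, j, i] := fun i j k l m =>
    hS.rev [m, l, k, j, i]
  -- multiplication rules
  have r0 : ∀ j a b, (2 : F) • (x j * S [a, b]) = S [j, a, b] + S [j, b, a] := by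
    intro j a b
    have e := hS.mul [j] [a, b] (by simp) (by simp)
    rw [hS.single] at e
    simp only [List.cons_append, List.nil_append, List.reverse_cons, List.reverse_nil] at e
    rw [revS3 a b j] at e
    apply smul_right_injective J h2
    show (2 : F) • ((2 : F) • (x j * S [a, b])) = (2 : F) • (S [j, a, b] + S [j, b, a])
    rw [smul_smul, show (2 : F) * 2 = 4 by norm_num, e, two_smul]
    abel
  have r1 : ∀ j a b c, (2 : F) • (x j * S [a, b, c]) = S [j, a, b, c] + S [j, c, b, a] := by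
    intro j a b c
    have e := hS.mul [j] [a, b, c] (by simp) (by simp)
    rw [hS.single] at e
    simp only [List.cons_append, List.nil_append, List.reverse_cons, List.reverse_nil] at e
    rw [revS4 a b c j] at e
    apply smul_right_injective J h2
    show (2 : F) • ((2 : F) • (x j * S [a, b, c])) = (2 : F) • (S [j, a, b, c] + S [j, c, b, a])
    rw [smul_smul, show (2 : F) * 2 = 4 by norm_num, e, two_smul]
    abel
  have r2 : ∀ i a b c d, (2 : F) • (x i * S [a, b, c, d]) = S [i, a, b, c, d] +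
      S [a, b, c, d, i] := by
    intro i a b c d
    have e := hS.mul [i] [a, b, c, d] (by simp) (by simp)
    rw [hS.single] at e
    simp only [List.cons_append, List.nil_append, List.reverse_cons, List.reverse_nil] at e
    rw [revS5 i d c b a] at e
    apply smul_right_injective J h2
    show (2 : F) • ((2 : F) • (x i * S [a, b, c, d])) =
      (2 : F) • (S [i, a, b, c, d] + S [a, b, c, d, i])
    rw [smul_smul, show (2 : F) * 2 = 4 by norm_num, e, two_smul]
    abel
  have r3 : ∀ c b k l, (4 : F) • (x c * (x b * S [k, l])) = S [c, b, k, l] + S [c, b, l, k] +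
      S [c, k, l, b] + S [c, l, k, b] := by
    intro c b k l
    have e1 : (4 : F) • (x c * (x b * S [k, l])) =
        (2 : F) • (x c * ((2 : F) • (x b * S [k, l]))) := by
      rw [mul_smul_comm, smul_smul]
      norm_num
    rw [e1, r0, mul_add, smul_add, r1, r1]
    abel
  have r4 : ∀ m n i k l, (4 : F) • (S [m, n] * S [i, k, l]) = S [m, n, i, k, l] +
      S [m, n, l, k, i] + S [n, m, i, k, l] + S [n, m, l, k, i] := by
    intro m n i k l
    have e := hS.mul [m, n] [i, k, l] (by simp) (by simp)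
    simp only [List.cons_append, List.nil_append, List.reverse_cons, List.reverse_nil] at e
    rw [e, revS5 i k l m n]
  have r5 : ∀ m n i k l, (8 : F) • (S [m, n] * (x i * S [k, l])) = S [m, n, i, k, l] +
      S [m, n, l, k, i] + S [n, m, i, k, l] + S [n, m, l, k, i] + S [m, n, i, l, k] +
      S [m, n, k, l, i] + S [n, m, i, l, k] + S [n, m, k, l, i] := by
    intro m n i k l
    have e1 : (8 : F) • (S [m, n] * (x i * S [k, l])) =
        (4 : F) • (S [m, n] * ((2 : F) • (x i * S [k, l]))) := by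
      rw [mul_smul_comm, smul_smul]
      norm_num
    rw [e1, r0, mul_add, smul_add, r4, r4]
    abel
  refine C5P2_pure h2 lam rev5 (fun a b c d => ζ (S [a, b, c, d])) (fun a b c d => ?_)
    (fun i => φ (x i * p)) (fun i a b c d => ?_) k t ht hk hU
    (fun b k l => ψ3 (x b * S [k, l]) 0) (fun b k l => ψ3 (x b * S [k, l]) 1)
    (fun c => 2 * ζ (x c * g3 0)) (fun c => 2 * ζ (x c * g3 1))
    (fun m n => φ (S [m, n] * g3 0)) (fun m n => φ (S [m, n] * g3 1))
    (fun c b k l => ?_) (fun i k l m n => ?_)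
  · rw [revS4]
  · have e1 : φ (x i * S [a, b, c, d]) = φ (x i * p) * ζ (S [a, b, c, d]) := by
      have e2 : x i * S [a, b, c, d] = ζ (S [a, b, c, d]) • (x i * p) +
          x i * (S [a, b, c, d] - ζ (S [a, b, c, d]) • p) := by
        rw [mul_sub, mul_smul_comm]
        abel
      have e3 : x i * (S [a, b, c, d] - ζ (S [a, b, c, d]) • p) = 0 :=
        z6 _ (mul_mem_jpow (i := 1) (j := 5) (mx i) (hζ _ (m4 a b c d)))
      rw [e2, e3, add_zero, map_smul, smul_eq_mul, mul_comm]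
    have e2 := congrArg φ (r2 i a b c d)
    rw [map_smul, map_add, smul_eq_mul, e1] at e2
    exact e2.symm
  · have hz : x b * S [k, l] ∈ jpow F J 3 := mul_mem_jpow (i := 1) (j := 2) (mx b) (m2 k l)
    have e1 : ζ (x c * (x b * S [k, l])) = ψ3 (x b * S [k, l]) 0 * ζ (x c * g3 0) +
        ψ3 (x b * S [k, l]) 1 * ζ (x c * g3 1) := by
      have e2 : x c * (x b * S [k, l]) = ψ3 (x b * S [k, l]) 0 • (x c * g3 0) +
          ψ3 (x b * S [k, l]) 1 • (x c * g3 1) +
          x c * (x b * S [k, l] - (ψ3 (x b * S [k, l]) 0 • g3 0 +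
            ψ3 (x b * S [k, l]) 1 • g3 1)) := by
        rw [mul_sub, mul_add, mul_smul_comm, mul_smul_comm]
        abel
      have e3 := hζ5 _ (mul_mem_jpow (i := 1) (j := 4) (mx c) (hψ _ hz))
      rw [e2, map_add, map_add, e3, add_zero, map_smul, map_smul, smul_eq_mul, smul_eq_mul]
    have e2 := congrArg ζ (r3 c b k l)
    rw [map_smul, map_add, map_add, map_add, smul_eq_mul, e1] at e2
    linear_combination -e2
  · have hz : x i * S [k, l] ∈ jpow F J 3 := mul_mem_jpow (i := 1) (j := 2) (mx i) (m2 k l)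
    have e1 : φ (S [m, n] * (x i * S [k, l])) = ψ3 (x i * S [k, l]) 0 * φ (S [m, n] * g3 0) +
        ψ3 (x i * S [k, l]) 1 * φ (S [m, n] * g3 1) := by
      have e2 : S [m, n] * (x i * S [k, l]) = ψ3 (x i * S [k, l]) 0 • (S [m, n] * g3 0) +
          ψ3 (x i * S [k, l]) 1 • (S [m, n] * g3 1) +
          S [m, n] * (x i * S [k, l] - (ψ3 (x i * S [k, l]) 0 • g3 0 +
            ψ3 (x i * S [k, l]) 1 • g3 1)) := by
        rw [mul_sub, mul_add, mul_smul_comm, mul_smul_comm]
        abel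
      have e3 := z6 _ (mul_mem_jpow (i := 2) (j := 4) (m2 m n) (hψ _ hz))
      rw [e2, e3, add_zero, map_add, map_smul, map_smul, smul_eq_mul, smul_eq_mul]
    have e2 := congrArg φ (r5 m n i k l)
    simp only [map_smul, map_add, smul_eq_mul, e1] at e2
    show φ (S [m, n, i, k, l]) + φ (S [m, n, l, k, i]) + φ (S [n, m, i, k, l]) +
      φ (S [n, m, l, k, i]) + φ (S [m, n, i, l, k]) + φ (S [m, n, k, l, i]) +
      φ (S [n, m, i, l, k]) + φ (S [n, m, k, l, i]) = _
    linear_combination -e2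

end JD
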