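import Pool.Agent.H8.JD.C5Def

set_option autoImplicit false

/-!
# JD class 5: syzygies

`C : Fin 3 → Matrix (Fin 3) (Fin 3) F` with `C i j k` totally symmetric is a cubic tensor
`∑ x_i ⊗ C_i = ∑ C_i ⊗ x_i`.

`tval_eq_zero_of_sym`. PROOF. For words `p, q` with `|p| + |q| = 2`
`∑ i, kval lam (C i) (p ++ [i]) q = ∑ i, kval lam (C i) p (i :: q)` (both are
`∑ i j k, C i j k * lam (p ++ [i,j,k] ++ q)` after renaming). With `InU`:
`∑ i, (-1)^(|p|+1) t_i det (p i q) = ∑ i, (-1)^|p| t_i det (p i q)`, i.e.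
`∑ i, t_i det3 (p ++ [i] ++ q) = 0`, `t_i = tval lam (C i)`. Take `p = []`,
`q = [1,2], [2,0], [0,1]`: `t_0 = t_1 = t_2 = 0`.

`tval_eq_zero_of_symW`. PROOF. If `w = 0` all `ξ` are allowed: apply the first theorem. Otherwise
choose `m` with `w m ≠ 0`; scale `w` (replace `w` by `w / w m`: hypotheses and conclusion do not
change) to have `w m = 1`. By the first theorem for the tensor `w ⊗ w ⊗ w`
(`C i = w i • vecMulVec w w`) `tval (vecMulVec w w) * w i = 0`, so `tval (vecMulVec w w) = 0`.
Put `D i = C i - w i • C m` (`= ∑ ξ_j C_j` with `ξ = e_i - w_i e_m`, `ξ·w = 0`), so `D i ∈ Usub`,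
`D m = 0`, `T i := tval (D i)`. As `C = ∑ e_i ⊗ D_i + w ⊗ C_m = ∑ D_i ⊗ e_i + C_m ⊗ w`, we get for
`|p| + |q| = 2` (`W p q := ∑ j, w j * kval lam (C m) (p ++ [j]) q`,
`W' p q := ∑ j, w j * kval lam (C m) p (j :: q)`):
`W p q - W' p q = 2 * (-1)^|p| * ∑ i, T i * det3 (p ++ [i] ++ q)`.
Sum this for `p = [a]`, `q = [v]` with the weights `w a`: `∑_a w_a W [a] [v] = 0` because
it is `∑_{k,l} (C m) k l * kval lam (vecMulVec w w) [] [k,l,v] = 0` (as `tval (ww) = 0`); so
`- ∑_a w_a W' [a] [v] = -2 ∑_{a,i} w_a T_i det3 [a,i,v]`.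
And for `p = []`, `q = [b,v]` with the weights `w b`: `∑_b w_b W' [] [b,v] = 0` (it is
`kval lam (ww) [k,l] [v]` summed), so `∑_b w_b W [] [b,v] = 2 ∑_{i,b} T_i w_b det3 [i,b,v]`.
But `∑_a w_a W' [a] [v] = ∑_b w_b W [] [b,v]` (both are `lam (w C_m w v)`). Hence
`4 ∑_{i,b} T_i w_b det3 [i,b,v] = 0` for all `v`: `T × w = 0`, i.e. `T i w j = T j w i`; with
`j = m`: `T i = T m w i = 0` (`T m = 0`). Finally for `ξ·w = 0`: `∑ ξ_i C_i = ∑ ξ_i D_i`, so
`tval (∑ ξ_i C_i) = ∑ ξ_i T_i = 0`.
-/

namespace JD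

universe u v w

theorem C5Sym_shift {F : Type u} [Field F] (lam : List (Fin 3) → F)
    (C D : Fin 3 → Matrix (Fin 3) (Fin 3) F) (hCD : ∀ i j k, C i j k = D k i j)
    (p q : List (Fin 3)) :
    ∑ i, kval lam (C i) (p ++ [i]) q = ∑ i, kval lam (D i) p (i :: q) := by
  simp only [kval]
  have h1 : ∑ i : Fin 3, ∑ a : Fin 3, ∑ b : Fin 3, D i a b * lam (p ++ [a, b] ++ i :: q) =
      ∑ a : Fin 3, ∑ b : Fin 3, ∑ i : Fin 3, D i a b * lam (p ++ [a, b] ++ i :: q) := by
    rw [Finset.sum_comm]
    exact Finset.sum_congr rfl fun a _ => Finset.sum_comm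
  rw [h1]
  refine Finset.sum_congr rfl fun i _ => Finset.sum_congr rfl fun a _ =>
    Finset.sum_congr rfl fun b _ => ?_
  rw [hCD]
  congr 2
  simp

theorem C5Sym_kval_sub_smul {F : Type u} [Field F] (lam : List (Fin 3) → F) (c : F)
    (k k' : Matrix (Fin 3) (Fin 3) F) (p q : List (Fin 3)) :
    kval lam (k - c • k') p q = kval lam k p q - c * kval lam k' p q := by
  rw [sub_eq_add_neg, ← neg_smul, kval_add, kval_smul]
  ring

theorem tval_eq_zero_of_sym {F : Type u} [Field F] (h2 : (2 : F) ≠ 0) (lam : List (Fin 3) → F)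
    (C : Fin 3 → Matrix (Fin 3) (Fin 3) F) (hC1 : ∀ i j k, C i j k = C j i k)
    (hC2 : ∀ i j k, C i j k = C i k j) (hC : ∀ i, C i ∈ Usub lam) (i : Fin 3) :
    tval lam (C i) = 0 := by
  have key : ∀ b c : Fin 3, 2 * ∑ i, tval lam (C i) * det3 F [i, b, c] = 0 := by
    intro b c
    have h := C5Sym_shift lam C C (fun i j k => by rw [hC2, hC1]) [] [b, c]
    have e1 : ∀ i, kval lam (C i) ([] ++ [i]) [b, c] = - (tval lam (C i) * det3 F [i, b, c]) := by
      intro i
      have := (mem_Usub.1 (hC i)).rel ([] ++ [i]) [b, c] rfl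
      rw [this]
      simp
    have e2 : ∀ i, kval lam (C i) [] (i :: [b, c]) = tval lam (C i) * det3 F [i, b, c] := by
      intro i
      have := (mem_Usub.1 (hC i)).rel [] (i :: [b, c]) rfl
      rw [this]
      simp
    simp only [e1, e2] at h
    rw [Finset.sum_neg_distrib] at h
    linear_combination -h
  have key' : ∀ b c : Fin 3, ∑ i, tval lam (C i) * det3 F [i, b, c] = 0 := fun b c =>
    (mul_eq_zero.1 (key b c)).resolve_left h2
  have k0 := key' 1 2
  have k1 := key' 2 0
  have k2 := key' 0 1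
  simp [det3] at k0 k1 k2
  fin_cases i
  · exact k0
  · exact k1
  · exact k2

theorem C5Sym_aux {F : Type u} [Field F] (h2 : (2 : F) ≠ 0) (lam : List (Fin 3) → F)
    (w : Fin 3 → F) (hw : Matrix.vecMulVec w w ∈ Usub lam)
    (C : Fin 3 → Matrix (Fin 3) (Fin 3) F) (hC1 : ∀ i j k, C i j k = C j i k)
    (hC2 : ∀ i j k, C i j k = C i k j)
    (hC : ∀ ξ : Fin 3 → F, ∑ i, ξ i * w i = 0 → ∑ i, ξ i • C i ∈ Usub lam)
    (m : Fin 3) (hm : w m = 1)
    (ξ : Fin 3 → F) (hξ : ∑ i, ξ i * w i = 0) :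
    tval lam (∑ i, ξ i • C i) = 0 := by
  -- the tensor `w ⊗ w ⊗ w`
  have hww : tval lam (Matrix.vecMulVec w w) = 0 := by
    have h := tval_eq_zero_of_sym h2 lam (fun i => w i • Matrix.vecMulVec w w)
      (fun i j k => by simp only [Matrix.smul_apply, Matrix.vecMulVec_apply, smul_eq_mul]; ring)
      (fun i j k => by simp only [Matrix.smul_apply, Matrix.vecMulVec_apply, smul_eq_mul]; ring)
      (fun i => (Usub lam).smul_mem _ hw) m
    simpa [hm] using h
  have hW0 : ∀ p q : List (Fin 3), p.length + q.length = 3 →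
      kval lam (Matrix.vecMulVec w w) p q = 0 := by
    intro p q hpq
    rw [(mem_Usub.1 hw).rel p q hpq, hww]
    ring
  -- the tensor `D`
  have hD : ∀ i, C i - w i • C m ∈ Usub lam := by
    intro i
    have h := hC (fun j => (if j = i then 1 else 0) - w i * (if j = m then 1 else 0)) (by
      simp [sub_mul, Finset.sum_sub_distrib, hm])
    have e : ∑ j, ((if j = i then (1 : F) else 0) - w i * (if j = m then 1 else 0)) • C j =
        C i - w i • C m := by
      simp [sub_smul, Finset.sum_sub_distrib]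
    rwa [e] at h
  set T : Fin 3 → F := fun i => tval lam (C i - w i • C m) with hT
  have hTm : T m = 0 := by
    simp [hT, hm]
  have hWW : ∀ p q : List (Fin 3), p.length + q.length = 2 →
      ∑ i, w i * kval lam (C m) (p ++ [i]) q - ∑ i, w i * kval lam (C m) p (i :: q) =
        2 * (-1) ^ p.length * ∑ i, T i * det3 F (p ++ i :: q) := by
    intro p q hpq
    have h := C5Sym_shift lam C C (fun i j k => by rw [hC2, hC1]) p q
    have e1 : ∀ i, kval lam (C i) (p ++ [i]) q =
        (-1) ^ (p.length + 1) * T i * det3 F (p ++ i :: q) + w i * kval lam (C m) (p ++ [i]) q := by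
      intro i
      have h1 := (mem_Usub.1 (hD i)).rel (p ++ [i]) q (by
        rw [List.length_append, List.length_singleton]; omega)
      rw [C5Sym_kval_sub_smul, List.length_append, List.length_singleton, List.append_assoc,
        List.singleton_append] at h1
      linear_combination h1
    have e2 : ∀ i, kval lam (C i) p (i :: q) =
        (-1) ^ p.length * T i * det3 F (p ++ i :: q) + w i * kval lam (C m) p (i :: q) := by
      intro i
      have h1 := (mem_Usub.1 (hD i)).rel p (i :: q) (by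
        rw [List.length_cons]; omega)
      rw [C5Sym_kval_sub_smul] at h1
      linear_combination h1
    simp only [e1, e2, Finset.sum_add_distrib] at h
    rw [Finset.mul_sum]
    have e3 : ∑ i, (-1) ^ (p.length + 1) * T i * det3 F (p ++ i :: q) =
        - ∑ i, (-1) ^ p.length * T i * det3 F (p ++ i :: q) := by
      rw [← Finset.sum_neg_distrib]
      exact Finset.sum_congr rfl fun i _ => by ring
    have e4 : ∑ i, 2 * (-1) ^ p.length * (T i * det3 F (p ++ i :: q)) =
        2 * ∑ i, (-1) ^ p.length * T i * det3 F (p ++ i :: q) := by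
      rw [Finset.mul_sum]
      exact Finset.sum_congr rfl fun i _ => by ring
    rw [e4]
    rw [e3] at h
    linear_combination h
  have hY : ∀ v : Fin 3, ∑ i, ∑ b, T i * w b * det3 F [i, b, v] = 0 := by
    intro v
    have hA : ∀ a, _ := fun a => hWW [a] [v] rfl
    have hB : ∀ b, _ := fun b => hWW [] [b, v] rfl
    have a1 : ∑ a, w a * ∑ i, w i * kval lam (C m) ([a] ++ [i]) [v] = 0 := by
      have : ∑ a, w a * ∑ i, w i * kval lam (C m) ([a] ++ [i]) [v] =
          ∑ k, ∑ l, C m k l * kval lam (Matrix.vecMulVec w w) [] [k, l, v] := by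
        simp only [kval, Fin.sum_univ_three, Matrix.vecMulVec_apply, List.nil_append,
          List.cons_append]
        ring
      rw [this]
      exact Finset.sum_eq_zero fun k _ => Finset.sum_eq_zero fun l _ => by
        rw [hW0 [] [k, l, v] rfl, mul_zero]
    have b1 : ∑ b, w b * ∑ i, w i * kval lam (C m) [] (i :: [b, v]) = 0 := by
      have : ∑ b, w b * ∑ i, w i * kval lam (C m) [] (i :: [b, v]) =
          ∑ k, ∑ l, C m k l * kval lam (Matrix.vecMulVec w w) [k, l] [v] := by
        simp only [kval, Fin.sum_univ_three, Matrix.vecMulVec_apply, List.nil_append,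
          List.cons_append]
        ring
      rw [this]
      exact Finset.sum_eq_zero fun k _ => Finset.sum_eq_zero fun l _ => by
        rw [hW0 [k, l] [v] rfl, mul_zero]
    have c1 : ∑ a, w a * ∑ i, w i * kval lam (C m) [a] (i :: [v]) =
        ∑ b, w b * ∑ i, w i * kval lam (C m) ([] ++ [i]) [b, v] := by
      simp only [kval, Fin.sum_univ_three, List.nil_append, List.cons_append]
      ring
    have hA' : ∑ a, w a * ∑ i, w i * kval lam (C m) ([a] ++ [i]) [v] -
        ∑ a, w a * ∑ i, w i * kval lam (C m) [a] (i :: [v]) =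
        ∑ a, w a * (2 * (-1) ^ 1 * ∑ i, T i * det3 F ([a] ++ i :: [v])) := by
      rw [← Finset.sum_sub_distrib]
      refine Finset.sum_congr rfl fun a _ => ?_
      rw [← mul_sub, hA a]
      rfl
    have hB' : ∑ b, w b * ∑ i, w i * kval lam (C m) ([] ++ [i]) [b, v] -
        ∑ b, w b * ∑ i, w i * kval lam (C m) [] (i :: [b, v]) =
        ∑ b, w b * (2 * (-1) ^ 0 * ∑ i, T i * det3 F ([] ++ i :: [b, v])) := by
      rw [← Finset.sum_sub_distrib]
      refine Finset.sum_congr rfl fun b _ => ?_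
      rw [← mul_sub, hB b]
      rfl
    rw [a1] at hA'
    rw [b1, ← c1] at hB'
    have hsum : ∑ a, w a * (2 * (-1) ^ 1 * ∑ i, T i * det3 F ([a] ++ i :: [v])) =
        2 * ∑ i, ∑ b, T i * w b * det3 F [i, b, v] := by
      simp only [Fin.sum_univ_three, List.nil_append, List.cons_append]
      fin_cases v <;> simp [det3] <;> ring
    have hsum' : ∑ b, w b * (2 * (-1) ^ 0 * ∑ i, T i * det3 F ([] ++ i :: [b, v])) =
        2 * ∑ i, ∑ b, T i * w b * det3 F [i, b, v] := by
      simp only [Fin.sum_univ_three, List.nil_append]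
      ring
    rw [hsum] at hA'
    rw [hsum'] at hB'
    have h4 : 2 * (2 * ∑ i, ∑ b, T i * w b * det3 F [i, b, v]) = 0 := by
      linear_combination -hA' - hB'
    exact (mul_eq_zero.1 ((mul_eq_zero.1 h4).resolve_left h2)).resolve_left h2
  have hTw : ∀ i j, T i * w j = T j * w i := by
    have y0 := hY 0
    have y1 := hY 1
    have y2 := hY 2
    simp [det3, Fin.sum_univ_three] at y0 y1 y2
    intro i j
    fin_cases i <;> fin_cases j <;> simp <;> first | linear_combination y0 | linear_combination y1 | linear_combination y2 | linear_combination -y0 | linear_combination -y1 | linear_combination -y2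
  have hT0 : ∀ i, T i = 0 := by
    intro i
    have h := hTw i m
    rw [hm, hTm, mul_one, zero_mul] at h
    exact h
  have e : ∑ i, ξ i • C i = ∑ i, ξ i • (C i - w i • C m) := by
    have : ∑ i, ξ i • (w i • C m) = 0 := by
      simp only [smul_smul]
      rw [← Finset.sum_smul, hξ, zero_smul]
    simp only [smul_sub, Finset.sum_sub_distrib]
    rw [this, sub_zero]
  rw [e, map_sum]
  refine Finset.sum_eq_zero fun i _ => ?_
  rw [map_smul]
  have := hT0 i
  simp only [hT] at this
  rw [this, smul_zero]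

theorem tval_eq_zero_of_symW {F : Type u} [Field F] (h2 : (2 : F) ≠ 0) (lam : List (Fin 3) → F)
    (w : Fin 3 → F) (hw : Matrix.vecMulVec w w ∈ Usub lam)
    (C : Fin 3 → Matrix (Fin 3) (Fin 3) F) (hC1 : ∀ i j k, C i j k = C j i k)
    (hC2 : ∀ i j k, C i j k = C i k j)
    (hC : ∀ ξ : Fin 3 → F, ∑ i, ξ i * w i = 0 → ∑ i, ξ i • C i ∈ Usub lam)
    (ξ : Fin 3 → F) (hξ : ∑ i, ξ i * w i = 0) :
    tval lam (∑ i, ξ i • C i) = 0 := by
  by_cases h : ∃ m, w m ≠ 0
  · obtain ⟨m, hm⟩ := h
    have hmm : (w m)⁻¹ * w m = 1 := inv_mul_cancel₀ hm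
    have scale : ∀ η : Fin 3 → F, ∑ i, η i * ((w m)⁻¹ • w) i = (w m)⁻¹ * ∑ i, η i * w i := by
      intro η
      rw [Finset.mul_sum]
      exact Finset.sum_congr rfl fun i _ => by
        rw [Pi.smul_apply, smul_eq_mul]; ring
    refine C5Sym_aux h2 lam ((w m)⁻¹ • w) ?_ C hC1 hC2 ?_ m ?_ ξ ?_
    · have e : Matrix.vecMulVec ((w m)⁻¹ • w) ((w m)⁻¹ • w) =
          ((w m)⁻¹ * (w m)⁻¹) • Matrix.vecMulVec w w := by
        ext i j
        simp only [Matrix.vecMulVec_apply, Matrix.smul_apply, Pi.smul_apply, smul_eq_mul]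
        ring
      rw [e]
      exact (Usub lam).smul_mem _ hw
    · intro η hη
      apply hC
      rw [scale] at hη
      exact (mul_eq_zero.1 hη).resolve_left (inv_ne_zero hm)
    · rw [Pi.smul_apply, smul_eq_mul, hmm]
    · rw [scale, hξ, mul_zero]
  · push Not at h
    have hall : ∀ i, C i ∈ Usub lam := by
      intro i
      have h1 := hC (fun j => if j = i then 1 else 0) (by simp [h])
      simpa using h1
    rw [map_sum]
    refine Finset.sum_eq_zero fun i _ => ?_
    rw [map_smul, tval_eq_zero_of_sym h2 lam C hC1 hC2 hall i, smul_zero]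

end JD
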