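import Pool.Agent.H8.JD.C5Exc
import Pool.Agent.H8.JD.C5Sym
import Pool.Agent.H8.JD.C5Mlx
import Pool.Agent.H8.JD.C5NFA
import Pool.Agent.H8.JD.C5NFB
import Pool.Agent.H8.JD.C5NFC
import Pool.Agent.H8.JD.C5P1
import Pool.Agent.H8.JD.C5P2
import Pool.Agent.H8.JD.C5Bound

set_option autoImplicit false

/-!
# JD class 5, three generators: conclusion

PROOF. Generators `x : Fin 3 → J` (`exists_gens`, transport along `ngen F J = 3`), S-system
`exists_SSys7` (`J^8 ≤ J^6 = 0`; `hfilt` with `filt_jpow` and `wt_one` gives `S w ∈ J^|w|`), `φ` linear with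
`φ e = 1` (`exists_dual_forall_apply_eq_one`-style: extend from the span of `e`), so `C5J F J x S φ`;
`lam w = φ (S w)`. `C5J.exc`: some `k ∈ Usub lam` has `t ≠ 0` (`InU.t_eq`, `InU.mem`).
(1) `3 ≤ finrank (Usub lam)`: `nfA` (with `t = tval lam`, `tval_eq_zero_of_sym`,
`tval_eq_zero_of_symW`), `nfB`, `nfC` give `x', l', z', μ, c`. Let `g = ![x', l', z']`,
`S' = mlx g S`, an S-system for `y i = ∑ j, g i j • x j` (`SSys.mlx`), `φ ∘ S' = mlx g lam`
(`map_mlx`). By `InU.mlx` with `k = RM0 μ, RM1 F, RM2 c` (`∑ ∑ k i j * g i a * g j b` is the matrix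
`sy x' l' - (2 μ) • sq x'`, `sy l' z'`, `sq z' - c • sq l'`), the relations hold for `φ ∘ S'` with the
obstructions `tval(..) * det g ≠ 0`, `0`, `0` (`det g ≠ 0`: rows independent). `nf_bound`:
`dlay 2 ≥ 3`, `dlay 3 + dlay 4 ≥ 5`; `finrank_eq_layers` with `ngen = 3`, `jpow 5 = F e` (dimension 1):
`finrank J ≥ 3 + 3 + 5 + 1 = 12 > 11`, contradiction to `hcr.dim`.
(2) `finrank (Usub lam) ≤ 2`: `C5J.d2`: `dlay 2 ≥ 4`; `C5J.d4`: `dlay 4 ≥ 1`; so
`dlay 3 + dlay 4 ≤ 11 - 3 - 4 - 1 = 3`. If `dlay 3 ≤ 1`: `C5J.P1` contradicts `t ≠ 0`. Otherwise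
`dlay 3 = 2`, `dlay 4 = 1`: `C5J.P2` contradicts `t ≠ 0`.
-/

namespace JD

universe u v w

private theorem C5Main_gens {F : Type u} [Field F] {J : Type u}
    [NonUnitalNonAssocCommRing J] [Module F J]
    [IsScalarTower F J J] [SMulCommClass F J J] [Module.Finite F J] (hnil : IsNilpotentAlg F J)
    (m : ℕ) (hm : ngen F J = m) : ∃ x : Fin m → J, Gens F J x := by
  subst hm
  exact exists_gens hnil

private theorem C5Main_det {F : Type u} [Field F] (x l z : Fin 3 → F)
    (h : LinearIndependent F ![x, l, z]) : Matrix.det (Matrix.of ![x, l, z]) ≠ 0 := by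
  have h1 : LinearIndependent F (Matrix.of ![x, l, z]).row := h
  have h2 := Matrix.linearIndependent_rows_iff_isUnit.1 h1
  have h3 := (Matrix.isUnit_iff_isUnit_det _).1 h2
  exact h3.ne_zero

private theorem C5Main_RM0 {F : Type u} [Field F] (x l z : Fin 3 → F) (μ : F) :
    (fun a b => ∑ i, ∑ j, RM0 μ i j * (![x, l, z] : Fin 3 → Fin 3 → F) i a *
      (![x, l, z] : Fin 3 → Fin 3 → F) j b) = sy x l - (2 * μ) • sq x := by
  funext a b
  simp [Fin.sum_univ_three, RM0, sy, sq, Matrix.vecMulVec_apply]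
  ring

private theorem C5Main_RM1 {F : Type u} [Field F] (x l z : Fin 3 → F) :
    (fun a b => ∑ i, ∑ j, RM1 F i j * (![x, l, z] : Fin 3 → Fin 3 → F) i a *
      (![x, l, z] : Fin 3 → Fin 3 → F) j b) = sy l z := by
  funext a b
  simp [Fin.sum_univ_three, RM1, sy, Matrix.vecMulVec_apply]

private theorem C5Main_RM2 {F : Type u} [Field F] (x l z : Fin 3 → F) (c : F) :
    (fun a b => ∑ i, ∑ j, RM2 c i j * (![x, l, z] : Fin 3 → Fin 3 → F) i a *
      (![x, l, z] : Fin 3 → Fin 3 → F) j b) = sq z - c • sq l := by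
  funext a b
  simp [Fin.sum_univ_three, RM2, sq, Matrix.vecMulVec_apply]
  ring

private theorem C5Main_RM0_symm {F : Type u} [Field F] (μ : F) (a b : Fin 3) :
    RM0 μ a b = RM0 μ b a := by
  fin_cases a <;> fin_cases b <;> simp [RM0]

private theorem C5Main_RM1_symm {F : Type u} [Field F] (a b : Fin 3) :
    RM1 F a b = RM1 F b a := by
  fin_cases a <;> fin_cases b <;> simp [RM1]

private theorem C5Main_RM2_symm {F : Type u} [Field F] (c : F) (a b : Fin 3) :
    RM2 c a b = RM2 c b a := by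
  fin_cases a <;> fin_cases b <;> simp [RM2]

theorem class5_three {F : Type u} [Field F] [IsAlgClosed F] {J : Type u}
    [NonUnitalNonAssocCommRing J] [Module F J]
    [IsScalarTower F J J] [SMulCommClass F J J] {e : J} (hcr : Crit F J 5 e)
    (hn : ngen F J = 3) : False := by
  classical
  have hfin : Module.Finite F J := hcr.fin
  have h2 := hcr.two
  have hnil : IsNilpotentAlg F J := ⟨6, by norm_num, hcr.bot⟩
  obtain ⟨x, hx⟩ := C5Main_gens hnil 3 hn
  have h8 : jpow F J 8 = ⊥ := by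
    rw [eq_bot_iff, ← hcr.bot]
    exact jpow_anti (by omega)
  obtain ⟨S, hS, hfilt, -, hspan⟩ := exists_SSys7 h2 hcr.jordan h8 x
  have hmem : ∀ w : List (Fin 3), w ≠ [] → S w ∈ jpow F J w.length := by
    intro w hw
    have h := hfilt (fun _ => 1) (jpow F J) (filt_jpow x) w hw
    rwa [wt_one] at h
  obtain ⟨φ, hφ⟩ : ∃ φ : J →ₗ[F] F, φ e ≠ 0 := by
    by_contra hcon
    push Not at hcon
    exact hcr.ne ((Module.forall_dual_apply_eq_zero_iff F e).1 hcon)
  have h : C5J F J x S φ := ⟨h2, hfin, hcr.bot, hS, hmem, hspan hx.gen, hx.indep⟩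
  obtain ⟨k, t, ht, hk⟩ := h.exc e hcr.ne hcr.top hφ hcr.mem hcr.exc
  have hdim := finrank_eq_layers (F := F) (J := J)
  have h5 : Module.finrank F (jpow F J 5) = 1 := by
    rw [hcr.top]
    exact finrank_span_singleton hcr.ne
  rw [hn, h5] at hdim
  have hle := hcr.dim
  obtain ⟨lam, hlam⟩ : ∃ lam : List (Fin 3) → F, lam = fun w => φ (S w) := ⟨_, rfl⟩
  have hk' := hk
  rw [← hlam] at hk'
  rcases Nat.lt_or_ge (Module.finrank F (Usub lam)) 3 with hU | hU
  · -- at most two relations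
    have hU2 : Module.finrank F (Usub (fun w => φ (S w))) ≤ 2 := by
      rw [← hlam]
      omega
    have hd2 := h.d2
    have hd4 := h.d4 (by
      intro h0
      rw [h0, finrank_bot] at h5
      omega)
    rcases Nat.lt_or_ge (dlay F J 3) 2 with h3 | h3
    · exact ht (h.P1 (by omega) k t hk)
    · exact ht (h.P2 (by omega) (by omega) hU2 k t hk)
  · -- three relations
    have hsymm : ∀ k ∈ Usub lam, ∀ a b, k a b = k b a := fun k hk => (mem_Usub.1 hk).symm
    have htk : ∃ k ∈ Usub lam, tval lam k ≠ 0 :=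
      ⟨k, hk'.mem, by rw [← hk'.t_eq]; exact ht⟩
    have hSym : SymCond (Usub lam) (tval lam) := fun C hC1 hC2 hC i =>
      tval_eq_zero_of_sym h2 lam C hC1 hC2 hC i
    have hSymW : SymWCond (Usub lam) (tval lam) := fun w hw C hC1 hC2 hC ξ hξ =>
      tval_eq_zero_of_symW h2 lam w hw C hC1 hC2 hC ξ hξ
    obtain ⟨x0, a, b, k1, k2, hind, hk1, hk2, hk10, hk20, hkind, hf1, hf2⟩ :=
      nfA h2 (Usub lam) (tval lam) hsymm hU htk hSym hSymW
    obtain ⟨l, z, c, hc, hind', hlz, hz⟩ := nfB h2 x0 a b k1 k2 hind hkind hf1 hf2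
    have hspan2 : Submodule.span F {k1, k2} ≤ Usub lam ⊓ LinearMap.ker (tval lam) := by
      rw [Submodule.span_le]
      rintro y (rfl | hy)
      · exact ⟨hk1, hk10⟩
      · rw [Set.mem_singleton_iff] at hy
        subst hy
        exact ⟨hk2, hk20⟩
    obtain ⟨x', l', z', μ, hμ, hind'', r0, r0', r1, r1', r2, r2'⟩ :=
      nfC h2 (Usub lam) (tval lam) hsymm htk hSym x0 l z c hc hind' (hspan2 hlz).1 (hspan2 hlz).2
        (hspan2 hz).1 (hspan2 hz).2
    have hdet := C5Main_det x' l' z' hind''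
    have hmap : (fun w => φ (JD.mlx (![x', l', z'] : Fin 3 → Fin 3 → F) S w)) =
        JD.mlx (![x', l', z'] : Fin 3 → Fin 3 → F) lam := by
      funext w
      rw [map_mlx, hlam]
    have hR0 := InU.mlx lam (![x', l', z'] : Fin 3 → Fin 3 → F) (RM0 μ) (C5Main_RM0_symm μ)
      (tval lam (sy x' l' - (2 * μ) • sq x')) (by
        rw [C5Main_RM0]
        exact r0)
    have hR1 := InU.mlx lam (![x', l', z'] : Fin 3 → Fin 3 → F) (RM1 F) C5Main_RM1_symm
      (tval lam (sy l' z')) (by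
        rw [C5Main_RM1]
        exact r1)
    have hR2 := InU.mlx lam (![x', l', z'] : Fin 3 → Fin 3 → F) (RM2 c) (C5Main_RM2_symm c)
      (tval lam (sq z' - c • sq l')) (by
        rw [C5Main_RM2]
        exact r2)
    rw [r1', zero_mul, ← hmap] at hR1
    rw [r2', zero_mul, ← hmap] at hR2
    rw [← hmap] at hR0
    have hb := nf_bound h2 (hS.mlx (![x', l', z'] : Fin 3 → Fin 3 → F)) hcr.bot φ μ c _ hμ hc
      (mul_ne_zero r0' hdet) hR0 hR1 hR2
    omega

end JD
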