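import Mathlib

set_option autoImplicit false

/-!
# JD class 5: normal form of the space of relations (pure linear algebra)

`sq a = a a^T`, `sy a b = a b^T + b a^T`. `U` is a space of symmetric `3 × 3` matrices
(quadrics), `t` a linear form; `hSym`, `hSymW` are the syzygy conditions.

## nfA
(1) Choose `k0 ∈ U` with `t k0 = 1` and a 2-dimensional `K ≤ U ⊓ ker t`; `U' = F k0 + K` has dimension 3.
(2) The space `T` of totally symmetric arrays `C : Fin 3 → Fin 3 → Fin 3 → F` has dimension 10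
(`≥ 10` is enough); the linear map `C ↦ (C i mod U')_i`, `T → (Sym / U')^3`, has a target of dimension
`3 * 3 = 9`, so there is `C ≠ 0` with all `C i ∈ U'` (`Sym` = symmetric matrices, dimension 6).
By `hSym` all `t (C i) = 0`, so `C i ∈ K`.
(3) `ξ ↦ C_ξ = ∑ ξ_i C_i` maps `F^3` to the 2-dimensional `K`: there is `ξ ≠ 0` with `C_ξ = 0`. By
the symmetry of `C` every `C_η` is killed by `ξ` (`∑ j, ξ j * C_η j k = 0`), so `C_η` is a symmetric
matrix in `S²L`, `L = ξ^⊥ = {v | ξ·v = 0}` (dimension 2).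
(4) If the map `ξ ↦ C_ξ` has rank 2 then `K = {C_ξ} ≤ S²L`: done (`a, b` a basis of `L`,
`x ∉ L`; a symmetric matrix killed by `ξ` is `α sq a + β sy a b + γ sq b`).
(5) If the rank is 1: `C_ξ = χ(ξ) s`, and the symmetry of `C` gives `s = c • sq w`, `C = c' w⊗w⊗w`, `w ≠ 0`.
So `sq w ∈ K`. Let `T_w` = all `C ∈ T` with `C_ξ ∈ U'` for all `ξ ∈ w^⊥`: `2 * 3 = 6` conditions, so
`dim T_w ≥ 4`. By `hSymW` `C_ξ ∈ K` for `C ∈ T_w`, `ξ ∈ w^⊥`.
   (5a) Suppose some `C ∈ T_w` and `η ∈ w^⊥` have `C_η ∉ F sq w`. Then `K = ⟨sq w, C_η⟩`. The map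
   `w^⊥ → K / F sq w`, `ξ ↦ C_ξ`, has a kernel of dimension `≥ 1`: there is `ξ ∈ w^⊥`, `ξ ≠ 0`,
   `C_ξ = c sq w`. Then `C_η` is killed by `ξ`: `C_η(ξ,·) = C_ξ(η,·) = c (η·w) w = 0`; also `sq w` is killed
   by `ξ`. So `K ≤ S²L` with `L = ξ^⊥`: done.
   (5b) Otherwise `C_ξ ∈ F sq w` for all `C ∈ T_w`, `ξ ∈ w^⊥`. The map `C ↦ (C_ξ)_ξ`,
   `T_w → Hom(w^⊥, F sq w)` (dimension 2) has a kernel of dimension `≥ 2`, consisting of the `C` with
   `C_ξ = 0` for `ξ ∈ w^⊥`, which are the multiples of `w⊗w⊗w` (dimension 1): contradiction.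

## nfB
`K = span {k1, k2}` is 2-dimensional in the 3-dimensional space of binary quadrics
`α sq a + β sy a b + γ sq b`. (i) `K` contains a nonzero square `sq a'`, `a' ∈ ⟨a,b⟩` (the
discriminant `αγ - β²` is a quadratic form in two variables and `F` is algebraically closed; a binary
quadric with `αγ = β²` is a square as `F` has square roots). Choose `b'` with `⟨a',b'⟩ = ⟨a,b⟩`. Then
`K = ⟨sq a', k⟩` with `k = β sy a' b' + γ sq b'`. (ii) `γ = 0`: `K = ⟨sq a', sy a' b'⟩`: take `z = a'`,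
`l = b'`, `c = 0`. (iii) `γ ≠ 0`: `k / γ + (β/γ)² sq a' = sq (b' + (β/γ) a')`, so `K = ⟨sq a', sq b''⟩`;
take `l = a' + b''`, `z = i (a' - b'')`, `i² = -1`, `c = 1`: `sy l z = 2 i (sq a' - sq b'')`,
`sq z - sq l = - 2 (sq a' + sq b'')`.

## nfC
`k0 = γ sq x + sy x v + s`, `v ∈ ⟨l,z⟩`, `s` a binary quadric in `l, z`; modulo `sy l z`,
`sq z - c sq l` (which lie in `U` with `t = 0`) we may assume `s = σ sq l`. All replacements below
keep: `sy l z, sq z - c sq l ∈ U ⊓ ker t`, `t k0 ≠ 0`.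
CASE `γ ≠ 0`: `γ = 1`; `x ← x + v`: `k0 = sq x + s'`, again `s' = σ sq l`. `σ = 0` is impossible
(`hSym` for `x⊗x⊗x`, i.e. `C i = x i • sq x`). `σ = s²`, `i² = -1`: with `x' = x + i s l`, `f = -2 i s`,
`l' = f l`, `z' = f z`: `sy x' l' + 2 sq x' = 2 (sq x + σ sq l) = 2 k0`: the form with `μ = -1`.
CASE `γ = 0`, `v = α l + β z`.
 `c = 0`: if `α ≠ 0`: `l ← v`: `sy v z = α sy l z + 2 β sq z ∈ U`, `sq l ≡ α^-2 sq v` modulo
   `⟨sy l z, sq z⟩`; so `k0 ≡ sy x l' + σ' sq l'`, `x ← x + (σ'/2) l'`: `μ = 0`.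
   If `α = 0`, `β ≠ 0`: `k0 ≡ β sy x z + σ sq l`; scale `x`: `k0 = sy x z + σ sq l` contradicts `hSym` for
   `C = (zzx + zxz + xzz) + σ (zll + lzl + llz)` (`C_ξ = ξ(z) k0 + ξ(x) sq z + ξ(l) σ sy l z`).
   If `v = 0`: `k0 ≡ σ sq l` contradicts `hSym` for `l⊗l⊗l`.
 `c = 1`: put `a = (l - i z)/2`, `b = (l + i z)/2`: `sq a, sq b ∈ U ⊓ ker t`, `l = a + b`,
   `z = i (a - b)`, `v = α a + β b`. If `α ≠ 0 ≠ β`: `a' = α a`, `b' = β b`, `l' = a' + b' = v`,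
   `z' = i (a' - b')`: `k0 ≡ sy x l' + σ' sq l'` (binary quadrics modulo `sq a', sq b'` are multiples of
   `sy a' b' ≡ sq l'`), `x ← x + (σ'/2) l'`: `μ = 0`. If `β = 0 ≠ α`: `k0 ≡ α sy x a + σ sy a b
   = sy a (α x + σ b) =: sy a x'` (`sq l ≡ sy a b`), contradiction to `hSym` for `C = a a x' + a x' a + x' a a`
   (`C_ξ = ξ(a) sy a x' + ξ(x') sq a`). The same for `α = 0 ≠ β`. `v = 0`: `k0 ≡ σ sq l`;
   contradiction to `hSym` for `l⊗l⊗l`.
-/

namespace JD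

universe u

section

variable {F : Type u} [Field F]

/-- `a a^T` -/
def sq (a : Fin 3 → F) : Matrix (Fin 3) (Fin 3) F := Matrix.vecMulVec a a

/-- `a b^T + b a^T` -/
def sy (a b : Fin 3 → F) : Matrix (Fin 3) (Fin 3) F := Matrix.vecMulVec a b + Matrix.vecMulVec b a

/-- the first syzygy condition -/
def SymCond (U : Submodule F (Matrix (Fin 3) (Fin 3) F))
    (t : Matrix (Fin 3) (Fin 3) F →ₗ[F] F) : Prop :=
  ∀ C : Fin 3 → Matrix (Fin 3) (Fin 3) F, (∀ i j k, C i j k = C j i k) →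
    (∀ i j k, C i j k = C i k j) → (∀ i, C i ∈ U) → ∀ i, t (C i) = 0

/-- the second syzygy condition -/
def SymWCond (U : Submodule F (Matrix (Fin 3) (Fin 3) F))
    (t : Matrix (Fin 3) (Fin 3) F →ₗ[F] F) : Prop :=
  ∀ w : Fin 3 → F, Matrix.vecMulVec w w ∈ U →
    ∀ C : Fin 3 → Matrix (Fin 3) (Fin 3) F, (∀ i j k, C i j k = C j i k) →
    (∀ i j k, C i j k = C i k j) →
    (∀ ξ : Fin 3 → F, ∑ i, ξ i * w i = 0 → ∑ i, ξ i • C i ∈ U) →
    ∀ ξ : Fin 3 → F, ∑ i, ξ i * w i = 0 → t (∑ i, ξ i • C i) = 0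

end

end JD
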