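import Mathlib

set_option autoImplicit false

/-!
# JD class 5: linear algebra for the normal form (pure)

`A, …, G, a, b, g` are vectors in `F^3` (in the paper: `a = at`, `b = bh`, `g = gt`),
`R` the nine rows (`sx, sl, sz, mx, ml, mz, qx, ql, qz`). Put `d4 = finrank (span vectors)`,
`d3 = finrank (span rows)`. CLAIM `d3 + d4 ≥ 5`. As `b 1 = 1`, `d4 ≥ 1`.
It follows from (a) `d3 ≥ 2`, (b) `d3 ≤ 2 → d4 ≤ 1`, (c) `d4 ≤ 1 → d3 ≥ 4`.

(a) `sl, ml` are independent: `σ sl + ρ ml = 0`: third block `-2σ b = 0`, so `σ = 0`. If `ρ ≠ 0`: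
`ml = 0`: `μB + b = 0`, `E + 2μ b = 0`, last entry `E 1 = 0`, so `μ b 1 = 0`, `μ = 0`, `b = 0`:
contradiction.
(b) Suppose `d3 ≤ 2`: every row is `α sl + β ml`. Let `H = F b`.
 `μ = 0`: `sl = (0, D, -2b; ..)`, `ml = (b, E, 0; ..)`, so the first and the third block of every row
 are in `H`: `A, B, C + g, B + a, D, E ∈ H` (first blocks), `C ∈ H` (third block of `mx`), so `g, a ∈ H`.
 `ql = (0, G, 0; ..)`: `α = β = 0`, `G = 0`. So all vectors are in `H`.
 `μ = -1`: `sl = (-A, D, -2b; ..)`, `ml = (b - B, E - 2b, 0; ..)`. Third blocks are in `H`: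
 `B - 2a, cD - 2g, C, E ∈ H`; `E = ε b`. Row `qx = (D, -D, E; ..)`: `α = -ε/2`,
 `-D = αD + β(ε-2) b`.
   If `D ∉ H`: `α = -1`, `ε = 2`, `ml = (b - B, 0, 0; ..)`. Row `sz = (B, 0, cD - 2g; ..)`: second block:
   `α = 0`, first block `B = β(b - B)`. Row `ql = (-D, G, 0; ..)`: `α = 0`, `-D = β'(b - B)`, so
   `β' ≠ 0`, `B ∉ H`; but `(1 + β) B = β b` gives `β = -1` and `b = 0`: contradiction.
   If `D ∈ H`: second blocks are in `H`: `sx`: `A ∈ H`; `mx`: `B + 2a ∈ H`, with `B - 2a ∈ H`:
   `B, a ∈ H`; `ql`: `G ∈ H`; `cD - 2g ∈ H`: `g ∈ H`. All in `H`.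
(c) Suppose `d4 ≤ 1`: all vectors are multiples of `b = (ξ, 1, ζ)`; write `A, …, G, a, g` also for
the coefficients. Relations: `g = -ζ`, `c = g ζ = -ζ²`, `a + ξ - 2μaξ = 0`, so `1 - 2μξ ≠ 0` (else
`ξ = 0`). Rows in the coordinates `(X, Λ, Z | s, m, q)` (blocks are multiples of `b`):
 sx (A, μA, B-2a | ξA, ξB-2aξ, ξD);  sl (μA, D, -2 | A, B-4μaξ, D);
 sz (B, 0, cD-2g | ζA+4aξ, ζB, ζD);  mx (B+a, μB+2μa, C | ξB, ξC-(gξ+aζ), ξE);
 ml (μB+1, E+2μ, 0 | B, C-2μ(gξ+aζ), E);  mz (C+g, 2μg, cE | ζB+2(gξ+aζ), ζC, ζE);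
 qx (D, μD, E | ξD, ξE-2, ξG);  ql (μD, G, 0 | D, E-4μ, G);  qz (E, 0, cG | ζD+4, ζE, ζG).
Put `qx' = qx - ξ ql = (D-ξμD, μD-ξG, E | 0, 4μξ-2, 0)`, `qz' = qz - ζ ql =
(E-ζμD, -ζG, cG | 4, 4μζ, 0)`. They are independent (entries `s, m`).
 If `D = E = G = 0`: `qx' = (0,0,0 | 0, 4μξ-2, 0)`, `qz' = (0,0,0 | 4, 4μζ, 0)`, `sl = (μA, 0, -2 | ..)`,
 `ml = (μB+1, 2μ, 0 | ..)` are four independent rows (for `μ = 0`, `μB+1 = 1`; for `μ = -1`,
 `2μ = -2 ≠ 0`). So `d3 ≥ 4`.
 Otherwise one of the `q`-entries `D, E, G` of `sl, ml, ql` is `≠ 0`, so `d3 ≥ 3`. Suppose `d3 = 3`. Then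
 a combination of the rows with `q`-entry `0` lies in `T0 = ⟨qx', qz'⟩`, and if its entries are
 `s = p`, `m = r` it equals `(p/4) qz' + ((r - μζp)/(4μξ-2)) qx'`; in particular it is `0` if `p = r = 0`.
 `sz' = sz - ζ sl = (B-ζμA, -ζD, -ζ²D+4ζ | 4aξ, 4μaξζ, 0) = aξ qz'`: `ζD = aξζG`,
 `-ζ²D + 4ζ = -aξζ²G`, so `4ζ = 0`. So `ζ = c = g = gξ + aζ = 0`, `B = aξE`. `mz = (C, 0, 0 | 0, 0, 0)`:
 `C = 0`. `sx' = sx - ξ sl = (A-ξμA, μA-ξD, B-2a+2ξ | 0, aξ(4μξ-2), 0) = aξ qx'`:
 `B - 2a + 2ξ = aξE = B`: `a = ξ`, so `ξ(1 - μξ) = 0` by `a + ξ = 2μaξ`.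
 If `ξ = 0`: `a = A = B = C = 0`, `sl = (0, D, -2 | 0, 0, D)`, `ml = (1, E+2μ, 0 | 0, 0, E)`:
 `E sl - D ml = (-D, -2μD, -2E | 0, 0, 0) = 0`: `D = E = 0`, and then `sl = (0, 0, -2 | 0, 0, 0) = 0`:
 contradiction.
 If `μ = -1`, `ξ = a = -1`, `aξ = 1`: `B = E`; the second block of `sx' = qx'` is
 `-A + D = -D + G`, so `A - D = D - G =: δ`. Then `sl - ql = (-δ, δ, -2 | δ, 0, δ)`
 (`B - 4μaξ - (E - 4μ) = 0`) and `ml = (1-E, E-2, 0 | E, 0, E)`:
 `E (sl - ql) - δ ml = (-δ, 2δ, -2E | 0, 0, 0) = 0`, so `δ = 0`, and then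
 `sl - ql = (0, 0, -2 | 0, 0, 0) = 0`: contradiction.
-/

namespace JD

universe u

section

variable {F : Type u} [Field F]

/-- a row: three vectors and three scalars -/
abbrev RowSp (F : Type u) := (Fin 3 → F) × (Fin 3 → F) × (Fin 3 → F) × F × F × F

/-- the nine rows -/
def rows9 (μ c : F) (A B C D E G a b g : Fin 3 → F) : Fin 9 → RowSp F :=
  ![(A, μ • A, B - (2 : F) • a, A 0, B 0 - 2 * a 0, D 0),
    (μ • A, D, - (2 : F) • b, A 1, B 1 - 4 * μ * a 0, D 1),
    (B, 0, c • D - (2 : F) • g, A 2 + 4 * a 0, B 2, D 2),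
    (B + a, μ • B + (2 * μ) • a, C, B 0, C 0 - (g 0 + a 2), E 0),
    (μ • B + b, E + (2 * μ) • b, 0, B 1, C 1 - 2 * μ * (g 0 + a 2), E 1),
    (C + g, (2 * μ) • g, c • E, B 2 + 2 * (g 0 + a 2), C 2, E 2),
    (D, μ • D, E, D 0, E 0 - 2, G 0),
    (μ • D, G, 0, D 1, E 1 - 4 * μ, G 1),
    (E, 0, c • G, D 2 + 4, E 2, G 2)]

/-! ### auxiliary lemmas -/

private theorem C5P5_span2 {V : Type*} [AddCommGroup V] [Module F V] (R : Submodule F V)
    [FiniteDimensional F R] (u v : V) (hu : u ∈ R) (hv : v ∈ R)
    (hli : ∀ s t : F, s • u + t • v = 0 → s = 0 ∧ t = 0) (hR : Module.finrank F R ≤ 2) :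
    ∀ r ∈ R, ∃ α β : F, r = α • u + β • v := by
  have hli' : LinearIndependent F ![u, v] := LinearIndependent.pair_iff.2 hli
  have hle : Submodule.span F (Set.range ![u, v]) ≤ R := by
    rw [Submodule.span_le]
    rintro x ⟨i, rfl⟩
    fin_cases i
    · exact hu
    · exact hv
  have hfin : Module.finrank F (Submodule.span F (Set.range ![u, v])) = 2 := by
    rw [finrank_span_eq_card hli']; simp
  have heq : Submodule.span F (Set.range ![u, v]) = R :=
    Submodule.eq_of_le_of_finrank_le hle (by rw [hfin]; exact hR)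
  intro r hr
  rw [← heq, Submodule.mem_span_range_iff_exists_fun] at hr
  obtain ⟨c, hc⟩ := hr
  refine ⟨c 0, c 1, ?_⟩
  rw [← hc, Fin.sum_univ_two]
  rfl

private theorem C5P5_span3 {V : Type*} [AddCommGroup V] [Module F V] (R : Submodule F V)
    [FiniteDimensional F R] (u v w : V) (hu : u ∈ R) (hv : v ∈ R) (hw : w ∈ R)
    (hli : ∀ s t r : F, s • u + t • v + r • w = 0 → s = 0 ∧ t = 0 ∧ r = 0)
    (hR : Module.finrank F R ≤ 3) :
    ∀ r ∈ R, ∃ α β γ : F, r = α • u + β • v + γ • w := by
  have hli' : LinearIndependent F ![u, v, w] := by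
    rw [Fintype.linearIndependent_iff]
    intro g hg i
    rw [Fin.sum_univ_three] at hg
    obtain ⟨h0, h1, h2⟩ := hli (g 0) (g 1) (g 2) hg
    fin_cases i
    · exact h0
    · exact h1
    · exact h2
  have hle : Submodule.span F (Set.range ![u, v, w]) ≤ R := by
    rw [Submodule.span_le]
    rintro x ⟨i, rfl⟩
    fin_cases i
    · exact hu
    · exact hv
    · exact hw
  have hfin : Module.finrank F (Submodule.span F (Set.range ![u, v, w])) = 3 := by
    rw [finrank_span_eq_card hli']; simp
  have heq : Submodule.span F (Set.range ![u, v, w]) = R :=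
    Submodule.eq_of_le_of_finrank_le hle (by rw [hfin]; exact hR)
  intro r hr
  rw [← heq, Submodule.mem_span_range_iff_exists_fun] at hr
  obtain ⟨c, hc⟩ := hr
  refine ⟨c 0, c 1, c 2, ?_⟩
  rw [← hc, Fin.sum_univ_three]
  rfl

/-- part (b): two rows imply that all vectors are multiples of `b` -/
private theorem C5P5_b (h2 : (2 : F) ≠ 0) (μ c : F) (hμ : μ = 0 ∨ μ = -1)
    (A B C D E G a b g : Fin 3 → F) (r1 : b 1 = 1)
    (hR : Module.finrank F (Submodule.span F (Set.range (rows9 μ c A B C D E G a b g))) ≤ 2) :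
    ∀ v ∈ Set.range ![A, B, C, D, E, G, a, b, g], v ∈ Submodule.span F {b} := by
  have hb0 : b ≠ 0 := by
    intro h; rw [h] at r1; simp at r1
  have hmem : ∀ i, rows9 μ c A B C D E G a b g i ∈
      Submodule.span F (Set.range (rows9 μ c A B C D E G a b g)) :=
    fun i => Submodule.subset_span ⟨i, rfl⟩
  have hind : ∀ s t : F, s • rows9 μ c A B C D E G a b g 1 + t • rows9 μ c A B C D E G a b g 4 = 0 →
      s = 0 ∧ t = 0 := by
    intro s t h
    have e3 := congrArg (fun z : RowSp F => z.2.2.1 1) h
    have e1 := congrArg (fun z : RowSp F => z.1 1) h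
    have e1' := congrArg (fun z : RowSp F => z.1) h
    have e2 := congrArg (fun z : RowSp F => z.2.1 1) h
    have e6 := congrArg (fun z : RowSp F => z.2.2.2.2.2) h
    simp [rows9, r1] at e1 e2 e3 e6
    have hs : s = 0 := by
      rcases e3 with h | h
      · exact h
      · exact absurd h h2
    subst hs
    simp at e1 e2 e6
    refine ⟨rfl, ?_⟩
    by_contra ht
    rcases e6 with h6 | h6
    · exact ht h6
    · have hmu : μ = 0 := by
        have h7 : t * (2 * μ) = 0 := by rw [h6] at e2; linear_combination e2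
        rcases mul_eq_zero.1 h7 with h | h
        · exact absurd h ht
        · rcases mul_eq_zero.1 h with h | h
          · exact absurd h h2
          · exact h
      rw [hmu] at e1
      apply ht
      linear_combination e1
  have hrow := C5P5_span2 _ _ _ (hmem 1) (hmem 4) hind hR
  set H := Submodule.span F {b} with hH
  have hbH : b ∈ H := Submodule.mem_span_singleton_self b
  -- components of the rows
  obtain ⟨α0, β0, q0⟩ := hrow _ (hmem 0)
  obtain ⟨α2, β2, q2⟩ := hrow _ (hmem 2)
  obtain ⟨α3, β3, q3⟩ := hrow _ (hmem 3)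
  obtain ⟨α5, β5, q5⟩ := hrow _ (hmem 5)
  obtain ⟨α6, β6, q6⟩ := hrow _ (hmem 6)
  obtain ⟨α7, β7, q7⟩ := hrow _ (hmem 7)
  have f0 := congrArg (fun z : RowSp F => z.1) q0
  have f2 := congrArg (fun z : RowSp F => z.1) q2
  have f3 := congrArg (fun z : RowSp F => z.1) q3
  have f5 := congrArg (fun z : RowSp F => z.1) q5
  have f6 := congrArg (fun z : RowSp F => z.1) q6
  have f7 := congrArg (fun z : RowSp F => z.1) q7
  have s0 := congrArg (fun z : RowSp F => z.2.1) q0
  have s2 := congrArg (fun z : RowSp F => z.2.1) q2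
  have s3 := congrArg (fun z : RowSp F => z.2.1) q3
  have s6 := congrArg (fun z : RowSp F => z.2.1) q6
  have s7 := congrArg (fun z : RowSp F => z.2.1) q7
  have t0 := congrArg (fun z : RowSp F => z.2.2.1) q0
  have t2 := congrArg (fun z : RowSp F => z.2.2.1) q2
  have t3 := congrArg (fun z : RowSp F => z.2.2.1) q3
  have t6 := congrArg (fun z : RowSp F => z.2.2.1) q6
  have t7 := congrArg (fun z : RowSp F => z.2.2.1) q7
  have hall : A ∈ H ∧ B ∈ H ∧ C ∈ H ∧ D ∈ H ∧ E ∈ H ∧ G ∈ H ∧ a ∈ H ∧ g ∈ H := by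
    simp only [rows9] at f0 f2 f3 f5 f6 f7 s0 s2 s3 s6 s7 t0 t2 t3 t6 t7
    simp at f0 f2 f3 f5 f6 f7 s0 s2 s3 s6 s7 t0 t2 t3 t6 t7
    have smem : ∀ (t : F) {x : Fin 3 → F}, t ≠ 0 → t • x ∈ H → x ∈ H := by
      intro t x ht hx
      have := H.smul_mem t⁻¹ hx
      rwa [smul_smul, inv_mul_cancel₀ ht, one_smul] at this
    have hC : C ∈ H := by
      rw [t3]
      exact H.neg_mem (H.smul_mem _ (H.smul_mem _ hbH))
    have hE : E ∈ H := by
      rw [t6]
      exact H.neg_mem (H.smul_mem _ (H.smul_mem _ hbH))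
    have h4 : (4 : F) ≠ 0 := by
      have : (4 : F) = 2 * 2 := by norm_num
      rw [this]
      exact mul_ne_zero h2 h2
    rcases hμ with hμ | hμ
    · subst hμ
      simp only [zero_smul, smul_zero, zero_add, mul_zero, add_zero] at f0 f2 f3 f5 f6 s7
      have hA : A ∈ H := by rw [f0]; exact H.smul_mem _ hbH
      have hB : B ∈ H := by rw [f2]; exact H.smul_mem _ hbH
      have hD : D ∈ H := by rw [f6]; exact H.smul_mem _ hbH
      have ha : a ∈ H := by
        have : a = β3 • b - B := by rw [← f3]; abel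
        rw [this]
        exact H.sub_mem (H.smul_mem _ hbH) hB
      have hg : g ∈ H := by
        have : g = β5 • b - C := by rw [← f5]; abel
        rw [this]
        exact H.sub_mem (H.smul_mem _ hbH) hC
      have hG : G ∈ H := by
        rw [s7]
        exact H.add_mem (H.smul_mem _ hD) (H.smul_mem _ hE)
      exact ⟨hA, hB, hC, hD, hE, hG, ha, hg⟩
    · subst hμ
      by_cases hD : D ∈ H
      · have hsec : ∀ α β : F, α • D + (β • E + β • (2 * (-1 : F)) • b) ∈ H := fun α β =>
          H.add_mem (H.smul_mem _ hD) (H.add_mem (H.smul_mem _ hE)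
            (H.smul_mem _ (H.smul_mem _ hbH)))
        have hA : A ∈ H := by
          apply smem (-1) (neg_ne_zero.2 one_ne_zero)
          rw [s0]; exact hsec _ _
        have e1 : (-1 : F) • B + (2 * (-1 : F)) • a ∈ H := by rw [s3]; exact hsec _ _
        have e2 : B - (2 : F) • a ∈ H := by
          rw [t0]; exact H.neg_mem (H.smul_mem _ (H.smul_mem _ hbH))
        have ha : a ∈ H := by
          apply smem (-4) (neg_ne_zero.2 h4)
          have : (-4 : F) • a = ((-1 : F) • B + (2 * (-1 : F)) • a) + (B - (2 : F) • a) := by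
            module
          rw [this]
          exact H.add_mem e1 e2
        have hB : B ∈ H := by
          have : B = (B - (2 : F) • a) + (2 : F) • a := by module
          rw [this]
          exact H.add_mem e2 (H.smul_mem _ ha)
        have hG : G ∈ H := by rw [s7]; exact hsec _ _
        have hg : g ∈ H := by
          apply smem 2 h2
          have : (2 : F) • g = c • D - (c • D - (2 : F) • g) := by module
          rw [this, t2]
          exact H.sub_mem (H.smul_mem _ hD) (H.neg_mem (H.smul_mem _ (H.smul_mem _ hbH)))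
        exact ⟨hA, hB, hC, hD, hE, hG, ha, hg⟩
      · exfalso
        have hD0 : D ≠ 0 := fun h => hD (by rw [h]; exact H.zero_mem)
        have hα6 : α6 = -1 := by
          by_contra hne
          apply hD
          apply smem (1 + α6) (fun h => hne (by linear_combination h))
          have : (1 + α6) • D = -(β6 • E + β6 • (2 * (-1 : F)) • b) := by
            have h5 : (1 + α6) • D = α6 • D - (-1 : F) • D := by module
            rw [h5, s6]; module
          rw [this]
          exact H.neg_mem (H.add_mem (H.smul_mem _ hE) (H.smul_mem _ (H.smul_mem _ hbH)))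
        have hE2 : E = (2 : F) • b := by rw [t6, hα6]; module
        have hα2 : α2 = 0 := by
          by_contra hne
          rw [hE2] at s2
          have h5 : α2 • D = 0 := by
            rw [s2]; module
          rcases smul_eq_zero.1 h5 with h | h
          · exact hne h
          · exact hD0 h
        have hα7 : α7 = 0 := by
          rcases t7 with h | h | h
          · exact h
          · exact absurd h h2
          · exact absurd h hb0
        rw [hα2] at f2
        rw [hα7] at f7
        have hDB : D = (-β7) • (b - B) := by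
          have h5 : D = (-1 : F) • ((-1 : F) • D) := by module
          rw [h5, f7]; module
        have hB : (1 + β2) • B = β2 • b := by
          have h5 : (1 + β2) • B = B + β2 • B := by module
          rw [h5]
          nth_rewrite 1 [f2]
          module
        by_cases h1 : 1 + β2 = 0
        · have hβ : β2 = -1 := by linear_combination h1
          rw [h1, hβ] at hB
          apply hb0
          have : b = (-1 : F) • ((-1 : F) • b) := by module
          rw [this, ← hB]; module
        · have hBH : B ∈ H := by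
            apply smem _ h1
            rw [hB]; exact H.smul_mem _ hbH
          apply hD
          rw [hDB]
          exact H.smul_mem _ (H.sub_mem hbH hBH)
  obtain ⟨m1, m2, m3, m4, m5, m6, m7, m8⟩ := hall
  rintro v ⟨i, rfl⟩
  fin_cases i
  · exact m1
  · exact m2
  · exact m3
  · exact m4
  · exact m5
  · exact m6
  · exact m7
  · exact hbH
  · exact m8

/-- part (c): if all vectors are multiples of `b` there are four independent rows -/
private theorem C5P5_c (h2 : (2 : F) ≠ 0) (μ c : F) (hμ : μ = 0 ∨ μ = -1)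
    (A B C D E G a g : F) (b : Fin 3 → F) (r1 : b 1 = 1) (r2 : b 2 + g = 0) (r3 : g * b 2 = c)
    (r4 : a + b 0 - 2 * μ * (a * b 0) = 0)
    (hR : Module.finrank F (Submodule.span F (Set.range (rows9 μ c (A • b) (B • b) (C • b) (D • b)
      (E • b) (G • b) (a • b) b (g • b)))) ≤ 3) : False := by
  set R := rows9 μ c (A • b) (B • b) (C • b) (D • b) (E • b) (G • b) (a • b) b (g • b) with hRdef
  set ξ := b 0 with hξ
  set ζ := b 2 with hζ
  have hmem : ∀ i, R i ∈ Submodule.span F (Set.range R) :=
    fun i => Submodule.subset_span ⟨i, rfl⟩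
  have h4 : (4 : F) ≠ 0 := by
    have : (4 : F) = 2 * 2 := by norm_num
    rw [this]
    exact mul_ne_zero h2 h2
  have hne : 4 * μ * ξ - 2 ≠ 0 := by
    intro h
    have h5 : 2 * (1 - 2 * μ * ξ) = 0 := by linear_combination -h
    have h6 : 1 - 2 * μ * ξ = 0 := by
      rcases mul_eq_zero.1 h5 with h | h
      · exact absurd h h2
      · exact h
    have h7 : ξ = 0 := by linear_combination r4 - a * h6
    rw [h7] at h6
    simp at h6
  have hz2 : ∀ {x y : F}, 2 * x = 2 * y → x = y := fun h => mul_left_cancel₀ h2 h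
  have hz4 : ∀ {x y : F}, 4 * x = 4 * y → x = y := fun h => mul_left_cancel₀ h4 h
  have m6 := Submodule.sub_mem _ (hmem 6) (Submodule.smul_mem _ ξ (hmem 7))
  have m8 := Submodule.sub_mem _ (hmem 8) (Submodule.smul_mem _ ζ (hmem 7))
  by_cases hDEG : D = 0 ∧ E = 0 ∧ G = 0
  · -- the rows `qx', qz', sl, ml` are independent
    obtain ⟨hD, hE, hG⟩ := hDEG
    have hind : ∀ s t r : F, s • (R 6 - ξ • R 7) + t • (R 8 - ζ • R 7) + r • R 1 = 0 →
        s = 0 ∧ t = 0 ∧ r = 0 := by
      intro s t r h
      have e3 := congrArg (fun z : RowSp F => z.2.2.1 1) h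
      have e4 := congrArg (fun z : RowSp F => z.2.2.2.1) h
      have e5 := congrArg (fun z : RowSp F => z.2.2.2.2.1) h
      simp [hRdef, rows9, r1, ← hξ, ← hζ, hD, hE, hG] at e3 e4 e5
      have hr : r = 0 := by
        rcases e3 with h | h
        · exact h
        · exact absurd h h2
      subst hr
      have ht : t = 0 := by
        have : 4 * t = 0 := by linear_combination e4
        rcases mul_eq_zero.1 this with h | h
        · exact absurd h h4
        · exact h
      subst ht
      have hs : s * (4 * μ * ξ - 2) = 0 := by linear_combination e5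
      rcases mul_eq_zero.1 hs with h | h
      · exact ⟨h, rfl, rfl⟩
      · exact absurd h hne
    obtain ⟨α, β, γ, h⟩ := C5P5_span3 _ _ _ _ m6 m8 (hmem 1) hind hR _ (hmem 4)
    have e1 := congrArg (fun z : RowSp F => z.1 1) h
    have e2 := congrArg (fun z : RowSp F => z.2.1 1) h
    have e3 := congrArg (fun z : RowSp F => z.2.2.1 1) h
    simp [hRdef, rows9, r1, ← hξ, ← hζ, hD, hE, hG] at e1 e2 e3
    have hγ : γ = 0 := by
      rcases e3 with h | h
      · exact h
      · exact absurd h h2
    subst hγ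
    rcases hμ with hμ | hμ
    · rw [hμ] at e1
      simp at e1
    · rw [hμ] at e2
      rcases e2 with h | h
      · exact h2 h
      · simp at h
  · -- combinations with last entry zero
    have hcomb : ∀ z ∈ Submodule.span F (Set.range R), z.2.2.2.2.2 = 0 →
        ∃ α β : F, z = α • (R 6 - ξ • R 7) + β • (R 8 - ζ • R 7) := by
      obtain ⟨y, hy, hyq⟩ : ∃ y ∈ Submodule.span F (Set.range R), y.2.2.2.2.2 ≠ 0 := by
        by_contra hno
        push Not at hno
        apply hDEG
        refine ⟨?_, ?_, ?_⟩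
        · have := hno _ (hmem 1)
          simpa [hRdef, rows9, r1] using this
        · have := hno _ (hmem 4)
          simpa [hRdef, rows9, r1] using this
        · have := hno _ (hmem 7)
          simpa [hRdef, rows9, r1] using this
      have q6 : (R 6 - ξ • R 7).2.2.2.2.2 = 0 := by
        simp [hRdef, rows9, r1, ← hξ]
        ring
      have q8 : (R 8 - ζ • R 7).2.2.2.2.2 = 0 := by
        simp [hRdef, rows9, r1, ← hζ]
        ring
      have hind : ∀ s t r : F, s • (R 6 - ξ • R 7) + t • (R 8 - ζ • R 7) + r • y = 0 →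
          s = 0 ∧ t = 0 ∧ r = 0 := by
        intro s t r h
        have e6 := congrArg (fun z : RowSp F => z.2.2.2.2.2) h
        have e6' : s * (R 6 - ξ • R 7).2.2.2.2.2 + t * (R 8 - ζ • R 7).2.2.2.2.2 +
          r * y.2.2.2.2.2 = 0 := e6
        rw [q6, q8, mul_zero, mul_zero, zero_add, zero_add] at e6'
        have hr : r = 0 := (mul_eq_zero.1 e6').resolve_right hyq
        rw [hr, zero_smul, add_zero] at h
        have e4 := congrArg (fun z : RowSp F => z.2.2.2.1) h
        have e5 := congrArg (fun z : RowSp F => z.2.2.2.2.1) h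
        simp [hRdef, rows9, r1, ← hξ, ← hζ] at e4 e5
        have ht : t = 0 := by
          have : 4 * t = 0 := by linear_combination e4
          rcases mul_eq_zero.1 this with h | h
          · exact absurd h h4
          · exact h
        subst ht
        have hs : s * (4 * μ * ξ - 2) = 0 := by linear_combination e5
        rcases mul_eq_zero.1 hs with h | h
        · exact ⟨h, rfl, hr⟩
        · exact absurd h hne
      intro z hz hzq
      obtain ⟨α, β, γ, h⟩ := C5P5_span3 _ _ _ _ m6 m8 hy hind hR z hz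
      have e6' : z.2.2.2.2.2 = α * (R 6 - ξ • R 7).2.2.2.2.2 + β * (R 8 - ζ • R 7).2.2.2.2.2 +
          γ * y.2.2.2.2.2 := congrArg (fun z : RowSp F => z.2.2.2.2.2) h
      rw [hzq, q6, q8, mul_zero, mul_zero, zero_add, zero_add] at e6'
      have hγ : γ = 0 := (mul_eq_zero.1 e6'.symm).resolve_right hyq
      exact ⟨α, β, by rw [h, hγ, zero_smul, add_zero]⟩
    -- the row sz'
    have hζ0 : ζ = 0 ∧ B = a * ξ * E := by
      obtain ⟨α, β, h⟩ := hcomb _
        (Submodule.sub_mem _ (hmem 2) (Submodule.smul_mem _ ζ (hmem 1)))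
        (by simp [hRdef, rows9, r1, ← hζ]; ring)
      have e1 := congrArg (fun z : RowSp F => z.1 1) h
      have e2 := congrArg (fun z : RowSp F => z.2.1 1) h
      have e3 := congrArg (fun z : RowSp F => z.2.2.1 1) h
      have e4 := congrArg (fun z : RowSp F => z.2.2.2.1) h
      have e5 := congrArg (fun z : RowSp F => z.2.2.2.2.1) h
      simp [hRdef, rows9, r1, ← hξ, ← hζ] at e1 e2 e3 e4 e5
      have hβ : β = a * ξ := hz4 (by linear_combination -e4)
      subst hβ
      have hα : α = 0 := by
        have : α * (4 * μ * ξ - 2) = 0 := by linear_combination -e5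
        rcases mul_eq_zero.1 this with h | h
        · exact h
        · exact absurd h hne
      subst hα
      have hg : g = -ζ := by linear_combination r2
      subst hg
      have h0 : 4 * ζ = 4 * 0 := by
        rw [← r3] at e3
        linear_combination e3 - ζ * e2
      have hz : ζ = 0 := mul_left_cancel₀ h4 h0
      refine ⟨hz, ?_⟩
      rw [hz] at e1
      linear_combination e1
    obtain ⟨hz, hB⟩ := hζ0
    have hg : g = 0 := by rw [hz] at r2; linear_combination r2
    have hc : c = 0 := by rw [← r3, hz, mul_zero]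
    -- the row mz
    have hC : C = 0 := by
      obtain ⟨α, β, h⟩ := hcomb _ (hmem 5) (by simp [hRdef, rows9, ← hζ, hz])
      have e1 := congrArg (fun z : RowSp F => z.1 1) h
      have e4 := congrArg (fun z : RowSp F => z.2.2.2.1) h
      have e5 := congrArg (fun z : RowSp F => z.2.2.2.2.1) h
      simp [hRdef, rows9, r1, ← hξ, ← hζ, hz, hg, hc] at e1 e4 e5
      have hβ : β = 0 := hz4 (by linear_combination -e4)
      subst hβ
      have hα : α = 0 := by
        rcases e5 with h | h
        · exact h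
        · exact absurd (by linear_combination h) hne
      subst hα
      linear_combination e1
    -- the row sx'
    have ha : a = ξ ∧ A * (1 - μ * ξ) = a * ξ * D * (1 - μ * ξ) ∧
        μ * A - ξ * D = a * ξ * (μ * D - ξ * G) := by
      obtain ⟨α, β, h⟩ := hcomb _
        (Submodule.sub_mem _ (hmem 0) (Submodule.smul_mem _ ξ (hmem 1)))
        (by simp [hRdef, rows9, r1, ← hξ]; ring)
      have e1 := congrArg (fun z : RowSp F => z.1 1) h
      have e2 := congrArg (fun z : RowSp F => z.2.1 1) h
      have e3 := congrArg (fun z : RowSp F => z.2.2.1 1) h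
      have e4 := congrArg (fun z : RowSp F => z.2.2.2.1) h
      have e5 := congrArg (fun z : RowSp F => z.2.2.2.2.1) h
      simp [hRdef, rows9, r1, ← hξ, ← hζ, hz, hg, hc] at e1 e2 e3 e4 e5
      have hβ : β = 0 := hz4 (by linear_combination -e4)
      subst hβ
      have hα : α = a * ξ := by
        have : (α - a * ξ) * (4 * μ * ξ - 2) = 0 := by linear_combination -e5
        rcases mul_eq_zero.1 this with h | h
        · linear_combination h
        · exact absurd h hne
      subst hα
      refine ⟨?_, ?_, ?_⟩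
      · apply hz2
        linear_combination hB - e3
      · linear_combination e1
      · linear_combination e2
    obtain ⟨ha, hA1, hA2⟩ := ha
    rw [ha] at hB r4 hA1 hA2
    have hξ2 : ξ * (1 - μ * ξ) = 0 := by
      apply hz2
      linear_combination r4
    rcases mul_eq_zero.1 hξ2 with h0 | h0
    · -- `ξ = 0`
      have hB0 : B = 0 := by rw [h0] at hB; linear_combination hB
      have hA0 : A = 0 := by rw [h0] at hA1; linear_combination hA1
      obtain ⟨α, β, h⟩ := hcomb (E • R 1 - D • R 4)
        (Submodule.sub_mem _ (Submodule.smul_mem _ _ (hmem 1)) (Submodule.smul_mem _ _ (hmem 4)))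
        (by simp [hRdef, rows9, r1]; ring)
      have e1 := congrArg (fun z : RowSp F => z.1 1) h
      have e3 := congrArg (fun z : RowSp F => z.2.2.1 1) h
      have e4 := congrArg (fun z : RowSp F => z.2.2.2.1) h
      have e5 := congrArg (fun z : RowSp F => z.2.2.2.2.1) h
      simp [hRdef, rows9, r1, ← hξ, ← hζ, hz, hg, hc, hB0, hA0, ha, h0, hC] at e1 e3 e4 e5
      have hβ : β = 0 := by
        rcases e4 with h | h
        · exact h
        · exact absurd h h4
      have hα : α = 0 := by
        rcases e5 with h | h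
        · exact h
        · exact absurd h h2
      subst hα hβ
      have hD0 : D = 0 := by simpa using e1
      have hE0 : E = 0 := by
        have : E * 2 = 0 := by linear_combination -e3
        exact (mul_eq_zero.1 this).resolve_right h2
      obtain ⟨α', β', h'⟩ := hcomb (R 1) (hmem 1) (by simp [hRdef, rows9, r1, hD0])
      have e3' := congrArg (fun z : RowSp F => z.2.2.1 1) h'
      have e4' := congrArg (fun z : RowSp F => z.2.2.2.1) h'
      have e5' := congrArg (fun z : RowSp F => z.2.2.2.2.1) h'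
      simp [hRdef, rows9, r1, ← hξ, ← hζ, hz, hg, hc, hB0, hA0, ha, h0, hC, hD0, hE0]
        at e3' e4' e5'
      exact h2 e3'
    · -- `μ = -1`, `ξ = -1`
      rcases hμ with hμ | hμ
      · rw [hμ] at h0
        simp at h0
      · rw [hμ] at h0 hA2
        have hx : ξ = -1 := by linear_combination h0
        rw [hx] at hB hA2
        have hBE : B = E := by linear_combination hB
        have hA : A = 2 * D - G := by linear_combination -hA2
        -- `E (sl - ql) - δ ml`
        obtain ⟨α, β, h⟩ := hcomb (E • (R 1 - R 7) - (D - G) • R 4)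
          (Submodule.sub_mem _ (Submodule.smul_mem _ _ (Submodule.sub_mem _ (hmem 1) (hmem 7)))
            (Submodule.smul_mem _ _ (hmem 4)))
          (by simp [hRdef, rows9, r1]; ring)
        have e1 := congrArg (fun z : RowSp F => z.1 1) h
        have e2 := congrArg (fun z : RowSp F => z.2.1 1) h
        have e3 := congrArg (fun z : RowSp F => z.2.2.1 1) h
        have e4 := congrArg (fun z : RowSp F => z.2.2.2.1) h
        have e5 := congrArg (fun z : RowSp F => z.2.2.2.2.1) h
        simp [hRdef, rows9, r1, ← hξ, ← hζ, hz, hg, hc, ha, hx, hC, hμ, hBE, hA] at e1 e2 e3 e4 e5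
        have hβ : β = 0 := hz4 (by linear_combination -e4)
        subst hβ
        have hα : α = 0 := by
          rcases e5 with h | h
          · exact h
          · exact absurd (by linear_combination h) h2
        subst hα
        have hδ : D - G = 0 := by linear_combination -e1
        obtain ⟨α', β', h'⟩ := hcomb (R 1 - R 7) (Submodule.sub_mem _ (hmem 1) (hmem 7))
          (by simp [hRdef, rows9, r1]; linear_combination hδ)
        have e3' := congrArg (fun z : RowSp F => z.2.2.1 1) h'
        have e4' := congrArg (fun z : RowSp F => z.2.2.2.1) h'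
        have e5' := congrArg (fun z : RowSp F => z.2.2.2.2.1) h'
        simp [hRdef, rows9, r1, ← hξ, ← hζ, hz, hg, hc, ha, hx, hC, hμ, hBE, hA] at e3' e4' e5'
        have hβ : β' = 0 := hz4 (by linear_combination -e4' + hδ)
        subst hβ
        have hα : α' = 0 := by
          rcases e5' with h | h
          · exact h
          · exact absurd (by linear_combination h) h2
        subst hα
        apply h2
        linear_combination -e3'

theorem rows_bound (h2 : (2 : F) ≠ 0) (μ c : F) (hμ : μ = 0 ∨ μ = -1) (hc : c = 0 ∨ c = 1)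
    (A B C D E G a b g : Fin 3 → F) (r1 : b 1 = 1) (r2 : b 2 + g 1 = 0) (r3 : g 2 = c)
    (r4 : a 1 + b 0 - 2 * μ * a 0 = 0) :
    5 ≤ Module.finrank F (Submodule.span F (Set.range ![A, B, C, D, E, G, a, b, g])) +
      Module.finrank F (Submodule.span F (Set.range (rows9 μ c A B C D E G a b g))) := by
  have hb0 : b ≠ 0 := by
    intro h; rw [h] at r1; simp at r1
  set W := Submodule.span F (Set.range ![A, B, C, D, E, G, a, b, g]) with hW
  set R := Submodule.span F (Set.range (rows9 μ c A B C D E G a b g)) with hRR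
  have hbW : b ∈ W := Submodule.subset_span ⟨7, rfl⟩
  have hHW : Submodule.span F {b} ≤ W := by
    rw [Submodule.span_le]
    intro x hx
    rw [Set.mem_singleton_iff.1 hx]
    exact hbW
  have hH1 : Module.finrank F (Submodule.span F {b}) = 1 := finrank_span_singleton hb0
  have hW1 : 1 ≤ Module.finrank F W := by
    rw [← hH1]; exact Submodule.finrank_mono hHW
  by_cases hall : ∀ v ∈ Set.range ![A, B, C, D, E, G, a, b, g], v ∈ Submodule.span F {b}
  · -- part (c)
    have hget : ∀ v ∈ Set.range ![A, B, C, D, E, G, a, b, g], ∃ t : F, v = t • b := by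
      intro v hv
      obtain ⟨t, ht⟩ := Submodule.mem_span_singleton.1 (hall v hv)
      exact ⟨t, ht.symm⟩
    obtain ⟨A', hA⟩ := hget A ⟨0, rfl⟩
    obtain ⟨B', hB⟩ := hget B ⟨1, rfl⟩
    obtain ⟨C', hC⟩ := hget C ⟨2, rfl⟩
    obtain ⟨D', hD⟩ := hget D ⟨3, rfl⟩
    obtain ⟨E', hE⟩ := hget E ⟨4, rfl⟩
    obtain ⟨G', hG⟩ := hget G ⟨5, rfl⟩
    obtain ⟨a', ha⟩ := hget a ⟨6, rfl⟩
    obtain ⟨g', hg⟩ := hget g ⟨8, rfl⟩
    have hR4 : 4 ≤ Module.finrank F R := by
      by_contra hlt
      have hle : Module.finrank F R ≤ 3 := by omega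
      rw [hRR, hA, hB, hC, hD, hE, hG, ha, hg] at hle
      refine C5P5_c h2 μ c hμ A' B' C' D' E' G' a' g' b r1 ?_ ?_ ?_ hle
      · rw [hg] at r2
        simpa [r1] using r2
      · rw [hg] at r3
        simpa using r3
      · rw [ha] at r4
        simpa [r1] using r4
    omega
  · -- part (b)
    have hR3 : 3 ≤ Module.finrank F R := by
      by_contra hlt
      have hle : Module.finrank F R ≤ 2 := by omega
      exact hall (C5P5_b h2 μ c hμ A B C D E G a b g r1 hle)
    have hW2 : 2 ≤ Module.finrank F W := by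
      by_contra hlt
      have hle : Module.finrank F W ≤ 1 := by omega
      have heq : Submodule.span F {b} = W :=
        Submodule.eq_of_le_of_finrank_le hHW (by rw [hH1]; exact hle)
      apply hall
      intro v hv
      rw [heq]
      exact Submodule.subset_span hv
    omega

end

end JD
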