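import Pool.Agent.H8.JD.C5LemT

set_option autoImplicit false

/-!
# JD class 5: Lemma T in `J`

`y = ∑ k a b • S [a,b] ∈ J^3` is killed (into `J^6 = 0`) by all operators of degree 3.

PROOF. Put `Y p q = ∑ a, ∑ b, k a b • S (p ++ [a,b] ++ q)` (so `φ (Y p q) = kval lam k p q`,
`lam = φ ∘ S`, and `Y p.reverse q.reverse = Y q p` by `SSys.rev` and the symmetry of `k`).
From `SSys.mul` (summed over `a b` with weights `k a b`; `k` symmetric):
(A) `2 • (x a * y) = Y [a] [] + Y [] [a] = 2 • Y [] [a]`, so `x a * y = Y [] [a]`;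
(B) `2 • (x a * S w) = S (a :: w) + S (w ++ [a])`.
(1) `4 • (S [a,b,c] * y) = 2 • (Y [a,b,c] [] + Y [c,b,a] [])`, and
    `Y [a,b,c] [] = Y [] [c,b,a]`; the left side is `0` (degree `3 + 3 = 6`): this is (h1) of
    `inU_of_ops` (after division by 2).
(2) `4 • (S [b,c] * y) = 2 • (Y [] [b,c] + Y [] [c,b])`, then multiply by `x a`:
    `4 • (x a * (S [b,c] * y)) = Y [a] [b,c] + Y [a] [c,b] + Y [] [b,c,a] + Y [] [c,b,a]`: (h3).
(3) `4 • (S [b,c] * (x a * y)) = 4 • (S [b,c] * Y [] [a])
      = Y [a] [c,b] + Y [] [a,c,b] + Y [a] [b,c] + Y [] [a,b,c]`: (h2').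
(4) `2 • (x b * Y [] [a]) = Y [b] [a] + Y [] [a,b]`,
    `4 • (x c * (x b * (x a * y))) = Y [c,b] [a] + Y [b] [a,c] + Y [c] [a,b] + Y [] [a,b,c]`,
    and `Y [c,b] [a] = Y [a] [b,c]`: (h4).
All left sides are in `J^6 = 0` (`mul_mem_jpow`; `x a = S [a]`).
-/

namespace JD

universe u v w

/-- the quadratic form `k` between the words `p` and `q`, evaluated in `J` -/
def C5T_Y {F : Type u} [Field F] {J : Type v} [NonUnitalNonAssocCommRing J] [Module F J]
    (S : List (Fin 3) → J) (k : Matrix (Fin 3) (Fin 3) F) (p q : List (Fin 3)) : J :=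
  ∑ a, ∑ b, k a b • S (p ++ [a, b] ++ q)

section C5T

variable {F : Type u} [Field F] {J : Type v} [NonUnitalNonAssocCommRing J] [Module F J]
  {x : Fin 3 → J} {S : List (Fin 3) → J}

theorem C5T_rev (hS : SSys F x S) (k : Matrix (Fin 3) (Fin 3) F)
    (hk : ∀ a b, k a b = k b a) (p q : List (Fin 3)) :
    C5T_Y S k p q = C5T_Y S k q.reverse p.reverse := by
  unfold C5T_Y
  rw [Finset.sum_comm]
  refine Finset.sum_congr rfl fun a _ => Finset.sum_congr rfl fun b _ => ?_
  rw [hk b a, ← hS.rev]
  congr 2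
  simp

theorem C5T_phi (φ : J →ₗ[F] F) (k : Matrix (Fin 3) (Fin 3) F) (p q : List (Fin 3)) :
    φ (C5T_Y S k p q) = kval (fun w => φ (S w)) k p q := by
  simp only [C5T_Y, kval, map_sum, map_smul, smul_eq_mul]

theorem C5T_mul [IsScalarTower F J J] [SMulCommClass F J J] (hS : SSys F x S)
    (k : Matrix (Fin 3) (Fin 3) F) (hk : ∀ a b, k a b = k b a) {v : List (Fin 3)}
    (hv : v ≠ []) (p q : List (Fin 3)) :
    (4 : F) • (S v * C5T_Y S k p q) = C5T_Y S k (v ++ p) q +
      C5T_Y S k (v ++ q.reverse) p.reverse + C5T_Y S k (v.reverse ++ p) q +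
      C5T_Y S k p (q ++ v) := by
  have h2 : C5T_Y S k (v ++ q.reverse) p.reverse =
      ∑ a, ∑ b, k a b • S (v ++ q.reverse ++ [b, a] ++ p.reverse) := by
    unfold C5T_Y
    rw [Finset.sum_comm]
    refine Finset.sum_congr rfl fun a _ => Finset.sum_congr rfl fun b _ => ?_
    rw [hk b a]
  rw [h2]
  unfold C5T_Y
  rw [Finset.mul_sum, Finset.smul_sum, ← Finset.sum_add_distrib, ← Finset.sum_add_distrib,
    ← Finset.sum_add_distrib]
  refine Finset.sum_congr rfl fun a _ => ?_
  rw [Finset.mul_sum, Finset.smul_sum, ← Finset.sum_add_distrib, ← Finset.sum_add_distrib,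
    ← Finset.sum_add_distrib]
  refine Finset.sum_congr rfl fun b _ => ?_
  rw [mul_smul_comm, smul_comm (4 : F), hS.mul v (p ++ [a, b] ++ q) hv (by simp), smul_add,
    smul_add, smul_add]
  have e1 : v ++ (p ++ [a, b] ++ q) = v ++ p ++ [a, b] ++ q := by simp
  have e2 : v ++ (p ++ [a, b] ++ q).reverse = v ++ q.reverse ++ [b, a] ++ p.reverse := by simp
  have e3 : v.reverse ++ (p ++ [a, b] ++ q) = v.reverse ++ p ++ [a, b] ++ q := by simp
  have e4 : p ++ [a, b] ++ q ++ v = p ++ [a, b] ++ (q ++ v) := by simp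
  rw [e1, e2, e3, e4]

end C5T

theorem C5J.inU {F : Type u} [Field F] {J : Type v} [NonUnitalNonAssocCommRing J] [Module F J]
    [IsScalarTower F J J] [SMulCommClass F J J] {x : Fin 3 → J} {S : List (Fin 3) → J}
    {φ : J →ₗ[F] F} (h : C5J F J x S φ) (k : Matrix (Fin 3) (Fin 3) F)
    (hk : ∀ a b, k a b = k b a) (hy : ∑ a, ∑ b, k a b • S [a, b] ∈ jpow F J 3) :
    InU (fun w => φ (S w)) k (tval (fun w => φ (S w)) k) := by
  have h4 : (4 : F) ≠ 0 := by
    have e : (4 : F) = 2 * 2 := by norm_num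
    rw [e]
    exact mul_ne_zero h.two h.two
  have hy' : C5T_Y S k [] [] ∈ jpow F J 3 := by
    simpa [C5T_Y] using hy
  -- reversal
  have R : ∀ p q, C5T_Y S k p q = C5T_Y S k q.reverse p.reverse := C5T_rev h.sys k hk
  have Rphi : ∀ p q, kval (fun w => φ (S w)) k p q =
      kval (fun w => φ (S w)) k q.reverse p.reverse := by
    intro p q
    rw [← C5T_phi, ← C5T_phi, R]
  -- multiplication, after `φ`
  have M : ∀ (v : List (Fin 3)), v ≠ [] → ∀ p q, (4 : F) • (S v * C5T_Y S k p q) =
      C5T_Y S k (v ++ p) q + C5T_Y S k (v ++ q.reverse) p.reverse +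
      C5T_Y S k (v.reverse ++ p) q + C5T_Y S k p (q ++ v) :=
    fun v hv p q => C5T_mul h.sys k hk hv p q
  have Mphi : ∀ (v : List (Fin 3)), v ≠ [] → ∀ p q, 4 * φ (S v * C5T_Y S k p q) =
      kval (fun w => φ (S w)) k (v ++ p) q +
      kval (fun w => φ (S w)) k (v ++ q.reverse) p.reverse +
      kval (fun w => φ (S w)) k (v.reverse ++ p) q +
      kval (fun w => φ (S w)) k p (q ++ v) := by
    intro v hv p q
    have := congrArg φ (M v hv p q)
    rw [map_smul, smul_eq_mul, map_add, map_add, map_add, C5T_phi, C5T_phi, C5T_phi,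
      C5T_phi] at this
    exact this
  have hS1 : ∀ a, S [a] ∈ jpow F J 1 := fun a => h.mem [a] (by simp)
  have hS2 : ∀ a b, S [a, b] ∈ jpow F J 2 := fun a b => h.mem [a, b] (by simp)
  have hS3 : ∀ a b c, S [a, b, c] ∈ jpow F J 3 := fun a b c => h.mem [a, b, c] (by simp)
  have Z : ∀ z : J, z ∈ jpow F J 6 → z = 0 := by
    intro z hz
    rw [h.bot] at hz
    exact (Submodule.mem_bot F).mp hz
  -- (A)
  have A : ∀ a, S [a] * C5T_Y S k [] [] = C5T_Y S k [] [a] := by
    intro a
    have e := M [a] (by simp) [] []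
    have e1 : C5T_Y S k [a] [] = C5T_Y S k [] [a] := by
      rw [R [a] []]
      rfl
    simp only [List.append_nil, List.nil_append, List.reverse_nil, List.reverse_singleton] at e
    rw [e1] at e
    have e2 : C5T_Y S k [] [a] + C5T_Y S k [] [a] + C5T_Y S k [] [a] + C5T_Y S k [] [a] =
        (4 : F) • C5T_Y S k [] [a] := by
      have : (4 : F) = 1 + 1 + 1 + 1 := by norm_num
      rw [this, add_smul, add_smul, add_smul, one_smul]
    rw [e2] at e
    exact smul_right_injective J h4 e
  refine inU_of_ops h.two (fun w => φ (S w)) (fun w => by rw [h.sys.rev]) k hk ?_ ?_ ?_ ?_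
  · intro a b c
    have e := Mphi [a, b, c] (by simp) [] []
    rw [Z _ (mul_mem_jpow (hS3 a b c) hy'), map_zero, mul_zero] at e
    have r1 := Rphi [a, b, c] []
    have r2 := Rphi [c, b, a] []
    simp only [List.append_nil, List.nil_append, List.reverse_nil, List.reverse_cons,
      List.cons_append] at e r1 r2
    rw [r1, r2] at e
    have e' : 2 * (kval (fun w => φ (S w)) k [] [a, b, c] +
        kval (fun w => φ (S w)) k [] [c, b, a]) = 0 := by
      linear_combination -e
    exact (mul_eq_zero.mp e').resolve_left h.two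
  · intro a b c
    have e := Mphi [b, c] (by simp) [] [a]
    have hm : C5T_Y S k [] [a] ∈ jpow F J 4 := by
      rw [← A a]
      exact mul_mem_jpow (hS1 a) hy'
    rw [Z _ (mul_mem_jpow (hS2 b c) hm), map_zero, mul_zero] at e
    have r1 := Rphi [b, c] [a]
    have r2 := Rphi [c, b] [a]
    have r3 := Rphi [b, c, a] []
    simp only [List.append_nil, List.nil_append, List.reverse_nil, List.reverse_cons,
      List.cons_append] at e r1 r2 r3
    rw [r1, r2, r3] at e
    linear_combination -e
  · intro a b c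
    have e := M [b, c] (by simp) [] []
    have r1 := R [b, c] []
    have r2 := R [c, b] []
    simp only [List.append_nil, List.nil_append, List.reverse_nil, List.reverse_cons,
      List.cons_append] at e r1 r2
    rw [r1, r2] at e
    have hz := Z _ (mul_mem_jpow (hS1 a) (mul_mem_jpow (hS2 b c) hy'))
    have e' : (4 : F) • (S [a] * (S [b, c] * C5T_Y S k [] [])) =
        S [a] * C5T_Y S k [] [c, b] + S [a] * C5T_Y S k [] [c, b] +
        S [a] * C5T_Y S k [] [b, c] + S [a] * C5T_Y S k [] [b, c] := by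
      rw [← mul_smul_comm, e, mul_add, mul_add, mul_add]
    rw [hz, smul_zero] at e'
    have e'' := congrArg φ e'
    rw [map_zero, map_add, map_add, map_add] at e''
    have m1 := Mphi [a] (by simp) [] [c, b]
    have m2 := Mphi [a] (by simp) [] [b, c]
    have r3 := Rphi [a, b, c] []
    have r4 := Rphi [a, c, b] []
    simp only [List.append_nil, List.nil_append, List.reverse_nil, List.reverse_cons,
      List.cons_append] at m1 m2 r3 r4
    rw [r3] at m1
    rw [r4] at m2
    have f : 4 * (kval (fun w => φ (S w)) k [a] [b, c] + kval (fun w => φ (S w)) k [a] [c, b] +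
      kval (fun w => φ (S w)) k [] [b, c, a] + kval (fun w => φ (S w)) k [] [c, b, a]) = 0 := by
      linear_combination (-2) * m1 - 2 * m2 - 4 * e''
    exact (mul_eq_zero.mp f).resolve_left h4
  · intro a b c
    have e := M [b] (by simp) [] [a]
    have r1 := R [b, a] []
    simp only [List.append_nil, List.nil_append, List.reverse_nil, List.reverse_cons,
      List.cons_append] at e r1
    rw [r1] at e
    have hm : C5T_Y S k [] [a] ∈ jpow F J 4 := by
      rw [← A a]
      exact mul_mem_jpow (hS1 a) hy'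
    have hz := Z _ (mul_mem_jpow (hS1 c) (mul_mem_jpow (hS1 b) hm))
    have e' : (4 : F) • (S [c] * (S [b] * C5T_Y S k [] [a])) =
        S [c] * C5T_Y S k [b] [a] + S [c] * C5T_Y S k [] [a, b] +
        S [c] * C5T_Y S k [b] [a] + S [c] * C5T_Y S k [] [a, b] := by
      rw [← mul_smul_comm, e, mul_add, mul_add, mul_add]
    rw [hz, smul_zero] at e'
    have e'' := congrArg φ e'
    rw [map_zero, map_add, map_add, map_add] at e''
    have m1 := Mphi [c] (by simp) [b] [a]
    have m2 := Mphi [c] (by simp) [] [a, b]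
    have r3 := Rphi [c, b] [a]
    have r4 := Rphi [c, a] [b]
    have r5 := Rphi [c, b, a] []
    simp only [List.append_nil, List.nil_append, List.reverse_nil, List.reverse_cons,
      List.cons_append] at m1 m2 r3 r4 r5
    rw [r3, r4] at m1
    rw [r5] at m2
    have f : 4 * (kval (fun w => φ (S w)) k [] [a, b, c] + kval (fun w => φ (S w)) k [c] [a, b] +
      kval (fun w => φ (S w)) k [b] [a, c] + kval (fun w => φ (S w)) k [a] [b, c]) = 0 := by
      linear_combination (-2) * m1 - 2 * m2 - 4 * e''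
    exact (mul_eq_zero.mp f).resolve_left h4

end JD
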