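import Pool.Agent.H8.JD.C5Cert0
import Pool.Agent.H8.JD.C5Cert1
import Pool.Agent.H8.JD.C5Cert2
import Pool.Agent.H8.JD.C5Cert3
import Pool.Agent.H8.JD.C5P5

set_option autoImplicit false

/-!
# JD class 5: tables in the normal form
-/

namespace JD

universe u v

section

variable {F : Type u} [Field F]

/-- all identities of a list hold -/
def AllId (val : JM → F) (τ : F) : IdL → Prop
  | [] => True
  | i :: is => ((i.1.map fun y => (y.1 : F) * val y.2).sum = i.2 * τ) ∧ AllId val τ is

/-- the scaling factors are powers of two -/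
def kOK (cts : List (ℤ × List (ℤ × ℕ × ℕ × ℕ))) : Bool :=
  cts.all fun ct => decide ((1048576 : ℤ) % ct.1 = 0)

theorem kOK_ne (h2 : (2 : F) ≠ 0) {k : ℤ} (h : (1048576 : ℤ) % k = 0) : (k : F) ≠ 0 := by
  intro h0
  obtain ⟨m, hm⟩ := Int.dvd_of_emod_eq_zero h
  have : ((1048576 : ℤ) : F) = 0 := by rw [hm]; push_cast; rw [h0, zero_mul]
  have h3 : ((1048576 : ℤ) : F) = 2 ^ 20 := by norm_num
  rw [h3] at this
  exact pow_ne_zero _ h2 this

theorem chkAll_sound {J : Type v} [NonUnitalNonAssocCommRing J] [Module F J]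
    (h2 : (2 : F) ≠ 0) {R : Rels} {x : Fin 3 → J} {S : Wd → J}
    (hS : SSys F x S) (φ : J →ₗ[F] F) {τ : F} (h : RelHyp R (fun w => φ (S w)) τ)
    (ids : IdL) (cts : List (ℤ × List (ℤ × ℕ × ℕ × ℕ))) (hc : chkAll R ids cts = true)
    (hk : kOK cts = true) : AllId (fun t => φ (t.ev x)) τ ids := by
  induction ids generalizing cts with
  | nil => trivial
  | cons i is ih =>
    cases cts with
    | nil => simp [chkAll] at hc
    | cons ct cts =>
      rw [chkAll, Bool.and_eq_true] at hc
      rw [kOK, List.all_cons, Bool.and_eq_true, decide_eq_true_iff] at hk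
      exact ⟨chkId_sound h2 hS φ h i.1 i.2 ct.1 (kOK_ne h2 hk.1) ct.2 hc.1,
        ih cts hc.2 hk.2⟩

variable (val : JM → F)

def vV (t : JM) : Fin 3 → F := fun w => val (.m (.v w) t)

def rowT (h : JM) : RowSp F :=
  (vV val (.m (.v 0) h), vV val (.m (.v 1) h), vV val (.m (.v 2) h),
    val (.m js h), val (.m jm h), val (.m jq h))

def va : Fin 3 → F := vV val jAX - vV val jB
def vb (μ : F) : Fin 3 → F := vV val jBX - μ • vV val jB
def vg : Fin 3 → F := vV val jGX - vV val jC

end

end JD
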