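import Pool.Agent.H8.JD.C5Chk

set_option autoImplicit false

/-!
# JD class 5: tables in the normal form (data, generated)
-/

namespace JD

abbrev js : JM := .m (.v 0) (.v 0)
abbrev jm : JM := .m (.v 0) (.v 2)
abbrev jq : JM := .m (.v 1) (.v 1)
abbrev jA : JM := .m js js
abbrev jB : JM := .m js jm
abbrev jC : JM := .m jm jm
abbrev jD : JM := .m jq js
abbrev jE : JM := .m jq jm
abbrev jG : JM := .m jq jq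
abbrev jAX : JM := .m (.v 0) (.m jm (.v 0))
abbrev jBX : JM := .m (.v 0) (.m jm (.v 1))
abbrev jGX : JM := .m (.v 0) (.m jm (.v 2))

abbrev IdL := List (List (ℤ × JM) × ℤ)

def id_sx (μ c : ℤ) : IdL := [
  -- ('V', 'sx', 0, 0)
  ([(1, .m (.v 0) (.m (.v 0) (.m js (.v 0)))), ((-1), .m (.v 0) jA)], 0),
  -- ('V', 'sx', 0, 1)
  ([(1, .m (.v 1) (.m (.v 0) (.m js (.v 0)))), ((-1), .m (.v 1) jA)], 0),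
  -- ('V', 'sx', 0, 2)
  ([(1, .m (.v 2) (.m (.v 0) (.m js (.v 0)))), ((-1), .m (.v 2) jA)], 0),
  -- ('V', 'sx', 1, 0)
  ([(1, .m (.v 0) (.m (.v 1) (.m js (.v 0)))), ((-1) * μ, .m (.v 0) jA)], 0),
  -- ('V', 'sx', 1, 1)
  ([(1, .m (.v 1) (.m (.v 1) (.m js (.v 0)))), ((-1) * μ, .m (.v 1) jA)], 0),
  -- ('V', 'sx', 1, 2)
  ([(1, .m (.v 2) (.m (.v 1) (.m js (.v 0)))), ((-1) * μ, .m (.v 2) jA)], 0),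
  -- ('V', 'sx', 2, 0)
  ([(1, .m (.v 0) (.m (.v 2) (.m js (.v 0)))), ((-1), .m (.v 0) jB), (2, .m (.v 0) jAX), ((-2), .m (.v 0) jB)], 0),
  -- ('V', 'sx', 2, 1)
  ([(1, .m (.v 1) (.m (.v 2) (.m js (.v 0)))), ((-1), .m (.v 1) jB), (2, .m (.v 1) jAX), ((-2), .m (.v 1) jB)], 0),
  -- ('V', 'sx', 2, 2)
  ([(1, .m (.v 2) (.m (.v 2) (.m js (.v 0)))), ((-1), .m (.v 2) jB), (2, .m (.v 2) jAX), ((-2), .m (.v 2) jB)], 0),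
  -- ('Q', 's', 'sx')
  ([(1, .m js (.m js (.v 0))), ((-1), .m (.v 0) jA)], 0),
  -- ('Q', 'm', 'sx')
  ([(1, .m jm (.m js (.v 0))), ((-1), .m (.v 0) jB), (2, .m (.v 0) jAX), ((-2), .m (.v 0) jB)], 0),
  -- ('Q', 'q', 'sx')
  ([(1, .m jq (.m js (.v 0))), ((-1), .m (.v 0) jD)], 0)]

def id_sl (μ c : ℤ) : IdL := [
  -- ('V', 'sl', 0, 0)
  ([(1, .m (.v 0) (.m (.v 0) (.m js (.v 1)))), ((-1) * μ, .m (.v 0) jA)], 0),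
  -- ('V', 'sl', 0, 1)
  ([(1, .m (.v 1) (.m (.v 0) (.m js (.v 1)))), ((-1) * μ, .m (.v 1) jA)], 0),
  -- ('V', 'sl', 0, 2)
  ([(1, .m (.v 2) (.m (.v 0) (.m js (.v 1)))), ((-1) * μ, .m (.v 2) jA)], 0),
  -- ('V', 'sl', 1, 0)
  ([(1, .m (.v 0) (.m (.v 1) (.m js (.v 1)))), ((-1), .m (.v 0) jD)], 0),
  -- ('V', 'sl', 1, 1)
  ([(1, .m (.v 1) (.m (.v 1) (.m js (.v 1)))), ((-1), .m (.v 1) jD)], 0),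
  -- ('V', 'sl', 1, 2)
  ([(1, .m (.v 2) (.m (.v 1) (.m js (.v 1)))), ((-1), .m (.v 2) jD)], 0),
  -- ('V', 'sl', 2, 0)
  ([(1, .m (.v 0) (.m (.v 2) (.m js (.v 1)))), (2, .m (.v 0) jBX), ((-2) * μ, .m (.v 0) jB)], 0),
  -- ('V', 'sl', 2, 1)
  ([(1, .m (.v 1) (.m (.v 2) (.m js (.v 1)))), (2, .m (.v 1) jBX), ((-2) * μ, .m (.v 1) jB)], 0),
  -- ('V', 'sl', 2, 2)
  ([(1, .m (.v 2) (.m (.v 2) (.m js (.v 1)))), (2, .m (.v 2) jBX), ((-2) * μ, .m (.v 2) jB)], 0),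
  -- ('Q', 's', 'sl')
  ([(1, .m js (.m js (.v 1))), ((-1), .m (.v 1) jA)], 0),
  -- ('Q', 'm', 'sl')
  ([(1, .m jm (.m js (.v 1))), ((-1), .m (.v 1) jB), (4 * μ, .m (.v 0) jAX), ((-4) * μ, .m (.v 0) jB)], 0),
  -- ('Q', 'q', 'sl')
  ([(1, .m jq (.m js (.v 1))), ((-1), .m (.v 1) jD)], 0)]

def id_sz (μ c : ℤ) : IdL := [
  -- ('V', 'sz', 0, 0)
  ([(1, .m (.v 0) (.m (.v 0) (.m js (.v 2)))), ((-1), .m (.v 0) jB)], 0),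
  -- ('V', 'sz', 0, 1)
  ([(1, .m (.v 1) (.m (.v 0) (.m js (.v 2)))), ((-1), .m (.v 1) jB)], 0),
  -- ('V', 'sz', 0, 2)
  ([(1, .m (.v 2) (.m (.v 0) (.m js (.v 2)))), ((-1), .m (.v 2) jB)], 0),
  -- ('V', 'sz', 1, 0)
  ([(1, .m (.v 0) (.m (.v 1) (.m js (.v 2))))], 0),
  -- ('V', 'sz', 1, 1)
  ([(1, .m (.v 1) (.m (.v 1) (.m js (.v 2))))], 0),
  -- ('V', 'sz', 1, 2)
  ([(1, .m (.v 2) (.m (.v 1) (.m js (.v 2))))], 0),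
  -- ('V', 'sz', 2, 0)
  ([(1, .m (.v 0) (.m (.v 2) (.m js (.v 2)))), ((-1) * c, .m (.v 0) jD), (2, .m (.v 0) jGX), ((-2), .m (.v 0) jC)], 0),
  -- ('V', 'sz', 2, 1)
  ([(1, .m (.v 1) (.m (.v 2) (.m js (.v 2)))), ((-1) * c, .m (.v 1) jD), (2, .m (.v 1) jGX), ((-2), .m (.v 1) jC)], 0),
  -- ('V', 'sz', 2, 2)
  ([(1, .m (.v 2) (.m (.v 2) (.m js (.v 2)))), ((-1) * c, .m (.v 2) jD), (2, .m (.v 2) jGX), ((-2), .m (.v 2) jC)], 0),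
  -- ('Q', 's', 'sz')
  ([(1, .m js (.m js (.v 2))), ((-1), .m (.v 2) jA), ((-4), .m (.v 0) jAX), (4, .m (.v 0) jB)], 0),
  -- ('Q', 'm', 'sz')
  ([(1, .m jm (.m js (.v 2))), ((-1), .m (.v 2) jB)], 0),
  -- ('Q', 'q', 'sz')
  ([(1, .m jq (.m js (.v 2))), ((-1), .m (.v 2) jD)], 0)]

def id_mx (μ c : ℤ) : IdL := [
  -- ('V', 'mx', 0, 0)
  ([(1, .m (.v 0) jAX), ((-1), .m (.v 0) jB), ((-1), .m (.v 0) jAX), (1, .m (.v 0) jB)], 0),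
  -- ('V', 'mx', 0, 1)
  ([(1, .m (.v 1) jAX), ((-1), .m (.v 1) jB), ((-1), .m (.v 1) jAX), (1, .m (.v 1) jB)], 0),
  -- ('V', 'mx', 0, 2)
  ([(1, .m (.v 2) jAX), ((-1), .m (.v 2) jB), ((-1), .m (.v 2) jAX), (1, .m (.v 2) jB)], 0),
  -- ('V', 'mx', 1, 0)
  ([(1, .m (.v 0) (.m (.v 1) (.m jm (.v 0)))), ((-1) * μ, .m (.v 0) jB), ((-2) * μ, .m (.v 0) jAX), (2 * μ, .m (.v 0) jB)], 0),
  -- ('V', 'mx', 1, 1)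
  ([(1, .m (.v 1) (.m (.v 1) (.m jm (.v 0)))), ((-1) * μ, .m (.v 1) jB), ((-2) * μ, .m (.v 1) jAX), (2 * μ, .m (.v 1) jB)], 0),
  -- ('V', 'mx', 1, 2)
  ([(1, .m (.v 2) (.m (.v 1) (.m jm (.v 0)))), ((-1) * μ, .m (.v 2) jB), ((-2) * μ, .m (.v 2) jAX), (2 * μ, .m (.v 2) jB)], 0),
  -- ('V', 'mx', 2, 0)
  ([(1, .m (.v 0) (.m (.v 2) (.m jm (.v 0)))), ((-1), .m (.v 0) jC)], 0),
  -- ('V', 'mx', 2, 1)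
  ([(1, .m (.v 1) (.m (.v 2) (.m jm (.v 0)))), ((-1), .m (.v 1) jC)], 0),
  -- ('V', 'mx', 2, 2)
  ([(1, .m (.v 2) (.m (.v 2) (.m jm (.v 0)))), ((-1), .m (.v 2) jC)], 0),
  -- ('Q', 's', 'mx')
  ([(1, .m js (.m jm (.v 0))), ((-1), .m (.v 0) jB)], 0),
  -- ('Q', 'm', 'mx')
  ([(1, .m jm (.m jm (.v 0))), ((-1), .m (.v 0) jC), (1, .m (.v 0) jGX), ((-1), .m (.v 0) jC), (1, .m (.v 2) jAX), ((-1), .m (.v 2) jB)], 0),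
  -- ('Q', 'q', 'mx')
  ([(1, .m jq (.m jm (.v 0))), ((-1), .m (.v 0) jE)], 0)]

def id_ml (μ c : ℤ) : IdL := [
  -- ('V', 'ml', 0, 0)
  ([(1, .m (.v 0) jBX), ((-1) * μ, .m (.v 0) jB), ((-1), .m (.v 0) jBX), (μ, .m (.v 0) jB)], 0),
  -- ('V', 'ml', 0, 1)
  ([(1, .m (.v 1) jBX), ((-1) * μ, .m (.v 1) jB), ((-1), .m (.v 1) jBX), (μ, .m (.v 1) jB)], 0),
  -- ('V', 'ml', 0, 2)
  ([(1, .m (.v 2) jBX), ((-1) * μ, .m (.v 2) jB), ((-1), .m (.v 2) jBX), (μ, .m (.v 2) jB)], 0),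
  -- ('V', 'ml', 1, 0)
  ([(1, .m (.v 0) (.m (.v 1) (.m jm (.v 1)))), ((-1), .m (.v 0) jE), ((-2) * μ, .m (.v 0) jBX), (2 * μ * μ, .m (.v 0) jB)], 0),
  -- ('V', 'ml', 1, 1)
  ([(1, .m (.v 1) (.m (.v 1) (.m jm (.v 1)))), ((-1), .m (.v 1) jE), ((-2) * μ, .m (.v 1) jBX), (2 * μ * μ, .m (.v 1) jB)], 0),
  -- ('V', 'ml', 1, 2)
  ([(1, .m (.v 2) (.m (.v 1) (.m jm (.v 1)))), ((-1), .m (.v 2) jE), ((-2) * μ, .m (.v 2) jBX), (2 * μ * μ, .m (.v 2) jB)], 0),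
  -- ('V', 'ml', 2, 0)
  ([(1, .m (.v 0) (.m (.v 2) (.m jm (.v 1))))], 0),
  -- ('V', 'ml', 2, 1)
  ([(1, .m (.v 1) (.m (.v 2) (.m jm (.v 1))))], 0),
  -- ('V', 'ml', 2, 2)
  ([(1, .m (.v 2) (.m (.v 2) (.m jm (.v 1))))], 0),
  -- ('Q', 's', 'ml')
  ([(1, .m js (.m jm (.v 1))), ((-1), .m (.v 1) jB)], 0),
  -- ('Q', 'm', 'ml')
  ([(1, .m jm (.m jm (.v 1))), ((-1), .m (.v 1) jC), (2 * μ, .m (.v 0) jGX), ((-2) * μ, .m (.v 0) jC), (2 * μ, .m (.v 2) jAX), ((-2) * μ, .m (.v 2) jB)], 0),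
  -- ('Q', 'q', 'ml')
  ([(1, .m jq (.m jm (.v 1))), ((-1), .m (.v 1) jE)], 0)]

def id_mz (μ c : ℤ) : IdL := [
  -- ('V', 'mz', 0, 0)
  ([(1, .m (.v 0) jGX), ((-1), .m (.v 0) jC), ((-1), .m (.v 0) jGX), (1, .m (.v 0) jC)], 0),
  -- ('V', 'mz', 0, 1)
  ([(1, .m (.v 1) jGX), ((-1), .m (.v 1) jC), ((-1), .m (.v 1) jGX), (1, .m (.v 1) jC)], 0),
  -- ('V', 'mz', 0, 2)
  ([(1, .m (.v 2) jGX), ((-1), .m (.v 2) jC), ((-1), .m (.v 2) jGX), (1, .m (.v 2) jC)], 0),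
  -- ('V', 'mz', 1, 0)
  ([(1, .m (.v 0) (.m (.v 1) (.m jm (.v 2)))), ((-2) * μ, .m (.v 0) jGX), (2 * μ, .m (.v 0) jC)], 0),
  -- ('V', 'mz', 1, 1)
  ([(1, .m (.v 1) (.m (.v 1) (.m jm (.v 2)))), ((-2) * μ, .m (.v 1) jGX), (2 * μ, .m (.v 1) jC)], 0),
  -- ('V', 'mz', 1, 2)
  ([(1, .m (.v 2) (.m (.v 1) (.m jm (.v 2)))), ((-2) * μ, .m (.v 2) jGX), (2 * μ, .m (.v 2) jC)], 0),
  -- ('V', 'mz', 2, 0)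
  ([(1, .m (.v 0) (.m (.v 2) (.m jm (.v 2)))), ((-1) * c, .m (.v 0) jE)], 0),
  -- ('V', 'mz', 2, 1)
  ([(1, .m (.v 1) (.m (.v 2) (.m jm (.v 2)))), ((-1) * c, .m (.v 1) jE)], 0),
  -- ('V', 'mz', 2, 2)
  ([(1, .m (.v 2) (.m (.v 2) (.m jm (.v 2)))), ((-1) * c, .m (.v 2) jE)], 0),
  -- ('Q', 's', 'mz')
  ([(1, .m js (.m jm (.v 2))), ((-1), .m (.v 2) jB), ((-2), .m (.v 0) jGX), (2, .m (.v 0) jC), ((-2), .m (.v 2) jAX), (2, .m (.v 2) jB)], 0),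
  -- ('Q', 'm', 'mz')
  ([(1, .m jm (.m jm (.v 2))), ((-1), .m (.v 2) jC)], 0),
  -- ('Q', 'q', 'mz')
  ([(1, .m jq (.m jm (.v 2))), ((-1), .m (.v 2) jE)], 0)]

def id_qx (μ c : ℤ) : IdL := [
  -- ('V', 'qx', 0, 0)
  ([(1, .m (.v 0) (.m (.v 0) (.m jq (.v 0)))), ((-1), .m (.v 0) jD)], 0),
  -- ('V', 'qx', 0, 1)
  ([(1, .m (.v 1) (.m (.v 0) (.m jq (.v 0)))), ((-1), .m (.v 1) jD)], 0),
  -- ('V', 'qx', 0, 2)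
  ([(1, .m (.v 2) (.m (.v 0) (.m jq (.v 0)))), ((-1), .m (.v 2) jD)], 0),
  -- ('V', 'qx', 1, 0)
  ([(1, .m (.v 0) (.m (.v 1) (.m jq (.v 0)))), ((-1) * μ, .m (.v 0) jD)], 0),
  -- ('V', 'qx', 1, 1)
  ([(1, .m (.v 1) (.m (.v 1) (.m jq (.v 0)))), ((-1) * μ, .m (.v 1) jD)], 0),
  -- ('V', 'qx', 1, 2)
  ([(1, .m (.v 2) (.m (.v 1) (.m jq (.v 0)))), ((-1) * μ, .m (.v 2) jD)], 0),
  -- ('V', 'qx', 2, 0)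
  ([(1, .m (.v 0) (.m (.v 2) (.m jq (.v 0)))), ((-1), .m (.v 0) jE)], 0),
  -- ('V', 'qx', 2, 1)
  ([(1, .m (.v 1) (.m (.v 2) (.m jq (.v 0)))), ((-1), .m (.v 1) jE)], 0),
  -- ('V', 'qx', 2, 2)
  ([(1, .m (.v 2) (.m (.v 2) (.m jq (.v 0)))), ((-1), .m (.v 2) jE)], 0),
  -- ('Q', 's', 'qx')
  ([(1, .m js (.m jq (.v 0))), ((-1), .m (.v 0) jD)], 0),
  -- ('Q', 'm', 'qx')
  ([(2, .m jm (.m jq (.v 0))), ((-2), .m (.v 0) jE), (1, .m js (.m jq (.v 2))), ((-1), .m jq (.m js (.v 2)))], 0),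
  -- ('Q', 'q', 'qx')
  ([(1, .m jq (.m jq (.v 0))), ((-1), .m (.v 0) jG)], 0)]

def id_ql (μ c : ℤ) : IdL := [
  -- ('V', 'ql', 0, 0)
  ([(1, .m (.v 0) (.m (.v 0) (.m jq (.v 1)))), ((-1) * μ, .m (.v 0) jD)], 0),
  -- ('V', 'ql', 0, 1)
  ([(1, .m (.v 1) (.m (.v 0) (.m jq (.v 1)))), ((-1) * μ, .m (.v 1) jD)], 0),
  -- ('V', 'ql', 0, 2)
  ([(1, .m (.v 2) (.m (.v 0) (.m jq (.v 1)))), ((-1) * μ, .m (.v 2) jD)], 0),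
  -- ('V', 'ql', 1, 0)
  ([(1, .m (.v 0) (.m (.v 1) (.m jq (.v 1)))), ((-1), .m (.v 0) jG)], 0),
  -- ('V', 'ql', 1, 1)
  ([(1, .m (.v 1) (.m (.v 1) (.m jq (.v 1)))), ((-1), .m (.v 1) jG)], 0),
  -- ('V', 'ql', 1, 2)
  ([(1, .m (.v 2) (.m (.v 1) (.m jq (.v 1)))), ((-1), .m (.v 2) jG)], 0),
  -- ('V', 'ql', 2, 0)
  ([(1, .m (.v 0) (.m (.v 2) (.m jq (.v 1))))], 0),
  -- ('V', 'ql', 2, 1)
  ([(1, .m (.v 1) (.m (.v 2) (.m jq (.v 1))))], 0),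
  -- ('V', 'ql', 2, 2)
  ([(1, .m (.v 2) (.m (.v 2) (.m jq (.v 1))))], 0),
  -- ('Q', 's', 'ql')
  ([(1, .m js (.m jq (.v 1))), ((-1), .m (.v 1) jD)], 0),
  -- ('Q', 'm', 'ql')
  ([(1, .m jm (.m jq (.v 1))), ((-1), .m (.v 1) jE), (μ, .m js (.m jq (.v 2))), ((-1) * μ, .m jq (.m js (.v 2)))], 0),
  -- ('Q', 'q', 'ql')
  ([(1, .m jq (.m jq (.v 1))), ((-1), .m (.v 1) jG)], 0)]

def id_qz (μ c : ℤ) : IdL := [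
  -- ('V', 'qz', 0, 0)
  ([(1, .m (.v 0) (.m (.v 0) (.m jq (.v 2)))), ((-1), .m (.v 0) jE)], 0),
  -- ('V', 'qz', 0, 1)
  ([(1, .m (.v 1) (.m (.v 0) (.m jq (.v 2)))), ((-1), .m (.v 1) jE)], 0),
  -- ('V', 'qz', 0, 2)
  ([(1, .m (.v 2) (.m (.v 0) (.m jq (.v 2)))), ((-1), .m (.v 2) jE)], 0),
  -- ('V', 'qz', 1, 0)
  ([(1, .m (.v 0) (.m (.v 1) (.m jq (.v 2))))], 0),
  -- ('V', 'qz', 1, 1)
  ([(1, .m (.v 1) (.m (.v 1) (.m jq (.v 2))))], 0),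
  -- ('V', 'qz', 1, 2)
  ([(1, .m (.v 2) (.m (.v 1) (.m jq (.v 2))))], 0),
  -- ('V', 'qz', 2, 0)
  ([(1, .m (.v 0) (.m (.v 2) (.m jq (.v 2)))), ((-1) * c, .m (.v 0) jG)], 0),
  -- ('V', 'qz', 2, 1)
  ([(1, .m (.v 1) (.m (.v 2) (.m jq (.v 2)))), ((-1) * c, .m (.v 1) jG)], 0),
  -- ('V', 'qz', 2, 2)
  ([(1, .m (.v 2) (.m (.v 2) (.m jq (.v 2)))), ((-1) * c, .m (.v 2) jG)], 0),
  -- ('Q', 's', 'qz')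
  ([(1, .m js (.m jq (.v 2))), ((-1), .m (.v 2) jD), ((-1), .m js (.m jq (.v 2))), (1, .m jq (.m js (.v 2)))], 0),
  -- ('Q', 'm', 'qz')
  ([(1, .m jm (.m jq (.v 2))), ((-1), .m (.v 2) jE)], 0),
  -- ('Q', 'q', 'qz')
  ([(1, .m jq (.m jq (.v 2))), ((-1), .m (.v 2) jG)], 0)]

def id_R (μ c : ℤ) : IdL := [
  -- ('R', 1)
  ([(4, .m (.v 1) jBX), ((-4) * μ, .m (.v 1) jB), ((-1), .m js (.m jq (.v 2))), (1, .m jq (.m js (.v 2)))], 0),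
  -- ('R', 2)
  ([(1, .m (.v 2) jBX), ((-1) * μ, .m (.v 2) jB), (1, .m (.v 1) jGX), ((-1), .m (.v 1) jC)], 0),
  -- ('R', 3)
  ([(4, .m (.v 2) jGX), ((-4), .m (.v 2) jC), ((-1) * c, .m js (.m jq (.v 2))), (c, .m jq (.m js (.v 2)))], 0),
  -- ('R', 4)
  ([(1, .m (.v 1) jAX), ((-1), .m (.v 1) jB), (1, .m (.v 0) jBX), ((-1) * μ, .m (.v 0) jB), ((-2) * μ, .m (.v 0) jAX), (2 * μ, .m (.v 0) jB)], 0),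
  -- ('R', 0)
  ([(1, .m js (.m jq (.v 2))), ((-1), .m jq (.m js (.v 2)))], (-2))]

def relsOf (μ c : ℤ) : Rels := [[(1, 0, 1), (1, 1, 0), (-2 * μ, 0, 0)], [(1, 1, 2), (1, 2, 1)], [(1, 2, 2), (-c, 1, 1)]]

/-- check a list of identities -/
def chkAll (R : Rels) : IdL → List (ℤ × List (ℤ × ℕ × ℕ × ℕ)) → Bool
  | [], _ => true
  | _ :: _, [] => false
  | i :: is, ct :: cts => chkId R i.1 i.2 ct.1 ct.2 && chkAll R is cts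

end JD
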