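import Pool.Agent.H8.JD.Basic

set_option autoImplicit false

/-!
# JD: certificates for S-systems in three letters (checker)

Words in the letters `0, 1, 2` (`Fin 3`). `sec w` is an explicit expression of `S w` through
products `S v * S v'` of total length `|w|`.  `instTerms p q r t` is the linearised Jordan
identity in the elements `S p, S q, S r, S t`, expanded through the product rules of lower total
length.
-/

namespace JD

abbrev Wd := List (Fin 3)

/-- numerical code of a word -/
def code : Wd → ℕ
  | [] => 0
  | a :: l => code l * 4 + (a.val + 1)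

/-- code up to reversal -/
def rc (w : Wd) : ℕ :=
  match Nat.ble (code w) (code w.reverse) with
  | true => code w
  | false => code w.reverse

/-- the four words of the product rule -/
def mul4 (v w : Wd) : List Wd := [v ++ w, v ++ w.reverse, v.reverse ++ w, w ++ v]

def isPal (w : Wd) : Bool := Nat.beq (code w) (code w.reverse)

def rotn (w : Wd) (k : ℕ) : Wd := w.drop k ++ w.take k

/-- alternating rotation terms -/
def rotTerms (c : ℤ) (w : Wd) (k : ℕ) : List (ℤ × Wd × Wd) :=
  (List.range k).map fun i => (if i % 2 = 0 then c else -c, (w.drop i).take 1,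
    w.drop (i + 1) ++ w.take i)

/-- search for two cyclically adjacent equal letters, starting with rotation `k` -/
def secAdj (w : Wd) : ℕ → ℕ → Option (List (ℤ × Wd × Wd))
  | 0, _ => none
  | f + 1, k =>
    match rotn w k with
    | a :: b :: t =>
      if a = b then
        some (rotTerms 2 w k ++ (if k % 2 = 0 then [(1, [a, a], t), (1, [a], a :: t), (-1, [a], t ++ [a])]
          else [(-1, [a, a], t), (-1, [a], a :: t), (1, [a], t ++ [a])]))
      else secAdj w f (k + 1)
    | _ => none

/-- search for a splitting into two palindromes -/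
def secPal (w : Wd) : ℕ → ℕ → Option (List (ℤ × Wd × Wd))
  | 0, _ => none
  | f + 1, i =>
    if isPal (w.take i) && isPal (w.drop i) then some [(1, w.take i, w.drop i)]
    else secPal w f (i + 1)

/-- the last formula, for `abcabc` -/
def secLast : Wd → List (ℤ × Wd × Wd)
  | a :: b :: c :: _ => [(2, [a, b], [c, a, b, c]), (1, [a], [b, c, a, b, c]),
      (-1, [a], [c, a, b, c, b]), (1, [b], [a, c, a, b, c]), (-1, [b], [c, a, b, c, a]),
      (-1, [b, a, c, a, b], [c])]
  | _ => []

/-- the formula for `S w` -/
def sec (w : Wd) : List (ℤ × Wd × Wd) :=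
  if w.length = 2 then [(1, w.take 1, w.drop 1)]
  else if w.length % 2 = 1 then rotTerms 1 w w.length
  else match secAdj w w.length 0 with
    | some l => l
    | none => match secPal w (w.length - 1) 1 with
      | some l => l
      | none => secLast w

/-- vectors: sorted lists of `(coefficient, key)` -/
abbrev Vec := List (ℤ × ℕ)

/-- prepend a term unless its coefficient is zero -/
def cons0 (c : ℤ) (k : ℕ) (l : Vec) : Vec :=
  match c with
  | Int.ofNat 0 => l
  | Int.ofNat (n + 1) => (Int.ofNat (n + 1), k) :: l
  | Int.negSucc n => (Int.negSucc n, k) :: l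

/-- insert a term, dropping zero coefficients -/
def ins (c : ℤ) (k : ℕ) : Vec → Vec
  | [] => [(c, k)]
  | (d, k') :: l =>
    match Nat.ble k' k with
    | false => (c, k) :: (d, k') :: l
    | true => match Nat.beq k' k with
      | true => cons0 (c + d) k l
      | false => (d, k') :: ins c k l

/-- key of a product -/
def key (v w : Wd) : ℕ :=
  match Nat.ble (rc v) (rc w) with
  | true => rc v * 65536 + rc w
  | false => rc w * 65536 + rc v

/-- add `c` times the list of terms `t` to `l` -/
def addT (c : ℤ) (t : List (ℤ × Wd × Wd)) (l : Vec) : Vec :=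
  t.foldr (fun x acc => ins (c * x.1) (key x.2.1 x.2.2) acc) l

/-- add `c` times the vector `t` to `l`, merging sorted lists (first argument: fuel) -/
def addV (c : ℤ) : ℕ → Vec → Vec → Vec
  | 0, t, l => t.foldr (fun x acc => ins (c * x.1) x.2 acc) l
  | f + 1, t, l =>
    match t with
    | [] => l
    | (d, k) :: t' =>
      match l with
      | [] => cons0 (c * d) k (addV c f t' [])
      | (e, k') :: l' =>
        match Nat.ble k' k with
        | false => cons0 (c * d) k (addV c f t' ((e, k') :: l'))
        | true => match Nat.beq k' k with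
          | true => cons0 (c * d + e) k (addV c f t' l')
          | false => (e, k') :: addV c f ((d, k) :: t') l'

/-- the raw terms of an instance of the Jordan identity -/
def inst1 (p q r t : Wd) : List (ℤ × Wd × Wd) :=
  (mul4 p q).flatMap (fun u => (mul4 u t).map fun x => ((1 : ℤ), x, r)) ++
  (mul4 p q).flatMap (fun u => (mul4 r t).map fun y => ((-1 : ℤ), u, y))

def instTerms (p q r t : Wd) : List (ℤ × Wd × Wd) :=
  if p = q ∧ q = r then inst1 p p p t
  else inst1 p q r t ++ inst1 q r p t ++ inst1 r p q t

/-- decoding a word -/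
def dec : ℕ → ℕ → Wd
  | 0, _ => []
  | f + 1, n =>
    match Nat.beq n 0 with
    | true => []
    | false => (match n % 4 with | 1 => (0 : Fin 3) | 2 => 1 | _ => 2) :: dec f (n / 4)

/-- base `65536` digits (first argument: fuel) -/
def digs : ℕ → ℕ → List ℕ
  | 0, _ => []
  | f + 1, n =>
    match Nat.beq n 0 with
    | true => []
    | false => (n % 65536) :: digs f (n / 65536)

/-- parse pairs `(c + 32768, i)` -/
def parse2 : List ℕ → List (ℤ × ℕ)
  | c :: i :: l => (Int.subNatNat c 32768, i) :: parse2 l
  | _ => []

/-- parse triples `(c + 32768, a, b)` into vectors with key `a * 65536 + b` -/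
def parse3 : List ℕ → Vec
  | c :: a :: b :: l => (Int.subNatNat c 32768, a * 65536 + b) :: parse3 l
  | _ => []

/-- an instance entry: four codes and the vector -/
abbrev Entry := Wd × Wd × Wd × Wd × Vec

def parseE (n : ℕ) : Entry :=
  match digs 4000 n with
  | p :: q :: r :: t :: l => (dec 8 p, dec 8 q, dec 8 r, dec 8 t, parse3 l)
  | _ => ([], [], [], [], [])

def chkEntry (N : ℕ) (e : Entry) : Bool :=
  Nat.ble 1 e.1.length && Nat.ble 1 e.2.1.length && Nat.ble 1 e.2.2.1.length &&
    Nat.ble 1 e.2.2.2.1.length &&
    Nat.beq (e.1.length + e.2.1.length + e.2.2.1.length + e.2.2.2.1.length) N &&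
    (addV (-1) 100 e.2.2.2.2 (addT 1 (instTerms e.1 e.2.1 e.2.2.1 e.2.2.2.1) [])).isEmpty

/-- certificate: exponent of 2 and linear combination -/
abbrev Cert := ℕ × List (ℤ × ℕ)

def parseC (n : ℕ) : Cert :=
  match digs 4000 n with
  | j :: l => (j, parse2 l)
  | _ => (0, [])

def combine (tab : List Vec) (c : List (ℤ × ℕ)) (l : Vec) : Vec :=
  c.foldr (fun x acc => addV (-x.1) 1000 (tab.getD x.2 []) acc) l

/-- target vector of the product rule -/
def tgt (k : ℤ) (v w : Wd) : Vec :=
  ins (4 * k) (key v w) ((mul4 v w).foldr (fun u acc => addT (-k) (sec u) acc) [])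

def tgtRev (k : ℤ) (w : Wd) : Vec := addT k (sec w) (addT (-k) (sec w.reverse) [])

def chkMul (tab : List Vec) (v w : Wd) (c : Cert) : Bool :=
  (combine tab c.2 (tgt (Int.ofNat (2 ^ c.1)) v w)).isEmpty

def chkRev (tab : List Vec) (w : Wd) (c : Cert) : Bool :=
  (combine tab c.2 (tgtRev (Int.ofNat (2 ^ c.1)) w)).isEmpty

/-- all words with given content -/
def wordsC : ℕ → ℕ → ℕ → ℕ → List Wd
  | 0, _, _, _ => [[]]
  | N + 1, a, b, c =>
    (if a = 0 then [] else (wordsC N (a - 1) b c).map (0 :: ·)) ++
    ((if b = 0 then [] else (wordsC N a (b - 1) c).map (1 :: ·)) ++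
    (if c = 0 then [] else (wordsC N a b (c - 1)).map (2 :: ·)))

def isCan (w : Wd) : Bool := Nat.ble (code w) (code w.reverse)

def splits (w : Wd) (h : ℕ) : List (Wd × Wd) :=
  ((List.range h).map fun i => (w.take (i + 1), w.drop (i + 1))).filter
    fun p => isCan p.1 && isCan p.2

def pairsC (N a b c : ℕ) : List (Wd × Wd) := (wordsC N a b c).flatMap fun w => splits w (N / 2)

def zipChk {α β : Type} (f : α → β → Bool) : List α → List β → Bool
  | [], _ => true
  | _ :: _, [] => false
  | a :: as, b :: bs => f a b && zipChk f as bs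

/-- data for one content -/
structure Data where
  tab : List ℕ
  mulC : List ℕ
  revC : List ℕ

def Data.vecs (d : Data) : List Vec := d.tab.map fun n => (parseE n).2.2.2.2

def chkTab (N : ℕ) (d : Data) : Bool := d.tab.all fun n => chkEntry N (parseE n)

def chkMulC (a b c : ℕ) (d : Data) : Bool :=
  zipChk (fun p k => chkMul d.vecs p.1 p.2 (parseC k)) (pairsC (a + b + c) a b c) d.mulC

def chkRevC (a b c : ℕ) (d : Data) : Bool :=
  zipChk (fun w k => chkRev d.vecs w (parseC k)) (wordsC (a + b + c) a b c) d.revC

def chkData (a b c : ℕ) (d : Data) : Bool :=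
  chkTab (a + b + c) d && chkMulC a b c d && chkRevC a b c d

end JD
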