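import Pool.Agent.H8.JD.SStep

set_option autoImplicit false
set_option maxRecDepth 100000

/-!
# JD: `sec` is equivariant and uses only shorter words (lengths 2 to 7)
-/

namespace JD

/-- all words of length `N` -/
def allW : ℕ → List Wd
  | 0 => [[]]
  | N + 1 => (allW N).flatMap fun w => [0 :: w, 1 :: w, 2 :: w]

theorem mem_allW (w : Wd) : w ∈ allW w.length := by
  induction w with
  | nil => simp [allW]
  | cons a w ih =>
    have h3 : a = 0 ∨ a = 1 ∨ a = 2 := by
      fin_cases a <;> simp
    simp only [List.length_cons, allW, List.mem_flatMap]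
    refine ⟨w, ih, ?_⟩
    rcases h3 with rfl | rfl | rfl <;> simp

/-- the function with given values -/
def fn3 (a b c : Fin 3) : Fin 3 → Fin 3
  | 0 => a
  | 1 => b
  | 2 => c

theorem fn3_eq (f : Fin 3 → Fin 3) : f = fn3 (f 0) (f 1) (f 2) := by
  funext i
  fin_cases i <;> rfl

/-- equality of lists of terms, checked through codes -/
def eqT : List (ℤ × Wd × Wd) → List (ℤ × Wd × Wd) → Bool
  | [], [] => true
  | a :: l, b :: m => decide (a.1 = b.1) && (Nat.beq (code a.2.1) (code b.2.1) &&
      (Nat.beq (code a.2.2) (code b.2.2) && eqT l m))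
  | _, _ => false

theorem eqT_sound (l m : List (ℤ × Wd × Wd)) (h : eqT l m = true) : l = m := by
  induction l generalizing m with
  | nil =>
    cases m with
    | nil => rfl
    | cons b m => simp [eqT] at h
  | cons a l ih =>
    cases m with
    | nil => simp [eqT] at h
    | cons b m =>
      simp only [eqT, Bool.and_eq_true, decide_eq_true_eq] at h
      obtain ⟨h1, h2, h3, h4⟩ := h
      have e2 := code_injective (Nat.eq_of_beq_eq_true h2)
      have e3 := code_injective (Nat.eq_of_beq_eq_true h3)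
      rw [ih m h4]
      congr 1
      exact Prod.ext h1 (Prod.ext e2 e3)

def chkEqv (N : ℕ) : Bool :=
  (allW N).all fun w => eqT (sec (w.map (fn3 1 0 2))) (mapT (fn3 1 0 2) (sec w)) &&
    eqT (sec (w.map (fn3 0 2 1))) (mapT (fn3 0 2 1) (sec w))

theorem mapT_comp (f g : Fin 3 → Fin 3) (l : List (ℤ × Wd × Wd)) :
    mapT f (mapT g l) = mapT (f ∘ g) l := by
  simp [mapT, List.map_map, Function.comp_def]

theorem secEqv_of_chk {N : ℕ} (h : chkEqv N = true) : SecEqv N := by
  unfold chkEqv at h
  rw [List.all_eq_true] at h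
  have E : ∀ w : Wd, w.length = N → sec (w.map (fn3 1 0 2)) = mapT (fn3 1 0 2) (sec w) ∧
      sec (w.map (fn3 0 2 1)) = mapT (fn3 0 2 1) (sec w) := by
    intro w hw
    have h1 := h w (hw ▸ mem_allW w)
    rw [Bool.and_eq_true] at h1
    exact ⟨eqT_sound _ _ h1.1, eqT_sound _ _ h1.2⟩
  have C : ∀ f g : Fin 3 → Fin 3,
      (∀ w : Wd, w.length = N → sec (w.map f) = mapT f (sec w)) →
      (∀ w : Wd, w.length = N → sec (w.map g) = mapT g (sec w)) →
      (∀ w : Wd, w.length = N → sec (w.map (f ∘ g)) = mapT (f ∘ g) (sec w)) := by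
    intro f g hf hg w hw
    rw [← List.map_map, hf _ (by simpa using hw), hg w hw, mapT_comp]
  have E1 := fun w hw => (E w hw).1
  have E2 := fun w hw => (E w hw).2
  have E11 := C _ _ E1 E1
  have E12 := C _ _ E1 E2
  have E21 := C _ _ E2 E1
  have E121 := C _ _ E12 E1
  have t0 : fn3 0 1 2 = fn3 1 0 2 ∘ fn3 1 0 2 := by decide
  have t1 : fn3 1 2 0 = fn3 1 0 2 ∘ fn3 0 2 1 := by decide
  have t2 : fn3 2 0 1 = fn3 0 2 1 ∘ fn3 1 0 2 := by decide
  have t3 : fn3 2 1 0 = (fn3 1 0 2 ∘ fn3 0 2 1) ∘ fn3 1 0 2 := by decide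
  intro f hf
  have h01 : f 0 ≠ f 1 := fun h => by simpa using hf h
  have h02 : f 0 ≠ f 2 := fun h => by simpa using hf h
  have h12 : f 1 ≠ f 2 := fun h => by simpa using hf h
  have hmem : (f 0, f 1, f 2) = (0, 1, 2) ∨ (f 0, f 1, f 2) = (0, 2, 1) ∨
      (f 0, f 1, f 2) = (1, 0, 2) ∨ (f 0, f 1, f 2) = (1, 2, 0) ∨
      (f 0, f 1, f 2) = (2, 0, 1) ∨ (f 0, f 1, f 2) = (2, 1, 0) := by
    revert h01 h02 h12
    generalize f 0 = a
    generalize f 1 = b
    generalize f 2 = c
    revert a b c
    decide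
  rw [fn3_eq f]
  rcases hmem with h | h | h | h | h | h <;>
    · simp only [Prod.mk.injEq] at h
      obtain ⟨ha, hb, hc⟩ := h
      rw [ha, hb, hc]
      first
        | exact E1
        | exact E2
        | (rw [t0]; exact E11)
        | (rw [t1]; exact E12)
        | (rw [t2]; exact E21)
        | (rw [t3]; exact E121)

/-- the letters in two words, with multiplicity -/
def cnt3 (w : Wd) : ℕ × ℕ × ℕ := (w.count 0, w.count 1, w.count 2)

def chkOK (N : ℕ) : Bool :=
  (allW N).all fun w => (sec w).all fun t =>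
    !t.2.1.isEmpty && !t.2.2.isEmpty && decide (cnt3 (t.2.1 ++ t.2.2) = cnt3 w)

theorem secOK_of_chk {N : ℕ} (h : chkOK N = true) : SecOK N := by
  intro w hw t ht
  unfold chkOK at h
  rw [List.all_eq_true] at h
  have h1 := h w (hw ▸ mem_allW w)
  rw [List.all_eq_true] at h1
  have h2 := h1 t ht
  simp only [Bool.and_eq_true, Bool.not_eq_true', List.isEmpty_eq_false_iff, decide_eq_true_eq] at h2
  obtain ⟨⟨h3, h4⟩, h5⟩ := h2
  refine ⟨h3, h4, ?_⟩
  rw [List.perm_iff_count]
  intro a
  simp only [cnt3, Prod.mk.injEq] at h5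
  have h3 : a = 0 ∨ a = 1 ∨ a = 2 := by
    fin_cases a <;> simp
  rcases h3 with rfl | rfl | rfl
  · exact h5.1
  · exact h5.2.1
  · exact h5.2.2

/-- odd lengths -/
theorem rotTerms_map (f : Fin 3 → Fin 3) (c : ℤ) (w : Wd) (k : ℕ) :
    rotTerms c (w.map f) k = mapT f (rotTerms c w k) := by
  simp only [rotTerms, mapT, List.map_map]
  apply List.map_congr_left
  intro i _
  simp [List.map_take, List.map_drop]

theorem sec_odd {w : Wd} (h : w.length % 2 = 1) : sec w = rotTerms 1 w w.length := by
  unfold sec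
  rw [if_neg (by omega), if_pos h]

theorem secEqv_odd {N : ℕ} (h : N % 2 = 1) : SecEqv N := by
  intro f _ w hw
  rw [sec_odd (by simpa [hw] using h), sec_odd (by simpa [hw] using h), rotTerms_map]
  simp

theorem secOK_odd {N : ℕ} (h : N % 2 = 1) (h1 : 2 ≤ N) : SecOK N := by
  intro w hw t ht
  rw [sec_odd (by simpa [hw] using h)] at ht
  unfold rotTerms at ht
  rw [List.mem_map] at ht
  obtain ⟨i, hi, rfl⟩ := ht
  rw [List.mem_range] at hi
  refine ⟨?_, ?_, ?_⟩
  · apply List.ne_nil_of_length_pos
    simp only [List.length_take, List.length_drop]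
    omega
  · apply List.ne_nil_of_length_pos
    simp only [List.length_append, List.length_take, List.length_drop]
    omega
  · have e1 : List.take 1 (List.drop i w) ++ List.drop (i + 1) w = List.drop i w := by
      have := List.take_append_drop 1 (List.drop i w)
      rwa [List.drop_drop] at this
    simp only
    rw [← List.append_assoc, e1]
    exact List.perm_append_comm.trans (by rw [List.take_append_drop])

theorem chkEqv2 : chkEqv 2 = true := by decide +kernel
theorem chkEqv4 : chkEqv 4 = true := by decide +kernel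
theorem chkEqv6 : chkEqv 6 = true := by decide +kernel
theorem chkOK2 : chkOK 2 = true := by decide +kernel
theorem chkOK4 : chkOK 4 = true := by decide +kernel
theorem chkOK6 : chkOK 6 = true := by decide +kernel

theorem secEqv0 : SecEqv 0 := by
  intro f _ w hw
  have : w = [] := List.length_eq_zero_iff.1 hw
  subst this
  rfl

theorem secEqv_all (m : ℕ) (h : m ≤ 7) : SecEqv m := by
  interval_cases m
  · exact secEqv0
  · exact secEqv_odd rfl
  · exact secEqv_of_chk chkEqv2
  · exact secEqv_odd rfl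
  · exact secEqv_of_chk chkEqv4
  · exact secEqv_odd rfl
  · exact secEqv_of_chk chkEqv6
  · exact secEqv_odd rfl

theorem secOK_all (m : ℕ) (h2 : 2 ≤ m) (h : m ≤ 7) : SecOK m := by
  interval_cases m
  · exact secOK_of_chk chkOK2
  · exact secOK_odd rfl (by norm_num)
  · exact secOK_of_chk chkOK4
  · exact secOK_odd rfl (by norm_num)
  · exact secOK_of_chk chkOK6
  · exact secOK_odd rfl (by norm_num)

end JD
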