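import Pool.Agent.H8.JD.SCert

set_option autoImplicit false

/-!
# JD: soundness of the certificates for S-systems
-/

namespace JD

section codes

theorem code_injective : Function.Injective code := by
  intro v
  induction v with
  | nil =>
    intro w h
    cases w with
    | nil => rfl
    | cons b w => simp [code] at h
  | cons a v ih =>
    intro w h
    cases w with
    | nil => simp [code] at h
    | cons b w =>
      simp only [code] at h
      have ha := a.isLt
      have hb := b.isLt
      have h1 : code v = code w := by omega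
      have h2 : a = b := by
        apply Fin.ext; omega
      rw [h2, ih h1]

theorem code_lt (w : Wd) : code w < 4 ^ w.length := by
  induction w with
  | nil => simp [code]
  | cons a w ih =>
    have ha := a.isLt
    simp only [code, List.length_cons, pow_succ]
    omega

theorem code_lt' {w : Wd} (h : w.length ≤ 7) : code w < 65536 := by
  have h1 := code_lt w
  have h2 : 4 ^ w.length ≤ 4 ^ 7 := Nat.pow_le_pow_right (by norm_num) h
  have h3 : (4 : ℕ) ^ 7 < 65536 := by norm_num
  omega

theorem rc_eq (w : Wd) : rc w = code w ∨ rc w = code w.reverse := by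
  unfold rc
  cases Nat.ble (code w) (code w.reverse) <;> simp

theorem rc_lt {w : Wd} (h : w.length ≤ 7) : rc w < 65536 := by
  rcases rc_eq w with h1 | h1 <;> rw [h1]
  · exact code_lt' h
  · exact code_lt' (by simpa using h)

end codes

section eval

variable {J : Type*} [NonUnitalNonAssocCommRing J]

/-- value of a code -/
noncomputable def sig (s : Wd → J) : ℕ → J := Function.extend code s 0

theorem sig_code (s : Wd → J) (w : Wd) : sig s (code w) = s w :=
  code_injective.extend_apply s 0 w

theorem sig_rc {s : Wd → J} {w : Wd} (h : s w.reverse = s w) : sig s (rc w) = s w := by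
  rcases rc_eq w with h1 | h1 <;> rw [h1, sig_code]
  exact h

/-- value of a key -/
noncomputable def evK (s : Wd → J) (k : ℕ) : J := sig s (k / 65536) * sig s (k % 65536)

theorem evK_key {s : Wd → J} {v w : Wd} (hv : v.length ≤ 7) (hw : w.length ≤ 7)
    (h1 : s v.reverse = s v) (h2 : s w.reverse = s w) : evK s (key v w) = s v * s w := by
  have e1 := sig_rc h1
  have e2 := sig_rc h2
  have l1 := rc_lt hv
  have l2 := rc_lt hw
  unfold key
  cases Nat.ble (rc v) (rc w)
  · simp only [evK]
    rw [show (rc w * 65536 + rc v) / 65536 = rc w by omega,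
      show (rc w * 65536 + rc v) % 65536 = rc v by omega, e1, e2, mul_comm]
  · simp only [evK]
    rw [show (rc v * 65536 + rc w) / 65536 = rc v by omega,
      show (rc v * 65536 + rc w) % 65536 = rc w by omega, e1, e2]

/-- value of a vector -/
noncomputable def ev (s : Wd → J) (l : Vec) : J := (l.map fun t => t.1 • evK s t.2).sum

/-- value of a list of terms -/
def evT (s : Wd → J) (l : List (ℤ × Wd × Wd)) : J :=
  (l.map fun t => t.1 • (s t.2.1 * s t.2.2)).sum

@[simp] theorem ev_nil (s : Wd → J) : ev s [] = 0 := rfl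

@[simp] theorem ev_cons (s : Wd → J) (t : ℤ × ℕ) (l : Vec) :
    ev s (t :: l) = t.1 • evK s t.2 + ev s l := by
  simp [ev]

@[simp] theorem evT_nil (s : Wd → J) : evT s [] = 0 := rfl

@[simp] theorem evT_cons (s : Wd → J) (t : ℤ × Wd × Wd) (l : List (ℤ × Wd × Wd)) :
    evT s (t :: l) = t.1 • (s t.2.1 * s t.2.2) + evT s l := by
  simp [evT]

theorem evT_append (s : Wd → J) (l l' : List (ℤ × Wd × Wd)) :
    evT s (l ++ l') = evT s l + evT s l' := by
  simp [evT]

theorem ev_cons0 (s : Wd → J) (c : ℤ) (k : ℕ) (l : Vec) :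
    ev s (cons0 c k l) = c • evK s k + ev s l := by
  unfold cons0
  split
  · simp
  · rw [ev_cons]
  · rw [ev_cons]

theorem ev_ins (s : Wd → J) (c : ℤ) (k : ℕ) (l : Vec) :
    ev s (ins c k l) = c • evK s k + ev s l := by
  induction l with
  | nil => simp [ins]
  | cons t l ih =>
    obtain ⟨d, k'⟩ := t
    unfold ins
    cases hb : Nat.ble k' k
    · simp only [ev_cons]
    · cases hc : Nat.beq k' k
      · simp only [ev_cons, ih]
        abel
      · have hk : k' = k := Nat.eq_of_beq_eq_true hc
        subst hk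
        simp only [ev_cons, ev_cons0, add_smul, add_assoc]

theorem ev_addT (s : Wd → J) (c : ℤ) (t : List (ℤ × Wd × Wd)) (l : Vec)
    (h : ∀ x ∈ t, evK s (key x.2.1 x.2.2) = s x.2.1 * s x.2.2) :
    ev s (addT c t l) = c • evT s t + ev s l := by
  induction t with
  | nil => simp [addT]
  | cons x t ih =>
    have h1 := ih (fun y hy => h y (List.mem_cons_of_mem _ hy))
    have h2 := h x List.mem_cons_self
    simp only [addT, List.foldr_cons] at h1 ⊢
    rw [ev_ins, h1, h2, evT_cons, smul_add, smul_smul]
    abel

theorem ev_foldr_ins (s : Wd → J) (c : ℤ) (t l : Vec) :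
    ev s (t.foldr (fun x acc => ins (c * x.1) x.2 acc) l) = c • ev s t + ev s l := by
  induction t with
  | nil => simp
  | cons x t ih =>
    rw [List.foldr_cons, ev_ins, ih, ev_cons, smul_add, smul_smul]
    abel

theorem ev_addV (s : Wd → J) (c : ℤ) (f : ℕ) (t l : Vec) :
    ev s (addV c f t l) = c • ev s t + ev s l := by
  induction f generalizing t l with
  | zero => exact ev_foldr_ins s c t l
  | succ f ih =>
    cases t with
    | nil => simp [addV]
    | cons x t' =>
      obtain ⟨d, k⟩ := x
      cases l with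
      | nil =>
        simp only [addV, ev_cons0, ih, ev_cons, ev_nil, smul_add, smul_smul]
        abel
      | cons y l' =>
        obtain ⟨e, k'⟩ := y
        unfold addV
        cases hb : Nat.ble k' k
        · simp only [hb, ev_cons0, ih, ev_cons, smul_add, smul_smul]
          abel
        · cases hc : Nat.beq k' k
          · simp only [hb, hc, ih, ev_cons, smul_add, smul_smul]
            abel
          · have hk : k' = k := Nat.eq_of_beq_eq_true hc
            simp only [hb, hc, ev_cons0, ih, ev_cons, smul_add, smul_smul, add_smul]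
            subst hk
            abel

end eval

section good

variable {J : Type*} [NonUnitalNonAssocCommRing J]

/-- the rules hold up to total length `n` -/
structure Good (s : Wd → J) (n : ℕ) : Prop where
  rev : ∀ w : Wd, w.length ≤ n → s w.reverse = s w
  mul : ∀ v w : Wd, v ≠ [] → w ≠ [] → v.length + w.length ≤ n →
    (4 : ℤ) • (s v * s w) =
      s (v ++ w) + s (v ++ w.reverse) + s (v.reverse ++ w) + s (w ++ v)

variable {s : Wd → J} {n : ℕ}

theorem Good.mul4 (hs : Good s n) {v w : Wd} (hv : v ≠ []) (hw : w ≠ [])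
    (h : v.length + w.length ≤ n) : (4 : ℤ) • (s v * s w) = ((mul4 v w).map s).sum := by
  rw [hs.mul v w hv hw h]
  simp [JD.mul4]
  abel

theorem mul4_mem {v w u : Wd} (hu : u ∈ mul4 v w) (hv : v ≠ []) :
    u ≠ [] ∧ u.length = v.length + w.length := by
  simp only [mul4, List.mem_cons, List.not_mem_nil, or_false] at hu
  rcases hu with rfl | rfl | rfl | rfl <;> simp [hv] <;> omega

theorem sum_map_mul (l : List Wd) (c : J) :
    (l.map s).sum * c = (l.map fun u => s u * c).sum := by
  induction l with
  | nil => simp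
  | cons a l ih => simp [add_mul, ih]

theorem evT_flatMap (s : Wd → J) (l : List Wd) (g : Wd → List (ℤ × Wd × Wd)) :
    evT s (l.flatMap g) = (l.map fun u => evT s (g u)).sum := by
  induction l with
  | nil => simp
  | cons a l ih => simp [evT_append, ih]

theorem sum_map_neg' {α : Type*} (l : List α) (g : α → J) :
    (l.map fun a => - g a).sum = - (l.map g).sum := by
  induction l with
  | nil => simp
  | cons a l ih => simp [ih]; abel

theorem smul_list_sum (c : ℤ) (l : List J) : c • l.sum = (l.map fun a => c • a).sum := by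
  induction l with
  | nil => simp
  | cons a l ih => simp [ih]

/-- `16 ((p q) t) r` -/
theorem inst_left (hs : Good s n) {p q t r : Wd} (hp : p ≠ []) (hq : q ≠ []) (ht : t ≠ [])
    (h : p.length + q.length + t.length ≤ n) :
    (16 : ℤ) • (((s p * s q) * s t) * s r) =
      evT s ((mul4 p q).flatMap fun u => (mul4 u t).map fun x => ((1 : ℤ), x, r)) := by
  rw [evT_flatMap]
  have h1 : (16 : ℤ) • (((s p * s q) * s t) * s r) =
      (4 : ℤ) • ((((4 : ℤ) • (s p * s q)) * s t) * s r) := by
    rw [smul_mul_assoc, smul_mul_assoc, smul_smul]; norm_num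
  rw [h1, hs.mul4 hp hq (by omega), sum_map_mul]
  have h2 : ∀ l : List J, l.sum * s r = (l.map fun a => a * s r).sum := by
    intro l; induction l with
    | nil => simp
    | cons a l ih => simp [add_mul, ih]
  rw [h2, smul_list_sum, List.map_map, List.map_map]
  congr 1
  apply List.map_congr_left
  intro u hu
  obtain ⟨hu1, hu2⟩ := mul4_mem hu hp
  simp only [Function.comp_apply]
  rw [← smul_mul_assoc, hs.mul4 hu1 ht (by omega), sum_map_mul]
  simp only [evT, List.map_map, Function.comp_def, one_smul]

/-- `16 (p q) (r t)` -/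
theorem inst_right (hs : Good s n) {p q r t : Wd} (hp : p ≠ []) (hq : q ≠ []) (hr : r ≠ [])
    (ht : t ≠ []) (h1 : p.length + q.length ≤ n) (h2 : r.length + t.length ≤ n) :
    (16 : ℤ) • ((s p * s q) * (s r * s t)) =
      - evT s ((mul4 p q).flatMap fun u => (mul4 r t).map fun y => ((-1 : ℤ), u, y)) := by
  rw [evT_flatMap]
  have e1 : (16 : ℤ) • ((s p * s q) * (s r * s t)) =
      ((4 : ℤ) • (s p * s q)) * ((4 : ℤ) • (s r * s t)) := by
    rw [smul_mul_assoc, mul_smul_comm, smul_smul]; norm_num
  rw [e1, hs.mul4 hp hq h1, hs.mul4 hr ht h2, sum_map_mul]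
  rw [← sum_map_neg']
  congr 1
  apply List.map_congr_left
  intro u _
  simp only [evT, List.map_map, Function.comp_def]
  rw [← sum_map_neg', mul_comm, sum_map_mul]
  congr 1
  apply List.map_congr_left
  intro y _
  simp [mul_comm]

end good

section inst

variable {F : Type*} [Field F] {J : Type*} [NonUnitalNonAssocCommRing J] [Module F J]
  {s : Wd → J} {n : ℕ}

theorem evT_inst1 (hs : Good s n) {p q r t : Wd} (hp : p ≠ []) (hq : q ≠ []) (hr : r ≠ [])
    (ht : t ≠ []) (h : p.length + q.length + r.length + t.length ≤ n + 1) :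
    evT s (inst1 p q r t) = (16 : ℤ) • (((s p * s q) * s t) * s r) -
      (16 : ℤ) • ((s p * s q) * (s r * s t)) := by
  have lp := List.length_pos_of_ne_nil hp
  have lq := List.length_pos_of_ne_nil hq
  have lr := List.length_pos_of_ne_nil hr
  have lt := List.length_pos_of_ne_nil ht
  rw [inst_left hs hp hq ht (by omega), inst_right hs hp hq hr ht (by omega) (by omega), inst1,
    evT_append]
  abel

theorem evT_instTerms (h2 : (2 : F) ≠ 0) (hJ : IsJordan J) (hs : Good s n) {p q r t : Wd}
    (hp : p ≠ []) (hq : q ≠ []) (hr : r ≠ []) (ht : t ≠ [])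
    (h : p.length + q.length + r.length + t.length ≤ n + 1) :
    evT s (instTerms p q r t) = 0 := by
  unfold instTerms
  split_ifs with hc
  · obtain ⟨rfl, rfl⟩ := hc
    rw [evT_inst1 hs hp hp hp ht h, hJ, mul_comm (s t) (s p), sub_self]
  · rw [evT_append, evT_append, evT_inst1 hs hp hq hr ht h,
      evT_inst1 hs hq hr hp ht (by omega), evT_inst1 hs hr hp hq ht (by omega)]
    have := lin3 F h2 hJ (s p) (s q) (s r) (s t)
    linear_combination (norm := module) (16 : ℤ) • this

/-- words in vectors are short and satisfy the reversal rule -/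
theorem evK_of_good (hs : Good s n) (hn : n ≤ 7) {v w : Wd} (hv : v.length ≤ n)
    (hw : w.length ≤ n) : evK s (key v w) = s v * s w :=
  evK_key (hv.trans hn) (hw.trans hn) (hs.rev v hv) (hs.rev w hw)

theorem mem_inst1 {p q r t : Wd} (hp : p ≠ []) {x : ℤ × Wd × Wd}
    (hx : x ∈ inst1 p q r t) :
    (x.2.1.length = p.length + q.length + t.length ∧ x.2.2.length = r.length) ∨
    (x.2.1.length = p.length + q.length ∧ x.2.2.length = r.length + t.length) := by
  unfold inst1 at hx
  rw [List.mem_append] at hx
  rcases hx with hx | hx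
  · rw [List.mem_flatMap] at hx
    obtain ⟨u, hu, hx⟩ := hx
    rw [List.mem_map] at hx
    obtain ⟨y, hy, rfl⟩ := hx
    obtain ⟨hu1, hu2⟩ := mul4_mem hu hp
    obtain ⟨hy1, hy2⟩ := mul4_mem hy hu1
    left
    simp only [hy2, hu2, and_self]
  · rw [List.mem_flatMap] at hx
    obtain ⟨u, hu, hx⟩ := hx
    rw [List.mem_map] at hx
    obtain ⟨y, hy, rfl⟩ := hx
    obtain ⟨hu1, hu2⟩ := mul4_mem hu hp
    right
    refine ⟨hu2, ?_⟩
    simp only [mul4, List.mem_cons, List.not_mem_nil, or_false] at hy
    rcases hy with rfl | rfl | rfl | rfl <;> simp <;> omega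

theorem mem_instTerms {p q r t : Wd} (hp : p ≠ []) (hq : q ≠ []) (hr : r ≠ []) (ht : t ≠ [])
    (h : p.length + q.length + r.length + t.length ≤ n + 1) {x : ℤ × Wd × Wd}
    (hx : x ∈ instTerms p q r t) : x.2.1.length ≤ n ∧ x.2.2.length ≤ n := by
  have lp := List.length_pos_of_ne_nil hp
  have lq := List.length_pos_of_ne_nil hq
  have lr := List.length_pos_of_ne_nil hr
  have lt := List.length_pos_of_ne_nil ht
  unfold instTerms at hx
  split_ifs at hx with hc
  · obtain ⟨rfl, rfl⟩ := hc
    rcases mem_inst1 hp hx with h1 | h1 <;> omega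
  · rw [List.mem_append, List.mem_append] at hx
    rcases hx with (hx | hx) | hx
    · rcases mem_inst1 hp hx with h1 | h1 <;> omega
    · rcases mem_inst1 hq hx with h1 | h1 <;> omega
    · rcases mem_inst1 hr hx with h1 | h1 <;> omega

theorem chkEntry_sound (h2 : (2 : F) ≠ 0) (hJ : IsJordan J) (hs : Good s n) (hn : n ≤ 7)
    {e : Entry} (h : chkEntry (n + 1) e = true) : ev s e.2.2.2.2 = 0 := by
  unfold chkEntry at h
  simp only [Bool.and_eq_true] at h
  obtain ⟨⟨⟨⟨⟨h1, h2'⟩, h3⟩, h4⟩, h5⟩, h6⟩ := h
  have hp : e.1 ≠ [] := List.ne_nil_of_length_pos (Nat.le_of_ble_eq_true h1)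
  have hq : e.2.1 ≠ [] := List.ne_nil_of_length_pos (Nat.le_of_ble_eq_true h2')
  have hr : e.2.2.1 ≠ [] := List.ne_nil_of_length_pos (Nat.le_of_ble_eq_true h3)
  have ht : e.2.2.2.1 ≠ [] := List.ne_nil_of_length_pos (Nat.le_of_ble_eq_true h4)
  have hl := Nat.eq_of_beq_eq_true h5
  rw [List.isEmpty_iff] at h6
  have e1 := congrArg (ev s) h6
  rw [ev_addV, ev_addT, evT_instTerms h2 hJ hs hp hq hr ht hl.le] at e1
  · simpa using e1
  · intro x hx
    obtain ⟨a1, a2⟩ := mem_instTerms hp hq hr ht hl.le hx
    exact evK_of_good hs hn a1 a2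

theorem ev_combine (tab : List Vec) (ht : ∀ v ∈ tab, ev s v = 0) (c : List (ℤ × ℕ)) (l : Vec) :
    ev s (combine tab c l) = ev s l := by
  induction c with
  | nil => rfl
  | cons x c ih =>
    simp only [combine, List.foldr_cons] at ih ⊢
    rw [ev_addV, ih]
    have : ev s (tab.getD x.2 []) = 0 := by
      rcases lt_or_ge x.2 tab.length with h | h
      · rw [List.getD_eq_getElem _ _ h]
        exact ht _ (List.getElem_mem h)
      · rw [List.getD_eq_default _ _ h]; rfl
    rw [this]; simp

theorem two_pow_smul_eq_zero (h2 : (2 : F) ≠ 0) {a : J} (j : ℕ)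
    (h : (Int.ofNat (2 ^ j)) • a = 0) : a = 0 := by
  induction j with
  | zero => simpa using h
  | succ j ih =>
    apply ih
    refine eq_of_two_smul h2 ?_
    rw [smul_zero, smul_smul, ← h]
    congr 1
    simp [pow_succ, mul_comm]

end inst

end JD
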