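import Pool.Agent.H8.JD.SSound

set_option autoImplicit false

/-!
# JD: construction of S-systems in three letters, induction step
-/

namespace JD

section lists

theorem zipChk_sound {α β : Type} (f : α → β → Bool) (l : List α) (m : List β)
    (h : zipChk f l m = true) : ∀ a ∈ l, ∃ b, f a b = true := by
  induction l generalizing m with
  | nil => intro a ha; simp at ha
  | cons a l ih =>
    cases m with
    | nil => simp [zipChk] at h
    | cons b m =>
      simp only [zipChk, Bool.and_eq_true] at h
      intro c hc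
      rcases List.mem_cons.1 hc with rfl | hc
      · exact ⟨b, h.1⟩
      · exact ih m h.2 c hc

theorem mem_wordsC (w : Wd) : w ∈ wordsC w.length (w.count 0) (w.count 1) (w.count 2) := by
  induction w with
  | nil => simp [wordsC]
  | cons a w ih =>
    have h3 : a = 0 ∨ a = 1 ∨ a = 2 := by
      fin_cases a <;> simp
    simp only [List.length_cons, wordsC, List.mem_append]
    rcases h3 with rfl | rfl | rfl
    · left
      simpa using ih
    · right; left
      simpa using ih
    · right; right
      simpa using ih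

end lists

section step

variable {J : Type*} [NonUnitalNonAssocCommRing J]

/-- the systems -/
def Sx : ℕ → (Fin 3 → J) → Wd → J
  | 0, _, _ => 0
  | 1, x, w => match w with
    | [i] => x i
    | _ => 0
  | n + 2, x, w => if w.length = n + 2 then evT (Sx (n + 1) x) (sec w) else Sx (n + 1) x w

theorem Sx_of_lt (n : ℕ) (x : Fin 3 → J) (w : Wd) (h : w.length ≠ n + 2) :
    Sx (n + 2) x w = Sx (n + 1) x w := by
  simp [Sx, h]

theorem Sx_of_eq (n : ℕ) (x : Fin 3 → J) (w : Wd) (h : w.length = n + 2) :
    Sx (n + 2) x w = evT (Sx (n + 1) x) (sec w) := by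
  simp [Sx, h]

/-- map a list of terms -/
def mapT (f : Fin 3 → Fin 3) (l : List (ℤ × Wd × Wd)) : List (ℤ × Wd × Wd) :=
  l.map fun t => (t.1, t.2.1.map f, t.2.2.map f)

/-- equivariance of `sec` in length `N` -/
def SecEqv (N : ℕ) : Prop := ∀ (f : Fin 3 → Fin 3), Function.Injective f →
  ∀ w : Wd, w.length = N → sec (w.map f) = mapT f (sec w)

/-- `sec` only uses shorter words -/
def SecOK (N : ℕ) : Prop := ∀ w : Wd, w.length = N → ∀ t ∈ sec w,
  t.2.1 ≠ [] ∧ t.2.2 ≠ [] ∧ (t.2.1 ++ t.2.2).Perm w

theorem Sx_map (n : ℕ) (hE : ∀ m, m ≤ n → SecEqv m) (f : Fin 3 → Fin 3)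
    (hf : Function.Injective f) (x : Fin 3 → J) (w : Wd) :
    Sx n x (w.map f) = Sx n (x ∘ f) w := by
  induction n generalizing w with
  | zero => rfl
  | succ n ih =>
    cases n with
    | zero =>
      match w with
      | [] => rfl
      | [i] => rfl
      | i :: j :: w => rfl
    | succ n =>
      have ih' := fun w => ih (fun m hm => hE m (by omega)) w
      by_cases h : w.length = n + 2
      · rw [Sx_of_eq n x _ (by simpa using h), Sx_of_eq n _ _ h, hE (n + 2) le_rfl f hf w h]
        simp only [evT, mapT, List.map_map, Function.comp_def, ih']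
      · rw [Sx_of_lt n x _ (by simpa using h), Sx_of_lt n _ _ h]
        exact ih' w

/-- data for all sorted contents of total `N` -/
def HasData (N : ℕ) : Prop := ∀ a b c : ℕ, a ≤ b → b ≤ c → a + b + c = N →
  ∃ d : Data, chkTab (a + b + c) d = true ∧ chkMulC a b c d = true ∧ chkRevC a b c d = true

/-- the product rule for a pair -/
def Rule (s : Wd → J) (v w : Wd) : Prop :=
  (4 : ℤ) • (s v * s w) = s (v ++ w) + s (v ++ w.reverse) + s (v.reverse ++ w) + s (w ++ v)

theorem Rule.swap {s : Wd → J} {v w : Wd}
    (hr : ∀ u : Wd, u.length = v.length + w.length → s u.reverse = s u)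
    (h : Rule s v w) : Rule s w v := by
  unfold Rule at *
  have e1 : s (w ++ v.reverse) = s (v ++ w.reverse) := by
    rw [← hr (v ++ w.reverse) (by simp)]; simp
  have e2 : s (w.reverse ++ v) = s (v.reverse ++ w) := by
    rw [← hr (v.reverse ++ w) (by simp)]; simp
  rw [mul_comm, h, e1, e2]
  abel

theorem Rule.revL {s : Wd → J} {v w : Wd}
    (hr : ∀ u : Wd, u.length = v.length + w.length → s u.reverse = s u)
    (hv : s v.reverse = s v) (h : Rule s v w) : Rule s v.reverse w := by
  unfold Rule at *
  have e1 : s (v.reverse ++ w.reverse) = s (w ++ v) := by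
    rw [← hr (w ++ v) (by simp; omega)]; simp
  have e2 : s (w ++ v.reverse) = s (v ++ w.reverse) := by
    rw [← hr (v ++ w.reverse) (by simp)]; simp
  rw [List.reverse_reverse, hv, h, e1, e2]
  abel

theorem Rule.revR {s : Wd → J} {v w : Wd}
    (hr : ∀ u : Wd, u.length = v.length + w.length → s u.reverse = s u)
    (hw : s w.reverse = s w) (h : Rule s v w) : Rule s v w.reverse := by
  have hr' : ∀ u : Wd, u.length = w.length + v.length → s u.reverse = s u := by
    intro u hu; exact hr u (by omega)
  have h1 := (h.swap hr).revL hr' hw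
  exact h1.swap (by intro u hu; exact hr u (by simpa [add_comm] using hu))

theorem mem_splits {v w : Wd} (hv : v ≠ []) (h : v.length ≤ w.length)
    (c1 : isCan v = true) (c2 : isCan w = true) :
    (v, w) ∈ splits (v ++ w) ((v ++ w).length / 2) := by
  unfold splits
  rw [List.mem_filter]
  refine ⟨?_, by simp [c1, c2]⟩
  rw [List.mem_map]
  have lv := List.length_pos_of_ne_nil hv
  refine ⟨v.length - 1, ?_, ?_⟩
  · rw [List.mem_range]; simp only [List.length_append]; omega
  · have : v.length - 1 + 1 = v.length := by omega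
    rw [this]
    simp

theorem isCan_or (w : Wd) : isCan w = true ∨ isCan w.reverse = true := by
  unfold isCan
  rw [List.reverse_reverse]
  rcases le_total (code w) (code w.reverse) with h | h
  · left; exact Nat.ble_eq_true_of_le h
  · right; exact Nat.ble_eq_true_of_le h

variable {F : Type*} [Field F] [Module F J]

theorem Sx_rev_lower {n : ℕ} {x : Fin 3 → J} (hs : Good (Sx (n + 1) x) (n + 1)) (w : Wd)
    (h : w.length ≤ n + 1) : Sx (n + 2) x w.reverse = Sx (n + 2) x w := by
  rw [Sx_of_lt n x w (by omega), Sx_of_lt n x _ (by simp; omega)]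
  exact hs.rev w h

theorem step_rev_sorted (h2 : (2 : F) ≠ 0) (hJ : IsJordan J) {n : ℕ} (hn : n + 2 ≤ 7)
    (hO : SecOK (n + 2)) (hD : HasData (n + 2)) (x : Fin 3 → J)
    (hs : Good (Sx (n + 1) x) (n + 1)) (w : Wd) (hw : w.length = n + 2)
    (h01 : w.count 0 ≤ w.count 1) (h12 : w.count 1 ≤ w.count 2)
    (hsum : w.count 0 + w.count 1 + w.count 2 = n + 2) :
    Sx (n + 2) x w.reverse = Sx (n + 2) x w := by
  obtain ⟨d, d1, d2, d3⟩ := hD _ _ _ h01 h12 hsum
  have ht : ∀ v ∈ d.vecs, ev (Sx (n + 1) x) v = 0 := by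
    intro v hv
    unfold Data.vecs at hv
    rw [List.mem_map] at hv
    obtain ⟨k, hk, rfl⟩ := hv
    unfold chkTab at d1
    rw [List.all_eq_true] at d1
    have := d1 k hk
    rw [hsum] at this
    exact chkEntry_sound h2 hJ hs (by omega) this
  obtain ⟨k, hk⟩ := zipChk_sound _ _ _ d3 w (by
    have := mem_wordsC w
    rwa [hw, ← hsum] at this)
  unfold chkRev at hk
  rw [List.isEmpty_iff] at hk
  have e1 := congrArg (ev (Sx (n + 1) x)) hk
  rw [ev_combine _ ht] at e1
  unfold tgtRev at e1
  have key : ∀ u : Wd, u.length = n + 2 → ∀ t ∈ sec u,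
      evK (Sx (n + 1) x) (key t.2.1 t.2.2) = Sx (n + 1) x t.2.1 * Sx (n + 1) x t.2.2 := by
    intro u hu t ht
    obtain ⟨a1, a2, a3⟩ := hO u hu t ht
    have l1 := List.length_pos_of_ne_nil a1
    have l2 := List.length_pos_of_ne_nil a2
    have l3 := a3.length_eq
    rw [List.length_append] at l3
    exact evK_of_good hs (by omega) (by omega) (by omega)
  rw [ev_addT _ _ _ _ (key w hw), ev_addT _ _ _ _ (key _ (by simpa using hw)), ev_nil] at e1
  have e2 : (Int.ofNat (2 ^ (parseC k).1)) •
      (evT (Sx (n + 1) x) (sec w) - evT (Sx (n + 1) x) (sec w.reverse)) = 0 := by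
    rw [smul_sub, ← e1, neg_smul]
    abel
  have e3 := two_pow_smul_eq_zero h2 _ e2
  rw [Sx_of_eq n x w hw, Sx_of_eq n x _ (by simpa using hw)]
  exact (sub_eq_zero.1 e3).symm

theorem count_sum (w : Wd) : w.count 0 + w.count 1 + w.count 2 = w.length := by
  induction w with
  | nil => rfl
  | cons a w ih =>
    have h3 : a = 0 ∨ a = 1 ∨ a = 2 := by
      fin_cases a <;> simp
    rcases h3 with rfl | rfl | rfl <;> simp <;> omega

/-- sorting the letters -/
theorem exists_sort (u : Wd) : ∃ σ : Equiv.Perm (Fin 3),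
    (u.map σ.symm).count 0 ≤ (u.map σ.symm).count 1 ∧
      (u.map σ.symm).count 1 ≤ (u.map σ.symm).count 2 := by
  let g : Fin 3 → ℕ := fun i => u.count i
  have hm := Tuple.monotone_sort g
  have hc : ∀ i, (u.map (Tuple.sort g).symm).count i = g (Tuple.sort g i) := by
    intro i
    have := List.count_map_of_injective u (Tuple.sort g).symm (Tuple.sort g).symm.injective
      (Tuple.sort g i)
    simpa using this
  refine ⟨Tuple.sort g, ?_, ?_⟩
  · rw [hc, hc]; exact hm (by decide)
  · rw [hc, hc]; exact hm (by decide)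

theorem step_rev (h2 : (2 : F) ≠ 0) (hJ : IsJordan J) {n : ℕ} (hn : n + 2 ≤ 7)
    (hE : ∀ m, m ≤ n + 2 → SecEqv m) (hO : SecOK (n + 2)) (hD : HasData (n + 2))
    (hs : ∀ x : Fin 3 → J, Good (Sx (n + 1) x) (n + 1)) (x : Fin 3 → J) (w : Wd)
    (hw : w.length = n + 2) : Sx (n + 2) x w.reverse = Sx (n + 2) x w := by
  obtain ⟨σ, h1, h2'⟩ := exists_sort w
  have h3 := step_rev_sorted h2 hJ hn hO hD (x ∘ σ) (hs _) (w.map σ.symm) (by simpa using hw)
    h1 h2' (by rw [count_sum]; simpa using hw)
  rw [← List.map_reverse, ← Sx_map _ hE _ σ.injective, ← Sx_map _ hE _ σ.injective] at h3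
  simpa [List.map_map, Function.comp_def] using h3

theorem step_mul_sorted (h2 : (2 : F) ≠ 0) (hJ : IsJordan J) {n : ℕ} (hn : n + 2 ≤ 7)
    (hO : SecOK (n + 2)) (hD : HasData (n + 2)) (x : Fin 3 → J)
    (hs : Good (Sx (n + 1) x) (n + 1)) (v w : Wd) (hv : v ≠ []) (hw : w ≠ [])
    (hvw : v.length + w.length = n + 2) (hle : v.length ≤ w.length)
    (c1 : isCan v = true) (c2 : isCan w = true)
    (h01 : (v ++ w).count 0 ≤ (v ++ w).count 1) (h12 : (v ++ w).count 1 ≤ (v ++ w).count 2) :
    Rule (Sx (n + 2) x) v w := by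
  have hsum : (v ++ w).count 0 + (v ++ w).count 1 + (v ++ w).count 2 = n + 2 := by
    rw [count_sum]; simpa using hvw
  obtain ⟨d, d1, d2, d3⟩ := hD _ _ _ h01 h12 hsum
  have ht : ∀ v ∈ d.vecs, ev (Sx (n + 1) x) v = 0 := by
    intro v hv
    unfold Data.vecs at hv
    rw [List.mem_map] at hv
    obtain ⟨k, hk, rfl⟩ := hv
    unfold chkTab at d1
    rw [List.all_eq_true] at d1
    have := d1 k hk
    rw [hsum] at this
    exact chkEntry_sound h2 hJ hs (by omega) this
  obtain ⟨k, hk⟩ := zipChk_sound _ _ _ d2 (v, w) (by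
    unfold pairsC
    rw [List.mem_flatMap]
    refine ⟨v ++ w, ?_, ?_⟩
    · have := mem_wordsC (v ++ w)
      rwa [count_sum (v ++ w)]
    · have := mem_splits hv hle c1 c2
      rwa [count_sum (v ++ w)])
  unfold chkMul at hk
  rw [List.isEmpty_iff] at hk
  have e1 := congrArg (ev (Sx (n + 1) x)) hk
  rw [ev_combine _ ht] at e1
  have key : ∀ u : Wd, u.length = n + 2 → ∀ t ∈ sec u,
      evK (Sx (n + 1) x) (key t.2.1 t.2.2) = Sx (n + 1) x t.2.1 * Sx (n + 1) x t.2.2 := by
    intro u hu t ht
    obtain ⟨a1, a2, a3⟩ := hO u hu t ht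
    have l1 := List.length_pos_of_ne_nil a1
    have l2 := List.length_pos_of_ne_nil a2
    have l3 := a3.length_eq
    rw [List.length_append] at l3
    exact evK_of_good hs (by omega) (by omega) (by omega)
  have hlv := List.length_pos_of_ne_nil hv
  have hlw := List.length_pos_of_ne_nil hw
  unfold tgt at e1
  rw [ev_ins, evK_of_good (v := v) (w := w) hs (by omega) (by omega) (by omega)] at e1
  simp only [JD.mul4, List.foldr_cons, List.foldr_nil] at e1
  rw [ev_addT _ _ _ _ (key _ (by simpa using hvw)), ev_addT _ _ _ _ (key _ (by simpa using hvw)),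
    ev_addT _ _ _ _ (key _ (by simpa using hvw)),
    ev_addT _ _ _ _ (key _ (by simp; omega)), ev_nil] at e1
  have e2 : (Int.ofNat (2 ^ (parseC k).1)) •
      ((4 : ℤ) • (Sx (n + 1) x v * Sx (n + 1) x w) - (evT (Sx (n + 1) x) (sec (v ++ w)) +
      evT (Sx (n + 1) x) (sec (v ++ w.reverse)) + evT (Sx (n + 1) x) (sec (v.reverse ++ w)) +
      evT (Sx (n + 1) x) (sec (w ++ v)))) = 0 := by
    rw [← e1]
    module
  have e3 := two_pow_smul_eq_zero h2 _ e2
  unfold Rule
  rw [Sx_of_lt n x v (by omega), Sx_of_lt n x w (by omega),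
    Sx_of_eq n x (v ++ w) (by simpa using hvw), Sx_of_eq n x (v ++ w.reverse) (by simpa using hvw),
    Sx_of_eq n x (v.reverse ++ w) (by simpa using hvw), Sx_of_eq n x (w ++ v) (by simp; omega)]
  exact sub_eq_zero.1 e3

theorem step_mul (h2 : (2 : F) ≠ 0) (hJ : IsJordan J) {n : ℕ} (hn : n + 2 ≤ 7)
    (hE : ∀ m, m ≤ n + 2 → SecEqv m) (hO : SecOK (n + 2)) (hD : HasData (n + 2))
    (hs : ∀ x : Fin 3 → J, Good (Sx (n + 1) x) (n + 1)) (x : Fin 3 → J) (v w : Wd)
    (hv : v ≠ []) (hw : w ≠ []) (hvw : v.length + w.length = n + 2) :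
    Rule (Sx (n + 2) x) v w := by
  have hlv := List.length_pos_of_ne_nil hv
  have hlw := List.length_pos_of_ne_nil hw
  have hrev : ∀ (x : Fin 3 → J) (u : Wd), u.length = n + 2 →
      Sx (n + 2) x u.reverse = Sx (n + 2) x u := fun x u hu =>
    step_rev h2 hJ hn hE hO hD hs x u hu
  -- sorted letters, any pair
  have sorted : ∀ (x : Fin 3 → J) (v w : Wd), v ≠ [] → w ≠ [] → v.length + w.length = n + 2 →
      (v ++ w).count 0 ≤ (v ++ w).count 1 → (v ++ w).count 1 ≤ (v ++ w).count 2 →
      Rule (Sx (n + 2) x) v w := by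
    -- first for `|v| ≤ |w|`
    have A : ∀ (x : Fin 3 → J) (v w : Wd), v ≠ [] → w ≠ [] → v.length + w.length = n + 2 →
        v.length ≤ w.length →
        (v ++ w).count 0 ≤ (v ++ w).count 1 → (v ++ w).count 1 ≤ (v ++ w).count 2 →
        Rule (Sx (n + 2) x) v w := by
      intro x v w hv hw hvw hle h01 h12
      have hlv := List.length_pos_of_ne_nil hv
      have hlw := List.length_pos_of_ne_nil hw
      have lowv : Sx (n + 2) x v.reverse = Sx (n + 2) x v := Sx_rev_lower (hs x) v (by omega)
      have loww : Sx (n + 2) x w.reverse = Sx (n + 2) x w := Sx_rev_lower (hs x) w (by omega)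
      rcases isCan_or v with cv | cv <;> rcases isCan_or w with cw | cw
      · exact step_mul_sorted h2 hJ hn hO hD x (hs x) v w hv hw hvw hle cv cw h01 h12
      · have := step_mul_sorted h2 hJ hn hO hD x (hs x) v w.reverse hv (by simpa using hw)
          (by simpa using hvw) (by simpa using hle) cv cw
          (by simpa [List.count_append] using h01) (by simpa [List.count_append] using h12)
        have := this.revR (by intro u hu; exact hrev x u (by simp at hu; omega))
          (by rw [List.reverse_reverse, loww])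
        simpa using this
      · have := step_mul_sorted h2 hJ hn hO hD x (hs x) v.reverse w (by simpa using hv) hw
          (by simpa using hvw) (by simpa using hle) cv cw
          (by simpa [List.count_append] using h01) (by simpa [List.count_append] using h12)
        have := this.revL (by intro u hu; exact hrev x u (by simp at hu; omega))
          (by rw [List.reverse_reverse, lowv])
        simpa using this
      · have := step_mul_sorted h2 hJ hn hO hD x (hs x) v.reverse w.reverse (by simpa using hv)
          (by simpa using hw)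
          (by simpa using hvw) (by simpa using hle) cv cw
          (by simpa [List.count_append] using h01) (by simpa [List.count_append] using h12)
        have := this.revL (by intro u hu; exact hrev x u (by simp at hu; omega))
          (by rw [List.reverse_reverse, lowv])
        have := this.revR (by intro u hu; exact hrev x u (by simp at hu; omega))
          (by rw [List.reverse_reverse, loww])
        simpa using this
    intro x v w hv hw hvw h01 h12
    rcases le_total v.length w.length with hle | hle
    · exact A x v w hv hw hvw hle h01 h12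
    · have := A x w v hw hv (by omega) hle
        (by simpa [List.count_append, add_comm] using h01)
        (by simpa [List.count_append, add_comm] using h12)
      exact this.swap (by intro u hu; exact hrev x u (by omega))
  obtain ⟨σ, h1, h3⟩ := exists_sort (v ++ w)
  rw [List.map_append] at h1 h3
  have h4 := sorted (x ∘ σ) (v.map σ.symm) (w.map σ.symm) (by simpa using hv)
    (by simpa using hw) (by simpa using hvw) h1 h3
  unfold Rule at h4 ⊢
  rw [← List.map_reverse, ← List.map_reverse, ← List.map_append, ← List.map_append,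
    ← List.map_append, ← List.map_append] at h4
  simp only [← Sx_map _ hE _ σ.injective] at h4
  simpa [List.map_map, Function.comp_def] using h4

theorem step (h2 : (2 : F) ≠ 0) (hJ : IsJordan J) {n : ℕ} (hn : n + 2 ≤ 7)
    (hE : ∀ m, m ≤ n + 2 → SecEqv m) (hO : SecOK (n + 2)) (hD : HasData (n + 2))
    (hs : ∀ x : Fin 3 → J, Good (Sx (n + 1) x) (n + 1)) (x : Fin 3 → J) :
    Good (Sx (n + 2) x) (n + 2) := by
  refine ⟨?_, ?_⟩
  · intro w hw
    rcases Nat.lt_or_ge w.length (n + 2) with h | h
    · exact Sx_rev_lower (hs x) w (by omega)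
    · exact step_rev h2 hJ hn hE hO hD hs x w (le_antisymm hw h)
  · intro v w hv hw hvw
    have hlv := List.length_pos_of_ne_nil hv
    have hlw := List.length_pos_of_ne_nil hw
    rcases Nat.lt_or_ge (v.length + w.length) (n + 2) with h | h
    · have := (hs x).mul v w hv hw (by omega)
      rw [Sx_of_lt n x v (by omega), Sx_of_lt n x w (by omega), Sx_of_lt n x (v ++ w) (by simp; omega),
        Sx_of_lt n x (v ++ w.reverse) (by simp; omega), Sx_of_lt n x (v.reverse ++ w) (by simp; omega),
        Sx_of_lt n x (w ++ v) (by simp; omega)]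
      exact this
    · exact step_mul h2 hJ hn hE hO hD hs x v w hv hw (le_antisymm hvw h)

theorem good_one (x : Fin 3 → J) : Good (Sx 1 x) 1 := by
  refine ⟨?_, ?_⟩
  · intro w hw
    match w, hw with
    | [], _ => rfl
    | [i], _ => rfl
  · intro v w hv hw h
    have hlv := List.length_pos_of_ne_nil hv
    have hlw := List.length_pos_of_ne_nil hw
    omega

end step

end JD
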