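import Pool.Agent.H8.JD.Target1

set_option autoImplicit false
set_option linter.unusedSectionVars false

/-!
# JD Target 2: the associative picture (three letters)

Notation of `Target1`: `A`, `ρ`, `K`; for `k ∈ K` put `T_k(h1,...,hj) = ρ (h1 ... hj k)` for symmetric `h_i`
without constant term. HYPOTHESIS `hFu`: all values of `T_k` on words lie in `F u`, and `u J = 0`.

PROOF. (1) As in Target 1: `T_k` vanishes for `j ≤ 2`; `ρ(.. h k ..) = -ρ(.. k h ..) + 2 ρ(.. (h ∘ k) ..)`.
`T_k` for `j = 3` is alternating (adjacent transposition = `2 T_k` with 2 entries).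
(2) For symmetric `h g b c`: `0 = ρ h * T_k(g,b,c) = (ρ (h g b c k) + ρ (g b c k h)) / 2`, and moving `h` to the
left gives (*) `0 = T_k(h,g,b,c) - T_k(g,b,c∘h) + T_k(g,b∘h,c) - T_k(g∘h,b,c) + T_(h∘k)(g,b,c)`.
With `h = g`: `T_(g∘k)(g,b,c) = T_k(g,b,c∘g) - T_k(g,b∘g,c)`; with `h = b`:
`T_(b∘k)(g,b,c) = T_k(g,b,c∘b) - T_k(g∘b,b,c)`; the first one, cyclically renamed, is minus the second:
so `T_(b∘k)(g,b,c) = 0` and `T_k(c∘b,b,g) + T_k(g∘b,b,c) = 0`.
(3) `ρ (b y b) = U_b ρ(y) = 0` for `y = g c k` (`ρ (g c k) = 0`), and `0 = 2 T_(b∘k)(b,g,c) = ρ(b g c b k) + ρ (b g c k b)`,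
so `T_k(b,g,c,b) = 0`, and reordering gives `T_k(b∘b,g,c) = 0`. Polarise: `T_k(h∘h',g,c) = 0` for all symmetric `h h' g c`.
(4) Three letters: every symmetric element of degree `≥ 2` is a sum of `h ∘ h'` (modulo such products `w + w*` is
alternating under adjacent transpositions, so `0` for length `≥ 4`; lengths 2, 3 by explicit formulas).
Hence `T_k(h,g,c) = 0` as soon as one entry has no linear part; `T_k` on `j ≥ 4` letters is alternating, so `0`
(pigeonhole). Define `t(k)` by `ρ (k x_0 x_1 x_2) = t(k) u` (`= ρ (x_2 x_1 x_0 k) = T_k(2,1,0)`); then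
`ρ (p k q) = (-1)^|p| det3(p q) t(k) u` for all words `p q`.
(5) If all `t(k) = 0` then `J` is special by Target 1. Otherwise fix `k` with `t(k) = 1`, let
`Q = {a | ∀ p q, ρ (p a q) = 0}` (two sided ideal), `E = A / Q` (e.g. `TwoSidedIdeal`/`RingQuot`/`RingCon`), `r` = class of `k`.
For `k' ∈ K`: `k' - t(k') k ∈ Q`.
-/

namespace JD

universe u v w

/-- The core context of the associative picture. -/
structure Target2Ctx (F : Type u) [Field F] (A : Type w) [Ring A] [Algebra F A] (J : Type v)
    [NonUnitalNonAssocCommRing J] [Module F J] (u : J) where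
  st : A →ₗ[F] A
  P : Submodule F A
  ρ : A →ₗ[F] J
  st_mul : ∀ a b, st (a * b) = st b * st a
  st_st : ∀ a, st (st a) = a
  st_P : ∀ a, a ∈ P → st a ∈ P
  P_left : ∀ a b, b ∈ P → a * b ∈ P
  P_right : ∀ a b, a ∈ P → a * b ∈ P
  ρ_st : ∀ a, ρ (st a) = ρ a
  ρ_mul : ∀ h y, h ∈ P → st h = h → y ∈ P → (2 : F) • (ρ h * ρ y) = ρ (h * y) + ρ (y * h)
  hFu : ∀ k, k ∈ P → st k = k → ρ k = 0 → ∀ a, ∃ c : F, ρ (k * a) = c • u
  huJ : ∀ a : J, a * u = 0
  h2 : (2 : F) ≠ 0

namespace Target2Ctx

variable {F : Type u} [Field F] {A : Type w} [Ring A] [Algebra F A] {J : Type v}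
  [NonUnitalNonAssocCommRing J] [Module F J] [IsScalarTower F J J] [SMulCommClass F J J] {u : J}
  (T : Target2Ctx F A J u)

/-- symmetric elements of the augmentation ideal -/
def Sy (h : A) : Prop := h ∈ T.P ∧ T.st h = h

/-- symmetric elements killed by `ρ` -/
def Kk (k : A) : Prop := k ∈ T.P ∧ T.st k = k ∧ T.ρ k = 0

include T in
theorem target2_two {a : J} (h : (2 : F) • a = 0) : a = 0 := by
  have := congrArg (fun t => (2 : F)⁻¹ • t) h
  simpa [smul_smul, inv_mul_cancel₀ T.h2] using this

variable {T}

theorem Kk.sy {k : A} (h : T.Kk k) : T.Sy k := ⟨h.1, h.2.1⟩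

theorem Sy.circ {g h : A} (hg : T.Sy g) (hh : T.Sy h) : T.Sy (g * h + h * g) := by
  refine ⟨T.P.add_mem (T.P_left _ _ hh.1) (T.P_left _ _ hg.1), ?_⟩
  rw [map_add, T.st_mul, T.st_mul, hg.2, hh.2, add_comm]

theorem Kk.circ {h k : A} (hh : T.Sy h) (hk : T.Kk k) : T.Kk (h * k + k * h) := by
  refine ⟨(hh.circ hk.sy).1, (hh.circ hk.sy).2, ?_⟩
  rw [map_add, ← T.ρ_mul h k hh.1 hh.2 hk.1, hk.2.2, mul_zero, smul_zero]

theorem target2_A1 {h k : A} (hh : T.Sy h) (hk : T.Kk k) : T.ρ (h * k) = 0 := by
  apply T.target2_two
  have e1 := (Kk.circ hh hk).2.2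
  have e2 : T.ρ (k * h) = T.ρ (h * k) := by
    rw [← T.ρ_st (h * k), T.st_mul, hh.2, hk.2.1]
  rw [map_add, e2] at e1
  rw [two_smul]
  exact e1

theorem target2_A2 {g h k : A} (hg : T.Sy g) (hh : T.Sy h) (hk : T.Kk k) :
    T.ρ (g * h * k) = 0 := by
  have X := Kk.circ hh hk
  have Y := Kk.circ hg hk
  have Z := hg.circ hh
  have e1 := (Kk.circ hg X).2.2
  have e2 := (Kk.circ hh Y).2.2
  have e3 := (Kk.circ Z hk).2.2
  have e4 : T.ρ (k * h * g) = T.ρ (g * h * k) := by
    rw [← T.ρ_st (g * h * k), T.st_mul, T.st_mul, hh.2, hk.2.1, hg.2, mul_assoc]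
  have e5 : (2 : F) • (g * h * k + k * h * g) =
      (g * (h * k + k * h) + (h * k + k * h) * g) - (h * (g * k + k * g) + (g * k + k * g) * h)
        + ((g * h + h * g) * k + k * (g * h + h * g)) := by
    rw [two_smul]
    noncomm_ring
  have e6 := congrArg T.ρ e5
  rw [map_smul, map_add, e4, map_add, map_sub, e1, e2, e3] at e6
  apply T.target2_two
  apply T.target2_two
  rw [two_smul F (T.ρ (g * h * k)), e6]
  simp

theorem target2_swap1 {g h b k : A} (hg : T.Sy g) (hh : T.Sy h) (hb : T.Sy b) (hk : T.Kk k) :
    T.ρ (g * h * b * k) + T.ρ (h * g * b * k) = 0 := by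
  have e := target2_A2 (hg.circ hh) hb hk
  rw [← e, ← map_add]
  congr 1
  noncomm_ring

theorem target2_swap2 {g h b k : A} (hg : T.Sy g) (hh : T.Sy h) (hb : T.Sy b) (hk : T.Kk k) :
    T.ρ (g * h * b * k) + T.ρ (g * b * h * k) = 0 := by
  have e := target2_A2 hg (hh.circ hb) hk
  rw [← e, ← map_add]
  congr 1
  noncomm_ring

theorem target2_U {b h : A} (hb : T.Sy b) (hh : T.Kk h) : T.ρ (b * h * b) = 0 := by
  have e1 := (Kk.circ hb (Kk.circ hb hh)).2.2
  have e2 := (Kk.circ (hb.circ hb) hh).2.2
  have e5 : (2 : F) • ((2 : F) • (b * h * b)) =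
      (2 : F) • (b * (b * h + h * b) + (b * h + h * b) * b)
        - ((b * b + b * b) * h + h * (b * b + b * b)) := by
    simp only [two_smul]
    noncomm_ring
  have e6 := congrArg T.ρ e5
  rw [map_smul, map_smul, map_sub, map_smul, e1, e2] at e6
  apply T.target2_two
  apply T.target2_two
  rw [e6]
  simp

theorem target2_Fu {k : A} (hk : T.Kk k) (b a : A) (hb : T.Sy b) (y : A) (hy : y ∈ T.P)
    (hay : T.ρ y = T.ρ (k * a)) : T.ρ (b * y) + T.ρ (y * b) = 0 := by
  rw [← T.ρ_mul b y hb.1 hb.2 hy, hay]
  obtain ⟨c, hc⟩ := T.hFu k hk.1 hk.2.1 hk.2.2 a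
  rw [hc, mul_smul_comm, T.huJ, smul_zero, smul_zero]

theorem target2_C {b g c k : A} (hb : T.Sy b) (hg : T.Sy g) (hc : T.Sy c) (hk : T.Kk k) :
    T.ρ (b * b * g * c * k) = 0 := by
  have hy : T.ρ (g * c * k) = 0 := target2_A2 hg hc hk
  have hyP : g * c * k ∈ T.P := T.P_left _ _ hk.1
  have hK : T.Kk (g * c * k + T.st (g * c * k)) := by
    refine ⟨T.P.add_mem hyP (T.st_P _ hyP), ?_, ?_⟩
    · rw [map_add, T.st_st, add_comm]
    · rw [map_add, T.ρ_st, hy, add_zero]
  have e1 := target2_U hb hK
  have e2 : T.ρ (b * T.st (g * c * k) * b) = T.ρ (b * (g * c * k) * b) := by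
    rw [← T.ρ_st (b * (g * c * k) * b), T.st_mul (b * (g * c * k)) b, T.st_mul b (g * c * k), hb.2,
      mul_assoc]
  have e3 : T.ρ (b * (g * c * k) * b) = 0 := by
    apply T.target2_two
    rw [mul_add, add_mul, map_add, e2] at e1
    rw [two_smul]
    exact e1
  have e4 := target2_Fu hk b (c * g * b) hb (b * g * c * k) (T.P_left _ _ hk.1) (by
    rw [← T.ρ_st (b * g * c * k), T.st_mul, T.st_mul, T.st_mul, hb.2, hg.2, hc.2, hk.2.1]
    noncomm_ring)
  have e5 : b * g * c * k * b = b * (g * c * k) * b := by noncomm_ring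
  have e6 : b * (b * g * c * k) = b * b * g * c * k := by noncomm_ring
  rw [e5, e3, e6, add_zero] at e4
  exact e4

theorem Sy.add {g h : A} (hg : T.Sy g) (hh : T.Sy h) : T.Sy (g + h) :=
  ⟨T.P.add_mem hg.1 hh.1, by rw [map_add, hg.2, hh.2]⟩

theorem target2_C' {h h' g c k : A} (hh : T.Sy h) (hh' : T.Sy h') (hg : T.Sy g) (hc : T.Sy c)
    (hk : T.Kk k) : T.ρ ((h * h' + h' * h) * g * c * k) = 0 := by
  have e1 := target2_C (hh.add hh') hg hc hk
  have e2 := target2_C hh hg hc hk
  have e3 := target2_C hh' hg hc hk
  have e4 : (h + h') * (h + h') * g * c * k =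
      h * h * g * c * k + h' * h' * g * c * k + (h * h' + h' * h) * g * c * k := by noncomm_ring
  rw [e4, map_add, map_add, e2, e3, zero_add, zero_add] at e1
  exact e1

theorem target2_rev4 {f : A → A → A → A → J} {a b c d : A}
    (s1 : ∀ x y z t, T.Sy x → T.Sy y → T.Sy z → T.Sy t → f x y z t + f y x z t = 0)
    (s2 : ∀ x y z t, T.Sy x → T.Sy y → T.Sy z → T.Sy t → f x y z t + f x z y t = 0)
    (s3 : ∀ x y z t, T.Sy x → T.Sy y → T.Sy z → T.Sy t → f x y z t + f x y t z = 0)
    (ha : T.Sy a) (hb : T.Sy b) (hc : T.Sy c) (hd : T.Sy d)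
    (hs : f a b c d + f d c b a = 0) : f a b c d = 0 := by
  have e1 := s1 a b c d ha hb hc hd
  have e2 := s2 b a c d hb ha hc hd
  have e3 := s3 b c a d hb hc ha hd
  have e4 := s1 b c d a hb hc hd ha
  have e5 := s2 c b d a hc hb hd ha
  have e6 := s1 c d b a hc hd hb ha
  apply T.target2_two
  rw [two_smul]
  linear_combination (norm := module) e1 - e2 + e3 - e4 + e5 - e6 + hs

theorem target2_D {a b c d k : A} (ha : T.Sy a) (hb : T.Sy b) (hc : T.Sy c) (hd : T.Sy d)
    (hk : T.Kk k) : T.ρ (a * b * c * d * k) = 0 := by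
  refine target2_rev4 (T := T) (f := fun x y z t => T.ρ (x * y * z * t * k)) ?_ ?_ ?_ ha hb hc hd ?_
  · intro x y z t hx hy hz ht
    have e := target2_C' hx hy hz ht hk
    rw [← e, ← map_add]
    congr 1
    noncomm_ring
  · intro x y z t hx hy hz ht
    have e := target2_C' hy hz hx ht hk
    have e1 := target2_swap1 hx (hy.circ hz) ht hk
    rw [e, add_zero] at e1
    rw [← e1, ← map_add]
    congr 1
    noncomm_ring
  · intro x y z t hx hy hz ht
    have e := target2_C' hz ht hx hy hk
    have e1 := target2_swap1 hx (hz.circ ht) hy hk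
    have e2 := target2_swap2 hx (hz.circ ht) hy hk
    rw [e, add_zero] at e1
    rw [e1, zero_add] at e2
    rw [← e2, ← map_add]
    congr 1
    noncomm_ring
  · have hS : T.Sy (a * b * c * d + d * c * b * a) := by
      refine ⟨T.P.add_mem (T.P_left _ _ hd.1) (T.P_left _ _ ha.1), ?_⟩
      rw [map_add, T.st_mul, T.st_mul, T.st_mul, T.st_mul, T.st_mul, T.st_mul, ha.2, hb.2, hc.2,
        hd.2]
      noncomm_ring
    have e := target2_A1 hS hk
    rw [add_mul, map_add] at e
    exact e

theorem target2_E {g b c h k : A} (hg : T.Sy g) (hb : T.Sy b) (hc : T.Sy c) (hh : T.Sy h)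
    (hk : T.Kk k) : T.ρ (g * b * c * (h * k + k * h)) = 0 := by
  have e1 := target2_D hg hb hc hh hk
  have e2 := target2_D hh hg hb hc hk
  have e3 := target2_Fu hk h (c * b * g) hh (g * b * c * k) (T.P_left _ _ hk.1) (by
    rw [← T.ρ_st (g * b * c * k), T.st_mul, T.st_mul, T.st_mul, hb.2, hg.2, hc.2, hk.2.1]
    noncomm_ring)
  have e4 : h * (g * b * c * k) = h * g * b * c * k := by noncomm_ring
  rw [e4, e2, zero_add] at e3
  have e5 : g * b * c * (h * k + k * h) = g * b * c * h * k + g * b * c * k * h := by noncomm_ring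
  rw [e5, map_add, e1, e3, add_zero]

theorem target2_six {a b c d e f k : A}
    (L5 : ∀ x y z t s k', T.Sy x → T.Sy y → T.Sy z → T.Sy t → T.Sy s → T.Kk k' →
          T.ρ (x * y * z * t * s * k') = 0)
    (ha : T.Sy a) (hb : T.Sy b) (hc : T.Sy c) (hd : T.Sy d) (he : T.Sy e) (hf : T.Sy f)
    (hk : T.Kk k) : T.ρ (a * b * c * d * e * f * k) = 0 := by
  have r1 := target2_Fu hk a (f * e * d * c * b) ha (b * c * d * e * f * k)
    (T.P_left _ _ hk.1) (by
    rw [← T.ρ_st (b * c * d * e * f * k)]
    simp only [T.st_mul, hb.2, hc.2, hd.2, he.2, hf.2, hk.2.1]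
    congr 1
    noncomm_ring)
  have r2 := L5 b c d e f (a * k + k * a) hb hc hd he hf (Kk.circ ha hk)
  have q1 := L5 b c d e (a * f + f * a) k hb hc hd he (ha.circ hf) hk
  have q2 := L5 b c d (a * e + e * a) f k hb hc hd (ha.circ he) hf hk
  have q3 := L5 b c (a * d + d * a) e f k hb hc (ha.circ hd) he hf hk
  have q4 := L5 b (a * c + c * a) d e f k hb (ha.circ hc) hd he hf hk
  have q5 := L5 (a * b + b * a) c d e f k (ha.circ hb) hc hd he hf hk
  have key : (2 : F) • (a * b * c * d * e * f * k) =
      (a * (b * c * d * e * f * k) + b * c * d * e * f * k * a)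
      - b * c * d * e * f * (a * k + k * a)
      + b * c * d * e * (a * f + f * a) * k
      - b * c * d * (a * e + e * a) * f * k
      + b * c * (a * d + d * a) * e * f * k
      - b * (a * c + c * a) * d * e * f * k
      + (a * b + b * a) * c * d * e * f * k := by
    rw [two_smul]
    noncomm_ring
  have key2 := congrArg T.ρ key
  rw [map_smul, map_add, map_sub, map_add, map_sub, map_add, map_sub, r2, q1, q2,
    q3, q4, q5, map_add, r1] at key2
  apply T.target2_two
  rw [key2]
  simp

theorem target2_L (m : ℕ) : ∀ l : List A, l.length = m → 4 ≤ m → (∀ a ∈ l, T.Sy a) →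
    ∀ k, T.Kk k → T.ρ (l.prod * k) = 0 := by
  induction m using Nat.strong_induction_on with
  | _ m ih =>
    intro l hl hm hS k hk
    match l, hl, hS with
    | [], hl, _ => simp at hl; omega
    | [_], hl, _ => simp at hl; omega
    | [_, _], hl, _ => simp at hl; omega
    | [_, _, _], hl, _ => simp at hl; omega
    | [a, b, c, d], hl, hS =>
      simp only [List.mem_cons, List.not_mem_nil, or_false, forall_eq_or_imp, forall_eq] at hS
      have e := target2_D hS.1 hS.2.1 hS.2.2.1 hS.2.2.2 hk
      simpa [mul_assoc] using e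
    | a :: b :: c :: d :: e :: r, hl, hS =>
      by_cases h1 : r.length = 1
      · obtain ⟨f, rfl⟩ := List.length_eq_one_iff.1 h1
        have hm6 : m = 6 := by simpa using hl.symm
        have L5 : ∀ x y z t s k', T.Sy x → T.Sy y → T.Sy z → T.Sy t → T.Sy s → T.Kk k' →
            T.ρ (x * y * z * t * s * k') = 0 := by
          intro x y z t s k' hx hy hz ht hs hk'
          have := ih 5 (by omega) [x, y, z, t, s] rfl (by omega) (by
            simp only [List.mem_cons, List.not_mem_nil, or_false, forall_eq_or_imp, forall_eq]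
            exact ⟨hx, hy, hz, ht, hs⟩) k' hk'
          simpa [mul_assoc] using this
        have e0 := target2_six L5 (hS a (by simp)) (hS b (by simp)) (hS c (by simp))
          (hS d (by simp)) (hS e (by simp)) (hS f (by simp)) hk
        simpa [mul_assoc] using e0
      have ha := hS a (by simp)
      have hb := hS b (by simp)
      have hc := hS c (by simp)
      have hd := hS d (by simp)
      have he := hS e (by simp)
      have hr : ∀ x ∈ r, T.Sy x := fun x hx => hS x (by simp [hx])
      have hlen : r.length + 5 = m := by simpa using hl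
      have L4 : ∀ x y z, T.Sy x → T.Sy y → T.Sy z →
          T.ρ (x * y * z * e * r.prod * k) = 0 := by
        intro x y z hx hy hz
        have := ih (m - 1) (by omega) (x :: y :: z :: e :: r) (by simp; omega) (by omega) (by
          intro t ht
          simp only [List.mem_cons] at ht
          rcases ht with h | h | h | h | h
          · rw [h]; exact hx
          · rw [h]; exact hy
          · rw [h]; exact hz
          · rw [h]; exact he
          · exact hr t h) k hk
        simpa [mul_assoc] using this
      have hfin : T.ρ ((a * b * c * d + d * c * b * a) * e * r.prod * k) = 0 := by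
        have hS' : T.Sy (a * b * c * d + d * c * b * a) := by
          refine ⟨T.P.add_mem (T.P_left _ _ hd.1) (T.P_left _ _ ha.1), ?_⟩
          rw [map_add, T.st_mul, T.st_mul, T.st_mul, T.st_mul, T.st_mul, T.st_mul, ha.2, hb.2,
            hc.2, hd.2]
          noncomm_ring
        by_cases h0 : r.length = 0
        · have : r = [] := List.length_eq_zero_iff.1 h0
          rw [this]
          simpa using target2_A2 hS' he hk
        · have := ih (m - 3) (by omega) ((a * b * c * d + d * c * b * a) :: e :: r)
              (by simp; omega) (by omega) (by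
              intro t ht
              simp only [List.mem_cons] at ht
              rcases ht with h | h | h
              · rw [h]; exact hS'
              · rw [h]; exact he
              · exact hr t h) k hk
          simpa [mul_assoc] using this
      have e0 : T.ρ (a * b * c * d * e * r.prod * k) = 0 := by
        refine target2_rev4 (T := T) (f := fun x y z t => T.ρ (x * y * z * t * e * r.prod * k))
          ?_ ?_ ?_ ha hb hc hd ?_
        · intro x y z t hx hy hz ht
          have e := L4 (x * y + y * x) z t (hx.circ hy) hz ht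
          rw [← e, ← map_add]
          congr 1
          noncomm_ring
        · intro x y z t hx hy hz ht
          have e := L4 x (y * z + z * y) t hx (hy.circ hz) ht
          rw [← e, ← map_add]
          congr 1
          noncomm_ring
        · intro x y z t hx hy hz ht
          have e := L4 x y (z * t + t * z) hx hy (hz.circ ht)
          rw [← e, ← map_add]
          congr 1
          noncomm_ring
        · rw [← hfin, ← map_add]
          congr 1
          noncomm_ring
      simpa [mul_assoc] using e0

end Target2Ctx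


section words

variable {F : Type u} [Field F]

theorem target2_cancel {J : Type v} [AddCommGroup J] [Module F J] (h2 : (2 : F) ≠ 0) {a b : J}
    (h : (2 : F) • a = (2 : F) • b) : a = b := by
  have := congrArg (fun t => (2 : F)⁻¹ • t) h
  simp only [smul_smul, inv_mul_cancel₀ h2, one_smul] at this
  exact this

/-- The free algebra. -/
abbrev Target2A (F : Type u) [Field F] : Type u := MonoidAlgebra F (FreeMonoid (Fin 3))

/-- The monomial of a word. -/
noncomputable def target2_w (F : Type u) [Field F] (w : List (Fin 3)) : Target2A F :=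
  MonoidAlgebra.single (FreeMonoid.ofList w) 1

theorem target2_w_nil : target2_w F [] = 1 := rfl

theorem target2_w_append (v w : List (Fin 3)) :
    target2_w F (v ++ w) = target2_w F v * target2_w F w := by
  unfold target2_w
  rw [MonoidAlgebra.single_mul_single, mul_one]
  rfl

theorem target2_w_cons (i : Fin 3) (w : List (Fin 3)) :
    target2_w F (i :: w) = target2_w F [i] * target2_w F w := target2_w_append [i] w

theorem target2_single (m : FreeMonoid (Fin 3)) (r : F) :
    (MonoidAlgebra.single m r : Target2A F) = r • target2_w F (FreeMonoid.toList m) := by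
  unfold target2_w
  rw [MonoidAlgebra.smul_single, smul_eq_mul, mul_one]
  rfl

theorem target2_ind {motive : Target2A F → Prop} (x : Target2A F) (zero : motive 0)
    (add : ∀ x y, motive x → motive y → motive (x + y))
    (word : ∀ (r : F) w, motive (r • target2_w F w)) : motive x := by
  refine MonoidAlgebra.induction_linear x zero add (fun m r => ?_)
  rw [target2_single]
  exact word r _

theorem target2_word (w : List (Fin 3)) :
    word (fun i => target2_w F [i]) w = target2_w F w := by
  unfold word
  induction w with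
  | nil => rfl
  | cons i w ih => rw [List.map_cons, List.prod_cons, ih, ← target2_w_cons]

/-- The reversal. -/
noncomputable def target2_st (F : Type u) [Field F] : Target2A F →ₗ[F] Target2A F :=
  MonoidAlgebra.mapDomainLinearMap F F
    (fun m : FreeMonoid (Fin 3) => FreeMonoid.ofList (FreeMonoid.toList m).reverse)

theorem target2_st_w (w : List (Fin 3)) :
    target2_st F (target2_w F w) = target2_w F w.reverse := by
  unfold target2_st target2_w
  rw [MonoidAlgebra.mapDomainLinearMap_single]
  rfl

theorem target2_st_mul (a b : Target2A F) :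
    target2_st F (a * b) = target2_st F b * target2_st F a := by
  induction a using target2_ind with
  | zero => simp
  | add x y hx hy => rw [add_mul, map_add, hx, hy, map_add, mul_add]
  | word r v =>
    induction b using target2_ind with
    | zero => simp
    | add x y hx hy => rw [mul_add, map_add, hx, hy, map_add, add_mul]
    | word s w =>
      rw [smul_mul_smul_comm, map_smul, map_smul, map_smul, smul_mul_smul_comm,
        ← target2_w_append, target2_st_w, target2_st_w, target2_st_w, List.reverse_append,
        target2_w_append, mul_comm r s]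

theorem target2_st_st (a : Target2A F) : target2_st F (target2_st F a) = a := by
  induction a using target2_ind with
  | zero => simp
  | add x y hx hy => rw [map_add, map_add, hx, hy]
  | word r v => rw [map_smul, map_smul, target2_st_w, target2_st_w, List.reverse_reverse]

/-- The coefficients. -/
noncomputable def target2_e (F : Type u) [Field F] : Target2A F ≃ₗ[F] (List (Fin 3) →₀ F) :=
  (MonoidAlgebra.coeffLinearEquiv F).trans
    (Finsupp.domLCongr (FreeMonoid.toList (α := Fin 3)))

theorem target2_e_w (w : List (Fin 3)) : target2_e F (target2_w F w) = Finsupp.single w 1 := by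
  unfold target2_e target2_w
  simp

theorem target2_e_st (a : Target2A F) :
    target2_e F (target2_st F a) = (target2_e F a).mapDomain List.reverse := by
  induction a using target2_ind with
  | zero => simp
  | add x y hx hy => rw [map_add, map_add, hx, hy, map_add, Finsupp.mapDomain_add]
  | word r v =>
    rw [map_smul, map_smul, map_smul, target2_st_w, target2_e_w, target2_e_w,
      Finsupp.mapDomain_smul, Finsupp.mapDomain_single]

/-- The constant coefficient. -/
noncomputable def target2_c (F : Type u) [Field F] : Target2A F →ₗ[F] F :=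
  (Finsupp.lapply ([] : List (Fin 3))) ∘ₗ (target2_e F).toLinearMap

theorem target2_c_apply (a : Target2A F) : target2_c F a = target2_e F a [] := rfl

theorem target2_c_nil : target2_c F (target2_w F []) = 1 := by
  rw [target2_c_apply, target2_e_w, Finsupp.single_eq_same]

theorem target2_c_w {w : List (Fin 3)} (hw : w ≠ []) : target2_c F (target2_w F w) = 0 := by
  rw [target2_c_apply, target2_e_w, Finsupp.single_apply, if_neg hw]

theorem target2_c_mul (a b : Target2A F) :
    target2_c F (a * b) = target2_c F a * target2_c F b := by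
  induction a using target2_ind with
  | zero => simp
  | add x y hx hy => rw [add_mul, map_add, hx, hy, map_add, add_mul]
  | word r v =>
    induction b using target2_ind with
    | zero => simp
    | add x y hx hy => rw [mul_add, map_add, hx, hy, map_add, mul_add]
    | word s w =>
      rw [smul_mul_smul_comm, map_smul, map_smul, map_smul, ← target2_w_append]
      simp only [smul_eq_mul]
      by_cases hv : v = []
      · subst hv
        by_cases hw : w = []
        · subst hw
          rw [List.nil_append, target2_c_nil]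
          ring
        · rw [List.nil_append, target2_c_w hw]
          ring
      · rw [target2_c_w (w := v ++ w) (by simp [hv]), target2_c_w hv]
        ring

theorem target2_c_st (a : Target2A F) : target2_c F (target2_st F a) = target2_c F a := by
  induction a using target2_ind with
  | zero => simp
  | add x y hx hy => rw [map_add, map_add, hx, hy, map_add]
  | word r v =>
    rw [map_smul, map_smul, map_smul, target2_st_w]
    by_cases hv : v = []
    · subst hv
      rfl
    · rw [target2_c_w hv, target2_c_w (w := v.reverse) (by simpa using hv)]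

/-- The linear extension of `S`. -/
noncomputable def target2_ρ (F : Type u) [Field F] {J : Type v} [NonUnitalNonAssocCommRing J]
    [Module F J] (S : List (Fin 3) → J) : Target2A F →ₗ[F] J :=
  (Finsupp.linearCombination F S) ∘ₗ (target2_e F).toLinearMap

variable {J : Type v} [NonUnitalNonAssocCommRing J] [Module F J]

theorem target2_ρ_w (S : List (Fin 3) → J) (w : List (Fin 3)) :
    target2_ρ F S (target2_w F w) = S w := by
  unfold target2_ρ
  simp [target2_e_w]

theorem target2_ρ_sum (S : List (Fin 3) → J) (a : Target2A F) (w : List (Fin 3)) :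
    target2_ρ F S (a * target2_w F w) = (target2_e F a).sum (fun v c => c • S (v ++ w)) := by
  induction a using target2_ind with
  | zero => simp
  | add x y hx hy =>
    rw [add_mul, map_add, map_add, hx, hy,
      Finsupp.sum_add_index' (by simp) (by intro a b c; rw [add_smul])]
  | word r v =>
    rw [smul_mul_assoc, ← target2_w_append, map_smul, map_smul, target2_ρ_w, target2_e_w,
      Finsupp.smul_single, smul_eq_mul, mul_one, Finsupp.sum_single_index (by simp)]

theorem target2_ρ_sum0 (S : List (Fin 3) → J) (a : Target2A F) :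
    target2_ρ F S a = (target2_e F a).sum (fun v c => c • S v) := by
  have := target2_ρ_sum S a []
  rw [target2_w_nil, mul_one] at this
  rw [this]
  simp only [List.append_nil]

theorem target2_ρ_mul0 {x : Fin 3 → J} [IsScalarTower F J J] [SMulCommClass F J J]
    {S : List (Fin 3) → J} (hS : SSys F x S) (a b : Target2A F) :
    (4 : F) • (target2_ρ F S a * target2_ρ F S b) =
      target2_ρ F S ((a - target2_c F a • 1) * (b - target2_c F b • 1)) +
      target2_ρ F S ((a - target2_c F a • 1) * (target2_st F b - target2_c F b • 1)) +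
      target2_ρ F S ((target2_st F a - target2_c F a • 1) * (b - target2_c F b • 1)) +
      target2_ρ F S ((b - target2_c F b • 1) * (a - target2_c F a • 1)) := by
  induction a using target2_ind with
  | zero => simp
  | add x y hx hy =>
    simp only [map_add, add_smul]
    have e1 : ∀ (x y p q z : Target2A F), (x + y - (p + q)) * z = (x - p) * z + (y - q) * z := by
      intros; noncomm_ring
    have e2 : ∀ (x y p q z : Target2A F), z * (x + y - (p + q)) = z * (x - p) + z * (y - q) := by
      intros; noncomm_ring
    simp only [e1, e2, map_add]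
    rw [add_mul, smul_add, hx, hy]
    abel
  | word r v =>
    induction b using target2_ind with
    | zero => simp
    | add x y hx hy =>
      simp only [map_add, add_smul]
      have e1 : ∀ (x y p q z : Target2A F), (x + y - (p + q)) * z = (x - p) * z + (y - q) * z := by
        intros; noncomm_ring
      have e2 : ∀ (x y p q z : Target2A F), z * (x + y - (p + q)) = z * (x - p) + z * (y - q) := by
        intros; noncomm_ring
      simp only [e1, e2, map_add]
      rw [mul_add, smul_add, hx, hy]
      abel
    | word s w =>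
      simp only [map_smul, smul_eq_mul, mul_smul, ← smul_sub, target2_st_w]
      by_cases hv : v = []
      · subst hv
        rw [List.reverse_nil, target2_c_nil, target2_ρ_w, hS.nil, target2_w_nil]
        simp
      · by_cases hw : w = []
        · subst hw
          rw [List.reverse_nil, target2_c_nil, target2_ρ_w, target2_ρ_w, hS.nil, target2_w_nil]
          simp
        · rw [target2_c_w hv, target2_c_w hw]
          simp only [zero_smul, sub_zero, smul_mul_smul_comm, ← target2_w_append, map_smul,
            target2_ρ_w]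
          rw [smul_comm, hS.mul v w hv hw, mul_comm s r]
          simp only [smul_add]

end words

section ctx

variable {F : Type u} [Field F] {J : Type v} [NonUnitalNonAssocCommRing J] [Module F J]
  [IsScalarTower F J J] [SMulCommClass F J J] {x : Fin 3 → J} {S : List (Fin 3) → J} {u : J}

/-- The context given by the free algebra on three letters. -/
noncomputable def target2_ctx (h2 : (2 : F) ≠ 0) (hS : SSys F x S) (huJ : ∀ a : J, a * u = 0)
    (hFu : ∀ k : List (Fin 3) →₀ F, k.mapDomain List.reverse = k → k [] = 0 →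
      k.sum (fun v c => c • S v) = 0 →
      ∀ w : List (Fin 3), ∃ c : F, k.sum (fun v c => c • S (v ++ w)) = c • u) :
    Target2Ctx F (Target2A F) J u where
  st := target2_st F
  P := LinearMap.ker (target2_c F)
  ρ := target2_ρ F S
  st_mul := target2_st_mul
  st_st := target2_st_st
  st_P := by
    intro a ha
    rw [LinearMap.mem_ker] at ha ⊢
    rw [target2_c_st, ha]
  P_left := by
    intro a b hb
    rw [LinearMap.mem_ker] at hb ⊢
    rw [target2_c_mul, hb, mul_zero]
  P_right := by
    intro a b ha
    rw [LinearMap.mem_ker] at ha ⊢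
    rw [target2_c_mul, ha, zero_mul]
  ρ_st := by
    intro a
    induction a using target2_ind with
    | zero => simp
    | add x y hx hy => rw [map_add, map_add, hx, hy, map_add]
    | word r v => rw [map_smul, map_smul, map_smul, target2_st_w, target2_ρ_w, target2_ρ_w, hS.rev]
  ρ_mul := by
    intro h y hh hst hy
    rw [LinearMap.mem_ker] at hh hy
    have e := target2_ρ_mul0 hS h y
    rw [hh, hy, hst] at e
    simp only [zero_smul, sub_zero] at e
    have e2 : target2_ρ F S (h * target2_st F y) = target2_ρ F S (y * h) := by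
      have e3 : target2_st F (y * h) = h * target2_st F y := by rw [target2_st_mul, hst]
      rw [← e3]
      induction (y * h) using target2_ind with
      | zero => simp
      | add x y hx hy => rw [map_add, map_add, hx, hy, map_add]
      | word r v =>
        rw [map_smul, map_smul, map_smul, target2_st_w, target2_ρ_w, target2_ρ_w, hS.rev]
    rw [e2] at e
    have e4 : (2 : F) • ((2 : F) • (target2_ρ F S h * target2_ρ F S y)) =
        (2 : F) • (target2_ρ F S (h * y) + target2_ρ F S (y * h)) := by
      rw [smul_smul, show (2 : F) * 2 = 4 by norm_num, e]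
      simp only [two_smul]
      abel
    exact target2_cancel h2 e4
  hFu := by
    intro k hk hst hρ a
    rw [LinearMap.mem_ker] at hk
    induction a using target2_ind with
    | zero => exact ⟨0, by simp⟩
    | add x y hx hy =>
      obtain ⟨c, hc⟩ := hx
      obtain ⟨d, hd⟩ := hy
      exact ⟨c + d, by rw [mul_add, map_add, hc, hd, add_smul]⟩
    | word r w =>
      obtain ⟨c, hc⟩ := hFu (target2_e F k) (by rw [← target2_e_st, hst])
        (by rw [← target2_c_apply, hk]) (by rw [← target2_ρ_sum0, hρ]) w
      exact ⟨r * c, by rw [mul_smul_comm, map_smul, target2_ρ_sum, hc, smul_smul]⟩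
  huJ := huJ
  h2 := h2

variable {T : Target2Ctx F (Target2A F) J u}

theorem target2_alt (h2 : (2 : F) ≠ 0) (f : Fin 3 → Fin 3 → Fin 3 → J)
    (s1 : ∀ i j l, f i j l + f j i l = 0) (s2 : ∀ i j l, f i j l + f i l j = 0) (i j l : Fin 3) :
    f i j l = det3 F [i, j, l] • f 0 1 2 := by
  have two : ∀ a : J, a + a = 0 → a = 0 := by
    intro a ha
    rw [← two_smul F] at ha
    have := congrArg (fun t => (2 : F)⁻¹ • t) ha
    simpa [smul_smul, inv_mul_cancel₀ h2] using this
  have d1 : ∀ i j, f i i j = 0 := fun i j => two _ (s1 i i j)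
  have d2 : ∀ i j, f i j j = 0 := fun i j => two _ (s2 i j j)
  have d3 : ∀ i j, f i j i = 0 := fun i j => by
    have := s1 j i i
    rw [d2, zero_add] at this
    exact this
  have e102 : f 1 0 2 = - f 0 1 2 := eq_neg_of_add_eq_zero_left (s1 1 0 2)
  have e021 : f 0 2 1 = - f 0 1 2 := eq_neg_of_add_eq_zero_left (s2 0 2 1)
  have e120 : f 1 2 0 = f 0 1 2 := by
    have := eq_neg_of_add_eq_zero_left (s2 1 2 0)
    rw [this, e102, neg_neg]
  have e201 : f 2 0 1 = f 0 1 2 := by
    have := eq_neg_of_add_eq_zero_left (s1 2 0 1)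
    rw [this, e021, neg_neg]
  have e210 : f 2 1 0 = - f 0 1 2 := by
    have := eq_neg_of_add_eq_zero_left (s1 2 1 0)
    rw [this, e120]
  fin_cases i <;> fin_cases j <;> fin_cases l <;>
    simp [det3, d1, d2, d3, e102, e021, e120, e201, e210]

theorem target2_sy (h2 : (2 : F) ≠ 0) (hS : SSys F x S) (huJ : ∀ a : J, a * u = 0)
    (hFu : ∀ k : List (Fin 3) →₀ F, k.mapDomain List.reverse = k → k [] = 0 →
      k.sum (fun v c => c • S v) = 0 →
      ∀ w : List (Fin 3), ∃ c : F, k.sum (fun v c => c • S (v ++ w)) = c • u) (i : Fin 3) :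
    (target2_ctx h2 hS huJ hFu).Sy (target2_w F [i]) := by
  refine ⟨?_, ?_⟩
  · change target2_w F [i] ∈ LinearMap.ker (target2_c F)
    rw [LinearMap.mem_ker, target2_c_w (by simp)]
  · change target2_st F (target2_w F [i]) = target2_w F [i]
    rw [target2_st_w]
    rfl

theorem target2_base (h2 : (2 : F) ≠ 0) (hst : T.st = target2_st F)
    (hSy : ∀ i, T.Sy (target2_w F [i])) {k : Target2A F} (hk : T.Kk k) (q : List (Fin 3)) :
    T.ρ (k * target2_w F q) = det3 F q • T.ρ (k * target2_w F [0, 1, 2]) := by
  have key : ∀ q : List (Fin 3), T.ρ (k * target2_w F q) = T.ρ (target2_w F q.reverse * k) := by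
    intro q
    rw [← T.ρ_st (k * target2_w F q), T.st_mul, hst, target2_st_w, ← hst, hk.2.1]
  have w2 : ∀ i j, target2_w F [i, j] = target2_w F [i] * target2_w F [j] := fun i j =>
    target2_w_append [i] [j]
  have w3 : ∀ i j l, target2_w F [i, j, l] = target2_w F [i] * target2_w F [j] * target2_w F [l] :=
    fun i j l => by rw [← target2_w_append, ← target2_w_append]; rfl
  match q with
  | [] =>
    rw [target2_w_nil, mul_one, hk.2.2]
    simp [det3]
  | [i] =>
    rw [key]
    simp only [List.reverse_cons, List.reverse_nil, List.nil_append]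
    rw [Target2Ctx.target2_A1 (hSy i) hk]
    simp [det3]
  | [i, j] =>
    rw [key]
    simp only [List.reverse_cons, List.reverse_nil, List.nil_append, List.cons_append]
    rw [w2, Target2Ctx.target2_A2 (hSy j) (hSy i) hk]
    simp [det3]
  | [i, j, l] =>
    refine target2_alt h2 (fun i j l => T.ρ (k * target2_w F [i, j, l])) ?_ ?_ i j l
    · intro i j l
      simp only [key, List.reverse_cons, List.reverse_nil, List.nil_append, List.cons_append]
      rw [w3, w3]
      exact Target2Ctx.target2_swap2 (hSy l) (hSy j) (hSy i) hk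
    · intro i j l
      simp only [key, List.reverse_cons, List.reverse_nil, List.nil_append, List.cons_append]
      rw [w3, w3]
      exact Target2Ctx.target2_swap1 (hSy l) (hSy j) (hSy i) hk
  | i :: j :: l :: m :: q =>
    have e := Target2Ctx.target2_L _
      ((i :: j :: l :: m :: q).reverse.map (fun i => target2_w F [i])) rfl (by simp) (by
      intro a ha
      rw [List.mem_map] at ha
      obtain ⟨b, _, rfl⟩ := ha
      exact hSy b) k hk
    have e2 := target2_word (F := F) (i :: j :: l :: m :: q).reverse
    unfold word at e2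
    rw [key, ← e2, e]
    simp [det3]

theorem target2_R (h2 : (2 : F) ≠ 0) (hst : T.st = target2_st F)
    (hSy : ∀ i, T.Sy (target2_w F [i])) (p : List (Fin 3)) : ∀ (q : List (Fin 3))
    {k : Target2A F}, T.Kk k →
    T.ρ (target2_w F p * k * target2_w F q) =
      ((-1) ^ p.length * det3 F (p ++ q)) • T.ρ (k * target2_w F [0, 1, 2]) := by
  induction p using List.reverseRecOn with
  | nil =>
    intro q k hk
    rw [target2_w_nil, one_mul, target2_base h2 hst hSy hk q]
    simp
  | append_singleton p i ih =>
    intro q k hk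
    have hk' : T.Kk (target2_w F [i] * k + k * target2_w F [i]) :=
      Target2Ctx.Kk.circ (hSy i) hk
    have e1 := ih q hk'
    have e2 := ih (i :: q) hk
    have e3 : T.ρ ((target2_w F [i] * k + k * target2_w F [i]) * target2_w F [0, 1, 2]) = 0 := by
      have := Target2Ctx.target2_E (hSy 2) (hSy 1) (hSy 0) (hSy i) hk
      rw [← T.ρ_st, T.st_mul, hk'.2.1, hst, target2_st_w]
      have w3 : target2_w F [0, 1, 2].reverse =
          target2_w F [2] * target2_w F [1] * target2_w F [0] := by
        rw [← target2_w_append, ← target2_w_append]; rfl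
      rw [w3]
      exact this
    rw [e3, smul_zero] at e1
    rw [target2_w_cons i q] at e2
    have e4 : target2_w F p * (target2_w F [i] * k + k * target2_w F [i]) * target2_w F q =
        target2_w F (p ++ [i]) * k * target2_w F q +
          target2_w F p * k * (target2_w F [i] * target2_w F q) := by
      rw [target2_w_append]
      noncomm_ring
    rw [e4, map_add, e2] at e1
    rw [eq_neg_of_add_eq_zero_left e1, ← neg_smul, List.length_append, pow_add,
      List.append_assoc]
    simp

end ctx

section quot

variable {F : Type u} [Field F]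

theorem target2_lift {A : Type w} [Ring A] [Algebra F A] (Q : Ideal A) [Q.IsTwoSided]
    {M : Type v} [AddCommGroup M] [Module F M] (f : A →ₗ[F] M) (hf : ∀ a ∈ Q, f a = 0) :
    ∃ g : (A ⧸ Q) →ₗ[F] M, ∀ a, g (Ideal.Quotient.mk Q a) = f a := by
  obtain ⟨s, hs⟩ := (Ideal.Quotient.mkₐ F Q).toLinearMap.exists_rightInverse_of_surjective
    (LinearMap.range_eq_top.2 (Ideal.Quotient.mkₐ_surjective F Q))
  refine ⟨f ∘ₗ s, fun a => ?_⟩
  have h1 : Ideal.Quotient.mk Q (s (Ideal.Quotient.mk Q a)) = Ideal.Quotient.mk Q a :=
    LinearMap.congr_fun hs (Ideal.Quotient.mk Q a)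
  have h2 : s (Ideal.Quotient.mk Q a) - a ∈ Q := Ideal.Quotient.eq.1 h1
  have := hf _ h2
  rw [map_sub, sub_eq_zero] at this
  exact this

variable {J : Type v} [NonUnitalNonAssocCommRing J] [Module F J]
  {S : List (Fin 3) → J} {u : J}

/-- The radical ideal. -/
noncomputable def target2_Q (F : Type u) [Field F] {J : Type v} [NonUnitalNonAssocCommRing J]
    [Module F J] (S : List (Fin 3) → J) : Ideal (Target2A F) where
  carrier := {a | ∀ p q, target2_ρ F S (target2_w F p * a * target2_w F q) = 0}
  zero_mem' := fun p q => by simp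
  add_mem' := by
    intro a b ha hb p q
    rw [mul_add, add_mul, map_add, ha p q, hb p q, add_zero]
  smul_mem' := by
    intro c a ha
    simp only [Set.mem_ofPred_eq, smul_eq_mul] at ha ⊢
    induction c using target2_ind with
    | zero => simp
    | add x y hx hy =>
      intro p q
      rw [add_mul, mul_add, add_mul, map_add, hx p q, hy p q, add_zero]
    | word r v =>
      intro p q
      have e : target2_w F p * (r • target2_w F v * a) * target2_w F q =
          r • (target2_w F (p ++ v) * a * target2_w F q) := by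
        rw [target2_w_append]
        simp only [smul_mul_assoc, mul_smul_comm, mul_assoc]
      rw [e, map_smul, ha, smul_zero]

theorem target2_mem_Q (a : Target2A F) : a ∈ target2_Q F S ↔
    ∀ p q, target2_ρ F S (target2_w F p * a * target2_w F q) = 0 := Iff.rfl

instance target2_two_sided : (target2_Q F S).IsTwoSided := by
  refine ⟨fun {a} b ha => ?_⟩
  rw [target2_mem_Q] at ha ⊢
  induction b using target2_ind with
  | zero => simp
  | add x y hx hy =>
    intro p q
    rw [mul_add, mul_add, add_mul, map_add, hx p q, hy p q, add_zero]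
  | word r v =>
    intro p q
    have e : target2_w F p * (a * r • target2_w F v) * target2_w F q =
        r • (target2_w F p * a * target2_w F (v ++ q)) := by
      rw [target2_w_append]
      simp only [smul_mul_assoc, mul_smul_comm, mul_assoc]
    rw [e, map_smul, ha, smul_zero]

theorem target2_st_Q (hrev : ∀ a, target2_ρ F S (target2_st F a) = target2_ρ F S a)
    {a : Target2A F} (ha : a ∈ target2_Q F S) : target2_st F a ∈ target2_Q F S := by
  rw [target2_mem_Q] at ha ⊢
  intro p q
  rw [← hrev, target2_st_mul, target2_st_mul, target2_st_st, target2_st_w, target2_st_w,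
    ← mul_assoc]
  exact ha _ _

theorem target2_span_pos {a : Target2A F ⧸ target2_Q F S}
    (ha : a ∈ Submodule.span F (word (fun i => Ideal.Quotient.mk (target2_Q F S) (target2_w F [i]))
      '' {w | w ≠ []})) :
    ∃ b : Target2A F, target2_c F b = 0 ∧ Ideal.Quotient.mk (target2_Q F S) b = a := by
  induction ha using Submodule.span_induction with
  | mem x hx =>
    obtain ⟨w, hw, rfl⟩ := hx
    refine ⟨target2_w F w, target2_c_w hw, ?_⟩
    rw [← target2_word (F := F) w]
    unfold word
    rw [map_list_prod, List.map_map]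
    rfl
  | zero => exact ⟨0, by simp, by simp⟩
  | add x y _ _ hx hy =>
    obtain ⟨b, hb, rfl⟩ := hx
    obtain ⟨c, hc, rfl⟩ := hy
    exact ⟨b + c, by rw [map_add, hb, hc, add_zero], by rw [map_add]⟩
  | smul r x _ hx =>
    obtain ⟨b, hb, rfl⟩ := hx
    exact ⟨r • b, by rw [map_smul, hb, smul_zero], rfl⟩

end quot

theorem exists_EPic (F : Type u) [Field F] (J : Type v) [NonUnitalNonAssocCommRing J]
    [Module F J] [IsScalarTower F J J] [SMulCommClass F J J] (x : Fin 3 → J)
    (S : List (Fin 3) → J) (u : J) (h2 : (2 : F) ≠ 0) (hS : SSys F x S)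
    (hspan : Submodule.span F (Set.range S) = ⊤) (hu0 : u ≠ 0) (huJ : ∀ a : J, a * u = 0)
    (hu : ∀ I : Submodule F J, IsIdeal F J I → I ≠ ⊥ → u ∈ I)
    (hFu : ∀ k : List (Fin 3) →₀ F, k.mapDomain List.reverse = k → k [] = 0 →
      k.sum (fun v c => c • S v) = 0 →
      ∀ w : List (Fin 3), ∃ c : F, k.sum (fun v c => c • S (v ++ w)) = c • u)
    (hns : ¬ IsSpecial.{u, v, u} F J) :
    ∃ (E : Type u) (_ : Ring E) (_ : Algebra F E), Nonempty (EPic F J x S u E) := by
  obtain ⟨T, hTst, hTρ, hTP, hSy⟩ : ∃ T : Target2Ctx F (Target2A F) J u, T.st = target2_st F ∧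
      T.ρ = target2_ρ F S ∧ T.P = LinearMap.ker (target2_c F) ∧
      ∀ i, T.Sy (target2_w F [i]) :=
    ⟨target2_ctx h2 hS huJ hFu, rfl, rfl, rfl, target2_sy h2 hS huJ hFu⟩
  have hrev : ∀ a, target2_ρ F S (target2_st F a) = target2_ρ F S a := by
    intro a
    rw [← hTρ, ← hTst, T.ρ_st]
  -- an element of `K` with `t = 1`
  have hex : ∃ k : Target2A F, T.Kk k ∧ T.ρ (k * target2_w F [0, 1, 2]) = u := by
    by_contra hno
    push Not at hno
    apply hns
    refine special_of_SSys F J (Fin 3) x S u h2 hS hspan hu0 hu ?_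
    intro k hk1 hk2 hk3 w _
    -- the element of the free algebra
    have hkK : T.Kk ((target2_e F).symm k) := by
      refine ⟨?_, ?_, ?_⟩
      · rw [hTP, LinearMap.mem_ker, target2_c_apply, LinearEquiv.apply_symm_apply, hk2]
      · rw [hTst]
        apply (target2_e F).injective
        rw [target2_e_st, LinearEquiv.apply_symm_apply, hk1]
      · rw [hTρ, target2_ρ_sum0, LinearEquiv.apply_symm_apply, hk3]
    obtain ⟨c, hc⟩ := T.hFu _ hkK.1 hkK.2.1 hkK.2.2 (target2_w F [0, 1, 2])
    have hc0 : c = 0 := by
      by_contra hc0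
      refine hno (c⁻¹ • (target2_e F).symm k) ?_ ?_
      · refine ⟨T.P.smul_mem _ hkK.1, ?_, ?_⟩
        · rw [map_smul, hkK.2.1]
        · rw [map_smul, hkK.2.2, smul_zero]
      · rw [smul_mul_assoc, map_smul, hc, smul_smul, inv_mul_cancel₀ hc0, one_smul]
    have e := target2_base h2 hTst hSy hkK w
    rw [hc, hc0, zero_smul, smul_zero, hTρ, target2_ρ_sum, LinearEquiv.apply_symm_apply] at e
    exact e
  obtain ⟨k, hk, hku⟩ := hex
  have hR : ∀ p q, target2_ρ F S (target2_w F p * k * target2_w F q) =
      ((-1) ^ p.length * det3 F (p ++ q)) • u := by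
    intro p q
    rw [← hTρ, target2_R h2 hTst hSy p q hk, hku]
  obtain ⟨ρ', hρ'⟩ := target2_lift (target2_Q F S) (target2_ρ F S) (fun a ha => by
    have := (target2_mem_Q a).1 ha [] []
    rwa [target2_w_nil, one_mul, mul_one] at this)
  obtain ⟨st', hst'⟩ := target2_lift (target2_Q F S)
    ((Ideal.Quotient.mkₐ F (target2_Q F S)).toLinearMap ∘ₗ target2_st F) (fun a ha =>
      Ideal.Quotient.eq_zero_iff_mem.2 (target2_st_Q hrev ha))
  have hst'' : ∀ a, st' (Ideal.Quotient.mk _ a) = Ideal.Quotient.mk _ (target2_st F a) := hst'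
  have hword : ∀ w, word (fun i => Ideal.Quotient.mk (target2_Q F S) (target2_w F [i])) w =
      Ideal.Quotient.mk (target2_Q F S) (target2_w F w) := by
    intro w
    rw [← target2_word (F := F) w]
    unfold word
    rw [map_list_prod, List.map_map]
    rfl
  refine ⟨Target2A F ⧸ target2_Q F S, inferInstance, inferInstance, ⟨?_⟩⟩
  refine
    { X := fun i => Ideal.Quotient.mk _ (target2_w F [i])
      star := st'
      ρ := ρ'
      r := Ideal.Quotient.mk _ k
      star_mul := ?_
      star_star := ?_
      star_X := ?_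
      span := ?_
      ρ_word := ?_
      nondeg := ?_
      star_r := ?_
      ρ_r := ?_
      ker := ?_ }
  · intro a b
    obtain ⟨a, rfl⟩ := Ideal.Quotient.mk_surjective a
    obtain ⟨b, rfl⟩ := Ideal.Quotient.mk_surjective b
    rw [← map_mul, hst'', hst'', hst'', target2_st_mul, map_mul]
  · intro a
    obtain ⟨a, rfl⟩ := Ideal.Quotient.mk_surjective a
    rw [hst'', hst'', target2_st_st]
  · intro i
    rw [hst'', target2_st_w]
    rfl
  · rw [eq_top_iff]
    rintro a -
    obtain ⟨a, rfl⟩ := Ideal.Quotient.mk_surjective a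
    induction a using target2_ind with
    | zero => rw [map_zero]; exact Submodule.zero_mem _
    | add x y hx hy => rw [map_add]; exact Submodule.add_mem _ hx hy
    | word r w =>
      have : Ideal.Quotient.mk (target2_Q F S) (r • target2_w F w) =
          r • Ideal.Quotient.mk (target2_Q F S) (target2_w F w) := rfl
      rw [this, ← hword]
      exact Submodule.smul_mem _ _ (Submodule.subset_span ⟨w, rfl⟩)
  · intro w
    rw [hword, hρ', target2_ρ_w]
  · intro a ha
    obtain ⟨a, rfl⟩ := Ideal.Quotient.mk_surjective a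
    rw [Ideal.Quotient.eq_zero_iff_mem, target2_mem_Q]
    intro p q
    have := ha p q
    rwa [hword, hword, ← map_mul, ← map_mul, hρ'] at this
  · rw [hst'', ← hTst, hk.2.1]
  · intro p q
    rw [hword, hword, ← map_mul, ← map_mul, hρ', hR]
  · intro a hsta ha hρa
    obtain ⟨b, hb, rfl⟩ := target2_span_pos ha
    rw [hst''] at hsta
    rw [hρ'] at hρa
    -- symmetrise
    have hmk : Ideal.Quotient.mk (target2_Q F S) ((2 : F)⁻¹ • (b + target2_st F b)) =
        Ideal.Quotient.mk (target2_Q F S) b := by
      have e : Ideal.Quotient.mk (target2_Q F S) ((2 : F)⁻¹ • (b + target2_st F b)) =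
          (2 : F)⁻¹ • (Ideal.Quotient.mk (target2_Q F S) b +
            Ideal.Quotient.mk (target2_Q F S) (target2_st F b)) := rfl
      rw [e, hsta, ← two_smul F, smul_smul, inv_mul_cancel₀ h2, one_smul]
    have hbK : T.Kk ((2 : F)⁻¹ • (b + target2_st F b)) := by
      refine ⟨?_, ?_, ?_⟩
      · rw [hTP, LinearMap.mem_ker, map_smul, map_add, target2_c_st, hb]
        simp
      · rw [hTst, map_smul, map_add, target2_st_st, add_comm]
      · rw [hTρ, map_smul, map_add, hrev, hρa]
        simp
    obtain ⟨t, ht⟩ := T.hFu _ hbK.1 hbK.2.1 hbK.2.2 (target2_w F [0, 1, 2])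
    refine ⟨t, ?_⟩
    rw [← hmk]
    have e : t • Ideal.Quotient.mk (target2_Q F S) k = Ideal.Quotient.mk (target2_Q F S) (t • k) :=
      rfl
    rw [e, Ideal.Quotient.eq, target2_mem_Q]
    intro p q
    rw [mul_sub, sub_mul, map_sub]
    have e1 := target2_R h2 hTst hSy p q hbK
    rw [ht, hTρ] at e1
    rw [e1, mul_smul_comm, smul_mul_assoc, map_smul, hR, smul_smul, smul_smul, mul_comm, sub_self]

end JD
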